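import Pool.Agent.Work.MP_c0cec8_co.Spine.Sur7
import Pool.Agent.Work.MP_c0cec8_co.Four

/-!
# The mean over all colourings
-/

namespace Pool.Agent.Work.MP_c0cec8_co.Spine

open Finset

/-- the part of an edge on the sheet `c`, as a function of the colours of its ends -/
def lay (A X1 X2 : Multiset Arc) (c α β : Bool) : Multiset Arc :=
  if α = c ∧ β = c then A else if α = (!c) ∧ β = (!c) then 0 else if α = c then X1 else X2

/-- the part of an edge in the second graph -/
def lay3 (X3 : Multiset Arc) (α β : Bool) : Multiset Arc := if α = β then 0 else X3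

/-- the number of crossings of two edges, as a function of the colours of their ends -/
def pairCost (A X1 X2 X3 A' X1' X2' X3' : Multiset Arc) (α β γ δ : Bool) : ℕ :=
  mx (lay A X1 X2 true α β) (lay A' X1' X2' true γ δ) +
    mx (lay A X1 X2 false α β) (lay A' X1' X2' false γ δ) + mx (lay3 X3 α β) (lay3 X3' γ δ)

theorem pairCost_sum (A X1 X2 X3 A' X1' X2' X3' : Multiset Arc) :
    ∑ α, ∑ β, ∑ γ, ∑ δ, (pairCost A X1 X2 X3 A' X1' X2' X3' α β γ δ : ℝ) =
      2 * (mx (A + X1 + X2) (A' + X1' + X2') : ℝ) + 4 * (mx X3 X3' : ℝ) := by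
  simp only [Fintype.sum_bool, pairCost, lay, lay3, mx_add_left, mx_add_right]
  simp only [Bool.not_true, Bool.not_false, Bool.true_eq_false, Bool.false_eq_true, and_true,
    and_false, if_true, if_false, mx_zero_left, mx_zero_right, and_self, Nat.cast_add,
    Nat.cast_zero]
  ring

variable {V : Type*} [Finite V] {G : SimpleGraph V}

namespace Sur

variable {D : Drawing G} (S : Sur D)

open Classical in
/-- the first part of a cut edge -/
noncomputable def p1 (g : Sym2 V) : Multiset Arc :=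
  if g ∈ S.F then (chain (D.side g) (S.U g ++ [S.pa g]) : Multiset Arc) else 0

open Classical in
/-- the second part of a cut edge -/
noncomputable def p2 (g : Sym2 V) : Multiset Arc :=
  if g ∈ S.F then (chain (!(S.sd (S.j g))) (S.pb g :: S.W g) : Multiset Arc) else 0

open Classical in
/-- the part of an edge in the second graph -/
noncomputable def p3 (g : Sym2 V) : Multiset Arc :=
  if g ∈ S.F then 0 else D.arcs g

variable {S}

theorem p12_le (g : Sym2 V) : S.p1 g + S.p2 g ≤ D.arcs g := by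
  classical
  unfold p1 p2
  by_cases h : g ∈ S.F
  · rw [if_pos h, if_pos h, arcs_split h]
    exact add_le_add_left (Multiset.le_add_right _ _) _
  · rw [if_neg h, if_neg h]
    exact Multiset.zero_le _

/-- good names for the ends of an edge -/
theorem exists_names {g : Sym2 V} (hg : g ∈ edges G) : ∃ u v : V, g = s(u, v) ∧
    (g ∈ S.F → u = S.src g) := by
  by_cases h : g ∈ S.F
  · exact ⟨S.src g, S.tgt g, S.hst g h, fun _ => rfl⟩
  · obtain ⟨u, v, l, h1, -⟩ := D.endsOK hg
    exact ⟨u, v, h1, fun h' => absurd h' h⟩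

omit [Finite V] in
theorem on_iff {x : V → Bool} {c : Bool} {g : Sym2 V} {u v : V} (h : g = s(u, v)) :
    On x c g ↔ x u = c ∧ x v = c := by
  subst h
  unfold On
  constructor
  · intro h
    exact ⟨h u (Sym2.mem_mk_left _ _), h v (Sym2.mem_mk_right _ _)⟩
  · rintro ⟨h1, h2⟩ w hw
    rcases Sym2.mem_iff.1 hw with rfl | rfl
    · exact h1
    · exact h2

theorem old_eq {x : V → Bool} {c : Bool} {g : Sym2 V} {u v : V} (h : g = s(u, v))
    (hu : g ∈ S.F → u = S.src g) :
    S.old x c g = lay (D.arcs g) (S.p1 g) (S.p2 g) c (x u) (x v) := by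
  classical
  unfold old lay p1 p2
  simp only [on_iff h]
  by_cases h1 : x u = c ∧ x v = c
  · rw [if_pos h1, if_pos h1]
  · rw [if_neg h1, if_neg h1]
    by_cases h2 : x u = (!c) ∧ x v = (!c)
    · rw [if_pos h2, if_neg (fun h => h.2 h2)]
    · rw [if_neg h2]
      by_cases h3 : g ∈ S.F
      · rw [if_pos ⟨h3, h2⟩, if_pos h3, if_pos h3, hu h3]
      · rw [if_neg (fun h => h3 h.1), if_neg h3, if_neg h3, ite_self]

theorem third_eq {x : V → Bool} {g : Sym2 V} {u v : V} (h : g = s(u, v)) :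
    S.third x g = lay3 (S.p3 g) (x u) (x v) := by
  classical
  unfold third lay3 p3
  simp only [on_iff h]
  by_cases h3 : g ∈ S.F
  · rw [if_neg (fun h => h.2.2 h3), if_pos h3, ite_self]
  · rw [if_neg h3]
    cases x u <;> cases x v <;> simp [h3]

/-- the number of crossings of two edges for a colouring -/
noncomputable def KK (S : Sur D) (x : V → Bool) (g g' : Sym2 V) : ℕ :=
  mx (S.old x true g) (S.old x true g') + mx (S.old x false g) (S.old x false g') +
    mx (S.third x g) (S.third x g')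

theorem cost_eq (x : V → Bool) : mx (S.OO x true) (S.OO x true) +
    mx (S.OO x false) (S.OO x false) + mx (S.TT x) (S.TT x) =
      ∑ g ∈ edges G, ∑ g' ∈ edges G, S.KK x g g' := by
  unfold OO TT KK
  simp only [Finset.sum_add_distrib]
  rw [mx_sum_left, mx_sum_left, mx_sum_left]
  simp only [mx_sum_right]

theorem old_le_arcs (x : V → Bool) (c : Bool) (g : Sym2 V) : S.old x c g ≤ D.arcs g := by
  refine le_trans ?_ (old_le (S := S) x g)
  cases c
  · exact Multiset.le_add_left _ _
  · exact Multiset.le_add_right _ _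

theorem third_le_arcs (x : V → Bool) (g : Sym2 V) : S.third x g ≤ D.arcs g := by
  classical
  unfold third
  split_ifs
  · exact le_rfl
  · exact Multiset.zero_le _

theorem KK_zero {g g' : Sym2 V} (h : mx (D.arcs g) (D.arcs g') = 0) (x : V → Bool) :
    S.KK x g g' = 0 := by
  unfold KK
  have h1 := mx_mono (old_le_arcs (S := S) x true g) (old_le_arcs (S := S) x true g')
  have h2 := mx_mono (old_le_arcs (S := S) x false g) (old_le_arcs (S := S) x false g')
  have h3 := mx_mono (third_le_arcs (S := S) x g) (third_le_arcs (S := S) x g')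
  omega

/-- the indicator of the set of led edges -/
noncomputable def ind (S : Sur D) (g : Sym2 V) : ℝ := by
  classical exact if g ∈ S.F then 1 else 0

/-- the mean number of crossings of two edges -/
theorem mean_KK [Fintype V] [DecidableEq V] (hD : D.Min) {g g' : Sym2 V} (hg : g ∈ edges G)
    (hg' : g' ∈ edges G) : mean (fun x => (S.KK x g g' : ℝ)) ≤
      (3 / 8 - 1 / 8 * (S.ind g + S.ind g') + 3 / 8 * (S.ind g * S.ind g')) *
        (mx (D.arcs g) (D.arcs g') : ℝ) := by
  by_cases h0 : mx (D.arcs g) (D.arcs g') = 0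
  · have : (fun x => (S.KK x g g' : ℝ)) = fun _ => 0 := by
      funext x; rw [KK_zero h0, Nat.cast_zero]
    rw [this, mean_const, h0, Nat.cast_zero, mul_zero]
  · obtain ⟨u, v, h1, h2⟩ := exists_names (S := S) hg
    obtain ⟨w, z, h3, h4⟩ := exists_names (S := S) hg'
    have hne : g ≠ g' := by
      rintro rfl; exact h0 (hD.self_zero hg)
    have hadj : ∀ t, t ∈ g → t ∈ g' → False := fun t ht ht' =>
      h0 (hD.adj_zero hg hg' hne ht ht')
    have n1 : u ≠ v := by
      rintro rfl
      have := G.not_isDiag_of_mem_edgeSet (mem_edges.1 hg)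
      rw [h1] at this
      exact this rfl
    have n2 : w ≠ z := by
      rintro rfl
      have := G.not_isDiag_of_mem_edgeSet (mem_edges.1 hg')
      rw [h3] at this
      exact this rfl
    have mu : u ∈ g := by rw [h1]; exact Sym2.mem_mk_left _ _
    have mv : v ∈ g := by rw [h1]; exact Sym2.mem_mk_right _ _
    have mw : w ∈ g' := by rw [h3]; exact Sym2.mem_mk_left _ _
    have mz : z ∈ g' := by rw [h3]; exact Sym2.mem_mk_right _ _
    have n3 : u ≠ w := by rintro rfl; exact hadj _ mu mw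
    have n4 : u ≠ z := by rintro rfl; exact hadj _ mu mz
    have n5 : v ≠ w := by rintro rfl; exact hadj _ mv mw
    have n6 : v ≠ z := by rintro rfl; exact hadj _ mv mz
    have e1 : (fun x : V → Bool => (S.KK x g g' : ℝ)) = fun x =>
        ((pairCost (D.arcs g) (S.p1 g) (S.p2 g) (S.p3 g) (D.arcs g') (S.p1 g') (S.p2 g')
          (S.p3 g') (x u) (x v) (x w) (x z) : ℕ) : ℝ) := by
      funext x
      unfold KK pairCost
      rw [old_eq h1 h2, old_eq h1 h2, old_eq h3 h4, old_eq h3 h4, third_eq h1, third_eq h3]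
    rw [e1, mean_four n1 n3 n4 n5 n6 n2 (fun α β γ δ => ((pairCost (D.arcs g) (S.p1 g) (S.p2 g)
      (S.p3 g) (D.arcs g') (S.p1 g') (S.p2 g') (S.p3 g') α β γ δ : ℕ) : ℝ)), pairCost_sum]
    -- the remaining inequality
    have a1 : mx (D.arcs g + S.p1 g + S.p2 g) (D.arcs g' + S.p1 g' + S.p2 g') ≤
        (if g ∈ S.F then 2 else 1) * ((if g' ∈ S.F then 2 else 1) *
          mx (D.arcs g) (D.arcs g')) := by
      have b1 : ∀ (g : Sym2 V) (B : Multiset Arc), mx (D.arcs g + S.p1 g + S.p2 g) B ≤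
          (if g ∈ S.F then 2 else 1) * mx (D.arcs g) B := by
        intro g B
        split_ifs with h
        · have := mx_mono (p12_le (S := S) g) (le_refl B)
          rw [mx_add_left] at this
          rw [mx_add_left, mx_add_left]
          omega
        · unfold p1 p2
          rw [if_neg h, if_neg h]
          simp
      refine le_trans (b1 g _) (Nat.mul_le_mul_left _ ?_)
      rw [mx_comm, mx_comm (D.arcs g : Multiset Arc)]
      exact b1 g' _
    have a2 : mx (S.p3 g) (S.p3 g') = if g ∈ S.F ∨ g' ∈ S.F then 0 else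
        mx (D.arcs g) (D.arcs g') := by
      unfold p3
      by_cases h5 : g ∈ S.F
      · rw [if_pos h5, if_pos (Or.inl h5), mx_zero_left]
      · by_cases h6 : g' ∈ S.F
        · rw [if_pos h6, if_pos (Or.inr h6), mx_zero_right]
        · rw [if_neg h5, if_neg h6, if_neg (not_or.2 ⟨h5, h6⟩)]
    have a3 : (mx (D.arcs g + S.p1 g + S.p2 g) (D.arcs g' + S.p1 g' + S.p2 g') : ℝ) ≤
        (if g ∈ S.F then 2 else 1) * ((if g' ∈ S.F then 2 else 1) *
          (mx (D.arcs g) (D.arcs g') : ℝ)) := by exact_mod_cast a1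
    rw [a2]
    unfold ind
    by_cases h5 : g ∈ S.F <;> by_cases h6 : g' ∈ S.F <;> simp only [h5, h6, if_true, if_false,
      or_true, true_or, or_self, Nat.cast_zero] at a3 ⊢ <;> linarith

/-- the number of crossings of an edge -/
noncomputable def _root_.Pool.Agent.Work.MP_c0cec8_co.Spine.Drawing.deg (D : Drawing G)
    (g : Sym2 V) : ℕ := ∑ g' ∈ edges G, mx (D.arcs g) (D.arcs g')

theorem sum_ind (S : Sur D) (f : Sym2 V → ℝ) :
    ∑ g ∈ edges G, S.ind g * f g = ∑ g ∈ S.F, f g := by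
  classical
  rw [← Finset.sum_subset S.hF (f := fun g => S.ind g * f g)]
  · refine Finset.sum_congr rfl fun g hg => ?_
    unfold ind
    rw [if_pos hg, one_mul]
  · intro g _ hg
    unfold ind
    rw [if_neg hg, zero_mul]

theorem dbl_eq' (D : Drawing G) : D.dbl = ∑ g ∈ edges G, D.deg g := by
  rw [Drawing.dbl_eq]
  unfold Drawing.deg Drawing.T
  rw [mx_sum_left]
  exact Finset.sum_congr rfl fun g _ => mx_sum_right _ _ _

theorem mean_cost [Fintype V] [DecidableEq V] (hD : D.Min) :
    mean (fun x => ((mx (S.OO x true) (S.OO x true) + mx (S.OO x false) (S.OO x false) +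
      mx (S.TT x) (S.TT x) : ℕ) : ℝ)) ≤
      3 / 8 * (D.dbl : ℝ) - 1 / 4 * ∑ f ∈ S.F, (D.deg f : ℝ) + 3 / 8 * (S.F.card : ℝ) ^ 2 := by
  have e1 : (fun x : V → Bool => ((mx (S.OO x true) (S.OO x true) +
      mx (S.OO x false) (S.OO x false) + mx (S.TT x) (S.TT x) : ℕ) : ℝ)) =
      fun x => ∑ g ∈ edges G, ∑ g' ∈ edges G, (S.KK x g g' : ℝ) := by
    funext x
    rw [cost_eq]
    push_cast
    rfl
  rw [e1, mean_sum]
  have e2 : ∀ g ∈ edges G, mean (fun x : V → Bool => ∑ g' ∈ edges G, (S.KK x g g' : ℝ)) ≤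
      ∑ g' ∈ edges G, (3 / 8 - 1 / 8 * (S.ind g + S.ind g') + 3 / 8 * (S.ind g * S.ind g')) *
        (mx (D.arcs g) (D.arcs g') : ℝ) := by
    intro g hg
    rw [mean_sum]
    exact Finset.sum_le_sum fun g' hg' => mean_KK hD hg hg'
  refine le_trans (Finset.sum_le_sum e2) ?_
  have e3 : ∑ g ∈ edges G, ∑ g' ∈ edges G,
      (3 / 8 - 1 / 8 * (S.ind g + S.ind g') + 3 / 8 * (S.ind g * S.ind g')) *
        (mx (D.arcs g) (D.arcs g') : ℝ) =
      3 / 8 * ∑ g ∈ edges G, ∑ g' ∈ edges G, (mx (D.arcs g) (D.arcs g') : ℝ)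
      - 1 / 8 * ∑ g ∈ edges G, S.ind g * ∑ g' ∈ edges G, (mx (D.arcs g) (D.arcs g') : ℝ)
      - 1 / 8 * ∑ g ∈ edges G, ∑ g' ∈ edges G, S.ind g' * (mx (D.arcs g) (D.arcs g') : ℝ)
      + 3 / 8 * ∑ g ∈ edges G, S.ind g *
        ∑ g' ∈ edges G, S.ind g' * (mx (D.arcs g) (D.arcs g') : ℝ) := by
    simp only [Finset.mul_sum, ← Finset.sum_sub_distrib, ← Finset.sum_add_distrib]
    refine Finset.sum_congr rfl fun g _ => Finset.sum_congr rfl fun g' _ => ?_
    ring
  rw [e3, sum_ind, Finset.sum_comm (s := edges G) (t := edges G)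
    (f := fun g g' => S.ind g' * (mx (D.arcs g) (D.arcs g') : ℝ))]
  have e4 : ∀ g', ∑ g ∈ edges G, S.ind g' * (mx (D.arcs g) (D.arcs g') : ℝ) =
      S.ind g' * (D.deg g' : ℝ) := by
    intro g'
    rw [← Finset.mul_sum]
    congr 1
    unfold Drawing.deg
    push_cast
    exact Finset.sum_congr rfl fun g _ => by rw [mx_comm]
  have e5 : ∀ g, ∑ g' ∈ edges G, (mx (D.arcs g) (D.arcs g') : ℝ) = (D.deg g : ℝ) := by
    intro g
    unfold Drawing.deg
    push_cast
    rfl
  simp only [e4, e5]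
  rw [sum_ind, sum_ind]
  have e6 : ∀ g, ∑ g' ∈ edges G, S.ind g' * (mx (D.arcs g) (D.arcs g') : ℝ) =
      ∑ g' ∈ S.F, (mx (D.arcs g) (D.arcs g') : ℝ) := fun g => sum_ind S _
  simp only [e6]
  have e7 : ∑ g ∈ S.F, ∑ g' ∈ S.F, (mx (D.arcs g) (D.arcs g') : ℝ) ≤ (S.F.card : ℝ) ^ 2 := by
    have h1 : ∀ g ∈ S.F, ∀ g' ∈ S.F, (mx (D.arcs g) (D.arcs g') : ℝ) ≤ 1 := by
      intro g hg g' hg'
      have : mx (D.arcs g) (D.arcs g') ≤ 1 := by
        by_cases h : g = g'
        · subst h; rw [hD.self_zero (S.hF g hg)]; exact Nat.zero_le _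
        · exact hD.le_one (S.hF g hg) (S.hF g' hg') h
      exact_mod_cast this
    have h2 : ∑ g ∈ S.F, ∑ g' ∈ S.F, (mx (D.arcs g) (D.arcs g') : ℝ) ≤
        ∑ _g ∈ S.F, ∑ _g' ∈ S.F, (1 : ℝ) :=
      Finset.sum_le_sum fun g hg => Finset.sum_le_sum fun g' hg' => h1 g hg g' hg'
    refine le_trans h2 (le_of_eq ?_)
    simp [pow_two]
  have e8 : (D.dbl : ℝ) = ∑ g ∈ edges G, (D.deg g : ℝ) := by
    rw [dbl_eq']; push_cast; rfl
  rw [e8]
  linarith

end Sur

end Pool.Agent.Work.MP_c0cec8_co.Spine
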