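import Pool.Agent.Work.MP_c0cec8_co.Spine.Defs

/-!
# Chains of semicircles: basic facts
-/

namespace Pool.Agent.Work.MP_c0cec8_co.Spine

theorem crs_comm (p q : Arc) : crs p q = crs q p := by
  unfold crs
  by_cases h : p.1 = q.1
  · simp only [h, true_and, or_comm]
  · simp [h, Ne.symm h]

theorem crs_le_one (p q : Arc) : crs p q ≤ 1 := by
  unfold crs; split_ifs <;> simp

theorem crs_self (p : Arc) : crs p p = 0 := by
  unfold crs
  rw [if_neg]
  rintro ⟨-, h | h⟩ <;> omega

theorem crs_side {p q : Arc} (h : p.1 ≠ q.1) : crs p q = 0 := by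
  unfold crs; rw [if_neg]; exact fun h' => h h'.1

/-- the semicircle over `x, y` -/
def seg (s : Bool) (x y : ℤ) : Arc := (s, min x y, max x y)

theorem seg_comm (s : Bool) (x y : ℤ) : seg s x y = seg s y x := by
  unfold seg; rw [min_comm, max_comm]

/-- the number of crossings of two multisets of semicircles -/
def mx (A B : Multiset Arc) : ℕ := (A.map fun p => (B.map fun q => crs p q).sum).sum

theorem cx_eq (A B : List Arc) : cx A B = mx ↑A ↑B := by
  simp [cx, mx]

@[simp] theorem mx_zero_left (B : Multiset Arc) : mx 0 B = 0 := by simp [mx]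
@[simp] theorem mx_zero_right (B : Multiset Arc) : mx B 0 = 0 := by simp [mx]

theorem mx_add_left (A A' B : Multiset Arc) : mx (A + A') B = mx A B + mx A' B := by
  simp [mx]

theorem mx_add_right (A B B' : Multiset Arc) : mx A (B + B') = mx A B + mx A B' := by
  simp [mx]

theorem mx_comm (A B : Multiset Arc) : mx A B = mx B A := by
  induction A using Multiset.induction_on with
  | empty => simp
  | cons p A ih =>
    have h1 : mx (p ::ₘ A) B = (B.map fun q => crs p q).sum + mx A B := by simp [mx]
    have h2 : mx B (p ::ₘ A) = (B.map fun q => crs q p).sum + mx B A := by simp [mx]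
    rw [h1, h2, ih]
    congr 1
    congr 1
    exact Multiset.map_congr rfl fun q _ => crs_comm p q

theorem mx_cons_left (p : Arc) (A B : Multiset Arc) : mx (p ::ₘ A) B = mx {p} B + mx A B := by
  rw [← Multiset.singleton_add, mx_add_left]

theorem mx_singleton (p q : Arc) : mx {p} {q} = crs p q := by simp [mx]

theorem mx_sum_left {ι : Type*} (s : Finset ι) (f : ι → Multiset Arc) (B : Multiset Arc) :
    mx (∑ i ∈ s, f i) B = ∑ i ∈ s, mx (f i) B := by
  classical
  induction s using Finset.induction_on with
  | empty => simp
  | insert i s hi ih => rw [Finset.sum_insert hi, Finset.sum_insert hi, mx_add_left, ih]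

theorem mx_sum_right {ι : Type*} (s : Finset ι) (A : Multiset Arc) (f : ι → Multiset Arc) :
    mx A (∑ i ∈ s, f i) = ∑ i ∈ s, mx A (f i) := by
  rw [mx_comm, mx_sum_left]; exact Finset.sum_congr rfl fun i _ => mx_comm _ _

theorem mx_mono {A A' B B' : Multiset Arc} (hA : A ≤ A') (hB : B ≤ B') : mx A B ≤ mx A' B' := by
  obtain ⟨C, rfl⟩ := Multiset.le_iff_exists_add.1 hA
  obtain ⟨C', rfl⟩ := Multiset.le_iff_exists_add.1 hB
  rw [mx_add_left, mx_add_right, mx_add_right]
  omega

theorem mx_eq_zero_iff {A B : Multiset Arc} : mx A B = 0 ↔ ∀ p ∈ A, ∀ q ∈ B, crs p q = 0 := by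
  simp only [mx, Multiset.sum_eq_zero_iff, Multiset.mem_map, forall_exists_index, and_imp,
    forall_apply_eq_imp_iff₂]

theorem mx_map_of {φ : Arc → Arc} {A B : Multiset Arc}
    (h : ∀ p ∈ A, ∀ q ∈ B, crs (φ p) (φ q) = crs p q) : mx (A.map φ) (B.map φ) = mx A B := by
  unfold mx
  rw [Multiset.map_map]
  congr 1
  refine Multiset.map_congr rfl fun p hp => ?_
  simp only [Function.comp_apply, Multiset.map_map]
  congr 1
  exact Multiset.map_congr rfl fun q hq => h p hp q hq

/-- the half-plane after `n` changes -/
def par (s : Bool) (n : ℕ) : Bool := xor s n.bodd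

@[simp] theorem par_zero (s : Bool) : par s 0 = s := by simp [par]
theorem par_succ (s : Bool) (n : ℕ) : par s (n + 1) = !(par s n) := by
  simp [par, Nat.bodd_succ]
theorem par_succ' (s : Bool) (n : ℕ) : par s (n + 1) = par (!s) n := by
  simp [par, Nat.bodd_succ]
theorem par_add (s : Bool) (m n : ℕ) : par s (m + n) = par (par s m) n := by
  simp [par, Nat.bodd_add]

@[simp] theorem chain_nil (s : Bool) : chain s [] = [] := rfl
@[simp] theorem chain_single (s : Bool) (x : ℤ) : chain s [x] = [] := rfl
theorem chain_cons_cons (s : Bool) (x y : ℤ) (l : List ℤ) :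
    chain s (x :: y :: l) = seg s x y :: chain (!s) (y :: l) := rfl

theorem chain_append (s : Bool) (X Y : List ℤ) (hX : X ≠ []) (hY : Y ≠ []) :
    chain s (X ++ Y) = chain s X ++
      seg (par s (X.length - 1)) (X.getLast hX) (Y.head hY) :: chain (par s X.length) Y := by
  induction X generalizing s with
  | nil => exact absurd rfl hX
  | cons x X ih =>
    rcases X with _ | ⟨y, X⟩
    · obtain ⟨z, Y, rfl⟩ := List.exists_cons_of_ne_nil hY
      simp [chain_cons_cons, par_succ]
    · have h := ih (!s) (by simp)
      rw [List.cons_append, List.cons_append, chain_cons_cons, ← List.cons_append, h]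
      rw [chain_cons_cons]
      simp only [List.cons_append, List.length_cons, Nat.add_sub_cancel, List.getLast_cons_cons]
      rw [par_succ' s X.length, par_succ' s (X.length + 1)]

theorem length_chain (s : Bool) (X : List ℤ) : (chain s X).length = X.length - 1 := by
  induction X generalizing s with
  | nil => rfl
  | cons x X ih =>
    rcases X with _ | ⟨y, X⟩
    · rfl
    · rw [chain_cons_cons, List.length_cons, ih]; simp

theorem chain_split (s : Bool) (A B : List ℤ) (a b : ℤ) :
    chain s (A ++ a :: b :: B) = chain s (A ++ [a]) ++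
      seg (par s A.length) a b :: chain (par s (A.length + 1)) (b :: B) := by
  have h := chain_append s (A ++ [a]) (b :: B) (by simp) (by simp)
  simpa using h

theorem chain_concat (s : Bool) (A : List ℤ) (a b : ℤ) :
    chain s (A ++ [a, b]) = chain s (A ++ [a]) ++ [seg (par s A.length) a b] := by
  simpa using chain_split s A [] a b

theorem chain_reverse (s : Bool) (X : List ℤ) :
    chain (par s X.length) X.reverse = (chain s X).reverse := by
  induction X generalizing s with
  | nil => rfl
  | cons x X ih =>
    rcases X with _ | ⟨y, X⟩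
    · rfl
    · have h1 : (x :: y :: X).reverse = X.reverse ++ [y, x] := by simp
      have h2 : X.reverse ++ [y] = (y :: X).reverse := by simp
      rw [h1, chain_concat, h2, chain_cons_cons, List.length_cons, par_succ', ih (!s),
        ← par_add, List.length_reverse, List.length_cons]
      have h3 : par (!s) (X.length + 1 + X.length) = s := by
        unfold par
        rw [show X.length + 1 + X.length = 2 * X.length + 1 by ring]
        simp
      rw [h3, seg_comm, List.reverse_cons]

end Pool.Agent.Work.MP_c0cec8_co.Spine
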