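import Pool.Agent.Work.MP_c0cec8_co.Spine.Exch

/-!
# Drawings with the least number of crossings
-/

namespace Pool.Agent.Work.MP_c0cec8_co.Spine

open Finset

variable {V : Type*} [Finite V] {G : SimpleGraph V}

/-- least number of crossings -/
def Drawing.Min (D : Drawing G) : Prop := ∀ D' : Drawing G, D.dbl ≤ D'.dbl

theorem par_len (t : Bool) {n : ℕ} (hn : 0 < n) (h : par (!t) (n - 1) = t) : par (!t) n = !t := by
  obtain ⟨m, rfl⟩ : ∃ m, n = m + 1 := ⟨n - 1, by omega⟩
  rw [Nat.add_sub_cancel] at h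
  rw [par_succ, h]

theorem par_pred (s : Bool) {n : ℕ} (hn : 0 < n) : par s n = !(par s (n - 1)) := by
  obtain ⟨m, rfl⟩ : ∃ m, n = m + 1 := ⟨n - 1, by omega⟩
  rw [Nat.add_sub_cancel, par_succ]

theorem length_pos_of_ne {X : List ℤ} (h : X ≠ []) : 0 < X.length := List.length_pos_of_ne_nil h

theorem chain_append' (s : Bool) (X Y : List ℤ) (hX : X ≠ []) (hY : Y ≠ []) {t : Bool}
    (ht : par s (X.length - 1) = t) : chain s (X ++ Y) = chain s X ++
      seg t (X.getLast hX) (Y.head hY) :: chain (!t) Y := by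
  rw [chain_append s X Y hX hY, par_pred s (length_pos_of_ne hX), ht]

theorem chain_three (s : Bool) (X Y Z : List ℤ) (hX : X ≠ []) (hY : Y ≠ []) (hZ : Z ≠ [])
    {t t' : Bool} (ht : par s (X.length - 1) = t) (ht' : par (!t) (Y.length - 1) = t') :
    (chain s (X ++ (Y ++ Z)) : Multiset Arc) = (chain s X : Multiset Arc)
      + {seg t (X.getLast hX) (Y.head hY)} + (chain (!t) Y : Multiset Arc) +
      {seg t' (Y.getLast hY) (Z.head hZ)} + (chain (!t') Z : Multiset Arc) := by
  have hYZ : Y ++ Z ≠ [] := by simp [hY]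
  have hh : (Y ++ Z).head hYZ = Y.head hY := List.head_append_of_ne_nil hY
  rw [chain_append' s X (Y ++ Z) hX hYZ ht, chain_append' (!t) Y Z hY hZ ht', hh]
  simp only [← Multiset.coe_add, ← Multiset.cons_coe, ← Multiset.singleton_add]
  simp only [add_assoc]

theorem chain_reverse_coe {s t : Bool} {X : List ℤ} (h : par s X.length = t) :
    (chain t X.reverse : Multiset Arc) = (chain s X : Multiset Arc) := by
  rw [← h, chain_reverse]; exact Multiset.coe_reverse _

theorem mx_even (T : Multiset Arc) : ∃ k, mx T T = 2 * k := by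
  induction T using Multiset.induction_on with
  | empty => exact ⟨0, by simp⟩
  | cons p T ih =>
    obtain ⟨k, hk⟩ := ih
    refine ⟨mx {p} T + k, ?_⟩
    rw [← Multiset.singleton_add, mx_add_left, mx_add_right, mx_add_right, mx_singleton, crs_self,
      mx_comm T {p}, hk]
    ring

/-- reversing the direction of an edge -/
theorem Drawing.exists_reverse (D : Drawing G) {e : Sym2 V} (he : e ∈ edges G) :
    ∃ D' : Drawing G, D'.pos = D.pos ∧ D'.T = D.T ∧ D'.pts e = (D.pts e).reverse ∧
      D'.side e = par (D.side e) (D.pts e).length ∧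
      (∀ g, g ≠ e → D'.pts g = D.pts g) ∧ ∀ g, g ≠ e → D'.side g = D.side g := by
  classical
  obtain ⟨D', h1, h2, h3, h4⟩ := D.exists_replace_one he (par (D.side e) (D.pts e).length)
    (D.pts e).reverse (D.endsOK he).reverse (Multiset.coe_reverse _)
  refine ⟨D', h1, ?_, by rw [h3, Function.update_self], by rw [h2, Function.update_self],
    fun g hg => by rw [h3, Function.update_of_ne hg], fun g hg => by
      rw [h2, Function.update_of_ne hg]⟩
  rw [chain_reverse_coe rfl] at h4
  exact add_right_cancel h4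

/-- a minimal drawing has no self-crossing edge (block form) -/
theorem Drawing.Min.no_self {D : Drawing G} (hD : D.Min) {e : Sym2 V} (he : e ∈ edges G)
    {X Y Z : List ℤ} (hX : X ≠ []) (hY : Y ≠ []) (hZ : Z ≠ []) (hL : D.pts e = X ++ (Y ++ Z))
    {t : Bool} (ht : par (D.side e) (X.length - 1) = t) (ht' : par (!t) (Y.length - 1) = t) :
    ¬ Alt (X.getLast hX) (Y.head hY) (Y.getLast hY) (Z.head hZ) := by
  intro hA
  have hYr : Y.reverse ≠ [] := by simpa using hY
  have hlen := length_pos_of_ne hX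
  have hlenZ := length_pos_of_ne hZ
  obtain ⟨D', -, -, -, h4⟩ := D.exists_replace_one he (D.side e) (X ++ (Y.reverse ++ Z))
    (endsOK_of (D.endsOK he)
      (by rw [hL]; rcases X with _ | ⟨x, X⟩; exact absurd rfl hX; rfl)
      (by
        rw [hL, List.getLast?_append_of_ne_nil _ (by simp [hZ]),
          List.getLast?_append_of_ne_nil _ hZ, List.getLast?_append_of_ne_nil _ (by simp [hZ]),
          List.getLast?_append_of_ne_nil _ hZ])
      (by simp; omega))
    (by
      rw [hL]
      simp only [← Multiset.coe_add, Multiset.coe_reverse])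
  have h5 := chain_three (D.side e) X Y.reverse Z hX hYr hZ (t' := t) ht
    (by rw [List.length_reverse]; exact ht')
  have h6 := chain_three (D.side e) X Y Z hX hY hZ ht ht'
  rw [chain_reverse_coe (par_len t (length_pos_of_ne hY) ht')] at h5
  have h7 : (D.arcs e : Multiset Arc) = (chain (D.side e) X : Multiset Arc) +
      {seg t (X.getLast hX) (Y.head hY)} + (chain (!t) Y : Multiset Arc) +
      {seg t (Y.getLast hY) (Z.head hZ)} + (chain (!t) Z : Multiset Arc) := by
    unfold Drawing.arcs; rw [hL]; exact h6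
  rw [h5, h7] at h4
  have hh : Y.reverse.head hYr = Y.getLast hY := by simp
  have hl : Y.reverse.getLast hYr = Y.head hY := by simp
  rw [hh, hl] at h4
  set a := X.getLast hX
  set b := Y.head hY
  set c := Y.getLast hY
  set d := Z.head hZ
  set R : Multiset Arc := (chain (D.side e) X : Multiset Arc) + (chain (!t) Y : Multiset Arc) +
    (chain (!t) Z : Multiset Arc) with hR
  obtain ⟨T0, hT0⟩ : ∃ T0, D.T = T0 + (D.arcs e : Multiset Arc) := by
    classical
    exact ⟨∑ i ∈ (edges G).erase e, (D.arcs i : Multiset Arc), by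
      unfold Drawing.T; rw [sum_update_one he]; abel⟩
  have h8 : D.T = T0 + R + {seg t a b, seg t d c} := by
    rw [hT0, h7, seg_comm t d c, hR]
    have e2 : ∀ x y : Arc, ({x, y} : Multiset Arc) = {x} + {y} := fun x y => rfl
    rw [e2]; abel
  have h9 : D'.T = T0 + R + {seg t a c, seg t d b} := by
    have e2 : ∀ x y : Arc, ({x, y} : Multiset Arc) = {x} + {y} := fun x y => rfl
    have h10 : D'.T + (R + {seg t a b, seg t c d}) = T0 + R + {seg t a c, seg t d b} +
        (R + {seg t a b, seg t c d}) := by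
      rw [h8] at h4
      rw [e2, e2, seg_comm t d b]
      rw [e2, seg_comm t d c] at h4
      rw [hR] at h4 ⊢
      calc _ = D'.T + ((chain (D.side e) X : Multiset Arc) + {seg t a b} +
            (chain (!t) Y : Multiset Arc) + {seg t c d} + (chain (!t) Z : Multiset Arc)) := by abel
        _ = _ := h4
        _ = _ := by abel
    exact add_right_cancel h10
  have h10 := mx_swap (t := t) (a := a) (b := b) (c := d) (d := c) (alt_swap_right.1 hA) (T0 + R)
  have h11 := hD D'
  rw [Drawing.dbl_eq, Drawing.dbl_eq, h8, h9] at h11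
  omega

theorem chain_two (s : Bool) (X Z : List ℤ) (hX : X ≠ []) (hZ : Z ≠ []) {t : Bool}
    (ht : par s (X.length - 1) = t) :
    (chain s (X ++ Z) : Multiset Arc) = (chain s X : Multiset Arc)
      + {seg t (X.getLast hX) (Z.head hZ)} + (chain (!t) Z : Multiset Arc) := by
  rw [chain_append' s X Z hX hZ ht]
  simp only [← Multiset.coe_add, ← Multiset.cons_coe, ← Multiset.singleton_add]
  simp only [add_assoc]

/-- replacing two edges of a minimal drawing cannot lower the number of crossings -/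
theorem Drawing.Min.no_two {D : Drawing G} (hD : D.Min) {e f : Sym2 V} (he : e ∈ edges G)
    (hf : f ∈ edges G) (hef : e ≠ f) {L L' : List ℤ} (hL : EndsOK D.pos e L)
    (hL' : EndsOK D.pos f L') {t t' : Bool}
    (h : (L : Multiset ℤ) + (L' : Multiset ℤ) = (D.pts e : Multiset ℤ) + (D.pts f : Multiset ℤ))
    {R P P' : Multiset Arc}
    (hold : (D.arcs e : Multiset Arc) + (D.arcs f : Multiset Arc) = R + P)
    (hnew : (chain t L : Multiset Arc) + (chain t' L' : Multiset Arc) = R + P')
    (hlt : ∀ T : Multiset Arc, mx (T + P') (T + P') < mx (T + P) (T + P)) : False := by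
  classical
  obtain ⟨D', -, h4⟩ := D.exists_replace_two he hf hef L L' hL hL' t t' h
  obtain ⟨T0, hT0⟩ : ∃ T0, D.T = T0 + ((D.arcs e : Multiset Arc) + (D.arcs f : Multiset Arc)) := by
    refine ⟨∑ i ∈ ((edges G).erase e).erase f, (D.arcs i : Multiset Arc), ?_⟩
    unfold Drawing.T
    rw [sum_update_one he, sum_update_one (Finset.mem_erase.2 ⟨hef.symm, hf⟩)]
    abel
  rw [hold, hnew] at h4
  rw [hold] at hT0
  have h5 : D.T = T0 + R + P := by rw [hT0]; abel
  have h6 : D'.T = T0 + R + P' := by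
    have h7 : D'.T + (R + P) = (T0 + R + P') + (R + P) := by rw [h4, h5]; abel
    exact add_right_cancel h7
  have h7 := hD D'
  rw [Drawing.dbl_eq, Drawing.dbl_eq, h5, h6] at h7
  exact absurd (hlt (T0 + R)) (not_lt.2 h7)

theorem pair_eq (x y : Arc) : ({x, y} : Multiset Arc) = {x} + {y} := rfl

theorem mx_swap' {t : Bool} {a b c d : ℤ} (h : Alt a b c d) (T U U' : Multiset Arc)
    (hU : U = T + ({seg t a d} + {seg t c b})) (hU' : U' = T + ({seg t a b} + {seg t c d})) :
    mx U U < mx U' U' := by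
  have := mx_swap (t := t) h T
  rw [pair_eq, pair_eq, ← hU, ← hU'] at this
  omega

/-- adjacent edges do not cross in a minimal drawing (block form) -/
theorem Drawing.Min.no_adj {D : Drawing G} (hD : D.Min) {e f : Sym2 V} (he : e ∈ edges G)
    (hf : f ∈ edges G) (hef : e ≠ f) {X Z X' Z' : List ℤ} (hX : X ≠ []) (hZ : Z ≠ [])
    (hX' : X' ≠ []) (hZ' : Z' ≠ []) (hL : D.pts e = X ++ Z) (hL' : D.pts f = X' ++ Z')
    (hh : X.head? = X'.head?) {t : Bool} (ht : par (D.side e) (X.length - 1) = t)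
    (ht' : par (D.side f) (X'.length - 1) = t) :
    ¬ Alt (X.getLast hX) (Z.head hZ) (X'.getLast hX') (Z'.head hZ') := by
  intro hA
  have l1 := length_pos_of_ne hX
  have l2 := length_pos_of_ne hX'
  have l3 := length_pos_of_ne hZ
  have l4 := length_pos_of_ne hZ'
  have hd1 : ∀ A B : List ℤ, A ≠ [] → (A ++ B).head? = A.head? := fun A B hA => by
    rcases A with _ | ⟨x, A⟩
    · exact absurd rfl hA
    · rfl
  refine hD.no_two he hf hef (L := X' ++ Z) (L' := X ++ Z') (t := D.side f) (t' := D.side e)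
    (endsOK_of (D.endsOK he) (by rw [hL, hd1 _ _ hX', hd1 _ _ hX, hh])
      (by rw [hL, List.getLast?_append_of_ne_nil _ hZ, List.getLast?_append_of_ne_nil _ hZ])
      (by simp; omega))
    (endsOK_of (D.endsOK hf) (by rw [hL', hd1 _ _ hX', hd1 _ _ hX, hh])
      (by rw [hL', List.getLast?_append_of_ne_nil _ hZ', List.getLast?_append_of_ne_nil _ hZ'])
      (by simp; omega))
    (by rw [hL, hL']; simp only [← Multiset.coe_add]; abel)
    (R := (chain (D.side e) X : Multiset Arc) + (chain (D.side f) X' : Multiset Arc) +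
      (chain (!t) Z : Multiset Arc) + (chain (!t) Z' : Multiset Arc))
    (P := {seg t (X.getLast hX) (Z.head hZ)} + {seg t (X'.getLast hX') (Z'.head hZ')})
    (P' := {seg t (X.getLast hX) (Z'.head hZ')} + {seg t (X'.getLast hX') (Z.head hZ)}) ?_ ?_ ?_
  · unfold Drawing.arcs
    rw [hL, hL', chain_two _ X Z hX hZ ht, chain_two _ X' Z' hX' hZ' ht']
    abel
  · rw [chain_two _ X Z' hX hZ' ht, chain_two _ X' Z hX' hZ ht']
    abel
  · intro T
    exact mx_swap' (t := t) hA T _ _ rfl rfl

/-- two edges crossing twice, in the same order (block form) -/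
theorem Drawing.Min.no_align {D : Drawing G} (hD : D.Min) {e f : Sym2 V} (he : e ∈ edges G)
    (hf : f ∈ edges G) (hef : e ≠ f) {X Y Z X' Y' Z' : List ℤ} (hX : X ≠ []) (hY : Y ≠ [])
    (hZ : Z ≠ []) (hX' : X' ≠ []) (hY' : Y' ≠ []) (hZ' : Z' ≠ []) (hL : D.pts e = X ++ (Y ++ Z))
    (hL' : D.pts f = X' ++ (Y' ++ Z')) {t t2 : Bool} (ht : par (D.side e) (X.length - 1) = t)
    (ht' : par (D.side f) (X'.length - 1) = t) (h2 : par (!t) (Y.length - 1) = t2)
    (h2' : par (!t) (Y'.length - 1) = t2)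
    (hA : Alt (X.getLast hX) (Y.head hY) (X'.getLast hX') (Y'.head hY'))
    (hB : Alt (Y.getLast hY) (Z.head hZ) (Y'.getLast hY') (Z'.head hZ')) : False := by
  have l1 := length_pos_of_ne hX
  have l2 := length_pos_of_ne hX'
  have l3 := length_pos_of_ne hZ
  have l4 := length_pos_of_ne hZ'
  have hd1 : ∀ A B : List ℤ, A ≠ [] → (A ++ B).head? = A.head? := fun A B hA => by
    rcases A with _ | ⟨x, A⟩
    · exact absurd rfl hA
    · rfl
  have hl1 : ∀ A B C : List ℤ, C ≠ [] → (A ++ (B ++ C)).getLast? = C.getLast? :=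
    fun A B C hC => by
      rw [List.getLast?_append_of_ne_nil _ (by simp [hC]), List.getLast?_append_of_ne_nil _ hC]
  refine hD.no_two he hf hef (L := X ++ (Y' ++ Z)) (L' := X' ++ (Y ++ Z')) (t := D.side e)
    (t' := D.side f)
    (endsOK_of (D.endsOK he) (by rw [hL, hd1 _ _ hX, hd1 _ _ hX])
      (by rw [hL, hl1 _ _ _ hZ, hl1 _ _ _ hZ]) (by simp; omega))
    (endsOK_of (D.endsOK hf) (by rw [hL', hd1 _ _ hX', hd1 _ _ hX'])
      (by rw [hL', hl1 _ _ _ hZ', hl1 _ _ _ hZ']) (by simp; omega))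
    (by rw [hL, hL']; simp only [← Multiset.coe_add]; abel)
    (R := (chain (D.side e) X : Multiset Arc) + (chain (D.side f) X' : Multiset Arc) +
      (chain (!t) Y : Multiset Arc) + (chain (!t) Y' : Multiset Arc) +
      (chain (!t2) Z : Multiset Arc) + (chain (!t2) Z' : Multiset Arc))
    (P := ({seg t (X.getLast hX) (Y.head hY)} + {seg t (X'.getLast hX') (Y'.head hY')}) +
      ({seg t2 (Y.getLast hY) (Z.head hZ)} + {seg t2 (Y'.getLast hY') (Z'.head hZ')}))
    (P' := ({seg t (X.getLast hX) (Y'.head hY')} + {seg t (X'.getLast hX') (Y.head hY)}) +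
      ({seg t2 (Y.getLast hY) (Z'.head hZ')} + {seg t2 (Y'.getLast hY') (Z.head hZ)})) ?_ ?_ ?_
  · unfold Drawing.arcs
    rw [hL, hL', chain_three _ X Y Z hX hY hZ ht h2, chain_three _ X' Y' Z' hX' hY' hZ' ht' h2']
    abel
  · rw [chain_three _ X Y' Z hX hY' hZ ht h2', chain_three _ X' Y Z' hX' hY hZ' ht' h2]
    abel
  · intro T
    refine lt_trans (mx_swap' (t := t2) hB (T + ({seg t (X.getLast hX) (Y'.head hY')} +
      {seg t (X'.getLast hX') (Y.head hY)})) _ _ (by abel) rfl) ?_
    exact mx_swap' (t := t) hA (T + ({seg t2 (Y.getLast hY) (Z.head hZ)} +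
      {seg t2 (Y'.getLast hY') (Z'.head hZ')})) _ _ (by abel) (by abel)

theorem alt_cases_aux {a b c x y : ℤ} (h : Sp x y a b) (h1 : c ≠ x) (h2 : c ≠ y) :
    (Sp x y c b ∨ Sp x y b c) ∨ (Sp x y c a ∨ Sp x y a c) := by
  unfold Sp at *; omega

theorem alt_cases {a b c c' d' : ℤ} (hB : Alt a b c' d') (h1 : c ≠ c') (h2 : c ≠ d') :
    Alt c b c' d' ∨ Alt c a c' d' := by
  rw [alt_comm] at hB
  rw [alt_comm (a := c) (b := b), alt_comm (a := c) (b := a)]
  unfold Alt at hB ⊢
  rcases hB with (h | h) | (h | h)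
  · rcases alt_cases_aux h h1 h2 with (h3 | h3) | (h3 | h3) <;> tauto
  · rcases alt_cases_aux h h1 h2 with (h3 | h3) | (h3 | h3) <;> tauto
  · rcases alt_cases_aux h h2 h1 with (h3 | h3) | (h3 | h3) <;> tauto
  · rcases alt_cases_aux h h2 h1 with (h3 | h3) | (h3 | h3) <;> tauto

/-- one arc of an edge crossing two arcs of another edge (block form) -/
theorem Drawing.Min.no_one {D : Drawing G} (hD : D.Min) {e f : Sym2 V} (he : e ∈ edges G)
    (hf : f ∈ edges G) (hef : e ≠ f) {X Z X' Y' Z' : List ℤ} (hX : X ≠ []) (hZ : Z ≠ [])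
    (hX' : X' ≠ []) (hY' : Y' ≠ []) (hZ' : Z' ≠ []) (hL : D.pts e = X ++ Z)
    (hL' : D.pts f = X' ++ (Y' ++ Z')) {t : Bool} (ht : par (D.side e) (X.length - 1) = t)
    (ht' : par (D.side f) (X'.length - 1) = t) (h2' : par (!t) (Y'.length - 1) = t)
    (hA : Alt (X.getLast hX) (Z.head hZ) (X'.getLast hX') (Y'.head hY'))
    (hB : Alt (X.getLast hX) (Z.head hZ) (Y'.getLast hY') (Z'.head hZ'))
    (hne : X'.getLast hX' ≠ Y'.getLast hY' ∧ X'.getLast hX' ≠ Z'.head hZ') : False := by
  have l1 := length_pos_of_ne hX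
  have l2 := length_pos_of_ne hX'
  have l3 := length_pos_of_ne hZ
  have l4 := length_pos_of_ne hZ'
  have hd1 : ∀ A B : List ℤ, A ≠ [] → (A ++ B).head? = A.head? := fun A B hA => by
    rcases A with _ | ⟨x, A⟩
    · exact absurd rfl hA
    · rfl
  have hl0 : ∀ A C : List ℤ, C ≠ [] → (A ++ C).getLast? = C.getLast? :=
    fun A C hC => List.getLast?_append_of_ne_nil _ hC
  have hl1 : ∀ A B C : List ℤ, C ≠ [] → (A ++ (B ++ C)).getLast? = C.getLast? :=
    fun A B C hC => by
      rw [List.getLast?_append_of_ne_nil _ (by simp [hC]), List.getLast?_append_of_ne_nil _ hC]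
  have hYr : Y'.reverse ≠ [] := by simpa using hY'
  have hh : Y'.reverse.head hYr = Y'.getLast hY' := by simp
  have hl : Y'.reverse.getLast hYr = Y'.head hY' := by simp
  have hrev : (chain (!t) Y'.reverse : Multiset Arc) = (chain (!t) Y' : Multiset Arc) :=
    chain_reverse_coe (par_len t (length_pos_of_ne hY') h2')
  set a := X.getLast hX with ha
  set b := Z.head hZ with hb
  set c := X'.getLast hX' with hc
  set d := Y'.head hY' with hd
  set c' := Y'.getLast hY' with hc'
  set d' := Z'.head hZ' with hd'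
  have hcases : Alt c b c' d' ∨ Alt c a c' d' := by
    obtain ⟨hn1, hn2⟩ := hne
    exact alt_cases hB hn1 hn2
  rcases hcases with hE | hE
  · refine hD.no_two he hf hef (L := X ++ (Y' ++ Z)) (L' := X' ++ Z') (t := D.side e)
      (t' := D.side f)
      (endsOK_of (D.endsOK he) (by rw [hL, hd1 _ _ hX, hd1 _ _ hX])
        (by rw [hL, hl1 _ _ _ hZ, hl0 _ _ hZ]) (by simp; omega))
      (endsOK_of (D.endsOK hf) (by rw [hL', hd1 _ _ hX', hd1 _ _ hX'])
        (by rw [hL', hl1 _ _ _ hZ', hl0 _ _ hZ']) (by simp; omega))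
      (by rw [hL, hL']; simp only [← Multiset.coe_add]; abel)
      (R := (chain (D.side e) X : Multiset Arc) + (chain (D.side f) X' : Multiset Arc) +
        (chain (!t) Y' : Multiset Arc) + (chain (!t) Z : Multiset Arc) +
        (chain (!t) Z' : Multiset Arc))
      (P := {seg t a b} + {seg t c d} + {seg t c' d'})
      (P' := {seg t a d} + {seg t c' b} + {seg t c d'}) ?_ ?_ ?_
    · unfold Drawing.arcs
      rw [hL, hL', chain_two _ X Z hX hZ ht, chain_three _ X' Y' Z' hX' hY' hZ' ht' h2']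
      abel
    · rw [chain_three _ X Y' Z hX hY' hZ ht h2', chain_two _ X' Z' hX' hZ' ht']
      abel
    · intro T
      refine lt_trans (mx_swap' (t := t) hE (T + {seg t a d}) _ _ (by abel) rfl) ?_
      exact mx_swap' (t := t) hA (T + {seg t c' d'}) _ _ (by abel) (by abel)
  · refine hD.no_two he hf hef (L := X ++ (Y'.reverse ++ Z)) (L' := X' ++ Z') (t := D.side e)
      (t' := D.side f)
      (endsOK_of (D.endsOK he) (by rw [hL, hd1 _ _ hX, hd1 _ _ hX])
        (by rw [hL, hl1 _ _ _ hZ, hl0 _ _ hZ]) (by simp; omega))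
      (endsOK_of (D.endsOK hf) (by rw [hL', hd1 _ _ hX', hd1 _ _ hX'])
        (by rw [hL', hl1 _ _ _ hZ', hl0 _ _ hZ']) (by simp; omega))
      (by rw [hL, hL']; simp only [← Multiset.coe_add, Multiset.coe_reverse]; abel)
      (R := (chain (D.side e) X : Multiset Arc) + (chain (D.side f) X' : Multiset Arc) +
        (chain (!t) Y' : Multiset Arc) + (chain (!t) Z : Multiset Arc) +
        (chain (!t) Z' : Multiset Arc))
      (P := {seg t a b} + {seg t c d} + {seg t c' d'})
      (P' := {seg t a c'} + {seg t d b} + {seg t c d'}) ?_ ?_ ?_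
    · unfold Drawing.arcs
      rw [hL, hL', chain_two _ X Z hX hZ ht, chain_three _ X' Y' Z' hX' hY' hZ' ht' h2']
      abel
    · rw [chain_three _ X Y'.reverse Z hX hYr hZ (t' := t) ht
        (by rw [List.length_reverse]; exact h2'), chain_two _ X' Z' hX' hZ' ht', hrev, hh, hl]
      abel
    · intro T
      refine lt_trans (mx_swap' (t := t) hE (T + {seg t b d}) _ _
        (by rw [seg_comm t a c', seg_comm t d b]; abel) rfl) ?_
      exact mx_swap' (t := t) (alt_swap_left.1 hA) (T + {seg t c' d'}) _ _ (by abel)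
        (by rw [seg_comm t b a]; abel)

end Pool.Agent.Work.MP_c0cec8_co.Spine
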