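import Pool.Agent.Work.MP_c0cec8_co.Spine.Clean

/-!
# Drawings with the least number of crossings are good
-/

namespace Pool.Agent.Work.MP_c0cec8_co.Spine

open Finset

variable {V : Type*} [Finite V] {G : SimpleGraph V}

/-- two arcs of a chain, in this order -/
def Two (s : Bool) (L : List ℤ) (p q : Arc) : Prop :=
  ∃ (X Y Z : List ℤ) (hX : X ≠ []) (hY : Y ≠ []) (hZ : Z ≠ []) (t : Bool), L = X ++ (Y ++ Z) ∧
    par s (X.length - 1) = t ∧ p = seg t (X.getLast hX) (Y.head hY) ∧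
    q = seg (par (!t) (Y.length - 1)) (Y.getLast hY) (Z.head hZ)

theorem mem_chain {s : Bool} {L : List ℤ} {p : Arc} (h : p ∈ chain s L) :
    ∃ (X Z : List ℤ) (hX : X ≠ []) (hZ : Z ≠ []), L = X ++ Z ∧
      p = seg (par s (X.length - 1)) (X.getLast hX) (Z.head hZ) := by
  induction L generalizing s with
  | nil => simp at h
  | cons x L ih =>
    rcases L with _ | ⟨y, L⟩
    · simp at h
    · rw [chain_cons_cons, List.mem_cons] at h
      rcases h with rfl | h
      · exact ⟨[x], y :: L, by simp, by simp, rfl, by simp⟩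
      · obtain ⟨X, Z, hX, hZ, h1, h2⟩ := ih h
        refine ⟨x :: X, Z, by simp, hZ, by rw [h1]; rfl, ?_⟩
        rw [h2, List.getLast_cons hX, List.length_cons, Nat.add_sub_cancel]
        congr 1
        obtain ⟨m, hm⟩ : ∃ m, X.length = m + 1 := ⟨X.length - 1, by
          have := length_pos_of_ne hX; omega⟩
        rw [hm, Nat.add_sub_cancel, par_succ']

theorem split_one {s : Bool} {L : List ℤ} {p : Arc} (h : p ∈ chain s L) :
    ∃ M : Multiset Arc, (chain s L : Multiset Arc) = {p} + M ∧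
      ∀ q ∈ M, Two s L p q ∨ Two s L q p := by
  obtain ⟨X, Z, hX, hZ, h1, h2⟩ := mem_chain h
  refine ⟨(chain s X : Multiset Arc) + (chain (!(par s (X.length - 1))) Z : Multiset Arc), ?_, ?_⟩
  · rw [h1, chain_two s X Z hX hZ rfl, ← h2]; abel
  · intro q hq
    rcases Multiset.mem_add.1 hq with hq | hq
    · obtain ⟨X', Z', hX', hZ', h3, h4⟩ := mem_chain (Multiset.mem_coe.1 hq)
      refine Or.inr ⟨X', Z', Z, hX', hZ', hZ, _, by rw [h1, h3, List.append_assoc], rfl, h4, ?_⟩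
      rw [h2]
      subst h3
      have h5 : (X' ++ Z').getLast hX = Z'.getLast hZ' := List.getLast_append_of_ne_nil _ hZ'
      rw [h5]
      congr 1
      rw [List.length_append]
      have h6 := length_pos_of_ne hX'
      have h7 := length_pos_of_ne hZ'
      obtain ⟨m, hm⟩ : ∃ m, X'.length = m + 1 := ⟨X'.length - 1, by omega⟩
      obtain ⟨n, hn⟩ : ∃ n, Z'.length = n + 1 := ⟨Z'.length - 1, by omega⟩
      rw [hm, hn, show m + 1 + (n + 1) - 1 = m + 1 + n by omega, Nat.add_sub_cancel,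
        Nat.add_sub_cancel, par_add, par_succ]
    · obtain ⟨X', Z', hX', hZ', h3, h4⟩ := mem_chain (Multiset.mem_coe.1 hq)
      subst h3
      exact Or.inl ⟨X, X', Z', hX, hX', hZ', _, h1, rfl, by
        rw [h2, List.head_append_of_ne_nil hX'], h4⟩

theorem Two.reverse {s : Bool} {L : List ℤ} {p q : Arc} (h : Two s L p q) :
    Two (par s L.length) L.reverse q p := by
  obtain ⟨X, Y, Z, hX, hY, hZ, t, rfl, ht, hp, hq⟩ := h
  have h6 := length_pos_of_ne hX
  have h7 := length_pos_of_ne hY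
  have h8 := length_pos_of_ne hZ
  obtain ⟨m, hm⟩ : ∃ m, X.length = m + 1 := ⟨X.length - 1, by omega⟩
  obtain ⟨n, hn⟩ : ∃ n, Y.length = n + 1 := ⟨Y.length - 1, by omega⟩
  obtain ⟨k, hk⟩ : ∃ n, Z.length = n + 1 := ⟨Z.length - 1, by omega⟩
  have hX' : X.reverse ≠ [] := by simpa using hX
  have hY' : Y.reverse ≠ [] := by simpa using hY
  have hZ' : Z.reverse ≠ [] := by simpa using hZ
  refine ⟨Z.reverse, Y.reverse, X.reverse, hZ', hY', hX', _, by simp, rfl, ?_, ?_⟩
  · have e1 : Z.reverse.getLast hZ' = Z.head hZ := by simp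
    have e2 : Y.reverse.head hY' = Y.getLast hY := by simp
    rw [hq, e1, e2, seg_comm]
    congr 1
    rw [← ht]
    simp only [List.length_append, List.length_reverse, hm, hn, hk, Nat.add_sub_cancel]
    unfold par
    simp only [Nat.bodd_add, Nat.bodd_succ]
    cases s <;> cases m.bodd <;> cases n.bodd <;> cases k.bodd <;> rfl
  · have e1 : Y.reverse.getLast hY' = Y.head hY := by simp
    have e2 : X.reverse.head hX' = X.getLast hX := by simp
    rw [hp, e1, e2, seg_comm]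
    congr 1
    rw [← ht]
    simp only [List.length_append, List.length_reverse, hm, hn, hk, Nat.add_sub_cancel]
    unfold par
    simp only [Nat.bodd_add, Nat.bodd_succ]
    cases s <;> cases m.bodd <;> cases n.bodd <;> cases k.bodd <;> rfl

theorem mx_pos {A B : Multiset Arc} (h : mx A B ≠ 0) : ∃ p ∈ A, ∃ q ∈ B, crs p q = 1 := by
  by_contra h1
  push Not at h1
  refine h (mx_eq_zero_iff.2 fun p hp q hq => ?_)
  have h2 := h1 p hp q hq
  have h3 := crs_le_one p q
  omega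

theorem Drawing.Min.self_zero {D : Drawing G} (hD : D.Min) {e : Sym2 V} (he : e ∈ edges G) :
    mx (D.arcs e) (D.arcs e) = 0 := by
  by_contra h
  obtain ⟨p, hp, q, hq, hpq⟩ := mx_pos h
  obtain ⟨M, hM, hM2⟩ := split_one (s := D.side e) (L := D.pts e) (Multiset.mem_coe.1 hp)
  have hq' : q ∈ ({p} + M : Multiset Arc) := by rw [← hM]; exact hq
  rcases Multiset.mem_add.1 hq' with hq' | hq'
  · rw [Multiset.mem_singleton] at hq'
    rw [hq', crs_self] at hpq
    omega
  · have key : ∀ p q : Arc, crs p q = 1 → Two (D.side e) (D.pts e) p q → False := by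
      rintro p q hpq ⟨X, Y, Z, hX, hY, hZ, t, h1, ht, rfl, rfl⟩
      rw [crs_seg_seg_eq_one] at hpq
      exact hD.no_self he hX hY hZ h1 ht hpq.1.symm hpq.2
    rcases hM2 q hq' with h2 | h2
    · exact key p q hpq h2
    · exact key q p (by rw [crs_comm]; exact hpq) h2

theorem Drawing.Min.congr {D D' : Drawing G} (hD : D.Min) (h : D'.T = D.T) : D'.Min := by
  intro D''
  rw [Drawing.dbl_eq, h, ← Drawing.dbl_eq]
  exact hD D''

/-- make a given vertex the first point -/
theorem Drawing.Min.exists_start {D : Drawing G} (hD : D.Min) {e : Sym2 V} (he : e ∈ edges G)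
    {w : V} (hw : w ∈ e) : ∃ D' : Drawing G, D'.Min ∧ D'.pos = D.pos ∧
      (D'.pts e).head? = some (D.pos w) ∧ (D'.arcs e : Multiset Arc) = D.arcs e ∧
      ∀ g, g ≠ e → D'.pts g = D.pts g ∧ D'.side g = D.side g := by
  obtain ⟨u, v, l, h1, h2⟩ := D.endsOK he
  rw [h1, Sym2.mem_iff] at hw
  rcases hw with rfl | rfl
  · exact ⟨D, hD, rfl, by rw [h2]; rfl, rfl, fun g _ => ⟨rfl, rfl⟩⟩
  · obtain ⟨D', k1, k2, k3, k4, k5, k6⟩ := D.exists_reverse he
    refine ⟨D', hD.congr k2, k1, by rw [k3, h2]; simp, ?_, fun g hg => ⟨k5 g hg, k6 g hg⟩⟩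
    unfold Drawing.arcs
    rw [k3, k4]
    exact chain_reverse_coe rfl

theorem Drawing.Min.adj_zero {D : Drawing G} (hD : D.Min) {e f : Sym2 V} (he : e ∈ edges G)
    (hf : f ∈ edges G) (hef : e ≠ f) {w : V} (hwe : w ∈ e) (hwf : w ∈ f) :
    mx (D.arcs e) (D.arcs f) = 0 := by
  obtain ⟨D1, m1, p1, a1, b1, c1⟩ := hD.exists_start he hwe
  obtain ⟨D2, m2, p2, a2, b2, c2⟩ := m1.exists_start hf hwf
  have h1 : (D2.arcs e : Multiset Arc) = D.arcs e := by
    rw [← b1]; unfold Drawing.arcs; rw [(c2 e hef).1, (c2 e hef).2]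
  have h2 : (D2.arcs f : Multiset Arc) = D.arcs f := by
    rw [b2]; unfold Drawing.arcs; rw [(c1 f hef.symm).1, (c1 f hef.symm).2]
  rw [← h1, ← h2]
  by_contra h
  obtain ⟨p, hp, q, hq, hpq⟩ := mx_pos h
  obtain ⟨X, Z, hX, hZ, h3, h4⟩ := mem_chain (s := D2.side e) (L := D2.pts e)
    (Multiset.mem_coe.1 hp)
  obtain ⟨X', Z', hX', hZ', h5, h6⟩ := mem_chain (s := D2.side f) (L := D2.pts f)
    (Multiset.mem_coe.1 hq)
  rw [h4, h6, crs_seg_seg_eq_one] at hpq
  refine m2.no_adj he hf hef hX hZ hX' hZ' h3 h5 ?_ rfl hpq.1.symm hpq.2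
  have h7 : (D2.pts e).head? = some (D.pos w) := by rw [(c2 e hef).1]; exact a1
  have h8 : (D2.pts f).head? = some (D.pos w) := by rw [a2, p1]
  rw [h3] at h7
  rw [h5] at h8
  rcases X with _ | ⟨x, X⟩
  · exact absurd rfl hX
  · rcases X' with _ | ⟨x', X'⟩
    · exact absurd rfl hX'
    · simp only [List.cons_append, List.head?_cons] at h7 h8 ⊢
      rw [h7, h8]

theorem Drawing.Min.two_one {D : Drawing G} (hD : D.Min) {e f : Sym2 V} (he : e ∈ edges G)
    (hf : f ∈ edges G) (hef : e ≠ f) {p q q' : Arc} (hp : p ∈ D.arcs e)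
    (hq : Two (D.side f) (D.pts f) q q') (h1 : crs p q = 1) (h2 : crs p q' = 1) : False := by
  obtain ⟨X', Y', Z', hX', hY', hZ', t, h3, ht, rfl, rfl⟩ := hq
  obtain ⟨X, Z, hX, hZ, h5, rfl⟩ := mem_chain (s := D.side e) (L := D.pts e) hp
  rw [crs_seg_seg_eq_one] at h1 h2
  obtain ⟨h1a, h1b⟩ := h1
  obtain ⟨h2a, h2b⟩ := h2
  have hnd := D.nodup f (mem_edges.1 hf)
  rw [h3] at hnd
  refine hD.no_one he hf hef hX hZ hX' hY' hZ' h5 h3 h1a ht (h2a.symm.trans h1a) h1b h2b ?_
  rw [List.nodup_append] at hnd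
  obtain ⟨-, -, h6⟩ := hnd
  constructor
  · exact h6 _ (List.getLast_mem hX') _ (by simp)
  · exact h6 _ (List.getLast_mem hX') _ (by simp)

theorem Drawing.Min.le_one {D : Drawing G} (hD : D.Min) {e f : Sym2 V} (he : e ∈ edges G)
    (hf : f ∈ edges G) (hef : e ≠ f) : mx (D.arcs e) (D.arcs f) ≤ 1 := by
  by_contra h
  push Not at h
  obtain ⟨p, hp, q, hq, hpq⟩ := mx_pos (A := D.arcs e) (B := D.arcs f) (by omega)
  obtain ⟨M, hM, hM2⟩ := split_one (s := D.side e) (L := D.pts e) (Multiset.mem_coe.1 hp)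
  obtain ⟨M', hM', hM2'⟩ := split_one (s := D.side f) (L := D.pts f) (Multiset.mem_coe.1 hq)
  have h1 : (D.arcs e : Multiset Arc) = {p} + M := hM
  have h2 : (D.arcs f : Multiset Arc) = {q} + M' := hM'
  have h3 : 0 < mx {p} M' ∨ 0 < mx M {q} ∨ 0 < mx M M' := by
    rw [h1, h2, mx_add_left, mx_add_right, mx_add_right, mx_singleton, hpq] at h
    omega
  -- aligned pairs
  have key : ∀ (D : Drawing G), D.Min → ∀ p p' q q' : Arc, crs p q = 1 → crs p' q' = 1 →
      Two (D.side e) (D.pts e) p p' → Two (D.side f) (D.pts f) q q' → False := by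
    rintro D hD p p' q q' hpq hpq' ⟨X, Y, Z, hX, hY, hZ, t, h1, ht, rfl, rfl⟩
      ⟨X', Y', Z', hX', hY', hZ', t', h1', ht', rfl, rfl⟩
    rw [crs_seg_seg_eq_one] at hpq hpq'
    obtain ⟨rfl, hA⟩ := hpq
    exact hD.no_align he hf hef hX hY hZ hX' hY' hZ' h1 h1' ht ht' rfl hpq'.1.symm hA hpq'.2
  -- opposite pairs
  have key2 : ∀ p p' q q' : Arc, crs p q = 1 → crs p' q' = 1 →
      Two (D.side e) (D.pts e) p p' → Two (D.side f) (D.pts f) q' q → False := by
    intro p p' q q' hpq hpq' hT hT'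
    obtain ⟨D', k1, k2, k3, k4, k5, k6⟩ := D.exists_reverse hf
    refine key D' (hD.congr k2) p p' q q' hpq hpq' ?_ ?_
    · rw [k5 e hef, k6 e hef]; exact hT
    · rw [k3, k4]; exact hT'.reverse
  rcases h3 with h3 | h3 | h3
  · obtain ⟨p', hp', q', hq', hpq'⟩ := mx_pos (A := {p}) (B := M') (by omega)
    rw [Multiset.mem_singleton] at hp'
    rw [hp'] at hpq'
    rcases hM2' q' hq' with h4 | h4
    · exact hD.two_one he hf hef (Multiset.mem_coe.1 hp) h4 hpq hpq'
    · exact hD.two_one he hf hef (Multiset.mem_coe.1 hp) h4 hpq' hpq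
  · obtain ⟨p', hp', q', hq', hpq'⟩ := mx_pos (A := M) (B := {q}) (by omega)
    rw [Multiset.mem_singleton] at hq'
    rw [hq'] at hpq'
    rcases hM2 p' hp' with h4 | h4
    · exact hD.two_one hf he hef.symm (Multiset.mem_coe.1 hq) h4 (by rw [crs_comm]; exact hpq)
        (by rw [crs_comm]; exact hpq')
    · exact hD.two_one hf he hef.symm (Multiset.mem_coe.1 hq) h4 (by rw [crs_comm]; exact hpq')
        (by rw [crs_comm]; exact hpq)
  · obtain ⟨p', hp', q', hq', hpq'⟩ := mx_pos (A := M) (B := M') (by omega)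
    rcases hM2 p' hp' with h4 | h4 <;> rcases hM2' q' hq' with h5 | h5
    · exact key D hD p p' q q' hpq hpq' h4 h5
    · exact key2 p p' q q' hpq hpq' h4 h5
    · exact key2 p' p q' q hpq' hpq h4 h5
    · exact key D hD p' p q' q hpq' hpq h4 h5

end Pool.Agent.Work.MP_c0cec8_co.Spine
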