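import Mathlib

/-!
# Drawings along a line, crossing number, biplanar crossing number

A drawing of a finite graph: the vertices are points of the horizontal axis (with integer
coordinates), every edge is a chain of semicircles centred on the axis, alternately above and
below it. Every drawing of a graph in the plane can be deformed to such a drawing without changing
the crossings, so the least number of crossings of such drawings is the crossing number.
-/

namespace Pool.Agent.Work.MP_c0cec8_co.Spine

/-- A semicircle centred on the horizontal axis: the half-plane it lies in (`true` is the upper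
one), its left end point and its right end point. -/
abbrev Arc : Type := Bool × ℤ × ℤ

/-- `1` if two semicircles cross, `0` if not. Two semicircles cross if and only if they lie in the
same half-plane and their end points alternate on the axis. -/
def crs (p q : Arc) : ℕ :=
  if p.1 = q.1 ∧ ((p.2.1 < q.2.1 ∧ q.2.1 < p.2.2 ∧ p.2.2 < q.2.2) ∨
    (q.2.1 < p.2.1 ∧ p.2.1 < q.2.2 ∧ q.2.2 < p.2.2)) then 1 else 0

/-- The chain of semicircles through the points of a list, in this order, alternately in the two
half-planes, the first one in the half-plane `s`. -/
def chain : Bool → List ℤ → List Arc
  | _, [] => []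
  | _, [_] => []
  | s, x :: y :: l => (s, min x y, max x y) :: chain (!s) (y :: l)

/-- The number of pairs of a semicircle of the first list and a semicircle of the second list that
cross. -/
def cx (A B : List Arc) : ℕ := (A.map fun p => (B.map fun q => crs p q).sum).sum

variable {V : Type*}

/-- A drawing of a graph, see the head of the file: `pos v` is the place of the vertex `v` on the
axis; the edge `e` goes through the points `pts e` of the axis, in this order, from one of its ends
to the other, and its first semicircle lies in the half-plane `side e`. An edge goes through every
point of the axis at most once and through no vertex other than its ends; a point of the axis that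
lies on two edges is a vertex. -/
structure Drawing (G : SimpleGraph V) where
  /-- the place of a vertex on the axis -/
  pos : V → ℤ
  /-- the half-plane of the first semicircle of an edge -/
  side : Sym2 V → Bool
  /-- the points of the axis on an edge, in their order along the edge -/
  pts : Sym2 V → List ℤ
  pos_inj : Function.Injective pos
  ends : ∀ e ∈ G.edgeSet, ∃ (u v : V) (l : List ℤ), e = s(u, v) ∧ pts e = pos u :: (l ++ [pos v])
  nodup : ∀ e ∈ G.edgeSet, (pts e).Nodup
  own : ∀ e ∈ G.edgeSet, ∀ v : V, pos v ∈ pts e → v ∈ e
  disj : ∀ e ∈ G.edgeSet, ∀ f ∈ G.edgeSet, e ≠ f → ∀ z ∈ pts e, z ∈ pts f → ∃ v : V, z = pos v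

/-- The semicircles of an edge in a drawing. -/
def Drawing.arcs {G : SimpleGraph V} (D : Drawing G) (e : Sym2 V) : List Arc :=
  chain (D.side e) (D.pts e)

/-- The edges of a graph on finitely many vertices. -/
noncomputable def edges [Finite V] (G : SimpleGraph V) : Finset (Sym2 V) :=
  (Set.toFinite G.edgeSet).toFinset

/-- The number of ordered pairs of semicircles of a drawing that cross. -/
noncomputable def Drawing.dbl [Finite V] {G : SimpleGraph V} (D : Drawing G) : ℕ :=
  ∑ e ∈ edges G, ∑ f ∈ edges G, cx (D.arcs e) (D.arcs f)

/-- The number of crossings of a drawing: the number of unordered pairs of semicircles that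
cross. -/
noncomputable def Drawing.crossings [Finite V] {G : SimpleGraph V} (D : Drawing G) : ℕ := D.dbl / 2

/-- The crossing number: the least number of crossings of a drawing of `G`. -/
noncomputable def cr [Finite V] (G : SimpleGraph V) : ℕ :=
  sInf {n : ℕ | ∃ D : Drawing G, D.crossings = n}

/-- The biplanar crossing number: the least value of `cr G₁ + cr G₂` over all partitions of the
edge set of `G` into the edge sets of `G₁` and `G₂`. -/
noncomputable def cr₂ [Finite V] (G : SimpleGraph V) : ℕ :=
  sInf {n : ℕ | ∃ G₁ G₂ : SimpleGraph V, G₁ ⊔ G₂ = G ∧ Disjoint G₁ G₂ ∧ n = cr G₁ + cr G₂}

end Pool.Agent.Work.MP_c0cec8_co.Spine
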