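import Pool.Agent.Work.MP_c0cec8_co.Spine.Norm2

/-!
# Existence of drawings and of good minimal drawings
-/

namespace Pool.Agent.Work.MP_c0cec8_co.Spine

open Finset

variable {V : Type*} [Finite V] {G : SimpleGraph V}

theorem exists_drawing (G : SimpleGraph V) : Nonempty (Drawing G) := by
  classical
  obtain ⟨f, hf⟩ := Countable.exists_injective_nat V
  set pos : V → ℤ := fun v => (f v : ℤ) with hpos
  have hinj : Function.Injective pos := fun u v h => hf (by
    simp only [hpos] at h
    exact_mod_cast h)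
  have hout : ∀ e : Sym2 V, ∃ u v : V, e = s(u, v) := by
    intro e
    induction e using Sym2.ind with
    | h u v => exact ⟨u, v, rfl⟩
  choose a b hab using hout
  refine ⟨⟨pos, fun _ => true, fun e => [pos (a e), pos (b e)], hinj, ?_, ?_, ?_, ?_⟩⟩
  · intro e _
    exact ⟨a e, b e, [], hab e, rfl⟩
  · intro e he
    have h1 : a e ≠ b e := by
      intro h
      have h2 := G.not_isDiag_of_mem_edgeSet he
      rw [hab e, h] at h2
      exact h2 rfl
    simp only [List.nodup_cons, List.mem_singleton, List.not_mem_nil, not_false_eq_true,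
      List.nodup_nil, and_true]
    exact fun h => h1 (hinj h)
  · intro e _ v hv
    rw [hab e]
    simp only [List.mem_cons, List.not_mem_nil, or_false] at hv
    rcases hv with h | h
    · rw [hinj h]; exact Sym2.mem_mk_left _ _
    · rw [hinj h]; exact Sym2.mem_mk_right _ _
  · intro e _ f _ _ z hz _
    simp only [List.mem_cons, List.not_mem_nil, or_false] at hz
    rcases hz with h | h
    · exact ⟨_, h⟩
    · exact ⟨_, h⟩

theorem exists_min (G : SimpleGraph V) : ∃ D : Drawing G, D.Min := by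
  classical
  obtain ⟨D0⟩ := exists_drawing G
  have h : ∃ n, ∃ D : Drawing G, D.dbl = n := ⟨_, D0, rfl⟩
  obtain ⟨D, hD⟩ := Nat.find_spec h
  refine ⟨D, fun D' => ?_⟩
  rw [hD]
  exact Nat.find_min' h ⟨D', rfl⟩

theorem exists_min2 (G : SimpleGraph V) : ∃ D : Drawing G, D.Min2 := by
  classical
  obtain ⟨D0, hD0⟩ := exists_min G
  have h : ∃ n, ∃ D : Drawing G, D.Min ∧ Phi D.T = n := ⟨_, D0, hD0, rfl⟩
  obtain ⟨D, hD, hD2⟩ := Nat.find_spec h
  refine ⟨D, hD, fun D' hD' => ?_⟩
  rw [hD2]
  exact Nat.find_min' h ⟨D', hD', rfl⟩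

theorem Drawing.Min.dbl_eq_cr {D : Drawing G} (hD : D.Min) : D.dbl = 2 * cr G := by
  have h1 : cr G = D.crossings := by
    apply le_antisymm
    · exact Nat.sInf_le ⟨D, rfl⟩
    · have hne : {n : ℕ | ∃ D : Drawing G, D.crossings = n}.Nonempty := ⟨_, D, rfl⟩
      obtain ⟨D', hD'⟩ := Nat.sInf_mem hne
      have : cr G = D'.crossings := hD'.symm
      rw [this]
      unfold Drawing.crossings
      exact Nat.div_le_div_right (hD D')
  obtain ⟨k, hk⟩ := mx_even D.T
  rw [← Drawing.dbl_eq] at hk
  rw [h1]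
  unfold Drawing.crossings
  omega

/-- a drawing with the least number of crossings in which every semicircle is crossed at most
once -/
theorem exists_norm (G : SimpleGraph V) : ∃ D : Drawing G, D.Min ∧ D.dbl = 2 * cr G ∧
    ∀ p ∈ D.T, mx {p} D.T ≤ 1 := by
  obtain ⟨D, hD⟩ := exists_min2 G
  exact ⟨D, hD.1, hD.1.dbl_eq_cr, fun p hp => hD.norm hp⟩

theorem cr_bot : cr (⊥ : SimpleGraph V) = 0 := by
  obtain ⟨D⟩ := exists_drawing (⊥ : SimpleGraph V)
  have h1 : edges (⊥ : SimpleGraph V) = ∅ := by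
    ext e
    simp [mem_edges]
  have h2 : D.crossings = 0 := by
    unfold Drawing.crossings Drawing.dbl
    rw [h1]
    simp
  have h3 : cr (⊥ : SimpleGraph V) ≤ D.crossings := Nat.sInf_le ⟨D, rfl⟩
  omega

end Pool.Agent.Work.MP_c0cec8_co.Spine
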