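import Pool.Agent.Work.MP_c0cec8_co.Spine.Sel
import Pool.Agent.Work.MP_c0cec8_co.Spine.Exist

/-!
# The bound for dense graphs
-/

namespace Pool.Agent.Work.MP_c0cec8_co.Spine

open Finset

theorem exists_lt_mean {V : Type*} [Fintype V] [DecidableEq V] (P : (V → Bool) → ℝ)
    (x0 : V → Bool) (h : mean P < P x0) : ∃ z, P z < mean P := by
  by_contra hcon
  push Not at hcon
  have h1 : ∑ _z : V → Bool, mean P < ∑ z, P z :=
    Finset.sum_lt_sum (fun z _ => hcon z) ⟨x0, mem_univ _, h⟩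
  have h2 : ∑ _z : V → Bool, mean P = ∑ z, P z := by
    simp only [sum_const, card_univ, Fintype.card_fun, Fintype.card_bool, nsmul_eq_mul,
      Nat.cast_pow, Nat.cast_ofNat, mean]
    field_simp
  exact absurd h1 (by rw [h2]; exact lt_irrefl _)

variable {V : Type*} [Finite V] {G : SimpleGraph V}

theorem main_bound {D : Drawing G} (S : Sur D) (hD : D.Min) (hn : ∀ p ∈ D.T, mx {p} D.T ≤ 1)
    {Kw : ℕ} (hK : ∀ f ∈ S.F, mx D.T (S.wnd f) ≤ Kw) :
    2 * (cr₂ G : ℝ) ≤ 3 / 8 * (D.dbl : ℝ) - 1 / 4 * ∑ f ∈ S.F, (D.deg f : ℝ) +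
      3 / 8 * (S.F.card : ℝ) ^ 2 + (2 * ((S.F.card : ℝ) * ((Kw : ℝ) + 1)) +
        7 * (S.F.card : ℝ) ^ 2) := by
  classical
  haveI := Fintype.ofFinite V
  have h1 := Sur.mean_cost (S := S) hD
  obtain ⟨x, hx⟩ := exists_le_mean (fun x : V → Bool => ((mx (S.OO x true) (S.OO x true) +
    mx (S.OO x false) (S.OO x false) + mx (S.TT x) (S.TT x) : ℕ) : ℝ))
  have h2 := Sur.cr₂_bound hD hn hK x
  have h3 : 2 * (cr₂ G : ℝ) ≤ ((mx (S.OO x true) (S.OO x true) +
    mx (S.OO x false) (S.OO x false) + mx (S.TT x) (S.TT x) : ℕ) : ℝ) +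
      (2 * ((S.F.card : ℝ) * ((Kw : ℝ) + 1)) + 7 * (S.F.card : ℝ) ^ 2) := by
    exact_mod_cast h2
  linarith

/-- the trivial data -/
def Sur.triv (D : Drawing G) {e : Sym2 V} (he : e ∈ edges G) (u : V) : Sur D where
  e := e
  he := he
  a := 1
  ha := le_rfl
  F := ∅
  hF := fun f hf => absurd hf (Finset.notMem_empty f)
  src := fun _ => u
  tgt := fun _ => u
  hst := fun f hf => absurd hf (Finset.notMem_empty f)
  U := fun _ => []
  pa := fun _ => 0
  pb := fun _ => 0
  W := fun _ => []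
  hpts := fun f hf => absurd hf (Finset.notMem_empty f)
  hsrc := fun f hf => absurd hf (Finset.notMem_empty f)
  htgt := fun f hf => absurd hf (Finset.notMem_empty f)
  j := fun _ => 0
  hj := fun f hf => absurd hf (Finset.notMem_empty f)
  hpar := fun f hf => absurd hf (Finset.notMem_empty f)
  halt := fun f hf => absurd hf (Finset.notMem_empty f)
  k := 0
  hk := le_rfl
  o := fun _ => 0
  ho := fun f hf => absurd hf (Finset.notMem_empty f)
  hinj := fun f hf => absurd hf (Finset.notMem_empty f)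
  M := 1
  hM := by norm_num

theorem strict_bound {D : Drawing G} (hD : D.Min) (hn : ∀ p ∈ D.T, mx {p} D.T ≤ 1)
    (hpos : 0 < D.dbl) : 2 * (cr₂ G : ℝ) < 3 / 8 * (D.dbl : ℝ) := by
  classical
  haveI := Fintype.ofFinite V
  obtain ⟨e, he⟩ : ∃ e, e ∈ edges G := by
    by_contra hcon
    push Not at hcon
    have h1 : edges G = ∅ := Finset.eq_empty_of_forall_notMem hcon
    unfold Drawing.dbl at hpos
    rw [h1] at hpos
    simp at hpos
  obtain ⟨u, v, -, -, -⟩ := D.endsOK he
  set S := Sur.triv D he u with hS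
  have hF : S.F = ∅ := rfl
  have h1 := Sur.mean_cost (S := S) hD
  rw [hF] at h1
  simp only [Finset.sum_empty, Finset.card_empty, Nat.cast_zero] at h1
  set P : (V → Bool) → ℝ := fun x => ((mx (S.OO x true) (S.OO x true) +
    mx (S.OO x false) (S.OO x false) + mx (S.TT x) (S.TT x) : ℕ) : ℝ) with hP
  have h0 : (0 : ℝ) < D.dbl := by exact_mod_cast hpos
  have h2 : (D.dbl : ℝ) ≤ P (fun _ => true) := by
    have h3 : S.OO (fun _ => true) true = D.T := by
      unfold Sur.OO Drawing.T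
      refine Finset.sum_congr rfl fun g _ => ?_
      have hon : On (fun _ : V => true) true g := fun v _ => rfl
      unfold Sur.old
      rw [if_pos hon]
    simp only [hP]
    rw [h3, Drawing.dbl_eq]
    push_cast
    have := Nat.cast_nonneg (α := ℝ) (mx (S.OO (fun _ => true) false) (S.OO (fun _ => true) false))
    have := Nat.cast_nonneg (α := ℝ) (mx (S.TT (fun _ => true)) (S.TT (fun _ => true)))
    linarith
  obtain ⟨x, hx⟩ := exists_lt_mean P (fun _ => true) (by linarith)
  have h4 := Sur.cr₂_bound (S := S) (Kw := 0) hD hn (fun f hf => absurd hf (by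
    rw [hF]; exact Finset.notMem_empty f)) x
  rw [hF] at h4
  simp only [Finset.card_empty] at h4
  have h5 : 2 * (cr₂ G : ℝ) ≤ P x := by
    have h6 : 2 * cr₂ G ≤ mx (S.OO x true) (S.OO x true) +
      mx (S.OO x false) (S.OO x false) + mx (S.TT x) (S.TT x) := by omega
    simp only [hP]
    exact_mod_cast h6
  linarith

/-- an edge that crosses many rich edges -/
theorem exists_rich {D : Drawing G} (hpos : 0 < D.dbl) :
    ∃ e ∈ edges G, D.dbl ≤ 4 * ((edges G).card * D.deg e) ∧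
      D.deg e ≤ 2 * ∑ g ∈ (edges G).filter fun g => D.dbl ≤ 4 * ((edges G).card * D.deg g),
        mx (D.arcs e) (D.arcs g) := by
  classical
  set m := (edges G).card with hm
  set H := (edges G).filter fun g => D.dbl ≤ 4 * (m * D.deg g) with hH
  set H' := (edges G).filter fun g => ¬ D.dbl ≤ 4 * (m * D.deg g) with hH'
  by_contra hcon
  push Not at hcon
  have hcon' : ∀ e ∈ H, 2 * ∑ g ∈ H, mx (D.arcs e) (D.arcs g) < D.deg e := by
    intro e he
    rw [hH, Finset.mem_filter] at he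
    exact hcon e he.1 he.2
  have hsplit : ∀ f : Sym2 V → ℕ, ∑ g ∈ H, f g + ∑ g ∈ H', f g = ∑ g ∈ edges G, f g := fun f =>
    Finset.sum_filter_add_sum_filter_not _ _ _
  have h1 : ∑ g ∈ H, D.deg g + ∑ g ∈ H', D.deg g = D.dbl := by
    rw [hsplit, Sur.dbl_eq']
  have h2 : 4 * ∑ g ∈ H', D.deg g ≤ D.dbl := by
    have hmpos : 0 < m := by
      rw [hm, Finset.card_pos]
      by_contra h
      rw [Finset.not_nonempty_iff_eq_empty] at h
      unfold Drawing.dbl at hpos
      rw [h] at hpos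
      simp at hpos
    have h3 : ∑ g ∈ H', 4 * (m * D.deg g) ≤ m * D.dbl := by
      refine le_trans (Finset.sum_le_card_nsmul _ _ D.dbl fun g hg => ?_) ?_
      · rw [hH', Finset.mem_filter] at hg
        omega
      · rw [smul_eq_mul]
        exact Nat.mul_le_mul_right _ (Finset.card_filter_le _ _)
    have h4 : ∑ g ∈ H', 4 * (m * D.deg g) = m * (4 * ∑ g ∈ H', D.deg g) := by
      rw [Finset.mul_sum, Finset.mul_sum]
      exact Finset.sum_congr rfl fun g _ => by ring
    rw [h4] at h3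
    exact Nat.le_of_mul_le_mul_left h3 hmpos
  have h3 : ∑ e ∈ H, D.deg e ≤ ∑ e ∈ H, ∑ g ∈ H, mx (D.arcs e) (D.arcs g) +
      ∑ g ∈ H', D.deg g := by
    have h4 : ∀ e, D.deg e = ∑ g ∈ H, mx (D.arcs e) (D.arcs g) +
        ∑ g ∈ H', mx (D.arcs e) (D.arcs g) := fun e => by
      rw [hsplit]; rfl
    have h5 : ∑ e ∈ H, D.deg e = ∑ e ∈ H, ∑ g ∈ H, mx (D.arcs e) (D.arcs g) +
        ∑ e ∈ H, ∑ g ∈ H', mx (D.arcs e) (D.arcs g) := by
      rw [← Finset.sum_add_distrib]
      exact Finset.sum_congr rfl fun e _ => h4 e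
    have h6 : ∑ e ∈ H, ∑ g ∈ H', mx (D.arcs e) (D.arcs g) ≤ ∑ g ∈ H', D.deg g := by
      rw [Finset.sum_comm]
      refine Finset.sum_le_sum fun g _ => ?_
      unfold Drawing.deg
      refine le_trans (Finset.sum_le_sum_of_subset (Finset.filter_subset _ _)) (le_of_eq ?_)
      exact Finset.sum_congr rfl fun e _ => mx_comm _ _
    omega
  by_cases hne : H.Nonempty
  · have h4 : ∑ e ∈ H, 2 * ∑ g ∈ H, mx (D.arcs e) (D.arcs g) < ∑ e ∈ H, D.deg e :=
      Finset.sum_lt_sum_of_nonempty hne hcon'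
    rw [← Finset.mul_sum] at h4
    omega
  · rw [Finset.not_nonempty_iff_eq_empty] at hne
    rw [hne] at h1 h3
    simp at h1
    omega

theorem cr₂_le_cr (G : SimpleGraph V) : cr₂ G ≤ cr G := by
  have h := cr₂_le (G := G) (G₁ := G) (G₂ := ⊥) (by simp) disjoint_bot_right
  rw [cr_bot] at h
  exact h

theorem card_edges (G : SimpleGraph V) : (edges G).card = G.edgeSet.ncard := by
  unfold edges
  exact (Set.ncard_eq_toFinset_card _ _).symm

/-- the bound for dense graphs -/
theorem dense_gain (G : SimpleGraph V) :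
    (cr₂ G : ℝ) ≤ 3 / 8 * (cr G : ℝ) - (cr G : ℝ) ^ 2 / (10 ^ 6 * (G.edgeSet.ncard : ℝ) ^ 2) := by
  classical
  obtain ⟨D, hD, hdbl, hn⟩ := exists_norm G
  rw [← card_edges]
  by_cases h0 : cr G = 0
  · have h1 := cr₂_le_cr G
    have h2 : cr₂ G = 0 := by omega
    rw [h0, h2]
    simp
  · have hpos : 0 < D.dbl := by omega
    obtain ⟨e, he, hrich, hdeg⟩ := exists_rich hpos
    set m := (edges G).card with hm
    have hmpos : 0 < m := Finset.card_pos.2 ⟨e, he⟩
    set N : ℝ := (cr G : ℝ) with hN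
    have hmR : (0 : ℝ) < m := by exact_mod_cast hmpos
    have hNpos : 0 < N := by
      rw [hN]; exact_mod_cast Nat.pos_of_ne_zero h0
    have hdblR : (D.dbl : ℝ) = 2 * N := by rw [hdbl, hN]; push_cast; ring
    set X : ℝ := 2 * N / m with hX
    have hXpos : 0 < X := by positivity
    have hXN : N ^ 2 / (10 ^ 6 * (m : ℝ) ^ 2) = X ^ 2 / (4 * 10 ^ 6) := by
      rw [hX]; field_simp; norm_num
    rw [hXN]
    by_cases hX448 : X < 448
    · have h1 := strict_bound hD hn hpos
      rw [hdblR] at h1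
      have h2 : 8 * cr₂ G + 1 ≤ 3 * cr G := by
        have h3 : (8 * cr₂ G : ℝ) < 3 * cr G := by rw [← hN]; linarith
        have h4 : 8 * cr₂ G < 3 * cr G := by exact_mod_cast h3
        omega
      have h3 : 8 * (cr₂ G : ℝ) + 1 ≤ 3 * N := by rw [hN]; exact_mod_cast h2
      have h4 : X ^ 2 ≤ 448 ^ 2 := by
        exact pow_le_pow_left₀ hXpos.le hX448.le 2
      have h5 : X ^ 2 / (4 * 10 ^ 6) ≤ 1 / 8 := by
        rw [div_le_div_iff₀ (by norm_num) (by norm_num)]
        nlinarith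
      linarith
    · push Not at hX448
      set K : ℕ := ⌊X / 448⌋₊ with hK
      have hK1 : (K : ℝ) ≤ X / 448 := Nat.floor_le (by positivity)
      have hK2 : X / 448 < K + 1 := Nat.lt_floor_add_one _
      have hK0 : 1 ≤ K := by
        rw [hK]
        exact (Nat.one_le_floor_iff _).2 (by rw [le_div_iff₀ (by norm_num)]; linarith)
      have hK0R : (1 : ℝ) ≤ K := by exact_mod_cast hK0
      have hdegX : ∀ g, D.dbl ≤ 4 * (m * D.deg g) → X / 4 ≤ (D.deg g : ℝ) := by
        intro g hg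
        have h1 : (D.dbl : ℝ) ≤ 4 * (m * D.deg g) := by exact_mod_cast hg
        rw [hdblR] at h1
        rw [hX, div_div, div_le_iff₀ (by positivity)]
        linarith
      have he4 := hdegX e hrich
      have h8 : 8 * K ≤ D.deg e := by
        have h1 : (8 * K : ℝ) ≤ D.deg e := by linarith
        exact_mod_cast h1
      obtain ⟨S, s1, s2, s3, s4⟩ := exists_sur hD hn he (Finset.filter_subset _ _) hK0 h8 hdeg
      have h1 := main_bound S hD hn s4
      have h2 : (S.F.card : ℝ) * (X / 4) ≤ ∑ f ∈ S.F, (D.deg f : ℝ) := by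
        rw [← nsmul_eq_mul]
        refine Finset.card_nsmul_le_sum _ _ _ fun f hf => ?_
        exact hdegX f (Finset.mem_filter.1 (s1 hf)).2
      set k : ℝ := (S.F.card : ℝ) with hk
      have hk0 : 0 ≤ k := Nat.cast_nonneg _
      have hk1 : k ≤ K := by rw [hk]; exact_mod_cast s2
      have hk2 : (K : ℝ) ≤ 4 * k := by rw [hk]; exact_mod_cast s3
      rw [hdblR] at h1
      push_cast at h1
      have h3 : k ^ 2 ≤ k * K := by rw [pow_two]; exact mul_le_mul_of_nonneg_left hk1 hk0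
      have h4 : k ≤ k * K := by nlinarith
      have h5 : k * K ≤ k * (X / 448) := mul_le_mul_of_nonneg_left hK1 hk0
      have h6 : X / 3584 ≤ k := by linarith
      have h7 : X * (X / 3584) ≤ X * k := mul_le_mul_of_nonneg_left h6 hXpos.le
      have h8' : X ^ 2 = X * X := pow_two X
      have h9 : 0 ≤ X ^ 2 := sq_nonneg X
      nlinarith [h1, h2, h3, h4, h5, h7, h9]

end Pool.Agent.Work.MP_c0cec8_co.Spine
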