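import Pool.Agent.Work.MP_c0cec8_co.Spine.Clean2

/-!
# Pushing a semicircle through the axis
-/

namespace Pool.Agent.Work.MP_c0cec8_co.Spine

open Finset

variable {V : Type*} [Finite V] {G : SimpleGraph V}

/-- scaling by three -/
def sc (q : Arc) : Arc := (q.1, 3 * q.2.1, 3 * q.2.2)

theorem chain_map_three (s : Bool) (L : List ℤ) :
    chain s (L.map (3 * ·)) = (chain s L).map sc := by
  induction L generalizing s with
  | nil => rfl
  | cons x L ih =>
    rcases L with _ | ⟨y, L⟩
    · rfl
    · have := ih (!s)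
      rw [List.map_cons] at this
      rw [List.map_cons, List.map_cons, chain_cons_cons, this, chain_cons_cons, List.map_cons]
      congr 1
      unfold seg sc
      simp only [Prod.mk.injEq, true_and]
      omega

theorem crs_sc (p q : Arc) : crs (sc p) (sc q) = crs p q := by
  unfold crs sc
  simp only
  congr 1
  simp only [eq_iff_iff]
  constructor
  · rintro ⟨h, h'⟩; exact ⟨h, by omega⟩
  · rintro ⟨h, h'⟩; exact ⟨h, by omega⟩

/-- the three parts of a semicircle pushed through the axis at the gap after `x` -/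
def dL (p : Arc) (x : ℤ) : Arc := (p.1, 3 * p.2.1, 3 * x + 1)
def dS (p : Arc) (x : ℤ) : Arc := (!p.1, 3 * x + 1, 3 * x + 2)
def dR (p : Arc) (x : ℤ) : Arc := (p.1, 3 * x + 2, 3 * p.2.2)

/-- the gap after `x` is under the semicircle `p` -/
def Cov (p : Arc) (x : ℤ) : Prop := p.2.1 ≤ x ∧ x < p.2.2

/-- `q` is another semicircle in the same half-plane, over the gap after `x` and under `p` -/
def Nest (p : Arc) (x : ℤ) (q : Arc) : Prop :=
  q.1 = p.1 ∧ Cov q x ∧ q ≠ p ∧ p.2.1 ≤ q.2.1 ∧ q.2.2 ≤ p.2.2

/-- the gap after `3 * x + 1` -/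
theorem dip_exists (D : Drawing G) {p : Arc} (hp : p ∈ D.T) {x : ℤ} (hc : Cov p x) :
    ∃ (T0 : Multiset Arc) (D' : Drawing G), D.T = {p} + T0 ∧
      D'.T = T0.map sc + ({dL p x} + {dS p x} + {dR p x}) := by
  classical
  have hp' : ∃ e ∈ edges G, p ∈ D.arcs e := by
    unfold Drawing.T at hp
    rw [Multiset.mem_sum] at hp
    obtain ⟨e, he, h⟩ := hp
    exact ⟨e, he, Multiset.mem_coe.1 h⟩
  obtain ⟨e, he, hpe⟩ := hp'
  obtain ⟨X, Z, hX, hZ, h1, h2⟩ := mem_chain (s := D.side e) (L := D.pts e) hpe
  set t := par (D.side e) (X.length - 1) with ht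
  set a := X.getLast hX with ha
  set b := Z.head hZ with hb
  have hab : a ≠ b := by
    intro h
    rw [h2] at hc
    unfold Cov seg at hc
    simp only [h] at hc
    omega
  -- the two new points
  obtain ⟨z1, z2, hz⟩ : ∃ z1 z2 : ℤ, (a < b ∧ z1 = 3 * x + 1 ∧ z2 = 3 * x + 2) ∨
      (b < a ∧ z1 = 3 * x + 2 ∧ z2 = 3 * x + 1) := by
    rcases lt_or_gt_of_ne hab with h | h
    · exact ⟨_, _, Or.inl ⟨h, rfl, rfl⟩⟩
    · exact ⟨_, _, Or.inr ⟨h, rfl, rfl⟩⟩
  set NL : List ℤ := X.map (3 * ·) ++ ([z1, z2] ++ Z.map (3 * ·)) with hNL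
  set P : Sym2 V → List ℤ := Function.update (fun g => (D.pts g).map (3 * ·)) e NL with hP
  have hPe : P e = NL := by rw [hP, Function.update_self]
  have hPo : ∀ g, g ≠ e → P g = (D.pts g).map (3 * ·) := fun g hg => by
    rw [hP, Function.update_of_ne hg]
  have hNLm : (NL : Multiset ℤ) = ((D.pts e : Multiset ℤ).map (3 * ·)) + {z1, z2} := by
    have h3 : ((D.pts e : Multiset ℤ).map (3 * ·)) = (X.map (3 * ·) : Multiset ℤ) +
        (Z.map (3 * ·) : Multiset ℤ) := by
      rw [h1]; simp
    have h4 : (NL : Multiset ℤ) = (X.map (3 * ·) : Multiset ℤ) + (([z1, z2] : List ℤ) +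
        (Z.map (3 * ·) : Multiset ℤ)) := by
      rw [hNL]; simp only [← Multiset.coe_add]
    rw [h3, h4]
    have h5 : (([z1, z2] : List ℤ) : Multiset ℤ) = {z1, z2} := rfl
    rw [h5]
    abel
  have htp : tp G P = (tp G D.pts).map (3 * ·) + {z1, z2} := by
    unfold tp
    rw [sum_update_one he, sum_update_one he (fun i => (D.pts i : Multiset ℤ)), hPe, hNLm,
      Multiset.map_add]
    have h3 : ∑ i ∈ (edges G).erase e, (P i : Multiset ℤ) =
        ∑ i ∈ (edges G).erase e, ((D.pts i : Multiset ℤ).map (3 * ·)) := by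
      refine Finset.sum_congr rfl fun g hg => ?_
      rw [hPo g (Finset.ne_of_mem_erase hg)]; simp
    have h4 : (∑ i ∈ (edges G).erase e, (D.pts i : Multiset ℤ)).map (3 * ·) =
        ∑ i ∈ (edges G).erase e, ((D.pts i : Multiset ℤ).map (3 * ·)) :=
      map_sum (Multiset.mapAddMonoidHom (3 * ·)) _ _
    rw [h3, h4]
    abel
  have hinj : Function.Injective (fun y : ℤ => 3 * y) := fun y y' h => by
    simp only at h; omega
  have hcount : ∀ y : ℤ, (tp G P).count (3 * y) = (tp G D.pts).count y := by
    intro y
    rw [htp, Multiset.count_add, Multiset.count_map_eq_count' _ _ hinj]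
    have : ({z1, z2} : Multiset ℤ).count (3 * y) = 0 := by
      rw [Multiset.count_eq_zero]
      simp only [Multiset.insert_eq_cons, Multiset.mem_cons, Multiset.mem_singleton]
      rintro (h | h) <;> omega
    omega
  set D' : Drawing G := Drawing.ofCount (fun v => 3 * D.pos v) D.side P
    (fun u v h => D.pos_inj (hinj h))
    (fun g hg => by
      obtain ⟨u, v, l, h3, h4⟩ := D.ends g hg
      by_cases hge : g = e
      · subst hge
        rw [hPe]
        have h5 : EndsOK (fun v => 3 * D.pos v) g ((D.pts g).map (3 * ·)) :=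
          ⟨u, v, l.map (3 * ·), h3, by rw [h4]; simp⟩
        refine endsOK_of h5 ?_ ?_ ?_
        · rw [hNL, h1]
          rcases X with _ | ⟨x, X⟩
          · exact absurd rfl hX
          · rfl
        · rw [hNL, h1, List.map_append, List.getLast?_append_of_ne_nil _ (by simp),
            List.getLast?_append_of_ne_nil _ (by simpa using hZ),
            List.getLast?_append_of_ne_nil _ (by simpa using hZ)]
        · rw [hNL]; simp; omega
      · exact ⟨u, v, l.map (3 * ·), h3, by rw [hPo g hge, h4]; simp⟩)
    (fun z hz' => by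
      by_cases h3 : ∃ y, z = 3 * y
      · obtain ⟨y, rfl⟩ := h3
        rw [hcount]
        exact D.count_point fun v h => hz' v (by rw [h])
      · push Not at h3
        rw [htp, Multiset.count_add]
        have h4 : ((tp G D.pts).map (3 * ·)).count z = 0 := by
          rw [Multiset.count_eq_zero, Multiset.mem_map]
          rintro ⟨y, -, rfl⟩
          exact h3 y rfl
        have h5 : ({z1, z2} : Multiset ℤ).Nodup := by
          simp only [Multiset.insert_eq_cons, Multiset.nodup_cons, Multiset.mem_singleton,
            Multiset.nodup_singleton, and_true]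
          omega
        have h6 := Multiset.nodup_iff_count_le_one.1 h5 z
        omega)
    (fun v => by
      rw [hcount]
      exact (D.count_vertex v).le) with hD'
  refine ⟨(∑ i ∈ (edges G).erase e, (D.arcs i : Multiset Arc)) +
    ((chain (D.side e) X : Multiset Arc) + (chain (!t) Z : Multiset Arc)), D', ?_, ?_⟩
  · unfold Drawing.T
    rw [sum_update_one he]
    have h3 : (D.arcs e : Multiset Arc) = (chain (D.side e) X : Multiset Arc) + {p} +
        (chain (!t) Z : Multiset Arc) := by
      unfold Drawing.arcs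
      rw [h1, chain_two _ X Z hX hZ ht.symm, ← h2]
    rw [h3]
    abel
  · unfold Drawing.T
    rw [sum_update_one he]
    have hX' : X.map (3 * ·) ≠ [] := by simpa using hX
    have hZ' : Z.map (3 * ·) ≠ [] := by simpa using hZ
    have hla : (X.map (3 * ·)).getLast hX' = 3 * a := by simp [ha, List.getLast_map]
    have hhb : (Z.map (3 * ·)).head hZ' = 3 * b := by simp [hb, List.head_map]
    have h3 : (D'.arcs e : Multiset Arc) = ((chain (D.side e) X : Multiset Arc).map sc) +
        {seg t (3 * a) z1} + {seg (!t) z1 z2} + {seg t z2 (3 * b)} +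
        ((chain (!t) Z : Multiset Arc).map sc) := by
      have h4 : D'.arcs e = chain (D.side e) NL := by
        change chain (D.side e) (P e) = _; rw [hPe]
      rw [h4, hNL, chain_three _ _ [z1, z2] _ hX' (by simp) hZ' (t := t) (t' := t)
        (by rw [List.length_map]) (by simp [par]), chain_map_three, chain_map_three, hla, hhb]
      simp [chain_cons_cons]
    have h5 : ∑ i ∈ (edges G).erase e, (D'.arcs i : Multiset Arc) =
        (∑ i ∈ (edges G).erase e, (D.arcs i : Multiset Arc)).map sc := by
      have h6 : (∑ i ∈ (edges G).erase e, (D.arcs i : Multiset Arc)).map sc =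
          ∑ i ∈ (edges G).erase e, ((D.arcs i : Multiset Arc).map sc) :=
        map_sum (Multiset.mapAddMonoidHom sc) _ _
      rw [h6]
      refine Finset.sum_congr rfl fun g hg => ?_
      change (chain (D.side g) (P g) : Multiset Arc) = _
      rw [hPo g (Finset.ne_of_mem_erase hg), chain_map_three]
      rfl
    have h7 : ({seg t (3 * a) z1} : Multiset Arc) + {seg (!t) z1 z2} + {seg t z2 (3 * b)} =
        {dL p x} + {dS p x} + {dR p x} := by
      rw [h2] at hc ⊢
      unfold Cov seg at hc
      simp only at hc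
      rcases hz with ⟨h8, rfl, rfl⟩ | ⟨h8, rfl, rfl⟩
      · have e1 : seg t (3 * a) (3 * x + 1) = dL (seg t a b) x := by
          unfold dL seg; simp only [Prod.mk.injEq, true_and]; omega
        have e2 : seg (!t) (3 * x + 1) (3 * x + 2) = dS (seg t a b) x := by
          unfold dS seg; simp only [Prod.mk.injEq, true_and]; omega
        have e3 : seg t (3 * x + 2) (3 * b) = dR (seg t a b) x := by
          unfold dR seg; simp only [Prod.mk.injEq, true_and]; omega
        rw [e1, e2, e3]
      · have e1 : seg t (3 * a) (3 * x + 2) = dR (seg t a b) x := by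
          unfold dR seg; simp only [Prod.mk.injEq, true_and]; omega
        have e2 : seg (!t) (3 * x + 2) (3 * x + 1) = dS (seg t a b) x := by
          unfold dS seg; simp only [Prod.mk.injEq, true_and]; omega
        have e3 : seg t (3 * x + 1) (3 * b) = dL (seg t a b) x := by
          unfold dL seg; simp only [Prod.mk.injEq, true_and]; omega
        rw [e1, e2, e3]
        abel
    rw [h3, h5, Multiset.map_add, Multiset.map_add, ← h7]
    abel

end Pool.Agent.Work.MP_c0cec8_co.Spine
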