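import Pool.Agent.Work.MP_c0cec8_co.Spine.Swap

/-!
# Drawings from counting conditions
-/

namespace Pool.Agent.Work.MP_c0cec8_co.Spine

open Finset

variable {V : Type*} [Finite V] {G : SimpleGraph V}

theorem mem_edges {e : Sym2 V} : e ∈ edges G ↔ e ∈ G.edgeSet := by
  unfold edges; simp

/-- all semicircles of a drawing -/
noncomputable def Drawing.T (D : Drawing G) : Multiset Arc := ∑ e ∈ edges G, (D.arcs e : Multiset Arc)

theorem Drawing.dbl_eq (D : Drawing G) : D.dbl = mx D.T D.T := by
  unfold Drawing.dbl Drawing.T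
  rw [mx_sum_left]
  refine Finset.sum_congr rfl fun e _ => ?_
  rw [mx_sum_right]
  exact Finset.sum_congr rfl fun f _ => cx_eq _ _

theorem count_sum {ι : Type*} (s : Finset ι) (f : ι → List ℤ) (z : ℤ) :
    (∑ i ∈ s, (f i : Multiset ℤ)).count z = ∑ i ∈ s, (f i).count z := by
  rw [Multiset.count_sum']
  exact Finset.sum_congr rfl fun i _ => Multiset.coe_count _ _

/-- all points of the axis on edges, with multiplicity -/
noncomputable def tp (G : SimpleGraph V) (pts : Sym2 V → List ℤ) : Multiset ℤ :=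
  ∑ e ∈ edges G, (pts e : Multiset ℤ)

open Classical in
/-- the degree, as the number of edges at a vertex -/
noncomputable def dg (G : SimpleGraph V) (v : V) : ℕ := ∑ e ∈ edges G, if v ∈ e then 1 else 0

open Classical in
/-- a drawing from counting conditions -/
theorem conds_of_count {pos : V → ℤ} {pts : Sym2 V → List ℤ}
    (ends : ∀ e ∈ G.edgeSet, ∃ (u v : V) (l : List ℤ), e = s(u, v) ∧ pts e = pos u :: (l ++ [pos v]))
    (h1 : ∀ z, (∀ v, z ≠ pos v) → (tp G pts).count z ≤ 1)
    (h2 : ∀ v, (tp G pts).count (pos v) ≤ dg G v) :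
    (∀ e ∈ G.edgeSet, (pts e).Nodup) ∧ (∀ e ∈ G.edgeSet, ∀ v : V, pos v ∈ pts e → v ∈ e) ∧
      (∀ e ∈ G.edgeSet, ∀ f ∈ G.edgeSet, e ≠ f → ∀ z ∈ pts e, z ∈ pts f → ∃ v : V, z = pos v) := by
  unfold tp dg at *
  simp only [count_sum] at h1 h2
  have h3 : ∀ v, ∀ e ∈ edges G, (if v ∈ e then 1 else 0) ≤ (pts e).count (pos v) := by
    intro v e he
    split_ifs with h
    · obtain ⟨a, b, l, rfl, h4⟩ := ends e (mem_edges.1 he)
      rw [Nat.one_le_iff_ne_zero, ← Nat.pos_iff_ne_zero, List.count_pos_iff, h4]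
      rcases Sym2.mem_iff.1 h with rfl | rfl <;> simp
    · exact Nat.zero_le _
  have h4 : ∀ v, ∀ e ∈ edges G, (pts e).count (pos v) = if v ∈ e then 1 else 0 := by
    intro v e he
    have h5 := h2 v
    have h6 : ∑ i ∈ edges G, (pts i).count (pos v) = ∑ i ∈ edges G, if v ∈ i then 1 else 0 :=
      le_antisymm h5 (Finset.sum_le_sum (h3 v))
    exact ((Finset.sum_eq_sum_iff_of_le (h3 v)).1 h6.symm e he).symm
  have h5 : ∀ z, (∀ v, z ≠ pos v) → ∀ e ∈ edges G, (pts e).count z ≤ 1 := fun z hz e he =>
    le_trans (Finset.single_le_sum (f := fun e => (pts e).count z) (fun _ _ => Nat.zero_le _) he)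
      (h1 z hz)
  refine ⟨fun e he => ?_, fun e he v hv => ?_, fun e he f hf hef z hz hz' => ?_⟩
  · rw [List.nodup_iff_count_le_one]
    intro z
    by_cases hz : ∃ v, z = pos v
    · obtain ⟨v, rfl⟩ := hz
      rw [h4 v e (mem_edges.2 he)]
      split_ifs <;> simp
    · push Not at hz
      exact h5 z hz e (mem_edges.2 he)
  · by_contra h6
    have h7 := h4 v e (mem_edges.2 he)
    rw [if_neg h6] at h7
    exact (List.count_pos_iff.2 hv).ne' h7
  · by_contra h6
    push Not at h6
    have h7 := h1 z h6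
    have h8 : (pts e).count z + (pts f).count z ≤ ∑ i ∈ edges G, (pts i).count z := by
      rw [← Finset.sum_pair (f := fun i => (pts i).count z) hef]
      refine Finset.sum_le_sum_of_subset_of_nonneg ?_ fun _ _ _ => Nat.zero_le _
      intro i hi
      rcases Finset.mem_insert.1 hi with rfl | hi
      · exact mem_edges.2 he
      · rw [Finset.mem_singleton.1 hi]; exact mem_edges.2 hf
    have h9 := List.count_pos_iff.2 hz
    have h10 := List.count_pos_iff.2 hz'
    omega

open Classical in
theorem Drawing.count_vertex (D : Drawing G) (v : V) : (tp G D.pts).count (D.pos v) = dg G v := by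
  unfold tp dg
  rw [count_sum]
  refine Finset.sum_congr rfl fun e he => ?_
  split_ifs with h
  · obtain ⟨a, b, l, rfl, h4⟩ := D.ends e (mem_edges.1 he)
    refine List.count_eq_one_of_mem (D.nodup _ (mem_edges.1 he)) ?_
    rw [h4]
    rcases Sym2.mem_iff.1 h with rfl | rfl <;> simp
  · exact List.count_eq_zero.2 fun h' => h (D.own e (mem_edges.1 he) v h')

open Classical in
theorem Drawing.count_point (D : Drawing G) {z : ℤ} (hz : ∀ v, z ≠ D.pos v) :
    (tp G D.pts).count z ≤ 1 := by
  unfold tp
  rw [count_sum]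
  by_contra h
  push Not at h
  by_cases h0 : ∃ e ∈ edges G, z ∈ D.pts e
  · obtain ⟨e, he, hze⟩ := h0
    have h1 : ∑ i ∈ edges G, (D.pts i).count z = (D.pts e).count z := by
      refine Finset.sum_eq_single_of_mem e he fun f hf hfe => ?_
      refine List.count_eq_zero.2 fun hzf => ?_
      obtain ⟨v, hv⟩ := D.disj f (mem_edges.1 hf) e (mem_edges.1 he) hfe z hzf hze
      exact hz v hv
    rw [h1, List.count_eq_one_of_mem (D.nodup _ (mem_edges.1 he)) hze] at h
    omega
  · push Not at h0
    have h1 : ∑ i ∈ edges G, (D.pts i).count z = 0 :=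
      Finset.sum_eq_zero fun e he => List.count_eq_zero.2 (h0 e he)
    omega

/-- a drawing from counting conditions -/
noncomputable def Drawing.ofCount (pos : V → ℤ) (side : Sym2 V → Bool) (pts : Sym2 V → List ℤ)
    (inj : Function.Injective pos)
    (ends : ∀ e ∈ G.edgeSet, ∃ (u v : V) (l : List ℤ), e = s(u, v) ∧ pts e = pos u :: (l ++ [pos v]))
    (h1 : ∀ z, (∀ v, z ≠ pos v) → (tp G pts).count z ≤ 1)
    (h2 : ∀ v, (tp G pts).count (pos v) ≤ dg G v) : Drawing G where
  pos := pos
  side := side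
  pts := pts
  pos_inj := inj
  ends := ends
  nodup := (conds_of_count ends h1 h2).1
  own := (conds_of_count ends h1 h2).2.1
  disj := (conds_of_count ends h1 h2).2.2

/-- a drawing with the same points -/
noncomputable def Drawing.ofPerm (D : Drawing G) (side : Sym2 V → Bool) (pts : Sym2 V → List ℤ)
    (ends : ∀ e ∈ G.edgeSet, ∃ (u v : V) (l : List ℤ), e = s(u, v) ∧
      pts e = D.pos u :: (l ++ [D.pos v]))
    (h : tp G pts = tp G D.pts) : Drawing G :=
  Drawing.ofCount D.pos side pts D.pos_inj ends (fun z hz => by rw [h]; exact D.count_point hz)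
    (fun v => by rw [h]; exact (D.count_vertex v).le)

/-- the restriction of a drawing to a subgraph -/
def Drawing.restrict (D : Drawing G) {H : SimpleGraph V} (hH : H ≤ G) : Drawing H where
  pos := D.pos
  side := D.side
  pts := D.pts
  pos_inj := D.pos_inj
  ends := fun e he => D.ends e (SimpleGraph.edgeSet_mono hH he)
  nodup := fun e he => D.nodup e (SimpleGraph.edgeSet_mono hH he)
  own := fun e he => D.own e (SimpleGraph.edgeSet_mono hH he)
  disj := fun e he f hf => D.disj e (SimpleGraph.edgeSet_mono hH he) f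
    (SimpleGraph.edgeSet_mono hH hf)

end Pool.Agent.Work.MP_c0cec8_co.Spine
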