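import Pool.Agent.Work.MP_c0cec8_co.Spine.Draw

/-!
# Replacing the lists of points of edges
-/

namespace Pool.Agent.Work.MP_c0cec8_co.Spine

open Finset

variable {V : Type*} [Finite V] {G : SimpleGraph V}

/-- the two ends of a list of points are the places of the two ends of an edge -/
def EndsOK (pos : V → ℤ) (e : Sym2 V) (L : List ℤ) : Prop :=
  ∃ (u v : V) (l : List ℤ), e = s(u, v) ∧ L = pos u :: (l ++ [pos v])

omit [Finite V] in
theorem EndsOK.len {pos : V → ℤ} {e : Sym2 V} {L : List ℤ} (h : EndsOK pos e L) :
    2 ≤ L.length := by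
  obtain ⟨u, v, l, -, rfl⟩ := h; simp

omit [Finite V] in
theorem endsOK_of {pos : V → ℤ} {e : Sym2 V} {L L' : List ℤ} (h : EndsOK pos e L)
    (h1 : L'.head? = L.head?) (h2 : L'.getLast? = L.getLast?) (h3 : 2 ≤ L'.length) :
    EndsOK pos e L' := by
  obtain ⟨u, v, l, rfl, rfl⟩ := h
  rcases L' with _ | ⟨x, L'⟩
  · simp at h3
  · have hne : L' ≠ [] := by rintro rfl; simp at h3
    obtain ⟨l', y, rfl⟩ : ∃ l' y, L' = l' ++ [y] :=
      ⟨L'.dropLast, L'.getLast hne, (List.dropLast_append_getLast hne).symm⟩
    have hx : x = pos u := by simpa using h1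
    have hy : y = pos v := by
      have h4 : (x :: (l' ++ [y])).getLast? = some y := by
        rw [← List.cons_append, List.getLast?_concat]
      have h5 : (pos u :: (l ++ [pos v])).getLast? = some (pos v) := by
        rw [← List.cons_append, List.getLast?_concat]
      rw [h4, h5] at h2
      exact Option.some_injective _ h2
    exact ⟨u, v, l', rfl, by rw [hx, hy]⟩

omit [Finite V] in
theorem EndsOK.reverse {pos : V → ℤ} {e : Sym2 V} {L : List ℤ} (h : EndsOK pos e L) :
    EndsOK pos e L.reverse := by
  obtain ⟨u, v, l, rfl, rfl⟩ := h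
  exact ⟨v, u, l.reverse, Sym2.eq_swap, by simp⟩

theorem Drawing.endsOK (D : Drawing G) {e : Sym2 V} (he : e ∈ edges G) :
    EndsOK D.pos e (D.pts e) := D.ends e (mem_edges.1 he)

open Classical in
/-- replace the lists of all edges, keeping the total multiset of points -/
theorem Drawing.exists_replace (D : Drawing G) (side : Sym2 V → Bool) (pts : Sym2 V → List ℤ)
    (ends : ∀ e ∈ edges G, EndsOK D.pos e (pts e))
    (h : ∑ e ∈ edges G, (pts e : Multiset ℤ) = ∑ e ∈ edges G, (D.pts e : Multiset ℤ)) :
    ∃ D' : Drawing G, D'.pos = D.pos ∧ D'.side = side ∧ D'.pts = pts :=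
  ⟨D.ofPerm side pts (fun e he => ends e (mem_edges.2 he)) h, rfl, rfl, rfl⟩

open Classical in
omit [Finite V] in
theorem sum_update_one {M : Type*} [AddCommMonoid M] {s : Finset (Sym2 V)} {e : Sym2 V}
    (he : e ∈ s) (F : Sym2 V → M) :
    ∑ i ∈ s, F i = F e + ∑ i ∈ s.erase e, F i := (Finset.add_sum_erase s F he).symm

open Classical in
/-- replace the list of one edge -/
theorem Drawing.exists_replace_one (D : Drawing G) {e : Sym2 V} (he : e ∈ edges G) (t : Bool)
    (L : List ℤ) (hL : EndsOK D.pos e L) (h : (L : Multiset ℤ) = D.pts e) :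
    ∃ D' : Drawing G, D'.pos = D.pos ∧ D'.side = Function.update D.side e t ∧
      D'.pts = Function.update D.pts e L ∧
      D'.T + (D.arcs e : Multiset Arc) = D.T + (chain t L : Multiset Arc) := by
  obtain ⟨D', h1, h2, h3⟩ := D.exists_replace (Function.update D.side e t)
    (Function.update D.pts e L) (fun f hf => by
      by_cases hfe : f = e
      · subst hfe; rw [Function.update_self]; exact hL
      · rw [Function.update_of_ne hfe]; exact D.endsOK hf)
    (by
      refine Finset.sum_congr rfl fun f _ => ?_
      by_cases hfe : f = e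
      · subst hfe; rw [Function.update_self]; exact h
      · rw [Function.update_of_ne hfe])
  refine ⟨D', h1, h2, h3, ?_⟩
  have h4 : ∑ i ∈ (edges G).erase e, (D'.arcs i : Multiset Arc)
      = ∑ i ∈ (edges G).erase e, (D.arcs i : Multiset Arc) := by
    refine Finset.sum_congr rfl fun f hf => ?_
    unfold Drawing.arcs
    rw [h2, h3, Function.update_of_ne (Finset.ne_of_mem_erase hf),
      Function.update_of_ne (Finset.ne_of_mem_erase hf)]
  have h5 : D'.arcs e = chain t L := by
    unfold Drawing.arcs
    rw [h2, h3, Function.update_self, Function.update_self]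
  unfold Drawing.T
  rw [sum_update_one he, sum_update_one he (fun i => (D.arcs i : Multiset Arc)), h4, h5]
  abel

open Classical in
/-- replace the lists of two edges -/
theorem Drawing.exists_replace_two (D : Drawing G) {e f : Sym2 V} (he : e ∈ edges G)
    (hf : f ∈ edges G) (hef : e ≠ f) (L L' : List ℤ) (hL : EndsOK D.pos e L)
    (hL' : EndsOK D.pos f L') (t t' : Bool)
    (h : (L : Multiset ℤ) + (L' : Multiset ℤ) = (D.pts e : Multiset ℤ) + (D.pts f : Multiset ℤ)) :
    ∃ D' : Drawing G, D'.pos = D.pos ∧
      D'.T + ((D.arcs e : Multiset Arc) + (D.arcs f : Multiset Arc)) =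
        D.T + ((chain t L : Multiset Arc) + (chain t' L' : Multiset Arc)) := by
  have hf' : f ∈ (edges G).erase e := Finset.mem_erase.2 ⟨hef.symm, hf⟩
  set P : Sym2 V → List ℤ := Function.update (Function.update D.pts e L) f L' with hP
  set S : Sym2 V → Bool := Function.update (Function.update D.side e t) f t' with hS
  have hPe : P e = L := by rw [hP, Function.update_of_ne hef, Function.update_self]
  have hPf : P f = L' := by rw [hP, Function.update_self]
  have hSe : S e = t := by rw [hS, Function.update_of_ne hef, Function.update_self]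
  have hSf : S f = t' := by rw [hS, Function.update_self]
  have hPo : ∀ g, g ≠ e → g ≠ f → P g = D.pts g := fun g h1 h2 => by
    rw [hP, Function.update_of_ne h2, Function.update_of_ne h1]
  have hSo : ∀ g, g ≠ e → g ≠ f → S g = D.side g := fun g h1 h2 => by
    rw [hS, Function.update_of_ne h2, Function.update_of_ne h1]
  obtain ⟨D', h1, h2, h3⟩ := D.exists_replace S P (fun g hg => by
      by_cases hge : g = e
      · subst hge; rw [hPe]; exact hL
      · by_cases hgf : g = f
        · subst hgf; rw [hPf]; exact hL'
        · rw [hPo g hge hgf]; exact D.endsOK hg)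
    (by
      rw [sum_update_one he, sum_update_one hf', sum_update_one he
        (fun i => (D.pts i : Multiset ℤ)), sum_update_one hf' (fun i => (D.pts i : Multiset ℤ)),
        hPe, hPf, ← add_assoc, ← add_assoc, h]
      congr 1
      refine Finset.sum_congr rfl fun g hg => ?_
      rw [hPo g (Finset.ne_of_mem_erase (Finset.mem_of_mem_erase hg))
        (Finset.ne_of_mem_erase hg)])
  refine ⟨D', h1, ?_⟩
  have h4 : ∑ i ∈ ((edges G).erase e).erase f, (D'.arcs i : Multiset Arc)
      = ∑ i ∈ ((edges G).erase e).erase f, (D.arcs i : Multiset Arc) := by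
    refine Finset.sum_congr rfl fun g hg => ?_
    have h5 := Finset.ne_of_mem_erase (Finset.mem_of_mem_erase hg)
    have h6 := Finset.ne_of_mem_erase hg
    unfold Drawing.arcs
    rw [h2, h3, hPo g h5 h6, hSo g h5 h6]
  have h5 : D'.arcs e = chain t L := by unfold Drawing.arcs; rw [h2, h3, hPe, hSe]
  have h6 : D'.arcs f = chain t' L' := by unfold Drawing.arcs; rw [h2, h3, hPf, hSf]
  unfold Drawing.T
  rw [sum_update_one he, sum_update_one hf', sum_update_one he
    (fun i => (D.arcs i : Multiset Arc)), sum_update_one hf' (fun i => (D.arcs i : Multiset Arc)),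
    h4, h5, h6]
  abel

end Pool.Agent.Work.MP_c0cec8_co.Spine
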