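import Pool.Agent.Work.MP_c0cec8_co.Spine.Pend
import Pool.Agent.Work.MP_c0cec8_co.Core

/-!
# The gain from edges that have an end of degree one in their plane
-/

namespace Pool.Agent.Work.MP_c0cec8_co.Spine

open Finset

variable {V : Type*} [Finite V] {G : SimpleGraph V}

/-- an edge is free for a colouring if it is the only edge of its plane at one of its ends -/
def Free (G : SimpleGraph V) (x : V → Bool) (g : Sym2 V) : Prop :=
  ∃ v ∈ g, ∀ g' ∈ G.edgeSet, v ∈ g' → (Mono x g' ↔ Mono x g) → g' = g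

/-- the edges that are not free -/
def Kp (G : SimpleGraph V) (x : V → Bool) : Set (Sym2 V) := {g | ¬ Free G x g}

theorem cr₂_free (D : Drawing G) (x : V → Bool) : 2 * cr₂ G ≤ cost D x (Kp G x) := by
  have h1 : M1 G x Set.univ ⊔ M2 G x Set.univ = G := by
    rw [← SimpleGraph.edgeSet_inj, SimpleGraph.edgeSet_sup, edgeSet_M1, edgeSet_M2]
    ext g
    simp only [Set.mem_union, Set.mem_ofPred_eq, Set.mem_univ, true_and]
    tauto
  have h2 : Disjoint (M1 G x Set.univ) (M2 G x Set.univ) := by
    rw [← SimpleGraph.disjoint_edgeSet, Set.disjoint_left, edgeSet_M1, edgeSet_M2]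
    rintro g ⟨-, -, h⟩ ⟨-, -, h'⟩
    exact h' h
  have h3 : cr (M1 G x Set.univ) ≤ cr (M1 G x (Kp G x)) := by
    refine cr_free ?_ ?_
    · rw [← SimpleGraph.edgeSet_subset_edgeSet, edgeSet_M1, edgeSet_M1]
      rintro g ⟨a, -, b⟩
      exact ⟨a, Set.mem_univ _, b⟩
    · intro g hg hg'
      rw [edgeSet_M1] at hg hg'
      obtain ⟨a, -, b⟩ := hg
      have hfree : Free G x g := by
        by_contra hc
        exact hg' ⟨a, hc, b⟩
      obtain ⟨v, hv, hv'⟩ := hfree
      refine ⟨v, hv, fun g' hg' hvg' => ?_⟩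
      rw [edgeSet_M1] at hg'
      exact hv' g' hg'.1 hvg' ⟨fun _ => b, fun _ => hg'.2.2⟩
  have h4 : cr (M2 G x Set.univ) ≤ cr (M2 G x (Kp G x)) := by
    refine cr_free ?_ ?_
    · rw [← SimpleGraph.edgeSet_subset_edgeSet, edgeSet_M2, edgeSet_M2]
      rintro g ⟨a, -, b⟩
      exact ⟨a, Set.mem_univ _, b⟩
    · intro g hg hg'
      rw [edgeSet_M2] at hg hg'
      obtain ⟨a, -, b⟩ := hg
      have hfree : Free G x g := by
        by_contra hc
        exact hg' ⟨a, hc, b⟩
      obtain ⟨v, hv, hv'⟩ := hfree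
      refine ⟨v, hv, fun g' hg' hvg' => ?_⟩
      rw [edgeSet_M2] at hg'
      exact hv' g' hg'.1 hvg' ⟨fun h => absurd h hg'.2.2, fun h => absurd h b⟩
  have h5 := cr₂_le h1 h2
  have h6 := cr_split D x (Kp G x)
  omega

/-- the mean of the indicator of a set of colourings -/
theorem mean_pattern {V : Type*} [Fintype V] [DecidableEq V] (W : Finset V) (y : V → Bool) :
    mean (fun x : V → Bool => if ∀ v ∈ W, x v = y v then (1 : ℝ) else 0) = (1 / 2) ^ W.card := by
  have h1 : ∑ x : V → Bool, (if ∀ v ∈ W, x v = y v then (1 : ℝ) else 0) =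
      ((Fintype.piFinset fun v : V => if v ∈ W then ({y v} : Finset Bool) else univ).card : ℝ) := by
    rw [Finset.sum_boole]
    congr 2
    ext x
    simp only [Finset.mem_filter, Finset.mem_univ, true_and, Fintype.mem_piFinset]
    constructor
    · intro h v
      by_cases hv : v ∈ W
      · rw [if_pos hv, Finset.mem_singleton]; exact h v hv
      · rw [if_neg hv]; exact Finset.mem_univ _
    · intro h v hv
      have := h v
      rw [if_pos hv, Finset.mem_singleton] at this
      exact this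
  have h2 : (∏ v : V, (if v ∈ W then ({y v} : Finset Bool) else univ).card : ℕ) * 2 ^ W.card =
      2 ^ Fintype.card V := by
    have h3 : ∀ v : V, (if v ∈ W then ({y v} : Finset Bool) else univ).card =
        if v ∈ W then 1 else 2 := by
      intro v
      split_ifs
      · exact Finset.card_singleton _
      · simp
    rw [Finset.prod_congr rfl fun v _ => h3 v]
    have h4 : (2 : ℕ) ^ W.card = ∏ v : V, if v ∈ W then 2 else 1 := by
      rw [Finset.prod_ite_mem, Finset.univ_inter, Finset.prod_const]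
    rw [h4, ← Finset.prod_mul_distrib]
    have h5 : ∀ v : V, (if v ∈ W then 1 else 2) * (if v ∈ W then 2 else 1) = 2 := by
      intro v; split_ifs <;> rfl
    rw [Finset.prod_congr rfl fun v _ => h5 v, Finset.prod_const, Finset.card_univ]
  unfold mean
  rw [h1, Fintype.card_piFinset]
  have h3 : ((∏ v : V, (if v ∈ W then ({y v} : Finset Bool) else univ).card : ℕ) : ℝ) *
      2 ^ W.card = 2 ^ Fintype.card V := by exact_mod_cast h2
  rw [one_div, inv_pow, div_eq_iff (by positivity), ← h3]
  field_simp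

omit [Finite V] in
theorem mono_iff {x : V → Bool} {u v : V} : Mono x s(u, v) ↔ x u = x v := by
  unfold Mono
  rw [Sur.on_iff rfl, Sur.on_iff rfl]
  cases x u <;> cases x v <;> simp

omit [Finite V] in
open Classical in
theorem same_surv [Fintype V] [DecidableEq V] (x : V → Bool) (a b c d : V) :
    (if Same x s(a, b) s(c, d) then (1 : ℝ) else 0) = surv x (a, b, c, d) := by
  unfold Same surv
  simp only [mono_iff, Sur.on_iff rfl]
  cases x a <;> cases x b <;> cases x c <;> cases x d <;> simp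

/-- `g` has an end of degree at most `d` that is not adjacent to both ends of `g'` -/
def Gd (G : SimpleGraph V) (d : ℕ) (g g' : Sym2 V) : Prop :=
  ∃ v ∈ g, (G.neighborSet v).ncard ≤ d ∧ ∃ u ∈ g', ¬ G.Adj v u

open Classical in
/-- the probability that two crossing edges stay in the same plane and are not free -/
theorem mean_pair [Fintype V] [DecidableEq V] {D : Drawing G} (hD : D.Min) {g g' : Sym2 V}
    (hg : g ∈ edges G) (hg' : g' ∈ edges G) (hx : mx (D.arcs g) (D.arcs g') ≠ 0) {d : ℕ}
    (hgood : Gd G d g g') :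
    mean (fun x : V → Bool => if (g ∈ Kp G x ∧ g' ∈ Kp G x) ∧ Same x g g' then (1 : ℝ) else 0) ≤
      3 / 8 - (1 / 2) ^ (d + 2) := by
  obtain ⟨v, ⟨a, rfl⟩, hdeg, u, ⟨w, rfl⟩, hvu⟩ := hgood
  have hne : s(v, a) ≠ s(u, w) := by
    rintro h
    rw [← h] at hx
    exact hx (hD.self_zero hg)
  have hadj : ∀ t, t ∈ s(v, a) → t ∈ s(u, w) → False := fun t ht ht' =>
    hx (hD.adj_zero hg hg' hne ht ht')
  have n1 : v ≠ a := by
    rintro rfl
    exact G.not_isDiag_of_mem_edgeSet (mem_edges.1 hg) rfl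
  have n2 : u ≠ w := by
    rintro rfl
    exact G.not_isDiag_of_mem_edgeSet (mem_edges.1 hg') rfl
  have mv : v ∈ s(v, a) := Sym2.mem_mk_left _ _
  have ma : a ∈ s(v, a) := Sym2.mem_mk_right _ _
  have mu : u ∈ s(u, w) := Sym2.mem_mk_left _ _
  have mw : w ∈ s(u, w) := Sym2.mem_mk_right _ _
  have n3 : v ≠ u := by rintro rfl; exact hadj _ mv mu
  have n4 : v ≠ w := by rintro rfl; exact hadj _ mv mw
  have n5 : a ≠ u := by rintro rfl; exact hadj _ ma mu
  have n6 : a ≠ w := by rintro rfl; exact hadj _ ma mw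
  set N : Finset V := (G.neighborSet v).toFinset with hN
  have hNd : N.card ≤ d := by rwa [hN, ← Set.ncard_eq_toFinset_card']
  have memN : ∀ y, y ∈ N ↔ G.Adj v y := fun y => by rw [hN, Set.mem_toFinset]; rfl
  set W : Finset V := insert v (insert u (insert w N)) with hW
  have hWcard : W.card ≤ d + 3 := by
    rw [hW]
    refine (Finset.card_insert_le _ _).trans ?_
    refine Nat.succ_le_succ ((Finset.card_insert_le _ _).trans ?_)
    refine Nat.succ_le_succ ((Finset.card_insert_le _ _).trans ?_)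
    exact Nat.succ_le_succ hNd
  set pat : Bool → V → Bool := fun t y => if y = a ∨ y = u then !t else t with hpat
  have pa : ∀ t, pat t a = !t := fun t => if_pos (Or.inl rfl)
  have pu : ∀ t, pat t u = !t := fun t => if_pos (Or.inr rfl)
  have po : ∀ t y, y ≠ a → y ≠ u → pat t y = t := fun t y h1 h2 => if_neg (by tauto)
  have haN : a ∈ N := (memN a).2 (mem_edges.1 hg)
  have key : ∀ (x : V → Bool) (t : Bool), (∀ y ∈ W, x y = pat t y) →
      x v = t ∧ Same x s(v, a) s(u, w) ∧ s(v, a) ∉ Kp G x := by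
    intro x t h
    have xv : x v = t := by
      rw [h v (by simp [hW]), po t v n1 n3]
    have xa : x a = !t := by
      rw [h a (by rw [hW]; simp [haN]), pa]
    have xu : x u = !t := by
      rw [h u (by simp [hW]), pu]
    have xw : x w = t := by
      rw [h w (by simp [hW]), po t w (Ne.symm n6) (Ne.symm n2)]
    refine ⟨xv, Or.inr (Or.inr ⟨?_, ?_⟩), ?_⟩
    · rw [mono_iff, xv, xa]; cases t <;> simp
    · rw [mono_iff, xu, xw]; cases t <;> simp
    · intro hK
      apply hK
      refine ⟨v, mv, ?_⟩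
      rintro g' hg' ⟨y, rfl⟩ hm
      have hy : G.Adj v y := hg'
      by_contra hya
      have hya' : y ≠ a := by rintro rfl; exact hya rfl
      have hyu : y ≠ u := by rintro rfl; exact hvu hy
      have xy : x y = t := by
        rw [h y (by rw [hW]; simp [(memN y).2 hy]), po t y hya' hyu]
      have h1 : Mono x s(v, y) := by rw [mono_iff, xv, xy]
      have h2 := hm.1 h1
      rw [mono_iff, xv, xa] at h2
      cases t <;> simp at h2
  have hpt : ∀ x : V → Bool,
      (if (s(v, a) ∈ Kp G x ∧ s(u, w) ∈ Kp G x) ∧ Same x s(v, a) s(u, w) then (1 : ℝ) else 0) ≤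
      surv x (v, a, u, w) - ((if ∀ y ∈ W, x y = pat true y then (1 : ℝ) else 0) +
        (if ∀ y ∈ W, x y = pat false y then (1 : ℝ) else 0)) := by
    intro x
    rw [← same_surv]
    by_cases h1 : ∀ y ∈ W, x y = pat true y
    · have k1 := key x true h1
      have h2 : ¬ ∀ y ∈ W, x y = pat false y := by
        intro h2
        have k2 := key x false h2
        rw [k1.1] at k2
        exact absurd k2.1 (by simp)
      rw [if_pos h1, if_neg h2, if_pos k1.2.1, if_neg (fun h => k1.2.2 h.1.1)]
      norm_num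
    · by_cases h2 : ∀ y ∈ W, x y = pat false y
      · have k2 := key x false h2
        rw [if_neg h1, if_pos h2, if_pos k2.2.1, if_neg (fun h => k2.2.2 h.1.1)]
        norm_num
      · rw [if_neg h1, if_neg h2]
        by_cases h3 : Same x s(v, a) s(u, w)
        · rw [if_pos h3]
          split_ifs <;> norm_num
        · rw [if_neg h3, if_neg (fun h => h3 h.2)]
          norm_num
  refine (mean_mono hpt).trans ?_
  rw [mean_sub, mean_add, mean_surv n1 n3 n4 n5 n6 n2, mean_pattern, mean_pattern]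
  have h1 : (1 / 2 : ℝ) ^ (d + 3) ≤ (1 / 2) ^ W.card :=
    pow_le_pow_of_le_one (by norm_num) (by norm_num) hWcard
  have h2 : (1 / 2 : ℝ) ^ (d + 2) = 2 * (1 / 2) ^ (d + 3) := by
    rw [pow_succ (1 / 2 : ℝ) (d + 2)]; ring
  linarith

open Classical in
/-- without any assumption -/
theorem mean_pair' [Fintype V] [DecidableEq V] {D : Drawing G} (hD : D.Min) {g g' : Sym2 V}
    (hg : g ∈ edges G) (hg' : g' ∈ edges G) (hx : mx (D.arcs g) (D.arcs g') ≠ 0) :
    mean (fun x : V → Bool => if (g ∈ Kp G x ∧ g' ∈ Kp G x) ∧ Same x g g' then (1 : ℝ) else 0) ≤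
      3 / 8 := by
  obtain ⟨v, a, rfl⟩ : ∃ v a, g = s(v, a) := by
    induction g using Sym2.ind with
    | h v a => exact ⟨v, a, rfl⟩
  obtain ⟨u, w, rfl⟩ : ∃ v a, g' = s(v, a) := by
    induction g' using Sym2.ind with
    | h v a => exact ⟨v, a, rfl⟩
  have hne : s(v, a) ≠ s(u, w) := by
    rintro h
    rw [← h] at hx
    exact hx (hD.self_zero hg)
  have hadj : ∀ t, t ∈ s(v, a) → t ∈ s(u, w) → False := fun t ht ht' =>
    hx (hD.adj_zero hg hg' hne ht ht')
  have n1 : v ≠ a := by
    rintro rfl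
    exact G.not_isDiag_of_mem_edgeSet (mem_edges.1 hg) rfl
  have n2 : u ≠ w := by
    rintro rfl
    exact G.not_isDiag_of_mem_edgeSet (mem_edges.1 hg') rfl
  have mv : v ∈ s(v, a) := Sym2.mem_mk_left _ _
  have ma : a ∈ s(v, a) := Sym2.mem_mk_right _ _
  have mu : u ∈ s(u, w) := Sym2.mem_mk_left _ _
  have mw : w ∈ s(u, w) := Sym2.mem_mk_right _ _
  have n3 : v ≠ u := by rintro rfl; exact hadj _ mv mu
  have n4 : v ≠ w := by rintro rfl; exact hadj _ mv mw
  have n5 : a ≠ u := by rintro rfl; exact hadj _ ma mu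
  have n6 : a ≠ w := by rintro rfl; exact hadj _ ma mw
  rw [← mean_surv n1 n3 n4 n5 n6 n2]
  refine mean_mono fun x => ?_
  rw [← same_surv]
  by_cases h3 : Same x s(v, a) s(u, w)
  · rw [if_pos h3]
    split_ifs <;> norm_num
  · rw [if_neg h3, if_neg (fun h => h3 h.2)]

end Pool.Agent.Work.MP_c0cec8_co.Spine
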