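import Pool.Agent.Work.MP_c0cec8_co.Spine.Free

/-!
# The gain from edges that have an end of degree one in their plane: the sum over all crossings
-/

namespace Pool.Agent.Work.MP_c0cec8_co.Spine

open Finset

variable {V : Type*} [Finite V] {G : SimpleGraph V}

open Classical in
/-- the number of good ordered pairs of crossing edges -/
noncomputable def gd (D : Drawing G) (d : ℕ) : ℕ :=
  ∑ g ∈ edges G, ∑ g' ∈ edges G, if Gd G d g g' then mx (D.arcs g) (D.arcs g') else 0

open Classical in
/-- the number of bad ordered pairs of crossing edges -/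
noncomputable def bd (D : Drawing G) (d : ℕ) : ℕ :=
  ∑ g ∈ edges G, ∑ g' ∈ edges G, if Gd G d g g' then 0 else mx (D.arcs g) (D.arcs g')

theorem gd_add_bd (D : Drawing G) (d : ℕ) : gd D d + bd D d = D.dbl := by
  classical
  unfold gd bd Drawing.dbl
  rw [← Finset.sum_add_distrib]
  refine Finset.sum_congr rfl fun g _ => ?_
  rw [← Finset.sum_add_distrib]
  refine Finset.sum_congr rfl fun g' _ => ?_
  rw [cx_eq]
  split_ifs <;> simp

theorem gain_free {D : Drawing G} (hD : D.Min) (d : ℕ) :
    2 * (cr₂ G : ℝ) ≤ 3 / 8 * (D.dbl : ℝ) - (1 / 2) ^ (d + 2) * (gd D d : ℝ) := by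
  classical
  have := Fintype.ofFinite V
  obtain ⟨x, hx⟩ := exists_le_mean (fun x : V → Bool => (cost D x (Kp G x) : ℝ))
  have h1 : 2 * (cr₂ G : ℝ) ≤ (cost D x (Kp G x) : ℝ) := by exact_mod_cast cr₂_free D x
  refine h1.trans (hx.trans ?_)
  have h2 : (fun x : V → Bool => (cost D x (Kp G x) : ℝ)) = fun x => ∑ g ∈ edges G,
      ∑ g' ∈ edges G, (mx (D.arcs g) (D.arcs g') : ℝ) *
        (if (g ∈ Kp G x ∧ g' ∈ Kp G x) ∧ Same x g g' then (1 : ℝ) else 0) := by
    funext x
    unfold cost
    push_cast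
    refine Finset.sum_congr rfl fun g _ => Finset.sum_congr rfl fun g' _ => ?_
    split_ifs <;> simp
  rw [h2, mean_sum]
  have h3 : ∀ g ∈ edges G, mean (fun x : V → Bool => ∑ g' ∈ edges G,
      (mx (D.arcs g) (D.arcs g') : ℝ) *
        (if (g ∈ Kp G x ∧ g' ∈ Kp G x) ∧ Same x g g' then (1 : ℝ) else 0)) ≤
      ∑ g' ∈ edges G, (3 / 8 * (mx (D.arcs g) (D.arcs g') : ℝ) - (1 / 2) ^ (d + 2) *
        ((if Gd G d g g' then mx (D.arcs g) (D.arcs g') else 0 : ℕ) : ℝ)) := by
    intro g hg
    rw [mean_sum]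
    refine Finset.sum_le_sum fun g' hg' => ?_
    rw [mean_const_mul]
    by_cases h0 : mx (D.arcs g) (D.arcs g') = 0
    · rw [h0]; simp
    · by_cases h4 : Gd G d g g'
      · rw [if_pos h4]
        have h5 := mean_pair hD hg hg' h0 h4
        have h6 : (0 : ℝ) ≤ (mx (D.arcs g) (D.arcs g') : ℝ) := Nat.cast_nonneg _
        calc _ ≤ (mx (D.arcs g) (D.arcs g') : ℝ) * (3 / 8 - (1 / 2) ^ (d + 2)) :=
              mul_le_mul_of_nonneg_left h5 h6
          _ = _ := by ring
      · rw [if_neg h4]
        have h5 := mean_pair' hD hg hg' h0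
        have h6 : (0 : ℝ) ≤ (mx (D.arcs g) (D.arcs g') : ℝ) := Nat.cast_nonneg _
        calc _ ≤ (mx (D.arcs g) (D.arcs g') : ℝ) * (3 / 8) :=
              mul_le_mul_of_nonneg_left h5 h6
          _ = _ := by push_cast; ring
  refine (Finset.sum_le_sum h3).trans (le_of_eq ?_)
  simp only [Finset.sum_sub_distrib, ← Finset.mul_sum]
  unfold gd Drawing.dbl
  push_cast
  simp only [cx_eq]

/-- the vertices on crossed edges -/
noncomputable def Drawing.onCrossed (D : Drawing G) : Set V :=
  {v | ∃ g ∈ G.edgeSet, v ∈ g ∧ ∃ g' ∈ G.edgeSet, cx (D.arcs g) (D.arcs g') ≠ 0}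

theorem bd_le {D : Drawing G} (hD : D.Min) {d : ℕ}
    (hd : ∀ g ∈ G.edgeSet, (∃ g' ∈ G.edgeSet, cx (D.arcs g) (D.arcs g') ≠ 0) →
      ∃ v ∈ g, (G.neighborSet v).ncard ≤ d) :
    bd D d ≤ D.onCrossed.ncard * d ^ 3 := by
  classical
  have := Fintype.ofFinite V
  set W : Finset V := univ.filter fun v => v ∈ D.onCrossed ∧ (G.neighborSet v).ncard ≤ d with hW
  set B : Finset (Sym2 V × Sym2 V) := W.biUnion fun v =>
    ((G.neighborSet v).toFinset ×ˢ ((G.neighborSet v).toFinset ×ˢ (G.neighborSet v).toFinset)).image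
      fun p => (s(v, p.1), s(p.2.1, p.2.2)) with hB
  have h1 : bd D d ≤ B.card := by
    unfold bd
    rw [← Finset.sum_product']
    have h2 : ∀ p ∈ edges G ×ˢ edges G, (if Gd G d p.1 p.2 then 0 else mx (D.arcs p.1) (D.arcs p.2))
        ≤ if p ∈ B then 1 else 0 := by
      rintro ⟨g, g'⟩ hp
      rw [Finset.mem_product] at hp
      obtain ⟨hg, hg'⟩ := hp
      simp only at hg hg' ⊢
      by_cases h3 : Gd G d g g'
      · rw [if_pos h3]; exact Nat.zero_le _
      · rw [if_neg h3]
        by_cases h0 : mx (D.arcs g) (D.arcs g') = 0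
        · rw [h0]; exact Nat.zero_le _
        · have hne : g ≠ g' := by
            rintro rfl; exact h0 (hD.self_zero hg)
          have h4 : mx (D.arcs g) (D.arcs g') ≤ 1 := hD.le_one hg hg' hne
          have h5 : (g, g') ∈ B := by
            obtain ⟨v, a, rfl, hv⟩ : ∃ v a, g = s(v, a) ∧ (G.neighborSet v).ncard ≤ d := by
              obtain ⟨v, ⟨a, ha⟩, hv⟩ := hd g (mem_edges.1 hg) ⟨g', mem_edges.1 hg', by
                rw [cx_eq]; exact h0⟩
              exact ⟨v, a, ha, hv⟩
            obtain ⟨u, w, rfl⟩ : ∃ v a, g' = s(v, a) := by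
              induction g' using Sym2.ind with
              | h v a => exact ⟨v, a, rfl⟩
            have hu : G.Adj v u := by
              by_contra h
              exact h3 ⟨v, Sym2.mem_mk_left _ _, hv, u, Sym2.mem_mk_left _ _, h⟩
            have hw : G.Adj v w := by
              by_contra h
              exact h3 ⟨v, Sym2.mem_mk_left _ _, hv, w, Sym2.mem_mk_right _ _, h⟩
            rw [hB, Finset.mem_biUnion]
            refine ⟨v, ?_, ?_⟩
            · rw [hW, Finset.mem_filter]
              refine ⟨mem_univ _, ⟨s(v, a), mem_edges.1 hg, Sym2.mem_mk_left _ _, s(u, w),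
                mem_edges.1 hg', ?_⟩, hv⟩
              rw [cx_eq]; exact h0
            · rw [Finset.mem_image]
              refine ⟨(a, u, w), ?_, rfl⟩
              simp only [Finset.mem_product, Set.mem_toFinset]
              exact ⟨mem_edges.1 hg, hu, hw⟩
          rw [if_pos h5]
          exact h4
    refine (Finset.sum_le_sum h2).trans ?_
    rw [Finset.sum_boole]
    simp only [Nat.cast_id]
    exact Finset.card_le_card fun p hp => (Finset.mem_filter.1 hp).2
  refine h1.trans ((Finset.card_biUnion_le_card_mul _ _ (d ^ 3) fun v hv => ?_).trans ?_)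
  · refine Finset.card_image_le.trans ?_
    rw [Finset.card_product, Finset.card_product]
    have h2 : (G.neighborSet v).toFinset.card ≤ d := by
      rw [← Set.ncard_eq_toFinset_card']
      exact (Finset.mem_filter.1 hv).2.2
    calc _ ≤ d * (d * d) := Nat.mul_le_mul h2 (Nat.mul_le_mul h2 h2)
      _ = d ^ 3 := by ring
  · refine Nat.mul_le_mul_right _ ?_
    rw [← Set.ncard_coe_finset]
    refine Set.ncard_le_ncard ?_ (Set.toFinite _)
    intro v hv
    exact (Finset.mem_filter.1 (Finset.mem_coe.1 hv)).2.1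

end Pool.Agent.Work.MP_c0cec8_co.Spine
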