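import Pool.Agent.Work.MP_c0cec8_co.Spine.Dip

/-!
# A crossing-minimal drawing in which every semicircle is crossed at most once
-/

namespace Pool.Agent.Work.MP_c0cec8_co.Spine

open Finset

variable {V : Type*} [Finite V] {G : SimpleGraph V}

theorem Cov.ne {p : Arc} {x : ℤ} (h : Cov p x) : p.2.1 < p.2.2 := by
  unfold Cov at h; omega

theorem crs_dip_aux {s : Bool} {a b x : ℤ} {q : Arc} (hc : Cov (s, a, b) x)
    (hn : ¬ Nest (s, a, b) x q) (hs : q.1 = s) (hq : q.2.1 ≤ q.2.2) :
    crs (sc q) (dL (s, a, b) x) + crs (sc q) (dR (s, a, b) x) = crs q (s, a, b) := by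
  obtain ⟨s', c, d⟩ := q
  simp only at hs hq
  subst hs
  have hn' : ¬ (Cov (s', c, d) x ∧ (s', c, d) ≠ ((s', a, b) : Arc) ∧ a ≤ c ∧ d ≤ b) := by
    intro h; exact hn ⟨rfl, h.1, h.2.1, h.2.2.1, h.2.2.2⟩
  unfold Cov at hc hn'
  have hne : (s', c, d) ≠ ((s', a, b) : Arc) ↔ (c ≠ a ∨ d ≠ b) := by
    simp only [ne_eq, Prod.mk.injEq, true_and, not_and_or]
  rw [hne] at hn'
  unfold crs sc dL dR
  simp only [true_and] at *
  split_ifs <;> omega

theorem crs_dip {p q : Arc} {x : ℤ} (hc : Cov p x) (hn : ¬ Nest p x q) (hq : q.2.1 ≤ q.2.2) :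
    crs (sc q) (dL p x) + crs (sc q) (dR p x) = crs q p := by
  obtain ⟨s, a, b⟩ := p
  by_cases hs : q.1 = s
  · exact crs_dip_aux hc hn hs hq
  · rw [crs_side (p := sc q), crs_side (p := sc q), crs_side (p := q)]
    · exact hs
    · exact hs
    · exact hs

theorem crs_dS (p q : Arc) (x : ℤ) : crs (sc q) (dS p x) = 0 := by
  unfold crs sc dS
  rw [if_neg]
  rintro ⟨-, h | h⟩ <;> simp only at h <;> omega

theorem crs_dL_dR {p : Arc} {x : ℤ} : crs (dL p x) (dR p x) = 0 := by
  unfold crs dL dR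
  rw [if_neg]
  rintro ⟨-, h | h⟩ <;> simp only at h <;> omega

theorem crs_dL_dS {p : Arc} {x : ℤ} : crs (dL p x) (dS p x) = 0 := by
  apply crs_side
  unfold dL dS
  simp

theorem crs_dR_dS {p : Arc} {x : ℤ} : crs (dR p x) (dS p x) = 0 := by
  apply crs_side
  unfold dR dS
  simp

/-- the potential -/
def Phi (T : Multiset Arc) : ℕ := (T.map fun p => (mx {p} T) ^ 2).sum

/-- all semicircles have their left end on the left -/
def Good (T : Multiset Arc) : Prop := ∀ q ∈ T, q.2.1 ≤ q.2.2

theorem chain_good {s : Bool} {L : List ℤ} {p : Arc} (h : p ∈ chain s L) : p.2.1 ≤ p.2.2 := by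
  obtain ⟨X, Z, hX, hZ, -, rfl⟩ := mem_chain h
  unfold seg
  simp only
  exact min_le_max

theorem Drawing.good (D : Drawing G) : Good D.T := by
  intro q hq
  unfold Drawing.T at hq
  rw [Multiset.mem_sum] at hq
  obtain ⟨e, -, h⟩ := hq
  exact chain_good (Multiset.mem_coe.1 h)

section dip

variable {p : Arc} {x : ℤ} {T0 T1 : Multiset Arc}

theorem mx_sc (A B : Multiset Arc) : mx (A.map sc) (B.map sc) = mx A B :=
  mx_map_of fun _ _ _ _ => crs_sc _ _

theorem mx_split (hc : Cov p x) (hg : Good T0) (hn : ∀ q ∈ T0, ¬ Nest p x q) {A : Multiset Arc}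
    (hA : A ≤ T0) : mx (A.map sc) {dL p x} + mx (A.map sc) {dR p x} = mx A {p} := by
  rw [mx_singleton_right, mx_singleton_right, mx_singleton_right, Multiset.map_map,
    Multiset.map_map, ← Multiset.sum_map_add]
  congr 1
  refine Multiset.map_congr rfl fun q hq => ?_
  have hq' := Multiset.mem_of_le hA hq
  exact crs_dip hc (hn q hq') (hg q hq')

theorem mx_dS (A : Multiset Arc) : mx (A.map sc) {dS p x} = 0 := by
  rw [mx_eq_zero_iff]
  intro q hq r hr
  rw [Multiset.mem_singleton] at hr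
  rw [Multiset.mem_map] at hq
  obtain ⟨q, -, rfl⟩ := hq
  rw [hr, crs_dS]

theorem dip_old (hc : Cov p x) (hg : Good T0) (hn : ∀ q ∈ T0, ¬ Nest p x q)
    (hT1 : T1 = T0.map sc + ({dL p x} + {dS p x} + {dR p x})) {q : Arc} (hq : q ∈ T0) :
    mx {sc q} T1 = mx {q} ({p} + T0) := by
  have h1 := mx_split hc hg hn (A := {q}) (Multiset.singleton_le.2 hq)
  have h2 := mx_dS (p := p) (x := x) {q}
  have h3 := mx_sc {q} T0
  rw [Multiset.map_singleton] at h1 h2 h3
  rw [hT1]
  simp only [mx_add_right]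
  omega

theorem dip_L (hT1 : T1 = T0.map sc + ({dL p x} + {dS p x} + {dR p x})) :
    mx {dL p x} T1 = mx (T0.map sc) {dL p x} := by
  rw [hT1]
  simp only [mx_add_right, mx_singleton, crs_self, crs_dL_dS, crs_dL_dR]
  rw [mx_comm]; omega

theorem dip_R (hT1 : T1 = T0.map sc + ({dL p x} + {dS p x} + {dR p x})) :
    mx {dR p x} T1 = mx (T0.map sc) {dR p x} := by
  rw [hT1]
  simp only [mx_add_right, mx_singleton, crs_self, crs_dR_dS]
  rw [mx_comm, crs_comm (dR p x), crs_dL_dR]; omega

theorem dip_S (hT1 : T1 = T0.map sc + ({dL p x} + {dS p x} + {dR p x})) :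
    mx {dS p x} T1 = 0 := by
  rw [hT1]
  simp only [mx_add_right, mx_singleton, crs_self]
  rw [mx_comm, mx_dS, crs_comm (dS p x) (dL p x), crs_dL_dS, crs_comm (dS p x) (dR p x), crs_dR_dS]

theorem mx_eq_sum (T B : Multiset Arc) : mx T B = (T.map fun q => mx {q} B).sum := by
  unfold mx
  simp

theorem dip_dbl (hc : Cov p x) (hg : Good T0) (hn : ∀ q ∈ T0, ¬ Nest p x q)
    (hT1 : T1 = T0.map sc + ({dL p x} + {dS p x} + {dR p x})) :
    mx T1 T1 = mx ({p} + T0) ({p} + T0) := by
  have h1 := mx_split hc hg hn (A := T0) le_rfl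
  have h2 := mx_dS (p := p) (x := x) T0
  have h3 := mx_sc T0 T0
  have h4 := dip_L hT1
  have h5 := dip_R hT1
  have h6 := dip_S hT1
  have e1 : mx T1 T1 = mx (T0.map sc) T1 + (mx {dL p x} T1 + mx {dS p x} T1 + mx {dR p x} T1) := by
    conv_lhs => rw [hT1]
    simp only [mx_add_left]
    rw [← hT1]
  have e2 : mx (T0.map sc) T1 = mx (T0.map sc) (T0.map sc) + (mx (T0.map sc) {dL p x} +
      mx (T0.map sc) {dS p x} + mx (T0.map sc) {dR p x}) := by
    rw [hT1]; simp only [mx_add_right]
  have e3 : mx ({p} + T0) ({p} + T0) = mx T0 T0 + 2 * mx T0 {p} := by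
    simp only [mx_add_left, mx_add_right, mx_singleton, crs_self]
    rw [mx_comm {p} T0]; ring
  omega

theorem dip_Phi (hc : Cov p x) (hg : Good T0) (hn : ∀ q ∈ T0, ¬ Nest p x q)
    (hT1 : T1 = T0.map sc + ({dL p x} + {dS p x} + {dR p x})) :
    Phi T1 + 2 * (mx (T0.map sc) {dL p x} * mx (T0.map sc) {dR p x}) = Phi ({p} + T0) := by
  have h1 := mx_split hc hg hn (A := T0) le_rfl
  have h4 := dip_L hT1
  have h5 := dip_R hT1
  have h6 := dip_S hT1
  have e1 : Phi T1 = (T0.map fun q => (mx {sc q} T1) ^ 2).sum +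
      ((mx {dL p x} T1) ^ 2 + (mx {dS p x} T1) ^ 2 + (mx {dR p x} T1) ^ 2) := by
    unfold Phi
    have : T1.map (fun r => (mx {r} T1) ^ 2) =
        (T0.map sc + ({dL p x} + {dS p x} + {dR p x})).map (fun r => (mx {r} T1) ^ 2) := by
      rw [← hT1]
    rw [this]
    simp only [Multiset.map_add, Multiset.sum_add, Multiset.map_singleton, Multiset.sum_singleton,
      Multiset.map_map, Function.comp_def]
  have e2 : Phi ({p} + T0) = (mx {p} ({p} + T0)) ^ 2 +
      (T0.map fun q => (mx {q} ({p} + T0)) ^ 2).sum := by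
    unfold Phi
    simp only [Multiset.map_add, Multiset.sum_add, Multiset.map_singleton, Multiset.sum_singleton]
  have e3 : (T0.map fun q => (mx {sc q} T1) ^ 2).sum =
      (T0.map fun q => (mx {q} ({p} + T0)) ^ 2).sum := by
    congr 1
    refine Multiset.map_congr rfl fun q hq => ?_
    rw [dip_old hc hg hn hT1 hq]
  have e4 : mx {p} ({p} + T0) = mx (T0.map sc) {dL p x} + mx (T0.map sc) {dR p x} := by
    rw [h1, mx_add_right, mx_singleton, crs_self, mx_comm]; ring
  rw [e1, e2, e3, e4, h4, h5, h6]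
  ring

end dip

/-- a crossing-minimal drawing with the least potential -/
def Drawing.Min2 (D : Drawing G) : Prop := D.Min ∧ ∀ D' : Drawing G, D'.Min → Phi D.T ≤ Phi D'.T

open Classical in
/-- the dip keeps a drawing minimal, and splits the crossings of the semicircle -/
theorem Drawing.Min2.dip {D : Drawing G} (hD : D.Min2) {p : Arc} (hp : p ∈ D.T) {x : ℤ}
    (hc : Cov p x) (hn : ∀ q ∈ D.T, ¬ Nest p x q) :
    ∃ (T0 : Multiset Arc) (D' : Drawing G), D'.Min2 ∧ D.T = {p} + T0 ∧
      D'.T = T0.map sc + ({dL p x} + {dS p x} + {dR p x}) ∧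
      mx (T0.map sc) {dL p x} * mx (T0.map sc) {dR p x} = 0 := by
  obtain ⟨T0, D', h1, h2⟩ := dip_exists D hp hc
  have hn' : ∀ q ∈ T0, ¬ Nest p x q := fun q hq => hn q (by rw [h1]; simp [hq])
  have hg : Good T0 := fun q hq => D.good q (by rw [h1]; simp [hq])
  have h3 := dip_dbl hc hg hn' h2
  have h4 := dip_Phi hc hg hn' h2
  rw [← h1] at h3 h4
  have hM : D'.Min := by
    intro D''
    rw [Drawing.dbl_eq D', h3, ← Drawing.dbl_eq]
    exact hD.1 D''
  have h5 := hD.2 D' hM
  exact ⟨T0, D', ⟨hM, fun D'' h'' => by have := hD.2 D'' h''; omega⟩, h1, h2, by omega⟩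

/-- scaling -/
def scl (M : ℤ) (q : Arc) : Arc := (q.1, M * q.2.1, M * q.2.2)

theorem scl_sc (M : ℤ) (q : Arc) : scl M (sc q) = scl (3 * M) q := by
  unfold scl sc
  simp only [Prod.mk.injEq, true_and]
  constructor <;> ring

theorem scl_one (q : Arc) : scl 1 q = q := by
  unfold scl; simp

theorem nest_sc {p q : Arc} {x : ℤ} : Nest (sc p) (3 * x + 1) (sc q) ↔ Nest p x q := by
  obtain ⟨s, a, b⟩ := p
  obtain ⟨s', c, d⟩ := q
  unfold Nest Cov sc
  simp only [ne_eq, Prod.mk.injEq]
  constructor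
  · rintro ⟨rfl, h1, h2, h3, h4⟩
    refine ⟨rfl, by omega, fun h => h2 ?_, by omega, by omega⟩
    rw [h.2.1, h.2.2]; simp
  · rintro ⟨rfl, h1, h2, h3, h4⟩
    refine ⟨rfl, by omega, fun h => h2 ?_, by omega, by omega⟩
    have := h.2.1
    have := h.2.2
    refine ⟨rfl, by omega, by omega⟩

theorem cov_sc {p : Arc} {x : ℤ} (h : Cov p x) : Cov (sc p) (3 * x + 1) := by
  unfold Cov sc at *; simp only; omega

open Classical in
/-- clearing the gap below a semicircle -/
theorem clear (n : ℕ) : ∀ (D : Drawing G), D.Min2 → ∀ (p : Arc) (x : ℤ) (A : Multiset Arc),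
    Cov p x → A ≤ D.T → (∀ q ∈ A, ¬ Nest p x q) → (D.T.filter (Nest p x)).card = n →
    ∃ (M c : ℤ) (D' : Drawing G), 0 ≤ c ∧ c < M ∧ D'.Min2 ∧ A.map (scl M) ≤ D'.T ∧
      ∀ q ∈ D'.T, ¬ Nest (scl M p) (M * x + c) q := by
  induction n with
  | zero =>
    intro D hD p x A hc hA hn h0
    refine ⟨1, 0, D, le_rfl, by norm_num, hD, ?_, ?_⟩
    · have : A.map (scl 1) = A := by
        conv_rhs => rw [← Multiset.map_id A]
        exact Multiset.map_congr rfl fun q _ => scl_one q
      rw [this]; exact hA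
    · intro q hq
      rw [scl_one, one_mul, add_zero]
      rw [Multiset.card_eq_zero, Multiset.filter_eq_nil] at h0
      exact h0 q hq
  | succ n ih =>
    intro D hD p x A hc hA hn h0
    -- the shortest nested semicircle
    have hne : ((D.T.filter (Nest p x)).toFinset).Nonempty := by
      rw [Multiset.toFinset_nonempty]
      intro h
      rw [h] at h0; simp at h0
    obtain ⟨R, hR, hmin⟩ := Finset.exists_min_image _ (fun q : Arc => q.2.2 - q.2.1) hne
    rw [Multiset.mem_toFinset, Multiset.mem_filter] at hR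
    obtain ⟨hRT, hRn⟩ := hR
    have hnR : ∀ q ∈ D.T, ¬ Nest R x q := by
      intro q hq hqR
      have h1 : Nest p x q := by
        refine ⟨hqR.1.trans hRn.1, hqR.2.1, ?_, le_trans hRn.2.2.2.1 hqR.2.2.2.1,
          le_trans hqR.2.2.2.2 hRn.2.2.2.2⟩
        rintro rfl
        apply hRn.2.2.1
        have h2 := hqR.2.2.2.1
        have h3 := hqR.2.2.2.2
        have h4 := hRn.2.2.2.1
        have h5 := hRn.2.2.2.2
        have h6 := hqR.1
        obtain ⟨s, a, b⟩ := q
        obtain ⟨s', c, d⟩ := R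
        simp only at h2 h3 h4 h5 h6
        simp only [Prod.mk.injEq]
        exact ⟨h6.symm, by omega, by omega⟩
      have h2 := hmin q (by rw [Multiset.mem_toFinset, Multiset.mem_filter]; exact ⟨hq, h1⟩)
      apply hqR.2.2.1
      have h4 := hqR.2.2.2.1
      have h5 := hqR.2.2.2.2
      have h6 := hqR.1
      obtain ⟨s, a, b⟩ := q
      obtain ⟨s', c, d⟩ := R
      simp only at h2 h4 h5 h6
      simp only [Prod.mk.injEq]
      exact ⟨h6, by omega, by omega⟩
    obtain ⟨T0, D1, hD1, h1, h2, -⟩ := hD.dip hRT hRn.2.1 hnR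
    have hRA : R ∉ A := fun h => hn R h hRn
    have hA0 : A ≤ T0 := by
      rw [h1, Multiset.singleton_add] at hA
      exact (Multiset.le_cons_of_notMem hRA).1 hA
    have hf : D1.T.filter (Nest (sc p) (3 * x + 1)) = (T0.filter (Nest p x)).map sc := by
      rw [h2, Multiset.filter_add]
      have e1 : ({dL R x} + {dS R x} + {dR R x} : Multiset Arc).filter
          (Nest (sc p) (3 * x + 1)) = 0 := by
        rw [Multiset.filter_eq_nil]
        intro q hq hq'
        simp only [Multiset.mem_add, Multiset.mem_singleton] at hq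
        obtain ⟨k1, k2, -⟩ := hq'
        unfold Cov at k2
        rcases hq with (rfl | rfl) | rfl
        · unfold dL at k2; simp only at k2; omega
        · unfold dS at k1
          have := hRn.1
          unfold sc at k1
          simp only at k1
          rw [this] at k1
          simp at k1
        · unfold dR at k2; simp only at k2; omega
      rw [e1, add_zero, Multiset.filter_map]
      congr 1
      refine Multiset.filter_congr fun q _ => ?_
      simp only [Function.comp_apply]
      exact nest_sc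
    have hcard : (D1.T.filter (Nest (sc p) (3 * x + 1))).card = n := by
      rw [hf, Multiset.card_map]
      have e2 : (D.T.filter (Nest p x)).card = (T0.filter (Nest p x)).card + 1 := by
        rw [h1, Multiset.singleton_add, Multiset.filter_cons_of_pos _ hRn, Multiset.card_cons]
      omega
    obtain ⟨M, c, D', k1, k2, k3, k4, k5⟩ := ih D1 hD1 (sc p) (3 * x + 1) (A.map sc)
      (cov_sc hc) (by
        rw [h2]
        exact le_trans (Multiset.map_le_map hA0) (Multiset.le_add_right _ _))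
      (by
        intro q hq
        rw [Multiset.mem_map] at hq
        obtain ⟨q, hq, rfl⟩ := hq
        rw [nest_sc]
        exact hn q hq) hcard
    refine ⟨3 * M, M + c, D', by omega, by omega, k3, ?_, ?_⟩
    · rw [Multiset.map_map] at k4
      have : A.map (scl (3 * M)) = A.map (scl M ∘ sc) :=
        Multiset.map_congr rfl fun q _ => (scl_sc M q).symm
      rw [this]
      exact k4
    · intro q hq
      have := k5 q hq
      rw [scl_sc] at this
      rw [show 3 * M * x + (M + c) = M * (3 * x + 1) + c by ring]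
      exact this

end Pool.Agent.Work.MP_c0cec8_co.Spine
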