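import Pool.Agent.Work.MP_c0cec8_co.Spine.Norm

/-!
# Every semicircle is crossed at most once
-/

namespace Pool.Agent.Work.MP_c0cec8_co.Spine

open Finset

variable {V : Type*} [Finite V] {G : SimpleGraph V}

/-- `Q` crosses `P` and its end under `P` is on the left of the gap after `x` -/
def CL (P : Arc) (x : ℤ) (Q : Arc) : Prop := Q.1 = P.1 ∧
  ((Q.2.1 < P.2.1 ∧ P.2.1 < Q.2.2 ∧ Q.2.2 ≤ x) ∨ (P.2.1 < Q.2.1 ∧ Q.2.1 ≤ x ∧ P.2.2 < Q.2.2))

/-- `Q` crosses `P` and its end under `P` is on the right of the gap after `x` -/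
def CR (P : Arc) (x : ℤ) (Q : Arc) : Prop := Q.1 = P.1 ∧
  ((Q.2.1 < P.2.1 ∧ x < Q.2.2 ∧ Q.2.2 < P.2.2) ∨ (x < Q.2.1 ∧ Q.2.1 < P.2.2 ∧ P.2.2 < Q.2.2))

theorem mul_lt {M a b : ℤ} (hM : 0 < M) (h : a < b) : M * a < M * b :=
  mul_lt_mul_of_pos_left h hM

theorem mul_le {M c a b : ℤ} (hM : 0 < M) (hc : 0 ≤ c) (h : a ≤ b) : M * a ≤ M * b + c := by
  have := mul_le_mul_of_nonneg_left h hM.le
  omega

theorem mul_lt' {M c a b : ℤ} (hc : c < M) (hM : 0 < M) (h : a < b) : M * a + c < M * b := by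
  have : M * (a + 1) ≤ M * b := mul_le_mul_of_nonneg_left (by omega) hM.le
  rw [mul_add, mul_one] at this
  omega

theorem CL.scl {P Q : Arc} {x M c : ℤ} (h : CL P x Q) (hc : 0 ≤ c) (hM : c < M) :
    CL (scl M P) (M * x + c) (scl M Q) := by
  have hM' : 0 < M := lt_of_le_of_lt hc hM
  obtain ⟨h0, h | h⟩ := h
  · exact ⟨h0, Or.inl ⟨mul_lt hM' h.1, mul_lt hM' h.2.1, mul_le hM' hc h.2.2⟩⟩
  · exact ⟨h0, Or.inr ⟨mul_lt hM' h.1, mul_le hM' hc h.2.1, mul_lt hM' h.2.2⟩⟩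

theorem CR.scl {P Q : Arc} {x M c : ℤ} (h : CR P x Q) (hc : 0 ≤ c) (hM : c < M) :
    CR (scl M P) (M * x + c) (scl M Q) := by
  have hM' : 0 < M := lt_of_le_of_lt hc hM
  obtain ⟨h0, h | h⟩ := h
  · exact ⟨h0, Or.inl ⟨mul_lt hM' h.1, mul_lt' hM hM' h.2.1, mul_lt hM' h.2.2⟩⟩
  · exact ⟨h0, Or.inr ⟨mul_lt' hM hM' h.1, mul_lt hM' h.2.1, mul_lt hM' h.2.2⟩⟩

theorem Cov.scl {P : Arc} {x M c : ℤ} (h : Cov P x) (hc : 0 ≤ c) (hM : c < M) :
    Cov (scl M P) (M * x + c) := by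
  have hM' : 0 < M := lt_of_le_of_lt hc hM
  exact ⟨mul_le hM' hc h.1, mul_lt' hM hM' h.2⟩

theorem CL.crs {P Q : Arc} {x : ℤ} (h : CL P x Q) (hc : Cov P x) : crs (sc Q) (dL P x) = 1 := by
  unfold CL at h
  unfold Cov at hc
  unfold Spine.crs sc dL
  rw [if_pos]
  refine ⟨h.1, ?_⟩
  simp only
  omega

theorem CR.crs {P Q : Arc} {x : ℤ} (h : CR P x Q) (hc : Cov P x) : crs (sc Q) (dR P x) = 1 := by
  unfold CR at h
  unfold Cov at hc
  unfold Spine.crs sc dR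
  rw [if_pos]
  refine ⟨h.1, ?_⟩
  simp only
  omega

theorem mx_one_le {A : Multiset Arc} {p q : Arc} (hq : q ∈ A) (h : crs q p = 1) :
    1 ≤ mx A {p} := by
  have := mx_mono (Multiset.singleton_le.2 hq) (le_refl ({p} : Multiset Arc))
  rw [mx_singleton, h] at this
  exact this

/-- no two crossings on a semicircle with different inner ends -/
theorem Drawing.Min2.split {D : Drawing G} (hD : D.Min2) {P Q1 Q2 : Arc}
    (hP : P ∈ D.T) (hQ1 : Q1 ∈ D.T) (hQ2 : Q2 ∈ D.T) {x : ℤ} (hc : Cov P x) (h1 : CL P x Q1)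
    (h2 : CR P x Q2) : False := by
  classical
  have n1 : P ≠ Q1 := by
    rintro rfl; unfold CL at h1; omega
  have n2 : P ≠ Q2 := by
    rintro rfl; unfold CR at h2; omega
  have n3 : Q1 ≠ Q2 := by
    rintro rfl; unfold CL at h1; unfold CR at h2; unfold Cov at hc; omega
  have hnd : ({P, Q1, Q2} : Multiset Arc).Nodup := by
    simp [n1, n2, n3]
  have hA : ({P, Q1, Q2} : Multiset Arc) ≤ D.T := by
    rw [Multiset.le_iff_subset hnd]
    intro q hq
    simp only [Multiset.insert_eq_cons, Multiset.mem_cons, Multiset.mem_singleton] at hq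
    rcases hq with rfl | rfl | rfl <;> assumption
  obtain ⟨M, c, D', k1, k2, k3, k4, k5⟩ := clear _ D hD P x {P, Q1, Q2} hc hA (by
    intro q hq
    simp only [Multiset.insert_eq_cons, Multiset.mem_cons, Multiset.mem_singleton] at hq
    rcases hq with rfl | rfl | rfl
    · exact fun h => h.2.2.1 rfl
    · intro h; unfold Nest Cov at h; unfold CL at h1; omega
    · intro h; unfold Nest Cov at h; unfold CR at h2; omega) rfl
  have hc' := hc.scl k1 k2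
  have mP : scl M P ∈ D'.T := Multiset.mem_of_le k4 (by simp)
  have m1 : scl M Q1 ∈ D'.T := Multiset.mem_of_le k4 (by simp)
  have m2 : scl M Q2 ∈ D'.T := Multiset.mem_of_le k4 (by simp)
  have h1' := h1.scl k1 k2
  have h2' := h2.scl k1 k2
  obtain ⟨T0, D'', -, g1, g2, g3⟩ := k3.dip mP hc' k5
  have m1' : scl M Q1 ∈ T0 := by
    rw [g1, Multiset.mem_add, Multiset.mem_singleton] at m1
    rcases m1 with h | h
    · exfalso; rw [h] at h1'; unfold CL at h1'; omega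
    · exact h
  have m2' : scl M Q2 ∈ T0 := by
    rw [g1, Multiset.mem_add, Multiset.mem_singleton] at m2
    rcases m2 with h | h
    · exfalso; rw [h] at h2'; unfold CR at h2'; omega
    · exact h
  have e1 := mx_one_le (Multiset.mem_map_of_mem sc m1') (h1'.crs hc')
  have e2 := mx_one_le (Multiset.mem_map_of_mem sc m2') (h2'.crs hc')
  rcases Nat.mul_eq_zero.1 g3 with h | h <;> omega

/-- the left type -/
def LT (P Q : Arc) : Prop := Q.1 = P.1 ∧ Q.2.1 < P.2.1 ∧ P.2.1 < Q.2.2 ∧ Q.2.2 < P.2.2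

/-- the right type -/
def RT (P Q : Arc) : Prop := Q.1 = P.1 ∧ P.2.1 < Q.2.1 ∧ Q.2.1 < P.2.2 ∧ P.2.2 < Q.2.2

theorem crs_eq_one {P Q : Arc} (h : crs P Q = 1) : LT P Q ∨ RT P Q := by
  unfold crs at h
  unfold LT RT
  split_ifs at h with h1
  rcases h1.2 with h2 | h2
  · exact Or.inr ⟨h1.1.symm, h2⟩
  · exact Or.inl ⟨h1.1.symm, h2⟩

theorem Drawing.Min2.tie_left {D : Drawing G} (hD : D.Min2) {P Q1 Q2 : Arc}
    (hA : {P} + {Q1} + {Q2} ≤ D.T) (h1 : LT P Q1)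
    (h2 : (LT P Q2 ∧ Q2.2.2 = Q1.2.2 ∧ (Q2 = Q1 ∨ Q2.2.1 < Q1.2.1)) ∨
      (RT P Q2 ∧ Q2.2.1 = Q1.2.2)) : False := by
  classical
  set x := Q1.2.2 - 1 with hx
  have hc : Cov Q1 x := by unfold LT at h1; unfold Cov; omega
  obtain ⟨M, c, D', k1, k2, k3, k4, k5⟩ := clear _ D hD Q1 x ({P} + {Q1} + {Q2}) hc hA (by
    intro q hq
    simp only [Multiset.mem_add, Multiset.mem_singleton] at hq
    rcases hq with (rfl | rfl) | rfl
    · intro h; unfold Nest at h; unfold LT at h1; omega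
    · exact fun h => h.2.2.1 rfl
    · intro h
      rcases h2 with ⟨g1, g2, rfl | g3⟩ | ⟨g1, g2⟩
      · exact h.2.2.1 rfl
      · unfold Nest at h; omega
      · unfold Nest Cov at h; omega) rfl
  have hM : 0 < M := by omega
  have hc' := hc.scl k1 k2
  simp only [Multiset.map_add, Multiset.map_singleton] at k4
  have m1 : scl M Q1 ∈ D'.T := Multiset.mem_of_le k4 (by simp)
  obtain ⟨T0, D'', g0, g1, g2, -⟩ := k3.dip m1 hc' k5
  have k6 : {scl M P} + {scl M Q2} ≤ T0 := by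
    rw [g1, show ({scl M P} : Multiset Arc) + {scl M Q1} + {scl M Q2} =
      {scl M Q1} + ({scl M P} + {scl M Q2}) by abel] at k4
    exact (Multiset.add_le_add_iff_left).1 k4
  have mP : sc (scl M P) ∈ D''.T := by
    rw [g2]
    exact Multiset.mem_add.2 (Or.inl (Multiset.mem_map_of_mem sc
      (Multiset.mem_of_le k6 (by simp))))
  have mQ : sc (scl M Q2) ∈ D''.T := by
    rw [g2]
    exact Multiset.mem_add.2 (Or.inl (Multiset.mem_map_of_mem sc
      (Multiset.mem_of_le k6 (by simp))))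
  have mL : dL (scl M Q1) (M * x + c) ∈ D''.T := by
    rw [g2]; simp
  have b1 : M * P.2.1 ≤ M * x + c := mul_le hM k1 (by unfold LT at h1; omega)
  have b2 : M * x + c < M * Q1.2.2 := mul_lt' k2 hM (by omega)
  have b3 : M * Q1.2.1 < M * P.2.1 := mul_lt hM h1.2.1
  have b4 : M * Q1.2.2 < M * P.2.2 := mul_lt hM h1.2.2.2
  refine g0.split mP mL mQ (x := 3 * (M * x + c) + 1) ?_ ?_ ?_
  · unfold Cov sc scl
    simp only
    constructor <;> omega
  · refine ⟨h1.1, Or.inl ?_⟩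
    unfold dL sc scl
    simp only
    refine ⟨?_, ?_, ?_⟩ <;> omega
  · rcases h2 with ⟨g1, g2, -⟩ | ⟨g1, g2⟩
    · refine ⟨g1.1, Or.inl ?_⟩
      have b5 : M * Q2.2.1 < M * P.2.1 := mul_lt hM g1.2.1
      unfold sc scl
      simp only
      rw [g2]
      refine ⟨?_, ?_, ?_⟩ <;> omega
    · refine ⟨g1.1, Or.inr ?_⟩
      have b5 : M * P.2.2 < M * Q2.2.2 := mul_lt hM g1.2.2.2
      unfold sc scl
      simp only
      rw [g2]
      refine ⟨?_, ?_, ?_⟩ <;> omega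

theorem Drawing.Min2.tie_right {D : Drawing G} (hD : D.Min2) {P Q1 Q2 : Arc}
    (hA : {P} + {Q1} + {Q2} ≤ D.T) (h1 : RT P Q1)
    (h2 : RT P Q2) (h3 : Q2.2.1 = Q1.2.1) (h4 : Q2 = Q1 ∨ Q1.2.2 < Q2.2.2) : False := by
  classical
  set x := Q1.2.1 with hx
  have hc : Cov Q1 x := by unfold RT at h1; unfold Cov; omega
  obtain ⟨M, c, D', k1, k2, k3, k4, k5⟩ := clear _ D hD Q1 x ({P} + {Q1} + {Q2}) hc hA (by
    intro q hq
    simp only [Multiset.mem_add, Multiset.mem_singleton] at hq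
    rcases hq with (rfl | rfl) | rfl
    · intro h; unfold Nest at h; unfold RT at h1; omega
    · exact fun h => h.2.2.1 rfl
    · intro h
      rcases h4 with rfl | g3
      · exact h.2.2.1 rfl
      · unfold Nest at h; omega) rfl
  have hM : 0 < M := by omega
  have hc' := hc.scl k1 k2
  simp only [Multiset.map_add, Multiset.map_singleton] at k4
  have m1 : scl M Q1 ∈ D'.T := Multiset.mem_of_le k4 (by simp)
  obtain ⟨T0, D'', g0, g1, g2, -⟩ := k3.dip m1 hc' k5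
  have k6 : {scl M P} + {scl M Q2} ≤ T0 := by
    rw [g1, show ({scl M P} : Multiset Arc) + {scl M Q1} + {scl M Q2} =
      {scl M Q1} + ({scl M P} + {scl M Q2}) by abel] at k4
    exact (Multiset.add_le_add_iff_left).1 k4
  have mP : sc (scl M P) ∈ D''.T := by
    rw [g2]
    exact Multiset.mem_add.2 (Or.inl (Multiset.mem_map_of_mem sc
      (Multiset.mem_of_le k6 (by simp))))
  have mQ : sc (scl M Q2) ∈ D''.T := by
    rw [g2]
    exact Multiset.mem_add.2 (Or.inl (Multiset.mem_map_of_mem sc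
      (Multiset.mem_of_le k6 (by simp))))
  have mR : dR (scl M Q1) (M * x + c) ∈ D''.T := by
    rw [g2]; simp
  have b1 : M * P.2.1 < M * x := mul_lt hM h1.2.1
  have b2 : M * x + c < M * P.2.2 := mul_lt' k2 hM h1.2.2.1
  have b3 : M * P.2.2 < M * Q1.2.2 := mul_lt hM h1.2.2.2
  have b4 : M * P.2.2 < M * Q2.2.2 := mul_lt hM h2.2.2.2
  refine g0.split mP mQ mR (x := 3 * (M * x + c) + 1) ?_ ?_ ?_
  · unfold Cov sc scl
    simp only
    constructor <;> omega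
  · refine ⟨h2.1, Or.inr ?_⟩
    unfold sc scl
    simp only
    rw [h3]
    refine ⟨?_, ?_, ?_⟩ <;> omega
  · refine ⟨h1.1, Or.inr ?_⟩
    unfold dR sc scl
    simp only
    refine ⟨?_, ?_, ?_⟩ <;> omega

theorem Drawing.Min2.pair {D : Drawing G} (hD : D.Min2) {P Q1 Q2 : Arc}
    (hA : {P} + {Q1} + {Q2} ≤ D.T) (h1 : crs P Q1 = 1) (h2 : crs P Q2 = 1) : False := by
  have hA' : {P} + {Q2} + {Q1} ≤ D.T := by
    rw [show ({P} : Multiset Arc) + {Q2} + {Q1} = {P} + {Q1} + {Q2} by abel]; exact hA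
  have mP : P ∈ D.T := Multiset.mem_of_le hA (by simp)
  have m1 : Q1 ∈ D.T := Multiset.mem_of_le hA (by simp)
  have m2 : Q2 ∈ D.T := Multiset.mem_of_le hA (by simp)
  have key : ∀ Q Q' : Arc, Q ∈ D.T → Q' ∈ D.T → ∀ z z' : ℤ,
      ((LT P Q ∧ z = Q.2.2) ∨ (RT P Q ∧ z = Q.2.1)) →
      ((LT P Q' ∧ z' = Q'.2.2) ∨ (RT P Q' ∧ z' = Q'.2.1)) → z < z' → False := by
    intro Q Q' hQ hQ' z z' h h' hz
    unfold LT RT at h h'
    refine hD.split mP hQ hQ' (x := z) ?_ ?_ ?_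
    · unfold Cov
      rcases h with h | h <;> rcases h' with h' | h' <;> constructor <;> omega
    · unfold CL
      rcases h with h | h
      · exact ⟨h.1.1, Or.inl (by omega)⟩
      · exact ⟨h.1.1, Or.inr (by omega)⟩
    · unfold CR
      rcases h' with h' | h'
      · exact ⟨h'.1.1, Or.inl (by omega)⟩
      · exact ⟨h'.1.1, Or.inr (by omega)⟩
  have ext : ∀ Q Q' : Arc, Q.1 = Q'.1 → Q.2.1 = Q'.2.1 → Q.2.2 = Q'.2.2 → Q = Q' := by
    rintro ⟨s, a, b⟩ ⟨s', a', b'⟩ h h' h''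
    simp only at h h' h''
    rw [h, h', h'']
  rcases crs_eq_one h1 with c1 | c1 <;> rcases crs_eq_one h2 with c2 | c2
  · rcases lt_trichotomy Q1.2.2 Q2.2.2 with h | h | h
    · exact key Q1 Q2 m1 m2 _ _ (Or.inl ⟨c1, rfl⟩) (Or.inl ⟨c2, rfl⟩) h
    · rcases lt_trichotomy Q1.2.1 Q2.2.1 with h' | h' | h'
      · exact hD.tie_left hA' c2 (Or.inl ⟨c1, h, Or.inr h'⟩)
      · exact hD.tie_left hA c1 (Or.inl ⟨c2, h.symm, Or.inl
          (ext _ _ (c2.1.trans c1.1.symm) h'.symm h.symm)⟩)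
      · exact hD.tie_left hA c1 (Or.inl ⟨c2, h.symm, Or.inr h'⟩)
    · exact key Q2 Q1 m2 m1 _ _ (Or.inl ⟨c2, rfl⟩) (Or.inl ⟨c1, rfl⟩) h
  · rcases lt_trichotomy Q1.2.2 Q2.2.1 with h | h | h
    · exact key Q1 Q2 m1 m2 _ _ (Or.inl ⟨c1, rfl⟩) (Or.inr ⟨c2, rfl⟩) h
    · exact hD.tie_left hA c1 (Or.inr ⟨c2, h.symm⟩)
    · exact key Q2 Q1 m2 m1 _ _ (Or.inr ⟨c2, rfl⟩) (Or.inl ⟨c1, rfl⟩) h
  · rcases lt_trichotomy Q1.2.1 Q2.2.2 with h | h | h
    · exact key Q1 Q2 m1 m2 _ _ (Or.inr ⟨c1, rfl⟩) (Or.inl ⟨c2, rfl⟩) h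
    · exact hD.tie_left hA' c2 (Or.inr ⟨c1, h⟩)
    · exact key Q2 Q1 m2 m1 _ _ (Or.inl ⟨c2, rfl⟩) (Or.inr ⟨c1, rfl⟩) h
  · rcases lt_trichotomy Q1.2.1 Q2.2.1 with h | h | h
    · exact key Q1 Q2 m1 m2 _ _ (Or.inr ⟨c1, rfl⟩) (Or.inr ⟨c2, rfl⟩) h
    · rcases lt_trichotomy Q1.2.2 Q2.2.2 with h' | h' | h'
      · exact hD.tie_right hA c1 c2 h.symm (Or.inr h')
      · exact hD.tie_right hA c1 c2 h.symm (Or.inl
          (ext _ _ (c2.1.trans c1.1.symm) h.symm h'.symm))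
      · exact hD.tie_right hA' c2 c1 h (Or.inr h')
    · exact key Q2 Q1 m2 m1 _ _ (Or.inr ⟨c2, rfl⟩) (Or.inr ⟨c1, rfl⟩) h

theorem Drawing.Min2.norm {D : Drawing G} (hD : D.Min2) {P : Arc} (hP : P ∈ D.T) :
    mx {P} D.T ≤ 1 := by
  by_contra h
  push Not at h
  obtain ⟨p, hp, q, hq, hpq⟩ := mx_pos (A := {P}) (B := D.T) (by omega)
  rw [Multiset.mem_singleton] at hp
  subst hp
  obtain ⟨T', hT'⟩ := Multiset.exists_cons_of_mem hq
  rw [hT', ← Multiset.singleton_add, mx_add_right, mx_singleton, hpq] at h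
  obtain ⟨p', hp', q', hq', hpq'⟩ := mx_pos (A := {p}) (B := T') (by omega)
  rw [Multiset.mem_singleton] at hp'
  subst hp'
  obtain ⟨T'', hT''⟩ := Multiset.exists_cons_of_mem hq'
  have n1 : p' ≠ q := by rintro rfl; rw [crs_self] at hpq; omega
  have n2 : p' ≠ q' := by rintro rfl; rw [crs_self] at hpq'; omega
  rw [hT', hT''] at hP
  have hP' : p' ∈ T'' := by
    rcases Multiset.mem_cons.1 hP with h | h
    · exact absurd h n1
    · rcases Multiset.mem_cons.1 h with h | h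
      · exact absurd h n2
      · exact h
  refine hD.pair (P := p') (Q1 := q) (Q2 := q') ?_ hpq hpq'
  rw [hT', hT'', add_assoc, ← Multiset.singleton_add, ← Multiset.singleton_add, ← add_assoc,
    ← add_assoc, add_comm]
  rw [show ({q} : Multiset Arc) + {q'} + T'' = T'' + ({q} + {q'}) by abel,
    add_comm]
  exact add_le_add_left (Multiset.singleton_le.2 hP') _

end Pool.Agent.Work.MP_c0cec8_co.Spine
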