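import Pool.Agent.Work.MP_c0cec8_co.Spine.Norm2

/-!
# Small displacements, rotation of the axis
-/

namespace Pool.Agent.Work.MP_c0cec8_co.Spine

theorem seg_fst (t : Bool) (a b : ℤ) : (seg t a b).1 = t := rfl

/-- alternation depends only on the comparison of points of different pairs -/
theorem alt_near {a b c d A B C D : ℤ} (n1 : a ≠ c) (n2 : a ≠ d) (n3 : b ≠ c) (n4 : b ≠ d)
    (h1 : a < c → A < C) (h2 : c < a → C < A) (h3 : a < d → A < D) (h4 : d < a → D < A)
    (h5 : b < c → B < C) (h6 : c < b → C < B) (h7 : b < d → B < D) (h8 : d < b → D < B) :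
    Alt A B C D ↔ Alt a b c d := by
  rcases lt_or_gt_of_ne n1 with g1 | g1 <;> rcases lt_or_gt_of_ne n2 with g2 | g2 <;>
    rcases lt_or_gt_of_ne n3 with g3 | g3 <;> rcases lt_or_gt_of_ne n4 with g4 | g4 <;>
    simp only [g1, g2, g3, g4, true_imp_iff] at h1 h2 h3 h4 h5 h6 h7 h8 <;>
    unfold Alt Sp <;> constructor <;> intro h <;> omega

theorem near_lt {M k u v ε ε' : ℤ} (hM : 2 * k < M) (h1 : |ε| ≤ k) (h2 : |ε'| ≤ k) (h : u < v) :
    M * u + ε < M * v + ε' := by
  have hk : 0 ≤ k := le_trans (abs_nonneg _) h1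
  have h3 : M * (u + 1) ≤ M * v := mul_le_mul_of_nonneg_left (by omega) (by omega)
  rw [mul_add, mul_one] at h3
  rw [abs_le] at h1 h2
  omega

theorem near_ne {M k u v ε ε' : ℤ} (hM : 2 * k < M) (h1 : |ε| ≤ k) (h2 : |ε'| ≤ k) (h : u ≠ v) :
    M * u + ε ≠ M * v + ε' := by
  rcases lt_or_gt_of_ne h with h | h
  · exact (near_lt hM h1 h2 h).ne
  · exact (near_lt hM h2 h1 h).ne'

theorem crs_congr_alt {a b c d A B C D : ℤ} (h : Alt A B C D ↔ Alt a b c d) (s t : Bool) :
    crs (seg s A B) (seg t C D) = crs (seg s a b) (seg t c d) := by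
  rw [crs_seg_seg, crs_seg_seg]
  simp only [h]

/-- small displacements do not change a crossing, if the pairs of points are disjoint -/
theorem crs_near {M k a b c d e1 e2 e3 e4 : ℤ} (hM : 2 * k < M) (h1 : |e1| ≤ k) (h2 : |e2| ≤ k)
    (h3 : |e3| ≤ k) (h4 : |e4| ≤ k) (n1 : a ≠ c) (n2 : a ≠ d) (n3 : b ≠ c) (n4 : b ≠ d)
    (s t : Bool) : crs (seg s (M * a + e1) (M * b + e2)) (seg t (M * c + e3) (M * d + e4)) =
      crs (seg s a b) (seg t c d) := by
  exact crs_congr_alt (alt_near n1 n2 n3 n4 (near_lt hM h1 h3) (near_lt hM h3 h1)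
    (near_lt hM h1 h4) (near_lt hM h4 h1) (near_lt hM h2 h3) (near_lt hM h3 h2)
    (near_lt hM h2 h4) (near_lt hM h4 h2)) s t

/-- a semicircle that crosses neither `a b` nor `c d` does not separate `a` from `c` -/
theorem alt_V {a b c d r s : ℤ} (h : Alt a b c d) (h1 : ¬ Alt r s a b) (h2 : ¬ Alt r s c d) :
    ¬ Alt r s a c := by
  unfold Alt Sp at *
  omega

theorem crs_V {t : Bool} {a b c d : ℤ} (h : Alt a b c d) {s : Bool} {r r' : ℤ}
    (h1 : crs (seg s r r') (seg t a b) = 0) (h2 : crs (seg s r r') (seg t c d) = 0) :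
    crs (seg s r r') (seg t a c) = 0 := by
  rw [crs_seg_seg_eq_zero] at *
  intro hs
  exact alt_V h (h1 hs) (h2 hs)

theorem crs_shared_left {s t : Bool} {a b c : ℤ} : crs (seg s a b) (seg t a c) = 0 := by
  rw [crs_seg_seg_eq_zero]; intro _ h; exact h.ne.2.1 rfl

/-- rotation of the axis -/
def rot (W C s z : ℤ) : ℤ := if z ≤ C then z + s + W else z + s

theorem rot_alt {W C s H a b c d : ℤ} (hW : 2 * H ≤ W) (ha : |a| < H) (hb : |b| < H)
    (hc : |c| < H) (hd : |d| < H) : Alt (rot W C s a) (rot W C s b) (rot W C s c) (rot W C s d) ↔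
      Alt a b c d := by
  rw [abs_lt] at ha hb hc hd
  unfold rot
  split_ifs <;> unfold Alt Sp <;> constructor <;> intro h <;> omega

theorem rot_inj {W C s H a b : ℤ} (hW : 2 * H ≤ W) (ha : |a| < H) (hb : |b| < H)
    (h : rot W C s a = rot W C s b) : a = b := by
  rw [abs_lt] at ha hb
  unfold rot at h
  split_ifs at h <;> omega

/-- the action of a map of the axis on semicircles -/
def mp (φ : ℤ → ℤ) (q : Arc) : Arc := seg q.1 (φ q.2.1) (φ q.2.2)

theorem mp_seg (φ : ℤ → ℤ) (s : Bool) (a b : ℤ) : mp φ (seg s a b) = seg s (φ a) (φ b) := by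
  unfold mp
  change seg s (φ (min a b)) (φ (max a b)) = _
  rcases le_total a b with h | h
  · rw [min_eq_left h, max_eq_right h]
  · rw [min_eq_right h, max_eq_left h, seg_comm]

theorem chain_map (φ : ℤ → ℤ) (s : Bool) (L : List ℤ) :
    chain s (L.map φ) = (chain s L).map (mp φ) := by
  induction L generalizing s with
  | nil => rfl
  | cons x L ih =>
    rcases L with _ | ⟨y, L⟩
    · rfl
    · have := ih (!s)
      rw [List.map_cons] at this
      rw [List.map_cons, List.map_cons, chain_cons_cons, this, chain_cons_cons, List.map_cons,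
        mp_seg]

theorem eq_seg {q : Arc} (h : q.2.1 ≤ q.2.2) : q = seg q.1 q.2.1 q.2.2 := by
  obtain ⟨s, a, b⟩ := q
  simp only at h
  unfold seg
  simp only [min_eq_left h, max_eq_right h]

/-- both ends of a semicircle satisfy a property -/
def Ends (P : ℤ → Prop) (q : Arc) : Prop := P q.2.1 ∧ P q.2.2

theorem Ends.seg {P : ℤ → Prop} {s : Bool} {a b : ℤ} (ha : P a) (hb : P b) :
    Ends P (seg s a b) := by
  unfold Ends Spine.seg
  rcases le_total a b with h | h <;>
    simp only [min_eq_left, min_eq_right, max_eq_left, max_eq_right, h] <;> exact ⟨by assumption, by assumption⟩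

theorem ends_seg_iff {P : ℤ → Prop} {s : Bool} {a b : ℤ} : Ends P (seg s a b) ↔ P a ∧ P b := by
  refine ⟨?_, fun h => Ends.seg h.1 h.2⟩
  unfold Ends Spine.seg
  rcases le_total a b with h | h <;>
    simp only [min_eq_left, min_eq_right, max_eq_left, max_eq_right, h] <;> tauto

theorem chain_ends {P : ℤ → Prop} {s : Bool} {L : List ℤ} (h : ∀ z ∈ L, P z) {q : Arc}
    (hq : q ∈ chain s L) : Ends P q := by
  obtain ⟨X, Z, hX, hZ, rfl, rfl⟩ := mem_chain hq
  exact Ends.seg (h _ (by simp)) (h _ (by simp))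

theorem crs_mp_rot {W C s H : ℤ} (hW : 2 * H ≤ W) {p q : Arc} (hp : p.2.1 ≤ p.2.2)
    (hq : q.2.1 ≤ q.2.2) (h1 : Ends (fun z => |z| < H) p) (h2 : Ends (fun z => |z| < H) q) :
    crs (mp (rot W C s) p) (mp (rot W C s) q) = crs p q := by
  conv_rhs => rw [eq_seg hp, eq_seg hq]
  exact crs_congr_alt (rot_alt hW h1.1 h1.2 h2.1 h2.2) _ _

end Pool.Agent.Work.MP_c0cec8_co.Spine
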