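import Pool.Agent.Work.MP_c0cec8_co.Spine.Split

/-!
# Edges with an end of degree one cause no crossings
-/

namespace Pool.Agent.Work.MP_c0cec8_co.Spine

open Finset

variable {V : Type*} [Finite V] {G : SimpleGraph V}

theorem dbl_strictMono : StrictMono (fun z : ℤ => 2 * z) := fun a b h => by
  show 2 * a < 2 * b
  omega

/-- an isolated vertex `v` of a graph can be joined to a vertex `a` without new crossings -/
theorem cr_pendant {H H' : SimpleGraph V} {a v : V} (hav : a ≠ v) (hiso : ∀ w, ¬ H.Adj v w)
    (hH' : H'.edgeSet = insert s(a, v) H.edgeSet) : cr H' ≤ cr H := by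
  classical
  obtain ⟨D, hD⟩ := exists_min H
  have hve : ∀ g ∈ H.edgeSet, v ∉ g := by
    intro g hg hv
    induction g using Sym2.ind with
    | h x y =>
      rw [SimpleGraph.mem_edgeSet] at hg
      rcases Sym2.mem_iff.1 hv with rfl | rfl
      · exact hiso _ hg
      · exact hiso _ hg.symm
  have hne : ∀ g ∈ H.edgeSet, g ≠ s(a, v) := by
    rintro g hg rfl
    exact hve _ hg (Sym2.mem_mk_right _ _)
  set pos' : V → ℤ := fun w => if w = v then 2 * D.pos a + 1 else 2 * D.pos w with hpos'
  set pts' : Sym2 V → List ℤ := fun g => if g = s(a, v) then [2 * D.pos a, 2 * D.pos a + 1] else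
    (D.pts g).map (fun z => 2 * z) with hpts'
  have pv : pos' v = 2 * D.pos a + 1 := if_pos rfl
  have pw : ∀ w, w ≠ v → pos' w = 2 * D.pos w := fun w hw => if_neg hw
  have qe : pts' s(a, v) = [2 * D.pos a, 2 * D.pos a + 1] := if_pos rfl
  have qg : ∀ g, g ≠ s(a, v) → pts' g = (D.pts g).map (fun z => 2 * z) := fun g hg => if_neg hg
  have hmem : ∀ g, g ∈ H'.edgeSet → g = s(a, v) ∨ (g ≠ s(a, v) ∧ g ∈ H.edgeSet) := by
    intro g hg
    rw [hH', Set.mem_insert_iff] at hg
    rcases hg with h | h
    · exact Or.inl h
    · exact Or.inr ⟨hne g h, h⟩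
  set D' : Drawing H' :=
    { pos := pos'
      side := D.side
      pts := pts'
      pos_inj := by
        intro x y hxy
        by_cases hx : x = v
        · by_cases hy : y = v
          · rw [hx, hy]
          · rw [hx, pv, pw y hy] at hxy; omega
        · by_cases hy : y = v
          · rw [hy, pv, pw x hx] at hxy; omega
          · rw [pw x hx, pw y hy] at hxy
            exact D.pos_inj (by omega)
      ends := by
        intro g hg
        rcases hmem g hg with rfl | ⟨h1, h2⟩
        · refine ⟨a, v, [], rfl, ?_⟩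
          rw [qe, pv, pw a hav]; rfl
        · obtain ⟨x, y, l, hxy, hl⟩ := D.ends g h2
          refine ⟨x, y, l.map (fun z => 2 * z), hxy, ?_⟩
          have hx : x ≠ v := by
            rintro rfl; exact hve g h2 (by rw [hxy]; exact Sym2.mem_mk_left _ _)
          have hy : y ≠ v := by
            rintro rfl; exact hve g h2 (by rw [hxy]; exact Sym2.mem_mk_right _ _)
          rw [qg g h1, pw x hx, pw y hy, hl]
          simp
      nodup := by
        intro g hg
        rcases hmem g hg with rfl | ⟨h1, h2⟩
        · rw [qe]; simp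
        · rw [qg g h1]
          exact (D.nodup g h2).map dbl_strictMono.injective
      own := by
        intro g hg w hw
        rcases hmem g hg with rfl | ⟨h1, h2⟩
        · rw [qe] at hw
          simp only [List.mem_cons, List.not_mem_nil, or_false] at hw
          by_cases hwv : w = v
          · rw [hwv]; exact Sym2.mem_mk_right _ _
          · rw [pw w hwv] at hw
            have : D.pos w = D.pos a := by omega
            rw [D.pos_inj this]; exact Sym2.mem_mk_left _ _
        · rw [qg g h1, List.mem_map] at hw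
          obtain ⟨z, hz, hzw⟩ := hw
          by_cases hwv : w = v
          · rw [hwv, pv] at hzw; omega
          · rw [pw w hwv] at hzw
            have : z = D.pos w := by omega
            rw [this] at hz
            exact D.own g h2 w hz
      disj := by
        intro g hg g' hg' hgg z hz hz'
        rcases hmem g hg with rfl | ⟨h1, h2⟩
        · rcases hmem g' hg' with rfl | ⟨h1', h2'⟩
          · exact absurd rfl hgg
          · rw [qe] at hz
            rw [qg g' h1', List.mem_map] at hz'
            obtain ⟨z', -, hz'⟩ := hz'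
            simp only [List.mem_cons, List.not_mem_nil, or_false] at hz
            refine ⟨a, ?_⟩
            rw [pw a hav]; omega
        · rcases hmem g' hg' with rfl | ⟨h1', h2'⟩
          · rw [qe] at hz'
            rw [qg g h1, List.mem_map] at hz
            obtain ⟨z', -, hz⟩ := hz
            simp only [List.mem_cons, List.not_mem_nil, or_false] at hz'
            refine ⟨a, ?_⟩
            rw [pw a hav]; omega
          · rw [qg g h1, List.mem_map] at hz
            rw [qg g' h1', List.mem_map] at hz'
            obtain ⟨z1, hz1, hz1'⟩ := hz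
            obtain ⟨z2, hz2, hz2'⟩ := hz'
            have h12 : z1 = z2 := by omega
            rw [← h12] at hz2
            obtain ⟨w, hw⟩ := D.disj g h2 g' h2' hgg z1 hz1 hz2
            have hwv : w ≠ v := by
              rintro rfl
              rw [hw] at hz1
              exact hve g h2 (D.own g h2 _ hz1)
            exact ⟨w, by rw [pw w hwv, ← hw]; omega⟩ } with hD'
  have hE : edges H' = insert s(a, v) (edges H) := by
    ext g
    rw [mem_edges, hH', Set.mem_insert_iff, Finset.mem_insert, mem_edges]
  have harc : ∀ g ∈ H.edgeSet, D'.arcs g = (D.arcs g).map (mp fun z => 2 * z) := by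
    intro g hg
    have h1 : D'.arcs g = chain (D.side g) (pts' g) := rfl
    rw [h1, qg g (hne g hg), chain_map]
    rfl
  have harce : D'.arcs s(a, v) = [seg (D.side s(a, v)) (2 * D.pos a) (2 * D.pos a + 1)] := by
    have h1 : D'.arcs s(a, v) = chain (D.side s(a, v)) (pts' s(a, v)) := rfl
    rw [h1, qe]
    rfl
  have hgood : ∀ g, ∀ p ∈ D.arcs g, p.2.1 ≤ p.2.2 := fun g p hp => chain_good hp
  have h1 : ∀ g ∈ edges H, ∀ g' ∈ edges H, cx (D'.arcs g) (D'.arcs g') =
      cx (D.arcs g) (D.arcs g') := by
    intro g hg g' hg'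
    rw [harc g (mem_edges.1 hg), harc g' (mem_edges.1 hg'), cx_eq, cx_eq, ← Multiset.map_coe,
      ← Multiset.map_coe]
    exact mx_map_of fun p hp q hq => crs_mp_strictMono dbl_strictMono
      (hgood g p (Multiset.mem_coe.1 hp)) (hgood g' q (Multiset.mem_coe.1 hq))
  have hz : ∀ (s : Bool) (q : Arc), (∃ s' x y, q = seg s' (2 * x) (2 * y)) →
      crs (seg s (2 * D.pos a) (2 * D.pos a + 1)) q = 0 := by
    rintro s q ⟨s', x, y, rfl⟩
    rw [crs_seg_seg_eq_zero]
    intro _ h
    unfold Alt Sp at h
    omega
  have h2 : ∀ g ∈ edges H, cx (D'.arcs s(a, v)) (D'.arcs g) = 0 := by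
    intro g hg
    rw [harce, harc g (mem_edges.1 hg), cx_eq, mx_eq_zero_iff]
    intro p hp q hq
    rw [Multiset.mem_coe, List.mem_singleton] at hp
    rw [Multiset.mem_coe, List.mem_map] at hq
    obtain ⟨r, -, rfl⟩ := hq
    rw [hp]
    exact hz _ _ ⟨r.1, r.2.1, r.2.2, rfl⟩
  have h3 : cx (D'.arcs s(a, v)) (D'.arcs s(a, v)) = 0 := by
    rw [harce, cx_eq, mx_eq_zero_iff]
    intro p hp q hq
    rw [Multiset.mem_coe, List.mem_singleton] at hp hq
    rw [hp, hq]
    exact crs_self _
  have hnot : s(a, v) ∉ edges H := fun h => hne _ (mem_edges.1 h) rfl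
  have h4 : D'.dbl = D.dbl := by
    unfold Drawing.dbl
    rw [hE, Finset.sum_insert hnot, Finset.sum_insert hnot, h3, Finset.sum_eq_zero (f := fun g =>
      cx (D'.arcs s(a, v)) (D'.arcs g)) h2, zero_add, zero_add]
    refine Finset.sum_congr rfl fun g hg => ?_
    rw [Finset.sum_insert hnot]
    have h5 : cx (D'.arcs g) (D'.arcs s(a, v)) = 0 := by
      rw [cx_eq, mx_comm, ← cx_eq]; exact h2 g hg
    rw [h5, zero_add]
    exact Finset.sum_congr rfl fun g' hg' => h1 g hg g' hg'
  have h5 := cr_le D'
  have h6 := hD.dbl_eq_cr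
  unfold Drawing.crossings at h5
  omega

/-- edges with an end of degree one can be added without new crossings -/
theorem cr_free {H G' : SimpleGraph V} (hle : H ≤ G')
    (hfree : ∀ g ∈ G'.edgeSet, g ∉ H.edgeSet → ∃ v ∈ g, ∀ g' ∈ G'.edgeSet, v ∈ g' → g' = g) :
    cr G' ≤ cr H := by
  classical
  have key : ∀ F : Finset (Sym2 V), (∀ g ∈ F, g ∈ G'.edgeSet ∧ g ∉ H.edgeSet) →
      ∀ K : SimpleGraph V, K.edgeSet = H.edgeSet ∪ (F : Set (Sym2 V)) → cr K ≤ cr H := by
    intro F
    induction F using Finset.induction_on with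
    | empty =>
      intro _ K hK
      have : K = H := by
        rw [← SimpleGraph.edgeSet_inj, hK]; simp
      rw [this]
    | insert g F hg ih =>
      intro hF K hK
      obtain ⟨hg1, hg2⟩ := hF g (Finset.mem_insert_self _ _)
      obtain ⟨v, hv, hv'⟩ := hfree g hg1 hg2
      have hF' : ∀ g' ∈ F, g' ∈ G'.edgeSet ∧ g' ∉ H.edgeSet := fun g' hg' =>
        hF g' (Finset.mem_insert_of_mem hg')
      set L : SimpleGraph V := SimpleGraph.fromEdgeSet (H.edgeSet ∪ (F : Set (Sym2 V))) with hL
      have hsub : H.edgeSet ∪ (F : Set (Sym2 V)) ⊆ G'.edgeSet := by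
        rintro f (hf | hf)
        · exact SimpleGraph.edgeSet_mono hle hf
        · exact (hF' f (Finset.mem_coe.1 hf)).1
      have hLe : L.edgeSet = H.edgeSet ∪ (F : Set (Sym2 V)) := by
        rw [hL, SimpleGraph.edgeSet_fromEdgeSet]
        ext f
        simp only [Set.mem_sdiff]
        constructor
        · rintro ⟨h, -⟩; exact h
        · intro h
          exact ⟨h, G'.not_isDiag_of_mem_edgeSet (hsub h)⟩
      have h1 := ih hF' L hLe
      obtain ⟨a, rfl⟩ : ∃ a, g = s(a, v) := by
        obtain ⟨a, ha⟩ := hv
        exact ⟨a, by rw [ha]; exact Sym2.eq_swap⟩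
      refine le_trans (cr_pendant (H := L) (a := a) (v := v) ?_ ?_ ?_) h1
      · rintro rfl
        exact G'.not_isDiag_of_mem_edgeSet hg1 rfl
      · intro w hw
        have h2 : s(v, w) ∈ L.edgeSet := hw
        rw [hLe] at h2
        have h3 := hv' _ (hsub h2) (Sym2.mem_mk_left _ _)
        rw [h3] at h2
        rcases h2 with h2 | h2
        · exact hg2 h2
        · exact hg (Finset.mem_coe.1 h2)
      · rw [hK, hLe, Finset.coe_insert, Set.union_insert]
  refine key ((edges G').filter fun g => g ∉ H.edgeSet) ?_ G' ?_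
  · intro g hg
    rw [Finset.mem_filter, mem_edges] at hg
    exact hg
  · ext g
    simp only [Finset.coe_filter, mem_edges, Set.mem_union, Set.mem_ofPred_eq]
    constructor
    · intro h
      by_cases hH : g ∈ H.edgeSet
      · exact Or.inl hH
      · exact Or.inr ⟨h, hH⟩
    · rintro (h | h)
      · exact SimpleGraph.edgeSet_mono hle h
      · exact h.1

end Pool.Agent.Work.MP_c0cec8_co.Spine
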