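import Pool.Agent.Work.MP_c0cec8_co.Spine.Avg

/-!
# Choice of the edge and of the window
-/

namespace Pool.Agent.Work.MP_c0cec8_co.Spine

open Finset

theorem win_aux (c h : ℕ → ℕ) (L K q : ℕ) (hK : 1 ≤ K) (hc : ∀ i < L, c i ≤ 1)
    (hq : ∀ a b, 2 ≤ a → a ≤ b → b ≤ L → ∑ i ∈ Ico a b, c i ≤ K → ∑ i ∈ Ico a b, h i ≤ q) :
    ∀ n t, 2 ≤ t → t ≤ L → L - t ≤ n →
      ∑ i ∈ Ico t L, h i ≤ q * ((∑ i ∈ Ico t L, c i) / K + 1) := by
  intro n
  induction n with
  | zero =>
    intro t _ h1 h2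
    have : t = L := by omega
    rw [this]
    simp
  | succ n ih =>
    intro t h2t h1 h2
    by_cases hs : ∑ i ∈ Ico t L, c i ≤ K
    · refine le_trans (hq t L h2t h1 le_rfl hs) ?_
      exact Nat.le_mul_of_pos_right _ (Nat.succ_pos _)
    · push Not at hs
      classical
      have hex : ∃ b, K ≤ ∑ i ∈ Ico t b, c i := ⟨L, hs.le⟩
      obtain ⟨b, hb⟩ : ∃ b, b = Nat.find hex := ⟨_, rfl⟩
      have hb1 : K ≤ ∑ i ∈ Ico t b, c i := by rw [hb]; exact Nat.find_spec hex
      have hbL : b ≤ L := by rw [hb]; exact Nat.find_min' hex hs.le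
      have htb : t < b := by
        by_contra h3
        push Not at h3
        rw [Finset.Ico_eq_empty_of_le h3] at hb1
        simp at hb1
        omega
      have hb2 : ∑ i ∈ Ico t b, c i ≤ K := by
        obtain ⟨b', rfl⟩ : ∃ b', b = b' + 1 := ⟨b - 1, by omega⟩
        have h3 : ∑ i ∈ Ico t b', c i < K := by
          by_contra h4
          push Not at h4
          have := Nat.find_min' hex h4
          omega
        rw [Finset.sum_Ico_succ_top (by omega)]
        have := hc b' (by omega)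
        omega
      have hb3 : ∑ i ∈ Ico t b, c i = K := le_antisymm hb2 hb1
      have h4 := ih b (by omega) hbL (by omega)
      have h5 := hq t b h2t htb.le hbL hb2
      have h6 := Finset.sum_Ico_consecutive c htb.le hbL
      have h7 := Finset.sum_Ico_consecutive h htb.le hbL
      rw [← h6, ← h7, hb3, Nat.add_div_left _ (by omega)]
      calc _ ≤ q + q * ((∑ i ∈ Ico b L, c i) / K + 1) := by omega
        _ = _ := by ring

theorem exists_window (c h : ℕ → ℕ) (L K : ℕ) (hK : 1 ≤ K) (hc : ∀ i < L, c i ≤ 1)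
    (hh : ∀ i < L, h i ≤ c i) (hn : 8 * K ≤ ∑ i ∈ range L, c i)
    (hnh : ∑ i ∈ range L, c i ≤ 2 * ∑ i ∈ range L, h i) :
    ∃ a b, 2 ≤ a ∧ a ≤ b ∧ b ≤ L ∧ ∑ i ∈ Ico a b, c i ≤ K ∧ K ≤ 4 * ∑ i ∈ Ico a b, h i := by
  by_contra hcon
  push Not at hcon
  have hL : 2 ≤ L := by
    by_contra h1
    have : ∑ i ∈ range L, c i ≤ ∑ _i ∈ range L, 1 :=
      Finset.sum_le_sum fun i hi => hc i (Finset.mem_range.1 hi)
    simp at this
    omega
  have h1 := win_aux c h L K ((K - 1) / 4) hK hc (fun a b h2 h3 h4 h5 => by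
    have := hcon a b h2 h3 h4 h5
    omega) L 2 le_rfl hL (Nat.sub_le _ _)
  have h2 : ∀ f : ℕ → ℕ, ∑ i ∈ range L, f i = f 0 + f 1 + ∑ i ∈ Ico 2 L, f i := by
    intro f
    rw [Finset.range_eq_Ico, ← Finset.sum_Ico_consecutive f (Nat.zero_le 2) hL]
    congr 1
  have h3 := h2 c
  have h4 := h2 h
  have h5 := hh 0 (by omega)
  have h6 := hh 1 (by omega)
  have h7 := hc 0 (by omega)
  have h8 := hc 1 (by omega)
  set n := ∑ i ∈ range L, c i with hndef
  have h9 : (∑ i ∈ Ico 2 L, c i) / K ≤ n / K := Nat.div_le_div_right (by omega)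
  set r := n / K with hr
  have h10 : 8 ≤ r := by rw [hr, Nat.le_div_iff_mul_le (by omega)]; omega
  have h11 : K * r ≤ n := Nat.mul_div_le n K
  obtain ⟨K', rfl⟩ : ∃ K', K = K' + 1 := ⟨K - 1, by omega⟩
  rw [Nat.add_sub_cancel] at h1
  have h12 : 4 * ((K' / 4) * ((∑ i ∈ Ico 2 L, c i) / (K' + 1) + 1)) ≤ K' * (r + 1) := by
    have h13 : 4 * (K' / 4) ≤ K' := Nat.mul_div_le K' 4
    calc 4 * ((K' / 4) * ((∑ i ∈ Ico 2 L, c i) / (K' + 1) + 1)) =
        (4 * (K' / 4)) * ((∑ i ∈ Ico 2 L, c i) / (K' + 1) + 1) := by ring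
      _ ≤ K' * (r + 1) := Nat.mul_le_mul h13 (by omega)
  have h13 : K' * (r + 1) = K' * r + K' := by ring
  have h14 : (K' + 1) * r = K' * r + r := by ring
  omega

variable {V : Type*} [Finite V] {G : SimpleGraph V}

theorem split_at {L : List ℤ} {i : ℕ} (h : i + 1 < L.length) :
    L = L.take i ++ L.getD i 0 :: L.getD (i + 1) 0 :: L.drop (i + 2) := by
  rw [List.getD_eq_getElem _ _ h, List.getD_eq_getElem _ _ (by omega : i < L.length)]
  conv_lhs => rw [← List.take_append_drop i L, List.drop_eq_getElem_cons (by omega : i < L.length),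
    List.drop_eq_getElem_cons h]

/-- an arc of an edge of the drawing, crossing a semicircle of `e` -/
theorem exists_split {D : Drawing G} {e f : Sym2 V} (hf : f ∈ edges G) {j : ℕ} {Q : Arc}
    (hQ : Q ∈ D.arcs f) (hc : crs (D.ar e j) Q = 1) :
    ∃ (u v : V) (U : List ℤ) (pa pb : ℤ) (W : List ℤ), f = s(u, v) ∧
      D.pts f = U ++ pa :: pb :: W ∧ (U ++ [pa]).head? = some (D.pos u) ∧
      (pb :: W).getLast? = some (D.pos v) ∧ par (D.side f) U.length = par (D.side e) j ∧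
      Alt pa pb (D.pt e j) (D.pt e (j + 1)) := by
  obtain ⟨i, hi, rfl⟩ := Drawing.mem_arcs.1 hQ
  obtain ⟨u, v, l, h1, h2⟩ := D.endsOK hf
  have h3 := split_at hi
  refine ⟨u, v, (D.pts f).take i, D.pt f i, D.pt f (i + 1), (D.pts f).drop (i + 2), h1, h3,
    ?_, ?_, ?_, ?_⟩
  · have h4 : (D.pts f).head? = some (D.pos u) := by rw [h2]; rfl
    rw [← h4]
    conv_rhs => rw [h3]
    unfold Drawing.pt
    rcases (D.pts f).take i with _ | ⟨y, l'⟩
    · rfl
    · rfl
  · have h4 : (D.pts f).getLast? = some (D.pos v) := by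
      rw [h2, ← List.cons_append, List.getLast?_concat]
    rw [← h4]
    conv_rhs => rw [h3]
    unfold Drawing.pt
    rw [List.getLast?_append_of_ne_nil _ (by simp)]
    rfl
  · have h4 := congrArg Prod.fst (rfl : D.ar e j = D.ar e j)
    unfold Drawing.ar at hc
    rw [crs_seg_seg_eq_one] at hc
    rw [List.length_take, min_eq_left (by omega)]
    exact hc.1.symm
  · unfold Drawing.ar at hc
    rw [crs_seg_seg_eq_one] at hc
    exact hc.2.symm

theorem Drawing.deg_eq (D : Drawing G) (g : Sym2 V) : D.deg g = mx (D.arcs g) D.T := by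
  unfold Drawing.deg Drawing.T
  rw [mx_sum_right]

theorem sum_arcs_le (D : Drawing G) {H : Finset (Sym2 V)} (hH : H ⊆ edges G) :
    ∑ g ∈ H, (D.arcs g : Multiset Arc) ≤ D.T :=
  Finset.sum_le_sum_of_subset hH

/-- choice of the data of the surgery -/
theorem exists_sur {D : Drawing G} (hD : D.Min) (hn : ∀ p ∈ D.T, mx {p} D.T ≤ 1) {e : Sym2 V}
    (he : e ∈ edges G) {H : Finset (Sym2 V)} (hH : H ⊆ edges G) {K : ℕ} (hK : 1 ≤ K)
    (h8 : 8 * K ≤ D.deg e) (h2 : D.deg e ≤ 2 * ∑ g ∈ H, mx (D.arcs e) (D.arcs g)) :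
    ∃ S : Sur D, S.F ⊆ H ∧ S.F.card ≤ K ∧ K ≤ 4 * S.F.card ∧
      ∀ f ∈ S.F, mx D.T (S.wnd f) ≤ K + 1 := by
  classical
  set L := (D.pts e).length - 1 with hL
  set c : ℕ → ℕ := fun i => mx {D.ar e i} D.T with hc
  set h : ℕ → ℕ := fun i => mx {D.ar e i} (∑ g ∈ H, (D.arcs g : Multiset Arc)) with hh
  have hc1 : ∀ i < L, c i ≤ 1 := fun i hi => hn _ (Drawing.ar_mem he (by omega))
  have hhc : ∀ i < L, h i ≤ c i := fun i _ => mx_mono le_rfl (sum_arcs_le D hH)
  have hsc : ∑ i ∈ range L, c i = D.deg e := by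
    rw [D.deg_eq, D.arcs_eq, mx_sum_left]
  have hsh : ∑ i ∈ range L, h i = ∑ g ∈ H, mx (D.arcs e) (D.arcs g) := by
    rw [← mx_sum_right, D.arcs_eq, mx_sum_left]
  obtain ⟨a, b, w1, w2, w3, w4, w5⟩ := exists_window c h L K hK hc1 hhc (by rw [hsc]; exact h8)
    (by rw [hsc, hsh]; exact h2)
  -- the crossed semicircles in the window
  set J := (Ico a b).filter fun i => h i = 1 with hJ
  have hJc : ∑ i ∈ Ico a b, h i = J.card := by
    rw [hJ, Finset.card_filter]
    refine Finset.sum_congr rfl fun i hi => ?_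
    rw [Finset.mem_Ico] at hi
    have h1 := hc1 i (by omega)
    have h2 := hhc i (by omega)
    split_ifs with h3
    · exact h3
    · omega
  have hJex : ∀ i : ℕ, ∃ g : Sym2 V, i ∈ J → g ∈ H ∧ ∃ Q ∈ D.arcs g, crs (D.ar e i) Q = 1 := by
    intro i
    by_cases hi : i ∈ J
    · rw [hJ, Finset.mem_filter] at hi
      have h1 : mx {D.ar e i} (∑ g ∈ H, (D.arcs g : Multiset Arc)) ≠ 0 := by
        have : h i = 1 := hi.2
        rw [hh] at this
        simp only at this
        omega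
      obtain ⟨p, hp, Q, hQ, hpQ⟩ := mx_pos h1
      rw [Multiset.mem_singleton] at hp
      rw [Multiset.mem_sum] at hQ
      obtain ⟨g, hg, hQg⟩ := hQ
      rw [hp] at hpQ
      exact ⟨g, fun _ => ⟨hg, Q, Multiset.mem_coe.1 hQg, hpQ⟩⟩
    · exact ⟨e, fun h => absurd h hi⟩
  choose g hg using hJex
  have hJL : ∀ i ∈ J, a ≤ i ∧ i < b := fun i hi => by
    rw [hJ, Finset.mem_filter, Finset.mem_Ico] at hi; exact hi.1
  have hge : ∀ i ∈ J, g i ≠ e := by
    intro i hi heq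
    obtain ⟨-, Q, hQ, hcr⟩ := hg i hi
    have h1 := hD.self_zero he
    rw [mx_eq_zero_iff] at h1
    have hi' := hJL i hi
    have h3 := h1 (D.ar e i) (Multiset.mem_coe.2 (Drawing.mem_arcs.2 ⟨i, by omega, rfl⟩)) Q
      (Multiset.mem_coe.2 (by rw [← heq]; exact hQ))
    omega
  -- injectivity
  have hginj : ∀ i ∈ J, ∀ i' ∈ J, g i = g i' → i = i' := by
    intro i hi i' hi' heq
    by_contra hne
    obtain ⟨hgH, Q, hQ, hcr⟩ := hg i hi
    obtain ⟨-, Q', hQ', hcr'⟩ := hg i' hi'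
    have b1 := hJL i hi
    have b2 := hJL i' hi'
    have h1 := hD.le_one he (hH hgH) (hge i hi).symm
    have h3 : ({i, i'} : Finset ℕ) ⊆ range L := by
      intro t ht
      rw [Finset.mem_insert, Finset.mem_singleton] at ht
      rw [Finset.mem_range]
      rcases ht with rfl | rfl <;> omega
    rw [D.arcs_eq e, mx_sum_left, ← hL] at h1
    have h4 := Finset.sum_le_sum_of_subset (f := fun i => mx {D.ar e i} (D.arcs (g i'))) h3
    rw [Finset.sum_pair hne] at h4
    have h5 : 1 ≤ mx {D.ar e i} (D.arcs (g i')) := by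
      rw [mx_comm]
      exact mx_one_le (Multiset.mem_coe.2 (by rw [← heq]; exact hQ)) (by rw [crs_comm]; exact hcr)
    have h6 : 1 ≤ mx {D.ar e i'} (D.arcs (g i')) := by
      rw [mx_comm]
      exact mx_one_le (Multiset.mem_coe.2 hQ') (by rw [crs_comm]; exact hcr')
    rw [heq] at h1
    omega
  set F := J.image g with hF
  have hFcard : F.card = J.card := Finset.card_image_of_injOn fun i hi i' hi' heq =>
    hginj i hi i' hi' heq
  -- the data of the edges of `F`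
  obtain ⟨u0, v0, -, -, -⟩ := D.endsOK he
  have hdata : ∀ f : Sym2 V, ∃ d : V × V × List ℤ × ℤ × ℤ × List ℤ × ℕ, f ∈ F →
      (f = s(d.1, d.2.1) ∧
      D.pts f = d.2.2.1 ++ d.2.2.2.1 :: d.2.2.2.2.1 :: d.2.2.2.2.2.1 ∧
      (d.2.2.1 ++ [d.2.2.2.1]).head? = some (D.pos d.1) ∧
      (d.2.2.2.2.1 :: d.2.2.2.2.2.1).getLast? = some (D.pos d.2.1) ∧
      par (D.side f) d.2.2.1.length = par (D.side e) d.2.2.2.2.2.2 ∧
      Alt d.2.2.2.1 d.2.2.2.2.1 (D.pt e d.2.2.2.2.2.2) (D.pt e (d.2.2.2.2.2.2 + 1))) ∧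
      d.2.2.2.2.2.2 ∈ J ∧ g d.2.2.2.2.2.2 = f := by
    intro f
    by_cases hf : f ∈ F
    · rw [hF, Finset.mem_image] at hf
      obtain ⟨i, hi, rfl⟩ := hf
      obtain ⟨hgH, Q, hQ, hcr⟩ := hg i hi
      obtain ⟨u, v, U, pa, pb, W, q1, q2, q3, q4, q5, q6⟩ := exists_split (hH hgH) hQ hcr
      exact ⟨(u, v, U, pa, pb, W, i), fun _ => ⟨⟨q1, q2, q3, q4, q5, q6⟩, hi, rfl⟩⟩
    · exact ⟨(u0, u0, [], 0, 0, [], 0), fun h => absurd h hf⟩
  choose d hd using hdata
  refine ⟨{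
    e := e
    he := he
    a := a - 1
    ha := by omega
    F := F
    hF := by
      intro f hf
      rw [hF, Finset.mem_image] at hf
      obtain ⟨i, hi, rfl⟩ := hf
      exact hH (hg i hi).1
    src := fun f => (d f).1
    tgt := fun f => (d f).2.1
    hst := fun f hf => (hd f hf).1.1
    U := fun f => (d f).2.2.1
    pa := fun f => (d f).2.2.2.1
    pb := fun f => (d f).2.2.2.2.1
    W := fun f => (d f).2.2.2.2.2.1
    hpts := fun f hf => (hd f hf).1.2.1
    hsrc := fun f hf => (hd f hf).1.2.2.1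
    htgt := fun f hf => (hd f hf).1.2.2.2.1
    j := fun f => (d f).2.2.2.2.2.2
    hj := fun f hf => by
      have := hJL _ (hd f hf).2.1
      omega
    hpar := fun f hf => (hd f hf).1.2.2.2.2.1
    halt := fun f hf => (hd f hf).1.2.2.2.2.2
    k := L
    hk := by omega
    o := fun f => ((d f).2.2.2.2.2.2 : ℤ) + 1
    ho := fun f hf => by
      have := hJL _ (hd f hf).2.1
      constructor
      · omega
      · omega
    hinj := fun f hf f' hf' heq => by
      have h1 : (d f).2.2.2.2.2.2 = (d f').2.2.2.2.2.2 := by omega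
      rw [← (hd f hf).2.2, ← (hd f' hf').2.2, h1]
    M := 2 * L + 1
    hM := by omega }, ?_, ?_, ?_, ?_⟩
  · intro f hf
    change f ∈ F at hf
    rw [hF, Finset.mem_image] at hf
    obtain ⟨i, hi, rfl⟩ := hf
    exact (hg i hi).1
  · change F.card ≤ K
    rw [hFcard, ← hJc]
    exact le_trans (Finset.sum_le_sum fun i hi => hhc i (by
      rw [Finset.mem_Ico] at hi; omega)) w4
  · change K ≤ 4 * F.card
    rw [hFcard, ← hJc]
    exact w5
  · intro f hf
    change f ∈ F at hf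
    have h1 := hJL _ (hd f hf).2.1
    change mx D.T (∑ i ∈ Ico (a - 1) (d f).2.2.2.2.2.2, {D.ar e i}) ≤ K + 1
    rw [mx_sum_right]
    have h3 : ∑ i ∈ Ico (a - 1) (d f).2.2.2.2.2.2, mx D.T {D.ar e i} ≤
        ∑ i ∈ Ico (a - 1) b, c i := by
      refine le_trans (Finset.sum_le_sum_of_subset (t := Ico (a - 1) b) ?_) (le_of_eq ?_)
      · exact Finset.Ico_subset_Ico le_rfl h1.2.le
      · exact Finset.sum_congr rfl fun i _ => mx_comm _ _
    have h4 : ∑ i ∈ Ico (a - 1) b, c i = c (a - 1) + ∑ i ∈ Ico a b, c i := by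
      rw [← Finset.sum_Ico_consecutive c (Nat.sub_le a 1) w2]
      congr 1
      obtain ⟨a', rfl⟩ : ∃ a', a = a' + 1 := ⟨a - 1, by omega⟩
      simp
    have h5 := hc1 (a - 1) (by omega)
    omega

end Pool.Agent.Work.MP_c0cec8_co.Spine
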