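import Pool.Agent.Work.MP_c0cec8_co.Spine.Dense

/-!
# The two graphs of a colouring, restricted to a set of edges
-/

namespace Pool.Agent.Work.MP_c0cec8_co.Spine

open Finset

variable {V : Type*} [Finite V] {G : SimpleGraph V}

/-- both ends of an edge have the same colour -/
def Mono (x : V → Bool) (g : Sym2 V) : Prop := On x true g ∨ On x false g

/-- the edges of a set whose ends have the same colour -/
def M1 (G : SimpleGraph V) (x : V → Bool) (K : Set (Sym2 V)) : SimpleGraph V :=
  SimpleGraph.fromEdgeSet {g | g ∈ G.edgeSet ∧ g ∈ K ∧ Mono x g}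

/-- the edges of a set whose ends have different colours -/
def M2 (G : SimpleGraph V) (x : V → Bool) (K : Set (Sym2 V)) : SimpleGraph V :=
  SimpleGraph.fromEdgeSet {g | g ∈ G.edgeSet ∧ g ∈ K ∧ ¬ Mono x g}

omit [Finite V] in
theorem edgeSet_M1 (x : V → Bool) (K : Set (Sym2 V)) :
    (M1 G x K).edgeSet = {g | g ∈ G.edgeSet ∧ g ∈ K ∧ Mono x g} := by
  unfold M1
  rw [SimpleGraph.edgeSet_fromEdgeSet]
  ext g
  simp only [Set.mem_sdiff, Set.mem_ofPred_eq]
  constructor
  · rintro ⟨h, -⟩; exact h
  · intro h
    exact ⟨h, G.not_isDiag_of_mem_edgeSet h.1⟩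

omit [Finite V] in
theorem edgeSet_M2 (x : V → Bool) (K : Set (Sym2 V)) :
    (M2 G x K).edgeSet = {g | g ∈ G.edgeSet ∧ g ∈ K ∧ ¬ Mono x g} := by
  unfold M2
  rw [SimpleGraph.edgeSet_fromEdgeSet]
  ext g
  simp only [Set.mem_sdiff, Set.mem_ofPred_eq]
  constructor
  · rintro ⟨h, -⟩; exact h
  · intro h
    exact ⟨h, G.not_isDiag_of_mem_edgeSet h.1⟩

open Classical in
/-- the semicircles of the edges of `K` whose ends have the colour `c` -/
noncomputable def AA (D : Drawing G) (x : V → Bool) (K : Set (Sym2 V)) (c : Bool) :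
    Multiset Arc := ∑ g ∈ edges G, if On x c g ∧ g ∈ K then (D.arcs g : Multiset Arc) else 0

open Classical in
/-- the semicircles of the edges of `K` whose ends have different colours -/
noncomputable def BB (D : Drawing G) (x : V → Bool) (K : Set (Sym2 V)) : Multiset Arc :=
  ∑ g ∈ edges G, if ¬ Mono x g ∧ g ∈ K then (D.arcs g : Multiset Arc) else 0

theorem cr_M2 (D : Drawing G) (x : V → Bool) (K : Set (Sym2 V)) :
    2 * cr (M2 G x K) ≤ mx (BB D x K) (BB D x K) := by
  classical
  have hle : M2 G x K ≤ G := by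
    rw [← SimpleGraph.edgeSet_subset_edgeSet, edgeSet_M2]
    intro g hg; exact hg.1
  have hmem : ∀ g, g ∈ edges (M2 G x K) ↔ g ∈ edges G ∧ ¬ Mono x g ∧ g ∈ K := by
    intro g
    rw [mem_edges, edgeSet_M2, mem_edges]
    simp only [Set.mem_ofPred_eq]
    tauto
  have hT : (D.restrict hle).T = BB D x K := by
    unfold BB Drawing.T
    have hsub : edges (M2 G x K) ⊆ edges G := fun g hg => ((hmem g).1 hg).1
    rw [← Finset.sum_subset hsub (f := fun g => if ¬ Mono x g ∧ g ∈ K then
      (D.arcs g : Multiset Arc) else 0) (fun g hg hg' => ?_)]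
    · refine Finset.sum_congr rfl fun g hg => ?_
      rw [if_pos ((hmem g).1 hg).2]
      rfl
    · rw [if_neg]
      intro h
      exact hg' ((hmem g).2 ⟨hg, h⟩)
  have h1 := cr_le (D.restrict hle)
  have h2 : (D.restrict hle).dbl = mx (BB D x K) (BB D x K) := by rw [Drawing.dbl_eq, hT]
  unfold Drawing.crossings at h1
  omega

theorem cr_M1 (D : Drawing G) (x : V → Bool) (K : Set (Sym2 V)) :
    2 * cr (M1 G x K) ≤ mx (AA D x K true) (AA D x K true) +
      mx (AA D x K false) (AA D x K false) := by
  classical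
  by_cases hne : ∃ e, e ∈ edges G
  swap
  · have h1 : M1 G x K = ⊥ := by
      rw [← SimpleGraph.edgeSet_eq_empty, edgeSet_M1]
      ext g
      simp only [Set.mem_ofPred_eq, Set.mem_empty_iff_false, iff_false]
      intro h
      exact hne ⟨g, mem_edges.2 h.1⟩
    rw [h1, cr_bot]
    omega
  · obtain ⟨e, he⟩ := hne
    obtain ⟨u, v, -, -, -⟩ := D.endsOK he
    set S := Sur.triv D he u with hS
    have hF : S.F = ∅ := rfl
    obtain ⟨H, hB⟩ := Sur.exists_bd S
    have hM : 0 < S.M := by have := S.hM; have := S.hk; omega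
    have hle1 : M1 G x K ≤ S.G1 x := by
      rw [← SimpleGraph.edgeSet_subset_edgeSet, edgeSet_M1, Sur.edgeSet_G1]
      rintro g ⟨h1, -, h2⟩
      refine ⟨h1, ?_⟩
      rcases h2 with h | h
      · exact Or.inl h
      · exact Or.inr (Or.inl h)
    have hmem : ∀ g, g ∈ edges (M1 G x K) ↔ g ∈ edges G ∧ Mono x g ∧ g ∈ K := by
      intro g
      rw [mem_edges, edgeSet_M1, mem_edges]
      simp only [Set.mem_ofPred_eq]
      tauto
    have hsub : edges (M1 G x K) ⊆ edges G := fun g hg => ((hmem g).1 hg).1
    set D1 := (S.D1 H hM hB x).restrict hle1 with hD1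
    have hT1 : D1.T = ((AA D x K true).map S.mm).map (mp (Sur.phi S H true)) +
        ((AA D x K false).map S.mm).map (mp (Sur.phi S H false)) := by
      have e1 : ∀ c, ((AA D x K c).map S.mm).map (mp (Sur.phi S H c)) = ∑ g ∈ edges G,
          ((if On x c g ∧ g ∈ K then (D.arcs g : Multiset Arc) else 0).map S.mm).map
            (mp (Sur.phi S H c)) := by
        intro c
        unfold AA
        have h1 := map_sum (Multiset.mapAddMonoidHom S.mm) (fun g => if On x c g ∧ g ∈ K then
          (D.arcs g : Multiset Arc) else 0) (edges G)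
        have h2 := map_sum (Multiset.mapAddMonoidHom (mp (Sur.phi S H c))) (fun g =>
          (if On x c g ∧ g ∈ K then (D.arcs g : Multiset Arc) else 0).map S.mm) (edges G)
        simp only [Multiset.coe_mapAddMonoidHom] at h1 h2
        rw [h1, h2]
      rw [e1, e1, ← Finset.sum_add_distrib]
      unfold Drawing.T
      rw [← Finset.sum_subset hsub (fun g hg hg' => ?_)]
      · refine Finset.sum_congr rfl fun g hg => ?_
        have hg1 := ((hmem g).1 hg)
        have hgE : g ∈ S.E1 x := by
          have h3 : g ∈ (S.G1 x).edgeSet := SimpleGraph.edgeSet_mono hle1 (mem_edges.1 hg)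
          rw [Sur.edgeSet_G1] at h3
          exact h3
        have h4 := Sur.arcs1 (S := S) (H := H) (x := x) hgE
        have h5 : (D1.arcs g : Multiset Arc) = (chain (D.side g) (S.pts1 H x g) : Multiset Arc) :=
          rfl
        rw [h5, h4]
        have h6 : ∀ c, S.old x c g = if On x c g ∧ g ∈ K then (D.arcs g : Multiset Arc) else 0 := by
          intro c
          unfold Sur.old
          by_cases h : On x c g
          · rw [if_pos h, if_pos ⟨h, hg1.2.2⟩]
          · have h1 : ¬ (g ∈ S.F ∧ ¬ On x (!c) g) := by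
              rintro ⟨h', -⟩
              rw [hF] at h'
              exact absurd h' (Finset.notMem_empty _)
            rw [if_neg h, if_neg h1, if_neg (fun h' => h h'.1)]
        have h7 : ∀ c, S.new x c g = 0 := fun c => Sur.new_zero (by
          rw [hF]; exact Finset.notMem_empty _)
        have h8 : S.md x g = 0 := by
          unfold Sur.md
          rw [if_neg]
          rintro ⟨h', -⟩
          rw [hF] at h'
          exact absurd h' (Finset.notMem_empty _)
        rw [h6, h6, h7, h7, h8, add_zero, add_zero, add_zero]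
      · have h0 : ¬ (Mono x g ∧ g ∈ K) := fun h => hg' ((hmem g).2 ⟨hg, h⟩)
        rw [if_neg (fun h => h0 ⟨Or.inl h.1, h.2⟩), if_neg (fun h => h0 ⟨Or.inr h.1, h.2⟩)]
        simp
    have hAA : ∀ c, AA D x K c ≤ D.T := by
      intro c
      unfold AA Drawing.T
      refine Finset.sum_le_sum fun g _ => ?_
      split_ifs
      · exact le_rfl
      · exact Multiset.zero_le _
    have hnice : ∀ c, ∀ q ∈ (AA D x K c).map S.mm, Sur.Nice S H q := by
      intro c q hq
      rw [Multiset.mem_map] at hq
      obtain ⟨R, hR, rfl⟩ := hq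
      exact Sur.nice_mm hM hB (Multiset.mem_of_le (hAA c) hR)
    have hgood : ∀ c, Good (AA D x K c) := fun c => Good.mono D.good (hAA c)
    have e1 : ∀ c, mx (((AA D x K c).map S.mm).map (mp (Sur.phi S H c)))
        (((AA D x K c).map S.mm).map (mp (Sur.phi S H c))) = mx (AA D x K c) (AA D x K c) := by
      intro c
      rw [mx_map_of (φ := mp (Sur.phi S H c)) fun p hp q hq => ?_]
      · exact Sur.mx_mm hM (hgood c) (hgood c)
      · have h1 := hnice c p hp
        have h2 := hnice c q hq
        exact Sur.crs_phi h1.1 h2.1 h1.2.1 h2.2.1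
    have e2 : mx (((AA D x K true).map S.mm).map (mp (Sur.phi S H true)))
        (((AA D x K false).map S.mm).map (mp (Sur.phi S H false))) = 0 := by
      rw [mx_eq_zero_iff]
      intro p hp q hq
      rw [Multiset.mem_map] at hp hq
      obtain ⟨p, hp, rfl⟩ := hp
      obtain ⟨q, hq, rfl⟩ := hq
      exact Sur.crs_sheets hB (hnice true p hp).2.1 (hnice false q hq).2.1
    have e3 : D1.dbl = mx (AA D x K true) (AA D x K true) +
        mx (AA D x K false) (AA D x K false) := by
      rw [Drawing.dbl_eq, hT1]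
      simp only [mx_add_left, mx_add_right]
      rw [e2, mx_comm (((AA D x K false).map S.mm).map _), e2, e1, e1]
      ring
    have h3 := cr_le D1
    unfold Drawing.crossings at h3
    omega

/-- two edges lie on the same sheet -/
def Same (x : V → Bool) (g g' : Sym2 V) : Prop :=
  (On x true g ∧ On x true g') ∨ (On x false g ∧ On x false g') ∨ (¬ Mono x g ∧ ¬ Mono x g')

open Classical in
/-- the cost of a colouring on a set of edges -/
noncomputable def cost (D : Drawing G) (x : V → Bool) (K : Set (Sym2 V)) : ℕ :=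
  ∑ g ∈ edges G, ∑ g' ∈ edges G,
    if (g ∈ K ∧ g' ∈ K) ∧ Same x g g' then mx (D.arcs g) (D.arcs g') else 0

theorem cost_eq' (D : Drawing G) (x : V → Bool) (K : Set (Sym2 V)) :
    cost D x K = mx (AA D x K true) (AA D x K true) + mx (AA D x K false) (AA D x K false) +
      mx (BB D x K) (BB D x K) := by
  classical
  unfold cost AA BB
  rw [mx_sum_left, mx_sum_left, mx_sum_left, ← Finset.sum_add_distrib, ← Finset.sum_add_distrib]
  refine Finset.sum_congr rfl fun g _ => ?_
  rw [mx_sum_right, mx_sum_right, mx_sum_right, ← Finset.sum_add_distrib,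
    ← Finset.sum_add_distrib]
  refine Finset.sum_congr rfl fun g' _ => ?_
  have hn : ∀ g : Sym2 V, On x true g → ¬ On x false g := fun g h => h.not
  have hm : ∀ g : Sym2 V, Mono x g ↔ On x true g ∨ On x false g := fun g => Iff.rfl
  unfold Same
  simp only [hm]
  by_cases k1 : g ∈ K <;> by_cases k2 : g' ∈ K <;> by_cases a1 : On x true g <;>
    by_cases a2 : On x false g <;> by_cases b1 : On x true g' <;> by_cases b2 : On x false g' <;>
    first
    | exact absurd a2 (hn g a1)
    | exact absurd b2 (hn g' b1)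
    | simp [k1, k2, a1, a2, b1, b2]

theorem cr_split (D : Drawing G) (x : V → Bool) (K : Set (Sym2 V)) :
    2 * (cr (M1 G x K) + cr (M2 G x K)) ≤ cost D x K := by
  have h1 := cr_M1 D x K
  have h2 := cr_M2 D x K
  rw [cost_eq']
  omega

end Pool.Agent.Work.MP_c0cec8_co.Spine
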