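import Pool.Agent.Work.MP_c0cec8_co.Spine.Off

/-!
# The surgery: data, and the comparison of new semicircles with old ones
-/

namespace Pool.Agent.Work.MP_c0cec8_co.Spine

open Finset

variable {V : Type*} [Finite V] {G : SimpleGraph V}

theorem par_par (s : Bool) (m n : ℕ) : par (par s m) n = par s (m + n) := (par_add s m n).symm

theorem par_two (s : Bool) (n : ℕ) : par s (2 * n) = s := by
  unfold par; simp

theorem chain_eq_sum (s : Bool) (L : List ℤ) : (chain s L : Multiset Arc) =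
    ∑ i ∈ range (L.length - 1), {seg (par s i) (L.getD i 0) (L.getD (i + 1) 0)} := by
  induction L generalizing s with
  | nil => rfl
  | cons x L ih =>
    rcases L with _ | ⟨y, L⟩
    · rfl
    · have h1 : (x :: y :: L).length - 1 = ((y :: L).length - 1) + 1 := by simp
      rw [h1, Finset.sum_range_succ', chain_cons_cons, ← Multiset.cons_coe,
        ← Multiset.singleton_add, ih (!s), add_comm]
      congr 1
      · refine Finset.sum_congr rfl fun i _ => ?_
        rw [par_succ' s i]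
        rfl
      · rw [par_zero]; rfl

theorem mem_chain_iff {s : Bool} {L : List ℤ} {p : Arc} : p ∈ chain s L ↔
    ∃ i, i + 1 < L.length ∧ p = seg (par s i) (L.getD i 0) (L.getD (i + 1) 0) := by
  rw [← Multiset.mem_coe, chain_eq_sum, Multiset.mem_sum]
  constructor
  · rintro ⟨i, hi, h⟩
    rw [Finset.mem_range] at hi
    exact ⟨i, by omega, Multiset.mem_singleton.1 h⟩
  · rintro ⟨i, hi, rfl⟩
    exact ⟨i, Finset.mem_range.2 (by omega), Multiset.mem_singleton_self _⟩

theorem getD_mem {L : List ℤ} {i : ℕ} (h : i < L.length) : L.getD i 0 ∈ L := by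
  rw [List.getD_eq_getElem _ _ h]; exact List.getElem_mem h

theorem getD_inj {L : List ℤ} (hL : L.Nodup) {i i' : ℕ} (h : i < L.length) (h' : i' < L.length)
    (he : L.getD i 0 = L.getD i' 0) : i = i' := by
  rw [List.getD_eq_getElem _ _ h, List.getD_eq_getElem _ _ h'] at he
  exact (List.Nodup.getElem_inj_iff hL).1 he

/-- the points of an edge -/
def Drawing.pt (D : Drawing G) (e : Sym2 V) (i : ℕ) : ℤ := (D.pts e).getD i 0

/-- the semicircles of an edge -/
def Drawing.ar (D : Drawing G) (e : Sym2 V) (i : ℕ) : Arc :=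
  seg (par (D.side e) i) (D.pt e i) (D.pt e (i + 1))

omit [Finite V] in
theorem Drawing.arcs_eq (D : Drawing G) (e : Sym2 V) : (D.arcs e : Multiset Arc) =
    ∑ i ∈ range ((D.pts e).length - 1), {D.ar e i} := chain_eq_sum _ _

omit [Finite V] in
theorem Drawing.mem_arcs {D : Drawing G} {e : Sym2 V} {p : Arc} : p ∈ D.arcs e ↔
    ∃ i, i + 1 < (D.pts e).length ∧ p = D.ar e i := mem_chain_iff

theorem Drawing.arcs_le (D : Drawing G) {e : Sym2 V} (he : e ∈ edges G) :
    (D.arcs e : Multiset Arc) ≤ D.T := by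
  classical
  unfold Drawing.T
  rw [sum_update_one he (fun i => (D.arcs i : Multiset Arc))]
  exact Multiset.le_add_right _ _

theorem Drawing.ar_mem {D : Drawing G} {e : Sym2 V} (he : e ∈ edges G) {i : ℕ}
    (hi : i + 1 < (D.pts e).length) : D.ar e i ∈ D.T :=
  Multiset.mem_of_le (D.arcs_le he) (Multiset.mem_coe.2 (Drawing.mem_arcs.2 ⟨i, hi, rfl⟩))

theorem Drawing.mem_T {D : Drawing G} {p : Arc} : p ∈ D.T ↔ ∃ e ∈ edges G, p ∈ D.arcs e := by
  unfold Drawing.T
  rw [Multiset.mem_sum]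
  exact ⟨fun ⟨e, he, h⟩ => ⟨e, he, Multiset.mem_coe.1 h⟩, fun ⟨e, he, h⟩ =>
    ⟨e, he, Multiset.mem_coe.2 h⟩⟩

/-- the interior points of an edge are no vertices -/
theorem Drawing.pt_ne_pos {D : Drawing G} {e : Sym2 V} (he : e ∈ edges G) {i : ℕ} (h1 : 1 ≤ i)
    (h2 : i + 1 < (D.pts e).length) (v : V) : D.pt e i ≠ D.pos v := by
  intro h
  obtain ⟨u, w, l, h3, h4⟩ := D.endsOK he
  have hm : D.pos v ∈ D.pts e := by rw [← h]; exact getD_mem (by omega)
  have h5 := D.own e (mem_edges.1 he) v hm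
  have hnd := D.nodup e (mem_edges.1 he)
  rw [h3, Sym2.mem_iff] at h5
  rcases h5 with rfl | rfl
  · have h6 : (D.pts e).getD 0 0 = D.pos v := by rw [h4]; rfl
    have := getD_inj hnd (by omega) (by omega) (h.trans h6.symm)
    omega
  · have h6 : (D.pts e).getD ((D.pts e).length - 1) 0 = D.pos v := by
      rw [h4]
      simp [List.getD]
    have := getD_inj hnd (by omega) (by omega) (h.trans h6.symm)
    omega

/-- an interior point of an edge is on no other edge -/
theorem Drawing.pt_not_mem {D : Drawing G} {e g : Sym2 V} (he : e ∈ edges G) (hg : g ∈ edges G)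
    (hge : g ≠ e) {i : ℕ} (h1 : 1 ≤ i) (h2 : i + 1 < (D.pts e).length) :
    D.pt e i ∉ D.pts g := by
  intro h
  obtain ⟨v, hv⟩ := D.disj g (mem_edges.1 hg) e (mem_edges.1 he) hge _ h (getD_mem (by omega))
  exact D.pt_ne_pos he h1 h2 v hv

/-- a semicircle that ends at an interior point of an edge -/
theorem Drawing.at_pt {D : Drawing G} {e : Sym2 V} (he : e ∈ edges G) {i : ℕ} (h1 : 1 ≤ i)
    (h2 : i + 1 < (D.pts e).length) {s : Bool} {r r' : ℤ} (hR : seg s r r' ∈ D.T)
    (h : r = D.pt e i ∨ r' = D.pt e i) : seg s r r' = D.ar e i ∨ seg s r r' = D.ar e (i - 1) := by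
  obtain ⟨g, hg, hRg⟩ := Drawing.mem_T.1 hR
  have hP : Ends (fun z => z ∈ D.pts g) (seg s r r') := chain_ends (fun z hz => hz) hRg
  rw [ends_seg_iff] at hP
  have hge : g = e := by
    by_contra hge
    rcases h with rfl | rfl
    · exact D.pt_not_mem he hg hge h1 h2 hP.1
    · exact D.pt_not_mem he hg hge h1 h2 hP.2
  subst hge
  obtain ⟨m, hm, hRm⟩ := Drawing.mem_arcs.1 hRg
  have hnd := D.nodup g (mem_edges.1 hg)
  have h3 : D.pt g i = D.pt g m ∨ D.pt g i = D.pt g (m + 1) := by
    have h4 : Ends (fun z => z = D.pt g m ∨ z = D.pt g (m + 1)) (seg s r r') := by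
      rw [hRm]; exact Ends.seg (Or.inl rfl) (Or.inr rfl)
    rw [ends_seg_iff] at h4
    rcases h with rfl | rfl
    · exact h4.1
    · exact h4.2
  rcases h3 with h3 | h3
  · have := getD_inj hnd (by omega) (by omega) h3
    subst this
    exact Or.inl hRm
  · have := getD_inj hnd (by omega) (by omega) h3
    subst this
    exact Or.inr (by rw [Nat.add_sub_cancel]; exact hRm)

theorem par_ne_succ (s : Bool) (i : ℕ) : par s i ≠ par s (i + 1) := by
  rw [par_succ]; simp

/-- nested semicircles -/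
theorem crs_nest {M k a b ε ε' o : ℤ} (hM : 2 * k < M) (hab : a ≠ b) (h1 : 0 ≤ o) (h2 : o ≤ k)
    (hs : (ε = o ∧ ε' = -o) ∨ (ε = -o ∧ ε' = o)) (s t : Bool) :
    crs (seg s (M * a) (M * b)) (seg t (M * a + ε) (M * b + ε')) = 0 := by
  rw [crs_seg_seg_eq_zero]
  intro _
  have hk : |(0 : ℤ)| ≤ k := by rw [abs_zero]; omega
  have hε : |ε| ≤ k := by rw [abs_le]; omega
  have hε' : |ε'| ≤ k := by rw [abs_le]; omega
  rcases lt_or_gt_of_ne hab with h | h
  · have g1 := near_lt hM hk hk h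
    have g2 := near_lt hM hk hε' h
    have g3 := near_lt hM hε hk h
    have g4 := near_lt hM hε hε' h
    unfold Alt Sp
    omega
  · have g1 := near_lt hM hk hk h
    have g2 := near_lt hM hk hε h
    have g3 := near_lt hM hε' hk h
    have g4 := near_lt hM hε' hε h
    unfold Alt Sp
    omega

theorem crs_nest' {M k a b ε ε' δ δ' o p : ℤ} (hM : 2 * k < M) (hab : a ≠ b) (h1 : 0 ≤ o)
    (h2 : o ≤ k) (h3 : 0 ≤ p) (h4 : p ≤ k)
    (hs : (ε = o ∧ ε' = -o ∧ δ = p ∧ δ' = -p) ∨ (ε = -o ∧ ε' = o ∧ δ = -p ∧ δ' = p)) (s t : Bool) :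
    crs (seg s (M * a + δ) (M * b + δ')) (seg t (M * a + ε) (M * b + ε')) = 0 := by
  rw [crs_seg_seg_eq_zero]
  intro _
  have hε : |ε| ≤ k := by rw [abs_le]; omega
  have hε' : |ε'| ≤ k := by rw [abs_le]; omega
  have hδ : |δ| ≤ k := by rw [abs_le]; omega
  have hδ' : |δ'| ≤ k := by rw [abs_le]; omega
  rcases lt_or_gt_of_ne hab with h | h
  · have g1 := near_lt hM hδ hδ' h
    have g2 := near_lt hM hδ hε' h
    have g3 := near_lt hM hε hδ' h
    have g4 := near_lt hM hε hε' h
    unfold Alt Sp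
    omega
  · have g1 := near_lt hM hδ' hδ h
    have g2 := near_lt hM hδ' hε h
    have g3 := near_lt hM hε' hδ h
    have g4 := near_lt hM hε' hε h
    unfold Alt Sp
    omega

end Pool.Agent.Work.MP_c0cec8_co.Spine
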