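import Pool.Agent.Work.MP_c0cec8_co.Spine.Sur

/-!
# The surgery: comparison of new semicircles with old ones
-/

namespace Pool.Agent.Work.MP_c0cec8_co.Spine

open Finset

variable {V : Type*} [Finite V] {G : SimpleGraph V}

/-- data of the surgery -/
structure Sur (D : Drawing G) where
  /-- the edge along which the other edges are led -/
  e : Sym2 V
  he : e ∈ edges G
  /-- the first point of the window -/
  a : ℕ
  ha : 1 ≤ a
  /-- the edges that are led along `e` -/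
  F : Finset (Sym2 V)
  hF : ∀ f ∈ F, f ∈ edges G
  /-- the first vertex -/
  src : Sym2 V → V
  /-- the last vertex -/
  tgt : Sym2 V → V
  hst : ∀ f ∈ F, f = s(src f, tgt f)
  /-- the points before the crossing semicircle, without its end -/
  U : Sym2 V → List ℤ
  /-- the first end of the crossing semicircle -/
  pa : Sym2 V → ℤ
  /-- the second end of the crossing semicircle -/
  pb : Sym2 V → ℤ
  /-- the points after the crossing semicircle, without its end -/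
  W : Sym2 V → List ℤ
  hpts : ∀ f ∈ F, D.pts f = U f ++ pa f :: pb f :: W f
  hsrc : ∀ f ∈ F, (U f ++ [pa f]).head? = some (D.pos (src f))
  htgt : ∀ f ∈ F, (pb f :: W f).getLast? = some (D.pos (tgt f))
  /-- the number of the crossed semicircle of `e` -/
  j : Sym2 V → ℕ
  hj : ∀ f ∈ F, a + 1 ≤ j f ∧ j f + 1 < (D.pts e).length
  hpar : ∀ f ∈ F, par (D.side f) (U f).length = par (D.side e) (j f)
  halt : ∀ f ∈ F, Alt (pa f) (pb f) (D.pt e (j f)) (D.pt e (j f + 1))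
  /-- the number of displacements -/
  k : ℤ
  hk : 0 ≤ k
  /-- displacements -/
  o : Sym2 V → ℤ
  ho : ∀ f ∈ F, 1 ≤ o f ∧ o f ≤ k
  hinj : ∀ f ∈ F, ∀ f' ∈ F, o f = o f' → f = f'
  /-- scale -/
  M : ℤ
  hM : 2 * k < M

namespace Sur

variable {D : Drawing G} (S : Sur D)

/-- the half-plane of a semicircle of `e` -/
def sd (i : ℕ) : Bool := par (D.side S.e) i

/-- the direction of displacement at a point of `e` -/
def sg (i : ℕ) : ℤ := if S.sd i = S.sd S.a then 1 else -1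

/-- displaced point -/
def Y (f : Sym2 V) (i : ℕ) : ℤ := S.M * D.pt S.e i + S.sg i * S.o f

/-- the crossed semicircle -/
def P (f : Sym2 V) : Arc := D.ar S.e (S.j f)

/-- the crossing semicircle -/
def Q (f : Sym2 V) : Arc := seg (S.sd (S.j f)) (S.pa f) (S.pb f)

/-- the first new semicircle -/
def hA (f : Sym2 V) : Arc := seg (S.sd (S.j f)) (S.M * S.pa f) (S.Y f (S.j f))

/-- the last new semicircle -/
def hB (f : Sym2 V) : Arc := seg (S.sd (S.j f)) (S.M * S.pb f) (S.Y f (S.j f))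

/-- a new semicircle parallel to `e` -/
def tr (f : Sym2 V) (i : ℕ) : Arc := seg (S.sd i) (S.Y f i) (S.Y f (i + 1))

/-- the new semicircles parallel to `e` -/
def trk (f : Sym2 V) : Multiset Arc := ∑ i ∈ Ico S.a (S.j f), {S.tr f i}

/-- the part of `e` along which `f` is led -/
def wnd (f : Sym2 V) : Multiset Arc := ∑ i ∈ Ico S.a (S.j f), {D.ar S.e i}

/-- scaling -/
def mm (q : Arc) : Arc := mp (S.M * ·) q

theorem mm_seg (s : Bool) (r r' : ℤ) : S.mm (seg s r r') = seg s (S.M * r) (S.M * r') :=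
  mp_seg _ _ _ _

theorem sg_succ (i : ℕ) : S.sg (i + 1) = - S.sg i := by
  unfold sg sd
  rw [par_succ]
  cases par (D.side S.e) i <;> cases par (D.side S.e) S.a <;> simp

theorem sg_cases (i : ℕ) : S.sg i = 1 ∨ S.sg i = -1 := by
  unfold sg; split_ifs <;> simp

theorem k_nonneg {f : Sym2 V} (hf : f ∈ S.F) : 0 ≤ S.k := by
  have := S.ho f hf; omega

theorem off_le {f : Sym2 V} (hf : f ∈ S.F) (i : ℕ) : |S.sg i * S.o f| ≤ S.k := by
  have := S.ho f hf
  rcases S.sg_cases i with h | h <;> rw [h, abs_le] <;> omega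

theorem zero_le {f : Sym2 V} (hf : f ∈ S.F) : |(0 : ℤ)| ≤ S.k := by
  rw [abs_zero]; exact S.k_nonneg hf

theorem edge_nodup : (D.pts S.e).Nodup := D.nodup _ (mem_edges.1 S.he)

theorem pt_inj {i i' : ℕ} (h : i < (D.pts S.e).length) (h' : i' < (D.pts S.e).length)
    (he : D.pt S.e i = D.pt S.e i') : i = i' := getD_inj S.edge_nodup h h' he

theorem pt_ne {i i' : ℕ} (h : i < (D.pts S.e).length) (h' : i' < (D.pts S.e).length)
    (he : i ≠ i') : D.pt S.e i ≠ D.pt S.e i' := fun h1 => he (S.pt_inj h h' h1)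

theorem mul_eq {f : Sym2 V} (_ : f ∈ S.F) (z : ℤ) : S.M * z = S.M * z + 0 := by ring

variable {S}

theorem Q_mem {f : Sym2 V} (hf : f ∈ S.F) : S.Q f ∈ D.arcs f := by
  unfold Drawing.arcs
  rw [S.hpts f hf, chain_split, S.hpar f hf]
  simp only [List.mem_append, List.mem_cons]
  exact Or.inr (Or.inl rfl)

theorem Q_mem_T {f : Sym2 V} (hf : f ∈ S.F) : S.Q f ∈ D.T :=
  Drawing.mem_T.2 ⟨f, S.hF f hf, Q_mem hf⟩

theorem P_mem_T {f : Sym2 V} (hf : f ∈ S.F) : S.P f ∈ D.T :=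
  Drawing.ar_mem S.he (S.hj f hf).2

theorem crs_QP {f : Sym2 V} (hf : f ∈ S.F) : crs (S.Q f) (S.P f) = 1 :=
  crs_seg_seg_eq_one.2 ⟨rfl, S.halt f hf⟩

theorem ne_e (hD : D.Min) {f : Sym2 V} (hf : f ∈ S.F) : f ≠ S.e := by
  intro h
  have h1 := hD.self_zero S.he
  rw [mx_eq_zero_iff] at h1
  have h2 := h1 (S.Q f) (Multiset.mem_coe.2 (by rw [← h]; exact Q_mem hf)) (S.P f)
    (Multiset.mem_coe.2 (Drawing.mem_arcs.2 ⟨_, (S.hj f hf).2, rfl⟩))
  rw [crs_QP hf] at h2
  omega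

/-- the other edge crosses the crossed semicircle only once -/
theorem crs_P_zero (hn : ∀ p ∈ D.T, mx {p} D.T ≤ 1) {f : Sym2 V} (hf : f ∈ S.F) {R : Arc}
    (hR : R ∈ D.T) (h : crs R (S.P f) = 1) : R = S.Q f := by
  by_contra hne
  have h1 := hn (S.P f) (P_mem_T hf)
  have h2 : ({R, S.Q f} : Multiset Arc) ≤ D.T := by
    rw [Multiset.le_iff_subset (by simp [hne])]
    intro q hq
    simp only [Multiset.insert_eq_cons, Multiset.mem_cons, Multiset.mem_singleton] at hq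
    rcases hq with rfl | rfl
    · exact hR
    · exact Q_mem_T hf
  have h3 := mx_mono (le_refl ({S.P f} : Multiset Arc)) h2
  rw [pair_eq, mx_add_right, mx_singleton, mx_singleton, crs_comm (S.P f) R, h,
    crs_comm (S.P f) (S.Q f), crs_QP hf] at h3
  omega

theorem ar_side (i : ℕ) : (D.ar S.e i).1 = S.sd i := rfl

theorem sd_ne (i : ℕ) : S.sd i ≠ S.sd (i + 1) := par_ne_succ _ _

/-- a semicircle at an interior point of `e`, in the half-plane of the next semicircle -/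
theorem at_pt_eq {i : ℕ} (h1 : 1 ≤ i) (h2 : i + 1 < (D.pts S.e).length) {r r' : ℤ}
    (hR : seg (S.sd i) r r' ∈ D.T) (h : r = D.pt S.e i ∨ r' = D.pt S.e i) :
    seg (S.sd i) r r' = D.ar S.e i := by
  rcases D.at_pt S.he h1 h2 hR h with h3 | h3
  · exact h3
  · exfalso
    have h4 : S.sd i = S.sd (i - 1) := congrArg Prod.fst h3
    obtain ⟨m, rfl⟩ : ∃ m, i = m + 1 := ⟨i - 1, by omega⟩
    exact S.sd_ne m (by rw [h4]; rfl)

/-- a semicircle at an interior point of `e`, in the half-plane of the previous semicircle -/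
theorem at_pt_eq' {i : ℕ} (h2 : i + 2 < (D.pts S.e).length) {r r' : ℤ}
    (hR : seg (S.sd i) r r' ∈ D.T) (h : r = D.pt S.e (i + 1) ∨ r' = D.pt S.e (i + 1)) :
    seg (S.sd i) r r' = D.ar S.e i := by
  rcases D.at_pt S.he (by omega) h2 hR h with h3 | h3
  · exfalso
    have h4 : S.sd i = S.sd (i + 1) := congrArg Prod.fst h3
    exact S.sd_ne i h4
  · exact h3

/-- a semicircle of the drawing against a new semicircle parallel to `e` -/
theorem crs_mm_tr {f : Sym2 V} (hf : f ∈ S.F) {i : ℕ} (h1 : S.a ≤ i) (h2 : i < S.j f) {R : Arc}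
    (hR : R ∈ D.T) : crs (S.mm R) (S.tr f i) ≤ crs R (D.ar S.e i) := by
  have hRg := D.good R hR
  obtain ⟨s, r, r', rfl⟩ : ∃ s r r', R = seg s r r' := ⟨_, _, _, eq_seg hRg⟩
  have ha := S.ha
  have hj := (S.hj f hf).2
  rw [S.mm_seg]
  by_cases hs : s = S.sd i
  swap
  · rw [crs_side]
    · exact Nat.zero_le _
    · exact hs
  subst hs
  have hne : D.pt S.e i ≠ D.pt S.e (i + 1) := S.pt_ne (by omega) (by omega) (by omega)
  have hMk := S.hM
  -- the semicircle of `e` itself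
  have hself : crs (seg (S.sd i) (S.M * D.pt S.e i) (S.M * D.pt S.e (i + 1))) (S.tr f i) = 0 := by
    have ho := S.ho f hf
    refine crs_nest (k := S.k) (o := S.o f) hMk hne (by omega) ho.2 ?_ _ _
    rw [S.sg_succ]
    rcases S.sg_cases i with h | h <;> rw [h]
    · left; constructor <;> ring
    · right; constructor <;> ring
  by_cases h3 : seg (S.sd i) r r' = D.ar S.e i
  · have h4 : seg (S.sd i) (S.M * r) (S.M * r') =
        seg (S.sd i) (S.M * D.pt S.e i) (S.M * D.pt S.e (i + 1)) := by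
      rw [← S.mm_seg, ← S.mm_seg, h3]; rfl
    rw [h4, hself]
    exact Nat.zero_le _
  have n1 : r ≠ D.pt S.e i := fun h => h3 (at_pt_eq (by omega) (by omega) hR (Or.inl h))
  have n2 : r' ≠ D.pt S.e i := fun h => h3 (at_pt_eq (by omega) (by omega) hR (Or.inr h))
  have n3 : r ≠ D.pt S.e (i + 1) := fun h => h3 (at_pt_eq' (by omega) hR (Or.inl h))
  have n4 : r' ≠ D.pt S.e (i + 1) := fun h => h3 (at_pt_eq' (by omega) hR (Or.inr h))
  have h5 := crs_near (e1 := 0) (e2 := 0) hMk (S.zero_le hf) (S.zero_le hf) (S.off_le hf i)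
    (S.off_le hf (i + 1)) n1 n3 n2 n4 (S.sd i) (S.sd i)
  rw [add_zero, add_zero] at h5
  exact h5.le

/-- a semicircle of the drawing against the first or last new semicircle -/
theorem crs_mm_h_aux (hn : ∀ p ∈ D.T, mx {p} D.T ≤ 1) {f : Sym2 V} (hf : f ∈ S.F) {q q' : ℤ}
    (hQ : S.Q f = seg (S.sd (S.j f)) q q') (halt : Alt q q' (D.pt S.e (S.j f))
      (D.pt S.e (S.j f + 1))) {R : Arc} (hR : R ∈ D.T) :
    crs (S.mm R) (seg (S.sd (S.j f)) (S.M * q) (S.Y f (S.j f))) ≤ crs R (S.Q f) := by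
  have hRg := D.good R hR
  obtain ⟨s, r, r', rfl⟩ : ∃ s r r', R = seg s r r' := ⟨_, _, _, eq_seg hRg⟩
  have ha := S.ha
  have hj := S.hj f hf
  rw [S.mm_seg]
  by_cases hs : s = S.sd (S.j f)
  swap
  · rw [crs_side]
    · exact Nat.zero_le _
    · exact hs
  subst hs
  by_cases h0 : crs (seg (S.sd (S.j f)) r r') (S.Q f) = 1
  · rw [h0]; exact crs_le_one _ _
  have h0' : crs (seg (S.sd (S.j f)) r r') (S.Q f) = 0 := by
    have := crs_le_one (seg (S.sd (S.j f)) r r') (S.Q f); omega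
  by_cases e1 : r = q
  · rw [e1, crs_shared_left]; exact Nat.zero_le _
  by_cases e2 : r' = q
  · rw [e2, seg_comm, crs_shared_left]; exact Nat.zero_le _
  have h3 : seg (S.sd (S.j f)) r r' ≠ D.ar S.e (S.j f) := by
    intro h
    apply h0
    rw [h, crs_comm]
    exact crs_QP hf
  have n1 : r ≠ D.pt S.e (S.j f) := fun h => h3 (at_pt_eq (by omega) (by omega) hR (Or.inl h))
  have n2 : r' ≠ D.pt S.e (S.j f) := fun h => h3 (at_pt_eq (by omega) (by omega) hR (Or.inr h))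
  have h5 := crs_near (e1 := 0) (e2 := 0) (e3 := 0) S.hM (S.zero_le hf) (S.zero_le hf)
    (S.zero_le hf) (S.off_le hf (S.j f)) e1 n1 e2 n2 (S.sd (S.j f)) (S.sd (S.j f))
  rw [add_zero, add_zero, add_zero] at h5
  have h6 : crs (seg (S.sd (S.j f)) r r') (S.P f) = 0 := by
    by_contra h7
    have h8 : crs (seg (S.sd (S.j f)) r r') (S.P f) = 1 := by
      have := crs_le_one (seg (S.sd (S.j f)) r r') (S.P f); omega
    have h9 := crs_P_zero hn hf hR h8
    rw [hQ] at h9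
    rcases (Ends.seg (P := fun z => z = r ∨ z = r') (s := S.sd (S.j f)) (Or.inl rfl)
      (Or.inr rfl) : Ends (fun z => z = r ∨ z = r') (seg (S.sd (S.j f)) r r')) with h10
    rw [h9, ends_seg_iff] at h10
    rcases h10.1 with h | h
    · exact e1 h.symm
    · exact e2 h.symm
  have h7 := crs_V (t := S.sd (S.j f)) halt (s := S.sd (S.j f)) (r := r) (r' := r')
    (by rw [← hQ]; exact h0') h6
  refine le_trans (le_of_eq h5) ?_
  rw [h7]
  exact Nat.zero_le _

theorem crs_mm_hA (hn : ∀ p ∈ D.T, mx {p} D.T ≤ 1) {f : Sym2 V} (hf : f ∈ S.F) {R : Arc}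
    (hR : R ∈ D.T) : crs (S.mm R) (S.hA f) ≤ crs R (S.Q f) :=
  crs_mm_h_aux hn hf rfl (S.halt f hf) hR

theorem crs_mm_hB (hn : ∀ p ∈ D.T, mx {p} D.T ≤ 1) {f : Sym2 V} (hf : f ∈ S.F) {R : Arc}
    (hR : R ∈ D.T) : crs (S.mm R) (S.hB f) ≤ crs R (S.Q f) :=
  crs_mm_h_aux hn hf (seg_comm _ _ _) (alt_swap_left.1 (S.halt f hf)) hR

theorem ar_ar_zero (hD : D.Min) {i i' : ℕ} (h : i + 1 < (D.pts S.e).length)
    (h' : i' + 1 < (D.pts S.e).length) : crs (D.ar S.e i) (D.ar S.e i') = 0 := by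
  have h1 := hD.self_zero S.he
  rw [mx_eq_zero_iff] at h1
  exact h1 _ (Multiset.mem_coe.2 (Drawing.mem_arcs.2 ⟨_, h, rfl⟩)) _
    (Multiset.mem_coe.2 (Drawing.mem_arcs.2 ⟨_, h', rfl⟩))

/-- the first or last new semicircle against a new semicircle parallel to `e` -/
theorem crs_h_tr_aux (hD : D.Min) {f f' : Sym2 V} (hf : f ∈ S.F) (hf' : f' ∈ S.F) {q q' : ℤ}
    (hQ : S.Q f = seg (S.sd (S.j f)) q q') (hq : q ∈ D.pts f)
    (halt : Alt q q' (D.pt S.e (S.j f)) (D.pt S.e (S.j f + 1))) {i : ℕ} (h1 : S.a ≤ i)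
    (h2 : i < S.j f') :
    crs (seg (S.sd (S.j f)) (S.M * q) (S.Y f (S.j f))) (S.tr f' i) ≤ crs (S.Q f) (D.ar S.e i) := by
  have ha := S.ha
  have hj := S.hj f hf
  have hj' := S.hj f' hf'
  unfold tr
  by_cases hs : S.sd (S.j f) = S.sd i
  swap
  · rw [crs_side]
    · exact Nat.zero_le _
    · exact hs
  by_cases h0 : crs (S.Q f) (D.ar S.e i) = 1
  · rw [h0]; exact crs_le_one _ _
  have h0' : crs (S.Q f) (D.ar S.e i) = 0 := by
    have := crs_le_one (S.Q f) (D.ar S.e i); omega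
  have hji : S.j f ≠ i := by
    rintro rfl
    exact h0 (crs_QP hf)
  have hji' : S.j f ≠ i + 1 := by
    intro h
    rw [h] at hs
    exact S.sd_ne i hs.symm
  have hfe := ne_e hD hf
  have n1 : q ≠ D.pt S.e i := by
    rintro rfl
    exact D.pt_not_mem S.he (S.hF f hf) hfe (by omega) (by omega) hq
  have n2 : q ≠ D.pt S.e (i + 1) := by
    rintro rfl
    exact D.pt_not_mem S.he (S.hF f hf) hfe (by omega) (by omega) hq
  have n3 : D.pt S.e (S.j f) ≠ D.pt S.e i := S.pt_ne (by omega) (by omega) hji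
  have n4 : D.pt S.e (S.j f) ≠ D.pt S.e (i + 1) := S.pt_ne (by omega) (by omega) hji'
  have h5 := crs_near (e1 := 0) S.hM (S.zero_le hf) (S.off_le hf (S.j f)) (S.off_le hf' i)
    (S.off_le hf' (i + 1)) n1 n2 n3 n4 (S.sd (S.j f)) (S.sd i)
  rw [add_zero] at h5
  have h6 : crs (D.ar S.e i) (D.ar S.e (S.j f)) = 0 := ar_ar_zero hD (by omega) (by omega)
  have h7 := crs_V (t := S.sd (S.j f)) halt (s := S.sd i) (r := D.pt S.e i)
    (r' := D.pt S.e (i + 1)) (by rw [← hQ, crs_comm]; exact h0') h6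
  refine le_trans (le_of_eq h5) ?_
  rw [crs_comm, h7]
  exact Nat.zero_le _

theorem crs_hA_tr (hD : D.Min) {f f' : Sym2 V} (hf : f ∈ S.F) (hf' : f' ∈ S.F) {i : ℕ}
    (h1 : S.a ≤ i) (h2 : i < S.j f') : crs (S.hA f) (S.tr f' i) ≤ crs (S.Q f) (D.ar S.e i) :=
  crs_h_tr_aux hD hf hf' rfl (by rw [S.hpts f hf]; simp) (S.halt f hf) h1 h2

theorem crs_hB_tr (hD : D.Min) {f f' : Sym2 V} (hf : f ∈ S.F) (hf' : f' ∈ S.F) {i : ℕ}
    (h1 : S.a ≤ i) (h2 : i < S.j f') : crs (S.hB f) (S.tr f' i) ≤ crs (S.Q f) (D.ar S.e i) :=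
  crs_h_tr_aux hD hf hf' (seg_comm _ _ _) (by rw [S.hpts f hf]; simp)
    (alt_swap_left.1 (S.halt f hf)) h1 h2

/-- two new semicircles parallel to `e` -/
theorem crs_tr_tr (hD : D.Min) {f f' : Sym2 V} (hf : f ∈ S.F) (hf' : f' ∈ S.F) {i i' : ℕ}
    (h1 : S.a ≤ i) (h2 : i < S.j f) (h1' : S.a ≤ i') (h2' : i' < S.j f') :
    crs (S.tr f i) (S.tr f' i') = 0 := by
  have ha := S.ha
  have hj := S.hj f hf
  have hj' := S.hj f' hf'
  unfold tr
  by_cases hs : S.sd i = S.sd i'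
  swap
  · rw [crs_side]; exact hs
  have ho := S.ho f hf
  have ho' := S.ho f' hf'
  by_cases hii : i = i'
  · subst hii
    refine crs_nest' (k := S.k) (o := S.o f') (p := S.o f) S.hM (S.pt_ne (by omega) (by omega)
      (by omega)) (by omega) ho'.2 (by omega) ho.2 ?_ _ _
    rw [S.sg_succ]
    rcases S.sg_cases i with h | h <;> rw [h]
    · left; refine ⟨?_, ?_, ?_, ?_⟩ <;> ring
    · right; refine ⟨?_, ?_, ?_, ?_⟩ <;> ring
  have g1 : i ≠ i' + 1 := by
    rintro rfl; exact S.sd_ne i' hs.symm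
  have g2 : i + 1 ≠ i' := by
    rintro rfl; exact S.sd_ne i hs
  have h5 := crs_near S.hM (S.off_le hf i) (S.off_le hf (i + 1)) (S.off_le hf' i')
    (S.off_le hf' (i' + 1)) (S.pt_ne (by omega) (by omega) hii) (S.pt_ne (by omega) (by omega) g1)
    (S.pt_ne (by omega) (by omega) g2) (S.pt_ne (i := i + 1) (i' := i' + 1) (by omega) (by omega)
      (by omega)) (S.sd i) (S.sd i')
  exact h5.trans (ar_ar_zero hD (by omega) (by omega))

end Sur

end Pool.Agent.Work.MP_c0cec8_co.Spine
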