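import Pool.Agent.Work.MP_c0cec8_co.Spine.Sur2

/-!
# The surgery: sums over the new semicircles
-/

namespace Pool.Agent.Work.MP_c0cec8_co.Spine

open Finset

variable {V : Type*} [Finite V] {G : SimpleGraph V}

theorem mx_map_le {φ : Arc → Arc} {O : Multiset Arc} {q q' : Arc}
    (h : ∀ R ∈ O, crs (φ R) q' ≤ crs R q) : mx (O.map φ) {q'} ≤ mx O {q} := by
  rw [mx_singleton_right, mx_singleton_right, Multiset.map_map]
  exact Multiset.sum_map_le_sum_map _ _ fun R hR => h R hR

theorem alt_strictMono {φ : ℤ → ℤ} (h : StrictMono φ) {a b c d : ℤ} :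
    Alt (φ a) (φ b) (φ c) (φ d) ↔ Alt a b c d := by
  unfold Alt Sp
  simp only [h.lt_iff_lt]

theorem crs_mp_strictMono {φ : ℤ → ℤ} (h : StrictMono φ) {p q : Arc} (hp : p.2.1 ≤ p.2.2)
    (hq : q.2.1 ≤ q.2.2) : crs (mp φ p) (mp φ q) = crs p q := by
  conv_rhs => rw [eq_seg hp, eq_seg hq]
  exact crs_congr_alt (alt_strictMono h) _ _

theorem Good.mono {A B : Multiset Arc} (h : Good B) (hAB : A ≤ B) : Good A :=
  fun q hq => h q (Multiset.mem_of_le hAB hq)

theorem mx_le_card {A B : Multiset Arc} {n : ℕ} (h : ∀ p ∈ A, mx {p} B ≤ n) :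
    mx A B ≤ A.card * n := by
  rw [mx_eq_sum]
  have := Multiset.sum_le_card_nsmul (A.map fun q => mx {q} B) n (by
    intro x hx
    rw [Multiset.mem_map] at hx
    obtain ⟨p, hp, rfl⟩ := hx
    exact h p hp)
  rwa [Multiset.card_map, smul_eq_mul] at this

namespace Sur

variable {D : Drawing G} {S : Sur D}

theorem M_pos {f : Sym2 V} (hf : f ∈ S.F) : 0 < S.M := by
  have := S.hM; have := S.k_nonneg hf; omega

theorem mx_mm (hM : 0 < S.M) {O O' : Multiset Arc} (h : Good O) (h' : Good O') :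
    mx (O.map S.mm) (O'.map S.mm) = mx O O' :=
  mx_map_of fun p hp q hq => crs_mp_strictMono
    (fun a b hab => by simpa using mul_lt hM hab) (h p hp) (h' q hq)

theorem mx_mm_trk {f : Sym2 V} (hf : f ∈ S.F) {O : Multiset Arc} (hO : O ≤ D.T) :
    mx (O.map S.mm) (S.trk f) ≤ mx O (S.wnd f) := by
  unfold trk wnd
  rw [mx_sum_right, mx_sum_right]
  refine Finset.sum_le_sum fun i hi => ?_
  rw [Finset.mem_Ico] at hi
  exact mx_map_le fun R hR => crs_mm_tr hf hi.1 hi.2 (Multiset.mem_of_le hO hR)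

theorem wnd_le (f : Sym2 V) (hf : f ∈ S.F) : S.wnd f ≤ D.T := by
  refine le_trans ?_ (D.arcs_le S.he)
  rw [D.arcs_eq]
  unfold wnd
  have hj := (S.hj f hf).2
  refine Finset.sum_le_sum_of_subset ?_
  intro i hi
  rw [Finset.mem_Ico] at hi
  rw [Finset.mem_range]
  omega

theorem mx_h_trk (hn : ∀ p ∈ D.T, mx {p} D.T ≤ 1) {f f' : Sym2 V} (hf : f ∈ S.F)
    (hf' : f' ∈ S.F) {h : Arc}
    (hh : ∀ i, S.a ≤ i → i < S.j f' → crs h (S.tr f' i) ≤ crs (S.Q f) (D.ar S.e i)) :
    mx {h} (S.trk f') ≤ 1 := by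
  refine le_trans ?_ (le_trans (mx_mono (le_refl ({S.Q f} : Multiset Arc)) (S.wnd_le f' hf'))
    (hn _ (Q_mem_T hf)))
  unfold trk wnd
  rw [mx_sum_right, mx_sum_right]
  refine Finset.sum_le_sum fun i hi => ?_
  rw [Finset.mem_Ico] at hi
  rw [mx_singleton, mx_singleton]
  exact hh i hi.1 hi.2

theorem mx_trk_trk (hD : D.Min) {f f' : Sym2 V} (hf : f ∈ S.F) (hf' : f' ∈ S.F) :
    mx (S.trk f) (S.trk f') = 0 := by
  unfold trk
  rw [mx_sum_left]
  refine Finset.sum_eq_zero fun i hi => ?_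
  rw [mx_sum_right]
  refine Finset.sum_eq_zero fun i' hi' => ?_
  rw [Finset.mem_Ico] at hi hi'
  rw [mx_singleton]
  exact crs_tr_tr hD hf hf' hi.1 hi.2 hi'.1 hi'.2

end Sur

/-- all ends of an edge have the colour `c` -/
def On (x : V → Bool) (c : Bool) (g : Sym2 V) : Prop := ∀ v ∈ g, x v = c

omit [Finite V] in
theorem On.not {x : V → Bool} {c : Bool} {g : Sym2 V} (h : On x c g) : ¬ On x (!c) g := by
  intro h'
  induction g using Sym2.ind with
  | h u v =>
    have h1 := h u (Sym2.mem_mk_left u v)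
    have h2 := h' u (Sym2.mem_mk_left u v)
    rw [h1] at h2
    cases c <;> simp at h2

namespace Sur

variable {D : Drawing G} (S : Sur D)

open Classical in
/-- the old semicircles of an edge on the sheet `c` -/
noncomputable def old (x : V → Bool) (c : Bool) (g : Sym2 V) : Multiset Arc :=
  if On x c g then D.arcs g else if g ∈ S.F ∧ ¬ On x (!c) g then
    (if x (S.src g) = c then (chain (D.side g) (S.U g ++ [S.pa g]) : Multiset Arc)
      else (chain (!(S.sd (S.j g))) (S.pb g :: S.W g) : Multiset Arc)) else 0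

open Classical in
/-- the new semicircles of an edge on the sheet `c` -/
noncomputable def new (x : V → Bool) (c : Bool) (g : Sym2 V) : Multiset Arc :=
  if g ∈ S.F ∧ ¬ On x c g ∧ ¬ On x (!c) g then
    {if x (S.src g) = c then S.hA g else S.hB g} + S.trk g else 0

variable {S}

theorem arcs_split {f : Sym2 V} (hf : f ∈ S.F) : (D.arcs f : Multiset Arc) =
    (chain (D.side f) (S.U f ++ [S.pa f]) : Multiset Arc) + {S.Q f} +
      (chain (!(S.sd (S.j f))) (S.pb f :: S.W f) : Multiset Arc) := by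
  unfold Drawing.arcs
  rw [S.hpts f hf, chain_split, par_succ, S.hpar f hf]
  rw [← Multiset.coe_add, ← Multiset.cons_coe, ← Multiset.singleton_add, ← add_assoc]
  rfl

open Classical in
theorem old_le (x : V → Bool) (g : Sym2 V) :
    S.old x true g + S.old x false g ≤ D.arcs g := by
  unfold old
  by_cases h1 : On x true g
  · have h2 : ¬ On x false g := h1.not
    rw [if_pos h1, if_neg h2, if_neg (by simp [h1]), add_zero]
  · by_cases h2 : On x false g
    · rw [if_neg h1, if_pos h2, if_neg (by simp [h2]), zero_add]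
    · rw [if_neg h1, if_neg h2]
      by_cases h3 : g ∈ S.F
      · have e1 : g ∈ S.F ∧ ¬ On x (!true) g := ⟨h3, h2⟩
        have e2 : g ∈ S.F ∧ ¬ On x (!false) g := ⟨h3, h1⟩
        rw [if_pos e1, if_pos e2, arcs_split h3]
        cases hx : x (S.src g)
        · have e3 : ¬ (false = true) := by simp
          rw [if_neg e3, if_pos rfl, add_comm]
          exact add_le_add_left (Multiset.le_add_right _ _) _
        · have e3 : ¬ (true = false) := by simp
          rw [if_pos rfl, if_neg e3]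
          exact add_le_add_left (Multiset.le_add_right _ _) _
      · rw [if_neg (fun h => h3 h.1), if_neg (fun h => h3 h.1)]
        exact Multiset.zero_le _

/-- all old semicircles on a sheet -/
noncomputable def OO (S : Sur D) (x : V → Bool) (c : Bool) : Multiset Arc :=
  ∑ g ∈ edges G, S.old x c g

/-- all new semicircles on a sheet -/
noncomputable def NN (S : Sur D) (x : V → Bool) (c : Bool) : Multiset Arc :=
  ∑ g ∈ edges G, S.new x c g

theorem OO_le (x : V → Bool) : S.OO x true + S.OO x false ≤ D.T := by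
  unfold OO Drawing.T
  rw [← Finset.sum_add_distrib]
  exact Finset.sum_le_sum fun g _ => old_le x g

theorem OO_le' (x : V → Bool) (c : Bool) : S.OO x c ≤ D.T := by
  refine le_trans ?_ (OO_le (S := S) x)
  cases c
  · exact Multiset.le_add_left _ _
  · exact Multiset.le_add_right _ _

open Classical in
theorem new_zero {x : V → Bool} {c : Bool} {g : Sym2 V} (h : g ∉ S.F) : S.new x c g = 0 := by
  unfold new; rw [if_neg (fun h' => h h'.1)]

theorem NN_eq (x : V → Bool) (c : Bool) : S.NN x c = ∑ g ∈ S.F, S.new x c g := by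
  unfold NN
  symm
  exact Finset.sum_subset S.hF fun g _ hg => new_zero hg

/-- old against new semicircles -/
theorem mx_old_new (hn : ∀ p ∈ D.T, mx {p} D.T ≤ 1) {f : Sym2 V} (hf : f ∈ S.F) {Kw : ℕ}
    (hK : mx D.T (S.wnd f) ≤ Kw) (x : V → Bool) :
    mx ((S.OO x true).map S.mm) (S.new x true f) + mx ((S.OO x false).map S.mm) (S.new x false f)
      ≤ Kw + 1 := by
  classical
  have key : ∀ c, mx ((S.OO x c).map S.mm) (S.new x c f) ≤
      mx (S.OO x c) {S.Q f} + mx (S.OO x c) (S.wnd f) := by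
    intro c
    unfold new
    split_ifs with h1 h2
    · rw [mx_add_right]
      exact add_le_add (mx_map_le fun R hR => crs_mm_hA hn hf
        (Multiset.mem_of_le (OO_le' x c) hR)) (mx_mm_trk hf (OO_le' x c))
    · rw [mx_add_right]
      exact add_le_add (mx_map_le fun R hR => crs_mm_hB hn hf
        (Multiset.mem_of_le (OO_le' x c) hR)) (mx_mm_trk hf (OO_le' x c))
    · rw [mx_zero_right]; exact Nat.zero_le _
  have h1 := key true
  have h2 := key false
  have h3 : mx (S.OO x true + S.OO x false) {S.Q f} ≤ 1 :=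
    le_trans (mx_mono (OO_le x) le_rfl) (by rw [mx_comm]; exact hn _ (Q_mem_T hf))
  have h4 : mx (S.OO x true + S.OO x false) (S.wnd f) ≤ Kw :=
    le_trans (mx_mono (OO_le x) le_rfl) hK
  rw [mx_add_left] at h3 h4
  omega

/-- new against new semicircles -/
theorem mx_new_new (hD : D.Min) (hn : ∀ p ∈ D.T, mx {p} D.T ≤ 1) {f f' : Sym2 V} (hf : f ∈ S.F)
    (hf' : f' ∈ S.F) (x : V → Bool) (c : Bool) : mx (S.new x c f) (S.new x c f') ≤ 3 := by
  classical
  have hA := mx_h_trk hn hf hf' (h := S.hA f) (fun i h1 h2 => crs_hA_tr hD hf hf' h1 h2)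
  have hB := mx_h_trk hn hf hf' (h := S.hB f) (fun i h1 h2 => crs_hB_tr hD hf hf' h1 h2)
  have hA' := mx_h_trk hn hf' hf (h := S.hA f') (fun i h1 h2 => crs_hA_tr hD hf' hf h1 h2)
  have hB' := mx_h_trk hn hf' hf (h := S.hB f') (fun i h1 h2 => crs_hB_tr hD hf' hf h1 h2)
  rw [mx_comm] at hA' hB'
  have hT := mx_trk_trk hD hf hf'
  unfold new
  by_cases h1 : f ∈ S.F ∧ ¬ On x c f ∧ ¬ On x (!c) f
  · by_cases h2 : f' ∈ S.F ∧ ¬ On x c f' ∧ ¬ On x (!c) f'
    · rw [if_pos h1, if_pos h2]
      have e1 : mx {if x (S.src f) = c then S.hA f else S.hB f} (S.trk f') ≤ 1 := by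
        split_ifs <;> assumption
      have e2 : mx (S.trk f) {if x (S.src f') = c then S.hA f' else S.hB f'} ≤ 1 := by
        split_ifs <;> assumption
      have e3 := crs_le_one (if x (S.src f) = c then S.hA f else S.hB f)
        (if x (S.src f') = c then S.hA f' else S.hB f')
      rw [mx_add_left, mx_add_right, mx_add_right, mx_singleton]
      omega
    · rw [if_neg h2, mx_zero_right]; exact Nat.zero_le _
  · rw [if_neg h1, mx_zero_left]; exact Nat.zero_le _

/-- all semicircles on a sheet, before the rotation -/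
noncomputable def SS (S : Sur D) (x : V → Bool) (c : Bool) : Multiset Arc :=
  (S.OO x c).map S.mm + S.NN x c

theorem mx_SS (hD : D.Min) (hn : ∀ p ∈ D.T, mx {p} D.T ≤ 1) (hM : 0 < S.M) {Kw : ℕ}
    (hK : ∀ f ∈ S.F, mx D.T (S.wnd f) ≤ Kw) (x : V → Bool) :
    mx (S.SS x true) (S.SS x true) + mx (S.SS x false) (S.SS x false) ≤
      mx (S.OO x true) (S.OO x true) + mx (S.OO x false) (S.OO x false) +
        (2 * (S.F.card * (Kw + 1)) + 6 * S.F.card ^ 2) := by
  have hg : ∀ c, Good (S.OO x c) := fun c => D.good.mono (OO_le' x c)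
  have e1 : ∀ c, mx (S.SS x c) (S.SS x c) = mx (S.OO x c) (S.OO x c) +
      2 * mx ((S.OO x c).map S.mm) (S.NN x c) + mx (S.NN x c) (S.NN x c) := by
    intro c
    unfold SS
    rw [mx_add_left, mx_add_right, mx_add_right, mx_mm hM (hg c) (hg c), mx_comm (S.NN x c)]
    ring
  have e2 : mx ((S.OO x true).map S.mm) (S.NN x true) + mx ((S.OO x false).map S.mm) (S.NN x false)
      ≤ S.F.card * (Kw + 1) := by
    rw [NN_eq, NN_eq, mx_sum_right, mx_sum_right, ← Finset.sum_add_distrib]
    refine le_trans (Finset.sum_le_card_nsmul _ _ (Kw + 1) fun f hf =>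
      mx_old_new hn hf (hK f hf) x) ?_
    rw [smul_eq_mul]
  have e3 : ∀ c, mx (S.NN x c) (S.NN x c) ≤ 3 * S.F.card ^ 2 := by
    intro c
    rw [NN_eq, mx_sum_left]
    refine le_trans (Finset.sum_le_card_nsmul _ _ (S.F.card * 3) fun f hf => ?_) ?_
    · rw [mx_sum_right]
      refine le_trans (Finset.sum_le_card_nsmul _ _ 3 fun f' hf' =>
        mx_new_new hD hn hf hf' x c) ?_
      rw [smul_eq_mul]
    · rw [smul_eq_mul]
      apply le_of_eq; ring
  have e4 := e3 true
  have e5 := e3 false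
  rw [e1, e1]
  omega

end Sur

end Pool.Agent.Work.MP_c0cec8_co.Spine
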