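import Pool.Agent.Work.MP_c0cec8_co.Spine.Sur3

/-!
# The surgery: the two sheets
-/

namespace Pool.Agent.Work.MP_c0cec8_co.Spine

open Finset

variable {V : Type*} [Finite V] {G : SimpleGraph V}

namespace Sur

variable {D : Drawing G}

/-- all points are small -/
structure Bd (S : Sur D) (H : ℤ) : Prop where
  pos : ∀ v, |S.M * D.pos v| + 2 * S.k < H
  pts : ∀ g ∈ edges G, ∀ z ∈ D.pts g, |S.M * z| + 2 * S.k < H

/-- the map of the axis to the sheet `c` -/
def phi (S : Sur D) (H : ℤ) (c : Bool) : ℤ → ℤ :=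
  if c then rot (2 * H) (S.M * D.pt S.e S.a + S.k) (-(2 * H))
  else rot (2 * H) (S.M * D.pt S.e S.a) S.k

theorem exists_bd (S : Sur D) : ∃ H, Bd S H := by
  classical
  obtain ⟨B, hB⟩ : ∃ B : ℤ, ∀ v, |S.M * D.pos v| ≤ B := by
    have h := (Set.finite_range fun v => |S.M * D.pos v|).bddAbove
    obtain ⟨B, hB⟩ := h
    exact ⟨B, fun v => hB ⟨v, rfl⟩⟩
  have hfin : (⋃ g ∈ (edges G : Set (Sym2 V)), {y : ℤ | ∃ z ∈ D.pts g, y = |S.M * z|}).Finite := by
    refine Set.Finite.biUnion (Finset.finite_toSet _) fun g _ => ?_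
    have : {y : ℤ | ∃ z ∈ D.pts g, y = |S.M * z|} = (fun z => |S.M * z|) '' {z | z ∈ D.pts g} := by
      ext y
      exact ⟨fun ⟨z, h1, h2⟩ => ⟨z, h1, h2.symm⟩, fun ⟨z, h1, h2⟩ => ⟨z, h1, h2.symm⟩⟩
    rw [this]
    exact (List.finite_toSet (D.pts g)).image _
  obtain ⟨B', hB'⟩ := hfin.bddAbove
  refine ⟨max B B' + 2 * S.k + 1, fun v => ?_, fun g hg z hz => ?_⟩
  · have := hB v; have := le_max_left B B'; omega
  · have : |S.M * z| ≤ B' := hB' (Set.mem_biUnion (Finset.mem_coe.2 hg) ⟨z, hz, rfl⟩)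
    have := le_max_right B B'; omega

variable {S : Sur D} {H : ℤ}

theorem Bd.pt (h : Bd S H) {i : ℕ} (hi : i < (D.pts S.e).length) :
    |S.M * D.pt S.e i| + 2 * S.k < H :=
  h.pts S.e S.he _ (getD_mem hi)

theorem Bd.pt0 (h : Bd S H) : |S.M * D.pt S.e S.a| + 2 * S.k < H := by
  by_cases h1 : S.a < (D.pts S.e).length
  · exact h.pt h1
  · obtain ⟨u, v, l, -, -⟩ := D.endsOK S.he
    have h2 : D.pt S.e S.a = 0 := by
      unfold Drawing.pt
      rw [List.getD_eq_default _ _ (by omega)]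
    have h3 := h.pos u
    have h4 := abs_nonneg (S.M * D.pos u)
    rw [h2, mul_zero, abs_zero]
    omega

theorem Bd.Y (h : Bd S H) {f : Sym2 V} (hf : f ∈ S.F) {i : ℕ} (hi : i < (D.pts S.e).length) :
    |S.Y f i| < H := by
  have h1 := h.pt hi
  have h2 := S.off_le hf i
  have h3 := S.hk
  unfold Sur.Y
  have := abs_add_le (S.M * D.pt S.e i) (S.sg i * S.o f)
  omega

theorem phi_true (hB : Bd S H) {z : ℤ} (hz : |z| < H) :
    phi S H true z ≤ S.M * D.pt S.e S.a + S.k := by
  have h1 := hB.pt0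
  have h2 := S.hk
  have h3 := abs_lt.1 hz
  have h4 := neg_abs_le (S.M * D.pt S.e S.a)
  unfold phi rot
  simp only [if_true]
  split_ifs <;> omega

theorem phi_false (hB : Bd S H) {z : ℤ} (hz : |z| < H) :
    S.M * D.pt S.e S.a + S.k < phi S H false z := by
  have h1 := hB.pt0
  have h2 := S.hk
  have h3 := abs_lt.1 hz
  have h4 := le_abs_self (S.M * D.pt S.e S.a)
  unfold phi rot
  simp only [Bool.false_eq_true, if_false]
  split_ifs <;> omega

theorem phi_inj (hB : Bd S H) {z z' : ℤ} (hz : |z| < H) (hz' : |z'| < H) {c c' : Bool}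
    (h : phi S H c z = phi S H c' z') : c = c' ∧ z = z' := by
  cases c <;> cases c'
  · refine ⟨rfl, ?_⟩
    unfold phi at h
    simp only [Bool.false_eq_true, if_false] at h
    exact rot_inj (le_refl _) hz hz' h
  · have h1 := phi_false hB hz
    have h2 := phi_true hB hz'
    omega
  · have h1 := phi_false hB hz'
    have h2 := phi_true hB hz
    omega
  · refine ⟨rfl, ?_⟩
    unfold phi at h
    simp only [if_true] at h
    exact rot_inj (le_refl _) hz hz' h

theorem crs_phi {c : Bool} {p q : Arc} (hp : p.2.1 ≤ p.2.2)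
    (hq : q.2.1 ≤ q.2.2) (h1 : Ends (fun z => |z| < H) p) (h2 : Ends (fun z => |z| < H) q) :
    crs (mp (phi S H c) p) (mp (phi S H c) q) = crs p q := by
  unfold phi
  cases c
  · simp only [Bool.false_eq_true, if_false]
    exact crs_mp_rot le_rfl hp hq h1 h2
  · simp only [if_true]
    exact crs_mp_rot le_rfl hp hq h1 h2

theorem crs_sheets (hB : Bd S H) {p q : Arc} (h1 : Ends (fun z => |z| < H) p)
    (h2 : Ends (fun z => |z| < H) q) :
    crs (mp (phi S H true) p) (mp (phi S H false) q) = 0 := by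
  unfold mp
  rw [crs_seg_seg_eq_zero]
  intro _ h
  have a1 := phi_true hB h1.1
  have a2 := phi_true hB h1.2
  have a3 := phi_false hB h2.1
  have a4 := phi_false hB h2.2
  unfold Alt Sp at h
  omega

/-- points that are not at the hole -/
def Far (S : Sur D) (z : ℤ) : Prop :=
  z ≤ S.M * D.pt S.e S.a ∨ S.M * D.pt S.e S.a + S.k < z

/-- the semicircle of `f` through the hole -/
def mid (S : Sur D) (f : Sym2 V) : Arc :=
  seg (!(S.sd S.a)) (S.M * D.pt S.e S.a + S.o f) (S.M * D.pt S.e S.a + S.o f + S.k)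

theorem crs_mid (hB : Bd S H) {f : Sym2 V} (hf : f ∈ S.F) {c : Bool} {q : Arc}
    (h1 : Ends (fun z => |z| < H) q) (h2 : q.1 = S.sd S.a ∨ Ends (Far S) q) :
    crs (mp (phi S H c) q) (S.mid f) = 0 := by
  unfold mp mid
  rw [crs_seg_seg_eq_zero]
  intro hs h
  rcases h2 with h2 | h2
  · rw [h2] at hs
    cases S.sd S.a <;> simp at hs
  · have ho := S.ho f hf
    have hb := hB.pt0
    have hk := S.hk
    have b1 := neg_abs_le (S.M * D.pt S.e S.a)
    have b2 := le_abs_self (S.M * D.pt S.e S.a)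
    have key : ∀ z, |z| < H → Far S z → phi S H c z ≤ S.M * D.pt S.e S.a ∨
        S.M * D.pt S.e S.a + 2 * S.k < phi S H c z := by
      intro z hz hz'
      have h3 := abs_lt.1 hz
      unfold Far at hz'
      cases c
      · right
        unfold phi rot
        simp only [Bool.false_eq_true, if_false]
        split_ifs <;> omega
      · left
        unfold phi rot
        simp only [if_true]
        split_ifs <;> omega
    have k1 := key _ h1.1 h2.1
    have k2 := key _ h1.2 h2.2
    unfold Alt Sp at h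
    omega

theorem Y_a {f : Sym2 V} : S.Y f S.a = S.M * D.pt S.e S.a + S.o f := by
  unfold Sur.Y sg
  rw [if_pos rfl]; ring

theorem phi_Y_true {f : Sym2 V} (hf : f ∈ S.F) :
    phi S H true (S.Y f S.a) = S.M * D.pt S.e S.a + S.o f := by
  have ho := S.ho f hf
  rw [Y_a]
  unfold phi rot
  simp only [if_true]
  split_ifs <;> omega

theorem phi_Y_false {f : Sym2 V} (hf : f ∈ S.F) :
    phi S H false (S.Y f S.a) = S.M * D.pt S.e S.a + S.o f + S.k := by
  have ho := S.ho f hf
  rw [Y_a]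
  unfold phi rot
  simp only [Bool.false_eq_true, if_false]
  split_ifs <;> omega

/-- the semicircle through the hole, in terms of the sheets -/
theorem mid_eq {f : Sym2 V} (hf : f ∈ S.F) (c : Bool) :
    seg (!(S.sd S.a)) (phi S H c (S.Y f S.a)) (phi S H (!c) (S.Y f S.a)) = S.mid f := by
  unfold mid
  cases c
  · rw [Bool.not_false, phi_Y_true hf, phi_Y_false hf, seg_comm]
  · rw [Bool.not_true, phi_Y_true hf, phi_Y_false hf]

theorem Far_mul {f : Sym2 V} (hf : f ∈ S.F) (z : ℤ) : Far S (S.M * z) := by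
  unfold Far
  have hk := S.hk
  rcases lt_trichotomy z (D.pt S.e S.a) with h | h | h
  · left
    have := near_lt S.hM (S.zero_le hf) (S.zero_le hf) h
    omega
  · left; rw [h]
  · right
    have h0 : |S.k| ≤ S.k := by rw [abs_of_nonneg hk]
    have := near_lt S.hM h0 (S.zero_le hf) h
    omega

theorem Far_Y {f : Sym2 V} (hf : f ∈ S.F) {i : ℕ} (hi : i < (D.pts S.e).length)
    (hia : i ≠ S.a) : Far S (S.Y f i) := by
  unfold Far Sur.Y
  have ha2 := S.hj f hf
  have hk := S.hk
  have h1 : D.pt S.e i ≠ D.pt S.e S.a := S.pt_ne hi (by omega) hia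
  rcases lt_or_gt_of_ne h1 with h | h
  · left
    have := near_lt S.hM (S.off_le hf i) (S.zero_le hf) h
    omega
  · right
    have h0 : |S.k| ≤ S.k := by rw [abs_of_nonneg hk]
    have := near_lt S.hM h0 (S.off_le hf i) h
    omega

/-- what we need to know about a semicircle of a sheet -/
def Nice (S : Sur D) (H : ℤ) (q : Arc) : Prop :=
  q.2.1 ≤ q.2.2 ∧ Ends (fun z => |z| < H) q ∧ (q.1 = S.sd S.a ∨ Ends (Far S) q)

theorem seg_good (s : Bool) (a b : ℤ) : (seg s a b).2.1 ≤ (seg s a b).2.2 := by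
  unfold seg; simp only; exact min_le_max

theorem nice_seg {s : Bool} {a b : ℤ} (ha : |a| < H) (hb : |b| < H)
    (h : s = S.sd S.a ∨ (Far S a ∧ Far S b)) : Nice S H (seg s a b) := by
  refine ⟨seg_good _ _ _, Ends.seg ha hb, ?_⟩
  rcases h with h | h
  · exact Or.inl h
  · exact Or.inr (Ends.seg h.1 h.2)

theorem far_of_k (hk : S.k = 0) (z : ℤ) : Far S z := by
  unfold Far; omega

theorem Far_mul' (hM : 0 < S.M) (z : ℤ) : Far S (S.M * z) := by
  unfold Far
  have hk := S.hk
  have hMk := S.hM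
  rcases lt_trichotomy z (D.pt S.e S.a) with h | h | h
  · left
    have := mul_lt hM h
    omega
  · left; rw [h]
  · right
    have : S.M * (D.pt S.e S.a + 1) ≤ S.M * z := mul_le_mul_of_nonneg_left (by omega) hM.le
    rw [mul_add, mul_one] at this
    omega

theorem nice_mm (hM : 0 < S.M) (hB : Bd S H) {R : Arc} (hR : R ∈ D.T) : Nice S H (S.mm R) := by
  obtain ⟨g, hg, hRg⟩ := Drawing.mem_T.1 hR
  have h1 : Ends (fun z => z ∈ D.pts g) R := chain_ends (fun z hz => hz) hRg
  have hk := S.hk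
  have h2 : ∀ z ∈ D.pts g, |S.M * z| < H := fun z hz => by
    have := hB.pts g hg z hz; omega
  exact nice_seg (h2 _ h1.1) (h2 _ h1.2) (Or.inr ⟨Far_mul' hM _, Far_mul' hM _⟩)

theorem nice_h {f : Sym2 V} (hf : f ∈ S.F) (hB : Bd S H) {q : ℤ} (hq : q ∈ D.pts f) :
    Nice S H (seg (S.sd (S.j f)) (S.M * q) (S.Y f (S.j f))) := by
  have hj := S.hj f hf
  have hk := S.hk
  have := hB.pts f (S.hF f hf) q hq
  exact nice_seg (by omega) (hB.Y hf (by omega)) (Or.inr ⟨Far_mul hf _, Far_Y hf (by omega)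
    (by omega)⟩)

theorem nice_tr {f : Sym2 V} (hf : f ∈ S.F) (hB : Bd S H) {i : ℕ} (h1 : S.a ≤ i)
    (h2 : i < S.j f) : Nice S H (S.tr f i) := by
  have hj := S.hj f hf
  refine nice_seg (hB.Y hf (by omega)) (hB.Y hf (by omega)) ?_
  by_cases h : i = S.a
  · left; rw [h]
  · right
    exact ⟨Far_Y hf (by omega) h, Far_Y hf (by omega) (by omega)⟩

theorem nice_new (hB : Bd S H) {x : V → Bool} {c : Bool} {g : Sym2 V} {q : Arc}
    (hq : q ∈ S.new x c g) : Nice S H q := by
  classical
  unfold new at hq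
  by_cases h : g ∈ S.F ∧ ¬ On x c g ∧ ¬ On x (!c) g
  · rw [if_pos h, Multiset.mem_add, Multiset.mem_singleton] at hq
    rcases hq with hq | hq
    · split_ifs at hq
      · rw [hq]; exact nice_h h.1 hB (by rw [S.hpts g h.1]; simp)
      · rw [hq]; exact nice_h h.1 hB (by rw [S.hpts g h.1]; simp)
    · unfold trk at hq
      rw [Multiset.mem_sum] at hq
      obtain ⟨i, hi, hq⟩ := hq
      rw [Multiset.mem_singleton] at hq
      rw [Finset.mem_Ico] at hi
      rw [hq]
      exact nice_tr h.1 hB hi.1 hi.2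
  · rw [if_neg h] at hq
    simp at hq

theorem nice_SS (hM : 0 < S.M) (hB : Bd S H) {x : V → Bool} {c : Bool} {q : Arc}
    (hq : q ∈ S.SS x c) : Nice S H q := by
  unfold SS at hq
  rcases Multiset.mem_add.1 hq with h | h
  · rw [Multiset.mem_map] at h
    obtain ⟨R, hR, rfl⟩ := h
    exact nice_mm hM hB (Multiset.mem_of_le (OO_le' x c) hR)
  · unfold NN at h
    rw [Multiset.mem_sum] at h
    obtain ⟨g, -, hg⟩ := h
    exact nice_new hB hg

open Classical in
/-- the semicircles through the hole -/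
noncomputable def MM (S : Sur D) (x : V → Bool) : Multiset Arc :=
  ∑ g ∈ S.F, if On x true g ∨ On x false g then 0 else {S.mid g}

theorem MM_card (x : V → Bool) : (S.MM x).card ≤ S.F.card := by
  classical
  unfold MM
  rw [Multiset.card_sum]
  refine le_trans (Finset.sum_le_card_nsmul _ _ 1 fun g _ => ?_) (by simp)
  split_ifs <;> simp

theorem mem_MM {x : V → Bool} {q : Arc} (h : q ∈ S.MM x) : ∃ f ∈ S.F, q = S.mid f := by
  classical
  unfold MM at h
  rw [Multiset.mem_sum] at h
  obtain ⟨f, hf, h⟩ := h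
  split_ifs at h
  · simp at h
  · exact ⟨f, hf, Multiset.mem_singleton.1 h⟩

/-- the number of crossings of the two sheets and the semicircles through the hole -/
theorem mx_total (hD : D.Min) (hn : ∀ p ∈ D.T, mx {p} D.T ≤ 1) (hM : 0 < S.M) (hB : Bd S H)
    {Kw : ℕ} (hK : ∀ f ∈ S.F, mx D.T (S.wnd f) ≤ Kw) (x : V → Bool) {T : Multiset Arc}
    (hT : T = (S.SS x true).map (mp (phi S H true)) + (S.SS x false).map (mp (phi S H false)) +
      S.MM x) :
    mx T T ≤ mx (S.OO x true) (S.OO x true) + mx (S.OO x false) (S.OO x false) +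
        (2 * (S.F.card * (Kw + 1)) + 7 * S.F.card ^ 2) := by
  have e1 : ∀ c, mx ((S.SS x c).map (mp (phi S H c))) ((S.SS x c).map (mp (phi S H c))) =
      mx (S.SS x c) (S.SS x c) := by
    intro c
    refine mx_map_of fun p hp q hq => ?_
    have h1 := nice_SS hM hB hp
    have h2 := nice_SS hM hB hq
    exact crs_phi h1.1 h2.1 h1.2.1 h2.2.1
  have e2 : mx ((S.SS x true).map (mp (phi S H true))) ((S.SS x false).map (mp (phi S H false)))
      = 0 := by
    rw [mx_eq_zero_iff]
    intro p hp q hq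
    rw [Multiset.mem_map] at hp hq
    obtain ⟨p, hp, rfl⟩ := hp
    obtain ⟨q, hq, rfl⟩ := hq
    exact crs_sheets hB (nice_SS hM hB hp).2.1 (nice_SS hM hB hq).2.1
  have e3 : ∀ c, mx ((S.SS x c).map (mp (phi S H c))) (S.MM x) = 0 := by
    intro c
    rw [mx_eq_zero_iff]
    intro p hp q hq
    rw [Multiset.mem_map] at hp
    obtain ⟨p, hp, rfl⟩ := hp
    obtain ⟨f, hf, rfl⟩ := mem_MM hq
    exact crs_mid hB hf (nice_SS hM hB hp).2.1 (nice_SS hM hB hp).2.2
  have e4 : mx (S.MM x) (S.MM x) ≤ S.F.card ^ 2 := by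
    refine le_trans (mx_le_card (n := (S.MM x).card) fun p _ => ?_) ?_
    · rw [mx_comm]
      refine le_trans (mx_le_card (n := 1) fun q _ => ?_) (by rw [mul_one])
      rw [mx_singleton]
      exact crs_le_one _ _
    · have := MM_card (S := S) x
      rw [pow_two]
      exact Nat.mul_le_mul this this
  have e5 := mx_SS hD hn hM hK x
  have e6 : mx T T = mx ((S.SS x true).map (mp (phi S H true))) ((S.SS x true).map
      (mp (phi S H true))) + mx ((S.SS x false).map (mp (phi S H false))) ((S.SS x false).map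
      (mp (phi S H false))) + mx (S.MM x) (S.MM x) := by
    rw [hT]
    simp only [mx_add_left, mx_add_right]
    rw [e2, e3, e3, mx_comm ((S.SS x false).map _) ((S.SS x true).map _), e2,
      mx_comm (S.MM x) ((S.SS x true).map _), e3, mx_comm (S.MM x) ((S.SS x false).map _), e3]
    ring
  rw [e6, e1, e1]
  omega

end Sur

end Pool.Agent.Work.MP_c0cec8_co.Spine
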