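import Pool.Agent.Work.MP_c0cec8_co.Spine.Sur4

/-!
# The surgery: the new drawing
-/

namespace Pool.Agent.Work.MP_c0cec8_co.Spine

open Finset

variable {V : Type*} [Finite V] {G : SimpleGraph V}

namespace Sur

variable {D : Drawing G} (S : Sur D) (H : ℤ)

/-- the displaced points -/
def upl (f : Sym2 V) : List ℤ := (List.range (S.j f - S.a + 1)).map fun i => S.Y f (S.a + i)

/-- the first half of a cut edge, before the rotation -/
def LA (f : Sym2 V) : List ℤ := (S.U f ++ [S.pa f]).map (S.M * ·) ++ (S.upl f).reverse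

/-- the second half of a cut edge, before the rotation -/
def LB (f : Sym2 V) : List ℤ := S.upl f ++ (S.pb f :: S.W f).map (S.M * ·)

/-- the points of a cut edge -/
def swl (c : Bool) (f : Sym2 V) : List ℤ :=
  (S.LA f).map (phi S H c) ++ (S.LB f).map (phi S H (!c))

open Classical in
/-- the points of an edge in the new drawing -/
noncomputable def pts1 (x : V → Bool) (g : Sym2 V) : List ℤ :=
  if On x true g then (D.pts g).map (fun z => phi S H true (S.M * z))
  else if On x false g then (D.pts g).map (fun z => phi S H false (S.M * z))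
  else S.swl H (x (S.src g)) g

/-- the places of the vertices in the new drawing -/
def pos1 (x : V → Bool) (v : V) : ℤ := phi S H (x v) (S.M * D.pos v)

/-- the edges of the new drawing -/
def E1 (x : V → Bool) : Set (Sym2 V) :=
  {g | g ∈ G.edgeSet ∧ (On x true g ∨ On x false g ∨ g ∈ S.F)}

/-- the graph of the new drawing -/
def G1 (x : V → Bool) : SimpleGraph V := SimpleGraph.fromEdgeSet (S.E1 x)

variable {S H}

omit [Finite V] in
theorem edge_nd {g : Sym2 V} (h : g ∈ G.edgeSet) : ¬ g.IsDiag :=
  G.not_isDiag_of_mem_edgeSet h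

theorem edgeSet_G1 (x : V → Bool) : (S.G1 x).edgeSet = S.E1 x := by
  unfold G1
  rw [SimpleGraph.edgeSet_fromEdgeSet]
  ext g
  exact ⟨fun h => h.1, fun h => ⟨h, fun h' => edge_nd h.1 h'⟩⟩

theorem G1_le (x : V → Bool) : S.G1 x ≤ G := by
  rw [← SimpleGraph.edgeSet_subset_edgeSet, edgeSet_G1]
  exact fun g hg => hg.1

theorem upl_length (f : Sym2 V) : (S.upl f).length = S.j f - S.a + 1 := by
  unfold upl; simp

theorem upl_ne (f : Sym2 V) : S.upl f ≠ [] := by
  intro h
  have := upl_length (S := S) f
  rw [h] at this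
  simp at this

theorem mem_upl {f : Sym2 V} (hf : f ∈ S.F) {z : ℤ} : z ∈ S.upl f ↔
    ∃ i, S.a ≤ i ∧ i ≤ S.j f ∧ z = S.Y f i := by
  have hj := S.hj f hf
  unfold upl
  rw [List.mem_map]
  constructor
  · rintro ⟨i, hi, rfl⟩
    rw [List.mem_range] at hi
    exact ⟨S.a + i, by omega, by omega, rfl⟩
  · rintro ⟨i, h1, h2, rfl⟩
    exact ⟨i - S.a, List.mem_range.2 (by omega), by rw [show S.a + (i - S.a) = i by omega]⟩

theorem upl_head (f : Sym2 V) : (S.upl f).head (upl_ne f) = S.Y f S.a := by
  have h : (S.upl f).getD 0 0 = S.Y f S.a := by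
    unfold upl
    rw [List.getD_eq_getElem _ _ (by simp)]
    simp
  rw [← h, List.getD_eq_getElem _ _ (by rw [upl_length]; omega), List.head_eq_getElem]

theorem upl_last {f : Sym2 V} (hf : f ∈ S.F) : (S.upl f).getLast (upl_ne f) = S.Y f (S.j f) := by
  have hj := S.hj f hf
  rw [List.getLast_eq_getElem]
  unfold upl
  simp only [List.getElem_map, List.getElem_range, List.length_map, List.length_range]
  congr 1
  omega

/-- the semicircles over the displaced points -/
theorem chain_upl {f : Sym2 V} (hf : f ∈ S.F) :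
    (chain (S.sd S.a) (S.upl f) : Multiset Arc) = S.trk f := by
  have hj := S.hj f hf
  rw [chain_eq_sum, upl_length, Nat.add_sub_cancel]
  unfold trk
  rw [Finset.sum_Ico_eq_sum_range]
  refine Finset.sum_congr rfl fun i hi => ?_
  rw [Finset.mem_range] at hi
  congr 1
  unfold tr sd
  rw [par_par]
  congr 1
  · unfold upl
    rw [List.getD_eq_getElem _ _ (by simp; omega)]
    simp
  · unfold upl
    rw [List.getD_eq_getElem _ _ (by simp; omega)]
    simp [add_assoc]

theorem par_odd (s : Bool) (n : ℕ) : par s (2 * n + 1) = !s := by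
  rw [par_succ, par_two]

theorem chain_upl' {f : Sym2 V} (hf : f ∈ S.F) :
    (chain (!(S.sd (S.j f))) (S.upl f).reverse : Multiset Arc) = S.trk f := by
  have hj := S.hj f hf
  rw [← chain_upl hf]
  refine chain_reverse_coe ?_
  rw [upl_length]
  unfold sd
  rw [par_par, ← par_succ]
  congr 1
  omega

theorem LA_ne (f : Sym2 V) : S.LA f ≠ [] := by
  unfold LA; simp

theorem LB_ne (f : Sym2 V) : S.LB f ≠ [] := by
  unfold LB; simp

theorem chain_LA {f : Sym2 V} (hf : f ∈ S.F) : (chain (D.side f) (S.LA f) : Multiset Arc) =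
    (chain (D.side f) (S.U f ++ [S.pa f]) : Multiset Arc).map S.mm + ({S.hA f} + S.trk f) := by
  unfold LA
  rw [chain_two (D.side f) _ (S.upl f).reverse (by simp) (by simpa using upl_ne f)
    (t := S.sd (S.j f)) (by
      rw [List.length_map, List.length_append, List.length_singleton, Nat.add_sub_cancel]
      exact S.hpar f hf), chain_upl' hf, chain_map, add_assoc]
  congr 1
  congr 1
  unfold hA
  congr 1
  congr 1
  · simp
  · rw [List.head_reverse, upl_last hf]

theorem chain_LB {f : Sym2 V} (hf : f ∈ S.F) : (chain (S.sd S.a) (S.LB f) : Multiset Arc) =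
    (chain (!(S.sd (S.j f))) (S.pb f :: S.W f) : Multiset Arc).map S.mm +
      ({S.hB f} + S.trk f) := by
  have hj := S.hj f hf
  unfold LB
  rw [chain_two (S.sd S.a) (S.upl f) _ (upl_ne f) (by simp) (t := S.sd (S.j f)) (by
      rw [upl_length, Nat.add_sub_cancel]
      unfold sd
      rw [par_par]
      congr 1
      omega), chain_upl hf, chain_map]
  have h1 : seg (S.sd (S.j f)) ((S.upl f).getLast (upl_ne f))
      (((S.pb f :: S.W f).map (S.M * ·)).head (by simp)) = S.hB f := by
    unfold hB
    rw [upl_last hf, seg_comm]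
    simp
  rw [h1]
  have h2 : ((chain (!(S.sd (S.j f))) (S.pb f :: S.W f)).map (mp (S.M * ·)) : Multiset Arc) =
      (chain (!(S.sd (S.j f))) (S.pb f :: S.W f) : Multiset Arc).map S.mm := rfl
  rw [h2]
  abel

theorem chain_swl {f : Sym2 V} (hf : f ∈ S.F) (c : Bool) :
    (chain (D.side f) (S.swl H c f) : Multiset Arc) =
      (chain (D.side f) (S.LA f) : Multiset Arc).map (mp (phi S H c)) +
      (chain (S.sd S.a) (S.LB f) : Multiset Arc).map (mp (phi S H (!c))) + {S.mid f} := by
  have hj := S.hj f hf
  unfold swl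
  have hlen : (S.LA f).length = (S.U f).length + 1 + (S.j f - S.a + 1) := by
    unfold LA
    rw [List.length_append, List.length_map, List.length_append, List.length_singleton,
      List.length_reverse, upl_length]
  rw [chain_two (D.side f) ((S.LA f).map (phi S H c)) ((S.LB f).map (phi S H (!c)))
    (by simpa using LA_ne f) (by simpa using LB_ne f) (t := !(S.sd S.a)) (by
      rw [List.length_map, hlen,
        show (S.U f).length + 1 + (S.j f - S.a + 1) - 1 = (S.U f).length + (S.j f - S.a + 1) by
          omega, ← par_par, S.hpar f hf]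
      unfold sd
      rw [par_par, show S.j f + (S.j f - S.a + 1) = S.a + (2 * (S.j f - S.a) + 1) by omega,
        ← par_par, par_odd]), chain_map, chain_map, Bool.not_not]
  have h1 : seg (!(S.sd S.a)) (((S.LA f).map (phi S H c)).getLast (by simpa using LA_ne f))
      (((S.LB f).map (phi S H (!c))).head (by simpa using LB_ne f)) = S.mid f := by
    rw [List.getLast_map, List.head_map, ← mid_eq (H := H) hf c]
    have g1 : (S.upl f).reverse ≠ [] := by
      intro h; exact upl_ne f (List.reverse_eq_nil_iff.1 h)
    have e1 : (S.LA f).getLast (LA_ne f) = S.Y f S.a := by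
      have h3 : (S.LA f).getLast (LA_ne f) = (S.upl f).reverse.getLast g1 :=
        List.getLast_append_of_ne_nil _ g1
      rw [h3, List.getLast_reverse, upl_head]
    have e2 : (S.LB f).head (LB_ne f) = S.Y f S.a := by
      have h3 : (S.LB f).head (LB_ne f) = (S.upl f).head (upl_ne f) :=
        List.head_append_of_ne_nil (upl_ne f)
      rw [h3, upl_head]
    rw [e1, e2]
  rw [h1]
  have h2 : ∀ (A B C : Multiset Arc), A + C + B = A + B + C := fun A B C => by abel
  rw [h2]
  rfl

end Sur

end Pool.Agent.Work.MP_c0cec8_co.Spine
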