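import Pool.Agent.Work.MP_c0cec8_co.Spine.Sur5

/-!
# The surgery: the new drawing is a drawing
-/

namespace Pool.Agent.Work.MP_c0cec8_co.Spine

open Finset

variable {V : Type*} [Finite V] {G : SimpleGraph V}

namespace Sur

variable {D : Drawing G} {S : Sur D} {H : ℤ}

theorem mem_f {f : Sym2 V} (hf : f ∈ S.F) {v : V} : v ∈ f ↔ v = S.src f ∨ v = S.tgt f := by
  conv_lhs => rw [S.hst f hf]
  exact Sym2.mem_iff

theorem pts_eq {f : Sym2 V} (hf : f ∈ S.F) :
    D.pts f = (S.U f ++ [S.pa f]) ++ (S.pb f :: S.W f) := by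
  rw [S.hpts f hf]; simp

theorem src_mem {f : Sym2 V} (hf : f ∈ S.F) : D.pos (S.src f) ∈ S.U f ++ [S.pa f] :=
  List.mem_of_mem_head? (Option.mem_def.2 (S.hsrc f hf))

theorem tgt_mem {f : Sym2 V} (hf : f ∈ S.F) : D.pos (S.tgt f) ∈ S.pb f :: S.W f :=
  List.mem_of_mem_getLast? (Option.mem_def.2 (S.htgt f hf))

theorem disj_f {f : Sym2 V} (hf : f ∈ S.F) {z : ℤ} (h1 : z ∈ S.U f ++ [S.pa f])
    (h2 : z ∈ S.pb f :: S.W f) : False := by
  have h := D.nodup f (mem_edges.1 (S.hF f hf))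
  rw [pts_eq hf, List.nodup_append] at h
  exact h.2.2 z h1 z h2 rfl

theorem eq_src {f : Sym2 V} (hf : f ∈ S.F) {v : V} (h : D.pos v ∈ S.U f ++ [S.pa f]) :
    v = S.src f := by
  have h1 : v ∈ f := D.own f (mem_edges.1 (S.hF f hf)) v (by
    rw [pts_eq hf]; exact List.mem_append_left _ h)
  rcases (mem_f hf).1 h1 with h2 | h2
  · exact h2
  · exfalso
    rw [h2] at h
    exact disj_f hf h (tgt_mem hf)

theorem eq_tgt {f : Sym2 V} (hf : f ∈ S.F) {v : V} (h : D.pos v ∈ S.pb f :: S.W f) :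
    v = S.tgt f := by
  have h1 : v ∈ f := D.own f (mem_edges.1 (S.hF f hf)) v (by
    rw [pts_eq hf]; exact List.mem_append_right _ h)
  rcases (mem_f hf).1 h1 with h2 | h2
  · exfalso
    rw [h2] at h
    exact disj_f hf (src_mem hf) h
  · exact h2

theorem col_tgt {f : Sym2 V} (hf : f ∈ S.F) {x : V → Bool} (h1 : ¬ On x true f)
    (h2 : ¬ On x false f) : x (S.tgt f) = !(x (S.src f)) := by
  by_contra h
  have h3 : x (S.tgt f) = x (S.src f) := by
    cases h4 : x (S.tgt f) <;> cases h5 : x (S.src f) <;> rw [h4, h5] at h <;> simp_all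
  have h4 : On x (x (S.src f)) f := by
    intro v hv
    rcases (mem_f hf).1 hv with rfl | rfl
    · rfl
    · exact h3
  cases h5 : x (S.src f)
  · rw [h5] at h4; exact h2 h4
  · rw [h5] at h4; exact h1 h4

theorem mem_LA {f : Sym2 V} (hf : f ∈ S.F) {z : ℤ} (h : z ∈ S.LA f) :
    (∃ z0 ∈ S.U f ++ [S.pa f], z = S.M * z0) ∨ ∃ i, S.a ≤ i ∧ i ≤ S.j f ∧ z = S.Y f i := by
  unfold LA at h
  rcases List.mem_append.1 h with h | h
  · obtain ⟨z0, h1, h2⟩ := List.mem_map.1 h
    exact Or.inl ⟨z0, h1, h2.symm⟩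
  · exact Or.inr ((mem_upl hf).1 (List.mem_reverse.1 h))

theorem mem_LB {f : Sym2 V} (hf : f ∈ S.F) {z : ℤ} (h : z ∈ S.LB f) :
    (∃ z0 ∈ S.pb f :: S.W f, z = S.M * z0) ∨ ∃ i, S.a ≤ i ∧ i ≤ S.j f ∧ z = S.Y f i := by
  unfold LB at h
  rcases List.mem_append.1 h with h | h
  · exact Or.inr ((mem_upl hf).1 h)
  · obtain ⟨z0, h1, h2⟩ := List.mem_map.1 h
    exact Or.inl ⟨z0, h1, h2.symm⟩

/-- the points of the edges of the new drawing -/
theorem mem_pts1 {x : V → Bool} {g : Sym2 V} (hg : g ∈ S.E1 x) {z : ℤ}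
    (hz : z ∈ S.pts1 H x g) :
    (∃ c z0, z = phi S H c (S.M * z0) ∧ z0 ∈ D.pts g ∧ ∀ v, z0 = D.pos v → x v = c) ∨
      ∃ c i, g ∈ S.F ∧ S.a ≤ i ∧ i ≤ S.j g ∧ z = phi S H c (S.Y g i) := by
  classical
  unfold pts1 at hz
  by_cases h1 : On x true g
  · rw [if_pos h1] at hz
    obtain ⟨z0, h2, h3⟩ := List.mem_map.1 hz
    refine Or.inl ⟨true, z0, h3.symm, h2, fun v hv => h1 v (D.own g hg.1 v ?_)⟩
    rw [← hv]; exact h2
  · rw [if_neg h1] at hz
    by_cases h2 : On x false g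
    · rw [if_pos h2] at hz
      obtain ⟨z0, h3, h4⟩ := List.mem_map.1 hz
      refine Or.inl ⟨false, z0, h4.symm, h3, fun v hv => h2 v (D.own g hg.1 v ?_)⟩
      rw [← hv]; exact h3
    · rw [if_neg h2] at hz
      have hF : g ∈ S.F := by
        rcases hg.2 with h | h | h
        · exact absurd h h1
        · exact absurd h h2
        · exact h
      unfold swl at hz
      rcases List.mem_append.1 hz with h | h
      · obtain ⟨z1, h3, rfl⟩ := List.mem_map.1 h
        rcases mem_LA hF h3 with ⟨z0, h4, rfl⟩ | ⟨i, h4, h5, rfl⟩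
        · refine Or.inl ⟨_, z0, rfl, by rw [pts_eq hF]; exact List.mem_append_left _ h4, ?_⟩
          rintro v rfl
          rw [eq_src hF h4]
        · exact Or.inr ⟨_, i, hF, h4, h5, rfl⟩
      · obtain ⟨z1, h3, rfl⟩ := List.mem_map.1 h
        rcases mem_LB hF h3 with ⟨z0, h4, rfl⟩ | ⟨i, h4, h5, rfl⟩
        · refine Or.inl ⟨_, z0, rfl, by rw [pts_eq hF]; exact List.mem_append_right _ h4, ?_⟩
          rintro v rfl
          rw [eq_tgt hF h4, col_tgt hF h1 h2]
        · exact Or.inr ⟨_, i, hF, h4, h5, rfl⟩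

theorem mul_inj (hM : 0 < S.M) {z z' : ℤ} (h : S.M * z = S.M * z') : z = z' :=
  mul_left_cancel₀ hM.ne' h

theorem Y_ne_mul {f : Sym2 V} (hf : f ∈ S.F) (i : ℕ) (z : ℤ) : S.M * z ≠ S.Y f i := by
  intro h
  have ho := S.ho f hf
  by_cases h1 : z = D.pt S.e i
  · unfold Sur.Y at h
    rw [h1] at h
    rcases S.sg_cases i with h2 | h2 <;> rw [h2] at h <;> omega
  · have := near_ne S.hM (S.zero_le hf) (S.off_le hf i) h1
    rw [add_zero] at this
    exact this h

theorem Y_inj {f f' : Sym2 V} (hf : f ∈ S.F) (hf' : f' ∈ S.F) {i i' : ℕ}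
    (hi : i < (D.pts S.e).length) (hi' : i' < (D.pts S.e).length) (h : S.Y f i = S.Y f' i') :
    f = f' ∧ i = i' := by
  have h1 : i = i' := by
    by_contra h2
    exact near_ne S.hM (S.off_le hf i) (S.off_le hf' i') (S.pt_ne hi hi' h2) h
  subst h1
  refine ⟨S.hinj f hf f' hf' ?_, rfl⟩
  unfold Sur.Y at h
  rcases S.sg_cases i with h2 | h2 <;> rw [h2] at h <;> omega

theorem upl_nodup {f : Sym2 V} (hf : f ∈ S.F) : (S.upl f).Nodup := by
  have hj := S.hj f hf
  unfold upl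
  refine List.Nodup.map_on ?_ List.nodup_range
  intro i hi i' hi' h
  rw [List.mem_range] at hi hi'
  have := (Y_inj hf hf (by omega) (by omega) h).2
  omega

theorem LA_nodup (hM : 0 < S.M) {f : Sym2 V} (hf : f ∈ S.F) : (S.LA f).Nodup := by
  have hn := D.nodup f (mem_edges.1 (S.hF f hf))
  rw [pts_eq hf, List.nodup_append] at hn
  unfold LA
  rw [List.nodup_append]
  refine ⟨List.Nodup.map (fun a b h => mul_inj hM h) hn.1, List.nodup_reverse.2 (upl_nodup hf), ?_⟩
  rintro z hz z' hz' rfl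
  obtain ⟨z0, h1, h2⟩ := List.mem_map.1 hz
  obtain ⟨i, h3, h4, h5⟩ := (mem_upl hf).1 (List.mem_reverse.1 hz')
  exact Y_ne_mul hf i z0 (h2.trans h5)

theorem LB_nodup (hM : 0 < S.M) {f : Sym2 V} (hf : f ∈ S.F) : (S.LB f).Nodup := by
  have hn := D.nodup f (mem_edges.1 (S.hF f hf))
  rw [pts_eq hf, List.nodup_append] at hn
  unfold LB
  rw [List.nodup_append]
  refine ⟨upl_nodup hf, List.Nodup.map (fun a b h => mul_inj hM h) hn.2.1, ?_⟩
  rintro z hz z' hz' rfl
  obtain ⟨z0, h1, h2⟩ := List.mem_map.1 hz'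
  obtain ⟨i, h3, h4, h5⟩ := (mem_upl hf).1 hz
  exact Y_ne_mul hf i z0 (h2.trans h5)

theorem LA_bd (hB : Bd S H) {f : Sym2 V} (hf : f ∈ S.F) {z : ℤ} (h : z ∈ S.LA f) : |z| < H := by
  have hj := S.hj f hf
  have hk := S.hk
  rcases mem_LA hf h with ⟨z0, h1, rfl⟩ | ⟨i, h1, h2, rfl⟩
  · have := hB.pts f (S.hF f hf) z0 (by rw [pts_eq hf]; exact List.mem_append_left _ h1)
    omega
  · exact hB.Y hf (by omega)

theorem LB_bd (hB : Bd S H) {f : Sym2 V} (hf : f ∈ S.F) {z : ℤ} (h : z ∈ S.LB f) : |z| < H := by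
  have hj := S.hj f hf
  have hk := S.hk
  rcases mem_LB hf h with ⟨z0, h1, rfl⟩ | ⟨i, h1, h2, rfl⟩
  · have := hB.pts f (S.hF f hf) z0 (by rw [pts_eq hf]; exact List.mem_append_right _ h1)
    omega
  · exact hB.Y hf (by omega)

theorem not_ne (c : Bool) : c ≠ !c := by cases c <;> simp

theorem swl_nodup (hM : 0 < S.M) (hB : Bd S H) {f : Sym2 V} (hf : f ∈ S.F) (c : Bool) :
    (S.swl H c f).Nodup := by
  unfold swl
  rw [List.nodup_append]
  refine ⟨List.Nodup.map_on (fun a ha b hb h => (phi_inj hB (LA_bd hB hf ha) (LA_bd hB hf hb)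
    h).2) (LA_nodup hM hf), List.Nodup.map_on (fun a ha b hb h => (phi_inj hB (LB_bd hB hf ha)
    (LB_bd hB hf hb) h).2) (LB_nodup hM hf), ?_⟩
  rintro z hz z' hz' rfl
  obtain ⟨a, ha, h1⟩ := List.mem_map.1 hz
  obtain ⟨b, hb, h2⟩ := List.mem_map.1 hz'
  exact not_ne c (phi_inj hB (LA_bd hB hf ha) (LB_bd hB hf hb) (h1.trans h2.symm)).1

theorem pts1_nodup (hM : 0 < S.M) (hB : Bd S H) {x : V → Bool} {g : Sym2 V}
    (hg : g ∈ S.E1 x) : (S.pts1 H x g).Nodup := by
  classical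
  have hn := D.nodup g hg.1
  have hk := S.hk
  have hbd : ∀ z ∈ D.pts g, |S.M * z| < H := fun z hz => by
    have := hB.pts g (mem_edges.2 hg.1) z hz; omega
  unfold pts1
  split_ifs with h1 h2
  · exact List.Nodup.map_on (fun a ha b hb h => mul_inj hM (phi_inj hB (hbd a ha) (hbd b hb)
      h).2) hn
  · exact List.Nodup.map_on (fun a ha b hb h => mul_inj hM (phi_inj hB (hbd a ha) (hbd b hb)
      h).2) hn
  · have hF : g ∈ S.F := by
      rcases hg.2 with h | h | h
      · exact absurd h h1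
      · exact absurd h h2
      · exact h
    exact swl_nodup hM hB hF _

theorem swl_ends {f : Sym2 V} (hf : f ∈ S.F) (c : Bool) :
    ∃ l, S.swl H c f = phi S H c (S.M * D.pos (S.src f)) ::
      (l ++ [phi S H (!c) (S.M * D.pos (S.tgt f))]) := by
  obtain ⟨l1, h1⟩ : ∃ l, S.U f ++ [S.pa f] = D.pos (S.src f) :: l := by
    have := S.hsrc f hf
    rcases hL : S.U f ++ [S.pa f] with _ | ⟨y, l⟩
    · simp at hL
    · rw [hL] at this
      have h2 : y = D.pos (S.src f) := by simpa using this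
      exact ⟨l, by rw [h2]⟩
  obtain ⟨l2, h2⟩ : ∃ l, S.pb f :: S.W f = l ++ [D.pos (S.tgt f)] := by
    have := S.htgt f hf
    have hne : S.pb f :: S.W f ≠ [] := by simp
    rw [List.getLast?_eq_getLast_of_ne_nil hne] at this
    have h3 : (S.pb f :: S.W f).getLast hne = D.pos (S.tgt f) := Option.some_injective _ this
    exact ⟨(S.pb f :: S.W f).dropLast, by rw [← h3, List.dropLast_append_getLast]⟩
  unfold swl LA LB
  rw [h1, h2]
  refine ⟨l1.map (fun z => phi S H c (S.M * z)) ++ ((S.upl f).reverse.map (phi S H c) ++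
    ((S.upl f).map (phi S H (!c)) ++ l2.map (fun z => phi S H (!c) (S.M * z)))), ?_⟩
  simp [List.map_append, Function.comp_def]

theorem pts1_ends {x : V → Bool} {g : Sym2 V} (hg : g ∈ S.E1 x) :
    ∃ (u v : V) (l : List ℤ), g = s(u, v) ∧
      S.pts1 H x g = S.pos1 H x u :: (l ++ [S.pos1 H x v]) := by
  classical
  obtain ⟨u, v, l, h1, h2⟩ := D.ends g hg.1
  have hu : u ∈ g := by rw [h1]; exact Sym2.mem_mk_left _ _
  have hv : v ∈ g := by rw [h1]; exact Sym2.mem_mk_right _ _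
  unfold pts1 pos1
  by_cases h3 : On x true g
  · rw [if_pos h3]
    refine ⟨u, v, l.map (fun z => phi S H true (S.M * z)), h1, ?_⟩
    rw [h2, h3 u hu, h3 v hv]
    simp
  · by_cases h4 : On x false g
    · rw [if_neg h3, if_pos h4]
      refine ⟨u, v, l.map (fun z => phi S H false (S.M * z)), h1, ?_⟩
      rw [h2, h4 u hu, h4 v hv]
      simp
    · rw [if_neg h3, if_neg h4]
      have hF : g ∈ S.F := by
        rcases hg.2 with h | h | h
        · exact absurd h h3
        · exact absurd h h4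
        · exact h
      obtain ⟨l', hl'⟩ := swl_ends (H := H) hF (x (S.src g))
      refine ⟨S.src g, S.tgt g, l', S.hst g hF, ?_⟩
      rw [hl', col_tgt hF h3 h4]

variable (S H)

/-- the new drawing -/
noncomputable def D1 (hM : 0 < S.M) (hB : Bd S H) (x : V → Bool) : Drawing (S.G1 x) where
  pos := S.pos1 H x
  side := D.side
  pts := S.pts1 H x
  pos_inj := by
    intro u v h
    have hk := S.hk
    have h1 := phi_inj hB (by have := hB.pos u; omega) (by have := hB.pos v; omega) h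
    exact D.pos_inj (mul_inj hM h1.2)
  ends := by
    intro g hg
    rw [edgeSet_G1] at hg
    exact pts1_ends hg
  nodup := by
    intro g hg
    rw [edgeSet_G1] at hg
    exact pts1_nodup hM hB hg
  own := by
    intro g hg v hv
    rw [edgeSet_G1] at hg
    have hk := S.hk
    have hj : g ∈ S.F → S.j g + 1 < (D.pts S.e).length := fun h => (S.hj g h).2
    rcases mem_pts1 hg hv with ⟨c, z0, h1, h2, -⟩ | ⟨c, i, h1, h2, h3, h4⟩
    · have h5 := phi_inj hB (by have := hB.pos v; omega)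
        (by have := hB.pts g (mem_edges.2 hg.1) z0 h2; omega) h1
      refine D.own g hg.1 v ?_
      rw [mul_inj hM h5.2]; exact h2
    · exfalso
      have hj' := hj h1
      have h5 := phi_inj hB (by have := hB.pos v; omega) (hB.Y h1 (by omega)) h4
      exact Y_ne_mul h1 i _ h5.2
  disj := by
    intro g hg g' hg' hne z hz hz'
    rw [edgeSet_G1] at hg hg'
    have hk := S.hk
    have hj : g ∈ S.F → S.j g + 1 < (D.pts S.e).length := fun h => (S.hj g h).2
    have hj' : g' ∈ S.F → S.j g' + 1 < (D.pts S.e).length := fun h => (S.hj g' h).2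
    rcases mem_pts1 hg hz with ⟨c, z0, h1, h2, h0⟩ | ⟨c, i, h1, h2, h3, h4⟩
    · rcases mem_pts1 hg' hz' with ⟨c', z0', h1', h2', h0'⟩ | ⟨c', i', h1', h2', h3', h4'⟩
      · have h5 := phi_inj hB (by have := hB.pts g (mem_edges.2 hg.1) z0 h2; omega)
          (by have := hB.pts g' (mem_edges.2 hg'.1) z0' h2'; omega) (h1.symm.trans h1')
        have h6 := mul_inj hM h5.2
        obtain ⟨v, hv⟩ := D.disj g hg.1 g' hg'.1 hne z0 h2 (by rw [h6]; exact h2')
        refine ⟨v, ?_⟩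
        rw [h1, hv]
        unfold pos1
        rw [h0 v hv]
      · exfalso
        have hj2 := hj' h1'
        have h5 := phi_inj hB (by have := hB.pts g (mem_edges.2 hg.1) z0 h2; omega)
          (hB.Y h1' (by omega)) (h1.symm.trans h4')
        exact Y_ne_mul h1' i' _ h5.2
    · rcases mem_pts1 hg' hz' with ⟨c', z0', h1', h2', h0'⟩ | ⟨c', i', h1', h2', h3', h4'⟩
      · exfalso
        have hj2 := hj h1
        have h5 := phi_inj hB (hB.Y h1 (by omega))
          (by have := hB.pts g' (mem_edges.2 hg'.1) z0' h2'; omega) (h4.symm.trans h1')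
        exact Y_ne_mul h1 i _ h5.2.symm
      · exfalso
        have hj2 := hj h1
        have hj2' := hj' h1'
        have h5 := phi_inj hB (hB.Y h1 (by omega)) (hB.Y h1' (by omega)) (h4.symm.trans h4')
        exact hne (Y_inj h1 h1' (by omega) (by omega) h5.2).1

end Sur

end Pool.Agent.Work.MP_c0cec8_co.Spine
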