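import Pool.Agent.Work.MP_c0cec8_co.Spine.Sur6

/-!
# The surgery: the number of crossings of the new drawing
-/

namespace Pool.Agent.Work.MP_c0cec8_co.Spine

open Finset

variable {V : Type*} [Finite V] {G : SimpleGraph V}

namespace Sur

variable {D : Drawing G} {S : Sur D} {H : ℤ}

open Classical in
/-- the semicircle through the hole of an edge, if any -/
noncomputable def md (S : Sur D) (x : V → Bool) (g : Sym2 V) : Multiset Arc :=
  if g ∈ S.F ∧ ¬ On x true g ∧ ¬ On x false g then {S.mid g} else 0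

theorem coe_map (L : List Arc) (φ : Arc → Arc) : ((L.map φ : List Arc) : Multiset Arc) =
    (L : Multiset Arc).map φ := rfl

theorem chain_two_map (φ : ℤ → ℤ) (s : Bool) (L : List ℤ) :
    (chain s (L.map (fun z => φ (S.M * z))) : Multiset Arc) =
      ((chain s L : Multiset Arc).map S.mm).map (mp φ) := by
  have h : L.map (fun z => φ (S.M * z)) = (L.map (S.M * ·)).map φ := by
    rw [List.map_map]; rfl
  rw [h, chain_map, chain_map, coe_map, coe_map]
  rfl

theorem arcs1 {x : V → Bool} {g : Sym2 V} (hg : g ∈ S.E1 x) :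
    (chain (D.side g) (S.pts1 H x g) : Multiset Arc) =
      ((S.old x true g).map S.mm + S.new x true g).map (mp (phi S H true)) +
      ((S.old x false g).map S.mm + S.new x false g).map (mp (phi S H false)) + S.md x g := by
  classical
  unfold pts1 old new md
  by_cases h1 : On x true g
  · have h2 : ¬ On x false g := h1.not
    have n1 : ¬ (g ∈ S.F ∧ ¬ On x (!false) g) := fun h => h.2 h1
    have n2 : ¬ (g ∈ S.F ∧ ¬ On x true g ∧ ¬ On x (!true) g) := fun h => h.2.1 h1
    have n3 : ¬ (g ∈ S.F ∧ ¬ On x false g ∧ ¬ On x (!false) g) := fun h => h.2.2 h1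
    have n4 : ¬ (g ∈ S.F ∧ ¬ On x true g ∧ ¬ On x false g) := fun h => h.2.1 h1
    rw [if_pos h1, if_pos h1, if_neg n2, if_neg h2, if_neg n1, if_neg n3, if_neg n4,
      chain_two_map]
    simp [Drawing.arcs]
  · by_cases h2 : On x false g
    · have n1 : ¬ (g ∈ S.F ∧ ¬ On x (!true) g) := fun h => h.2 h2
      have n2 : ¬ (g ∈ S.F ∧ ¬ On x true g ∧ ¬ On x (!true) g) := fun h => h.2.2 h2
      have n3 : ¬ (g ∈ S.F ∧ ¬ On x false g ∧ ¬ On x (!false) g) := fun h => h.2.1 h2
      have n4 : ¬ (g ∈ S.F ∧ ¬ On x true g ∧ ¬ On x false g) := fun h => h.2.2 h2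
      rw [if_neg h1, if_pos h2, if_neg h1, if_neg n1, if_neg n2, if_pos h2, if_neg n3, if_neg n4,
        chain_two_map]
      simp [Drawing.arcs]
    · have hF : g ∈ S.F := by
        rcases hg.2 with h | h | h
        · exact absurd h h1
        · exact absurd h h2
        · exact h
      have c1 : g ∈ S.F ∧ ¬ On x (!true) g := ⟨hF, h2⟩
      have c2 : g ∈ S.F ∧ ¬ On x (!false) g := ⟨hF, h1⟩
      have c3 : g ∈ S.F ∧ ¬ On x true g ∧ ¬ On x (!true) g := ⟨hF, h1, h2⟩
      have c4 : g ∈ S.F ∧ ¬ On x false g ∧ ¬ On x (!false) g := ⟨hF, h2, h1⟩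
      have c5 : g ∈ S.F ∧ ¬ On x true g ∧ ¬ On x false g := ⟨hF, h1, h2⟩
      rw [if_neg h1, if_neg h2, if_neg h1, if_pos c1, if_pos c3, if_neg h2, if_pos c2, if_pos c4,
        if_pos c5, chain_swl hF, chain_LA hF, chain_LB hF]
      cases hx : x (S.src g)
      · have e3 : ¬ (false = true) := by simp
        rw [if_neg e3, if_neg e3, if_pos rfl, if_pos rfl, Bool.not_false]
        abel
      · have e3 : ¬ (true = false) := by simp
        rw [if_neg e3, if_neg e3, if_pos rfl, if_pos rfl, Bool.not_true]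

theorem zero1 {x : V → Bool} {g : Sym2 V} (hg : g ∈ edges G) (hg' : g ∉ S.E1 x) :
    ((S.old x true g).map S.mm + S.new x true g).map (mp (phi S H true)) +
      ((S.old x false g).map S.mm + S.new x false g).map (mp (phi S H false)) + S.md x g = 0 := by
  classical
  have h0 : ¬ (On x true g ∨ On x false g ∨ g ∈ S.F) := fun h => hg' ⟨mem_edges.1 hg, h⟩
  have h1 : ¬ On x true g := fun h => h0 (Or.inl h)
  have h2 : ¬ On x false g := fun h => h0 (Or.inr (Or.inl h))
  have h3 : g ∉ S.F := fun h => h0 (Or.inr (Or.inr h))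
  unfold old new md
  rw [if_neg h1, if_neg h2, if_neg (fun h => h3 h.1), if_neg (fun h => h3 h.1),
    if_neg (fun h => h3 h.1), if_neg (fun h => h3 h.1), if_neg (fun h => h3 h.1)]
  simp

theorem MM_eq (x : V → Bool) : S.MM x = ∑ g ∈ edges G, S.md x g := by
  classical
  unfold MM md
  rw [← Finset.sum_subset S.hF (f := fun g => if g ∈ S.F ∧ ¬ On x true g ∧ ¬ On x false g then
    ({S.mid g} : Multiset Arc) else 0) (fun g _ hg => if_neg (fun h => hg h.1))]
  refine Finset.sum_congr rfl fun g hg => ?_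
  by_cases h1 : On x true g
  · rw [if_pos (Or.inl h1), if_neg (fun h => h.2.1 h1)]
  · by_cases h2 : On x false g
    · rw [if_pos (Or.inr h2), if_neg (fun h => h.2.2 h2)]
    · rw [if_neg (not_or.2 ⟨h1, h2⟩), if_pos ⟨hg, h1, h2⟩]

theorem SS_eq (x : V → Bool) (c : Bool) :
    S.SS x c = ∑ g ∈ edges G, ((S.old x c g).map S.mm + S.new x c g) := by
  unfold SS OO NN
  rw [Finset.sum_add_distrib]
  congr 1
  exact map_sum (Multiset.mapAddMonoidHom S.mm) _ _

theorem D1_T (hM : 0 < S.M) (hB : Bd S H) (x : V → Bool) :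
    (S.D1 H hM hB x).T = (S.SS x true).map (mp (phi S H true)) +
      (S.SS x false).map (mp (phi S H false)) + S.MM x := by
  classical
  have e1 : ∀ c, (S.SS x c).map (mp (phi S H c)) = ∑ g ∈ edges G,
      ((S.old x c g).map S.mm + S.new x c g).map (mp (phi S H c)) := by
    intro c
    rw [SS_eq]
    exact map_sum (Multiset.mapAddMonoidHom (mp (phi S H c))) _ _
  rw [e1, e1, MM_eq, ← Finset.sum_add_distrib, ← Finset.sum_add_distrib]
  have hsub : edges (S.G1 x) ⊆ edges G := by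
    intro g hg
    rw [mem_edges] at hg ⊢
    exact SimpleGraph.edgeSet_mono (G1_le x) hg
  have hE : ∀ g, g ∈ edges (S.G1 x) ↔ g ∈ S.E1 x := fun g => by
    rw [mem_edges, edgeSet_G1]
  unfold Drawing.T
  rw [← Finset.sum_subset hsub (fun g hg hg' => zero1 hg (fun h => hg' ((hE g).2 h)))]
  refine Finset.sum_congr rfl fun g hg => ?_
  exact arcs1 ((hE g).1 hg)

/-- the number of crossings of the new drawing -/
theorem D1_dbl (hD : D.Min) (hn : ∀ p ∈ D.T, mx {p} D.T ≤ 1) (hM : 0 < S.M) (hB : Bd S H)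
    {Kw : ℕ} (hK : ∀ f ∈ S.F, mx D.T (S.wnd f) ≤ Kw) (x : V → Bool) :
    (S.D1 H hM hB x).dbl ≤ mx (S.OO x true) (S.OO x true) + mx (S.OO x false) (S.OO x false) +
        (2 * (S.F.card * (Kw + 1)) + 7 * S.F.card ^ 2) := by
  rw [Drawing.dbl_eq]
  exact mx_total hD hn hM hB hK x (D1_T hM hB x)

/-- the other edges -/
def G2 (S : Sur D) (x : V → Bool) : SimpleGraph V := G \ S.G1 x

theorem G2_le (x : V → Bool) : S.G2 x ≤ G := sdiff_le

theorem G1_sup_G2 (x : V → Bool) : S.G1 x ⊔ S.G2 x = G := by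
  unfold G2
  exact sup_sdiff_cancel_right (G1_le x)

theorem G1_disj_G2 (x : V → Bool) : Disjoint (S.G1 x) (S.G2 x) := by
  unfold G2
  exact disjoint_sdiff_self_right

theorem mem_G2 (x : V → Bool) (g : Sym2 V) : g ∈ edges (S.G2 x) ↔
    g ∈ edges G ∧ ¬ On x true g ∧ ¬ On x false g ∧ g ∉ S.F := by
  have h : (S.G2 x).edgeSet = G.edgeSet \ (S.G1 x).edgeSet := by
    unfold G2
    exact SimpleGraph.edgeSet_sdiff _ _
  rw [mem_edges, h, edgeSet_G1, mem_edges]
  constructor
  · rintro ⟨h1, h2⟩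
    exact ⟨h1, fun h => h2 ⟨h1, Or.inl h⟩, fun h => h2 ⟨h1, Or.inr (Or.inl h)⟩,
      fun h => h2 ⟨h1, Or.inr (Or.inr h)⟩⟩
  · rintro ⟨h1, h2, h3, h4⟩
    refine ⟨h1, fun h => ?_⟩
    rcases h.2 with h | h | h
    · exact h2 h
    · exact h3 h
    · exact h4 h

open Classical in
/-- the semicircles of an edge in the second graph -/
noncomputable def third (S : Sur D) (x : V → Bool) (g : Sym2 V) : Multiset Arc :=
  if ¬ On x true g ∧ ¬ On x false g ∧ g ∉ S.F then D.arcs g else 0

/-- the semicircles of the second graph -/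
noncomputable def TT (S : Sur D) (x : V → Bool) : Multiset Arc := ∑ g ∈ edges G, S.third x g

theorem G2_dbl (x : V → Bool) : (D.restrict (G2_le (S := S) x)).dbl = mx (S.TT x) (S.TT x) := by
  classical
  rw [Drawing.dbl_eq]
  have h : (D.restrict (G2_le (S := S) x)).T = S.TT x := by
    unfold TT Drawing.T
    have hsub : edges (S.G2 x) ⊆ edges G := by
      intro g hg
      exact ((mem_G2 x g).1 hg).1
    rw [← Finset.sum_subset hsub (f := fun g => S.third x g) (fun g hg hg' => ?_)]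
    · refine Finset.sum_congr rfl fun g hg => ?_
      unfold third
      rw [if_pos ((mem_G2 x g).1 hg).2]
      rfl
    · unfold third
      rw [if_neg]
      intro h
      exact hg' ((mem_G2 x g).2 ⟨hg, h⟩)
  rw [h]

end Sur

theorem cr_le {H : SimpleGraph V} (D : Drawing H) : cr H ≤ D.crossings :=
  Nat.sInf_le ⟨D, rfl⟩

theorem cr₂_le {G₁ G₂ : SimpleGraph V} (h1 : G₁ ⊔ G₂ = G) (h2 : Disjoint G₁ G₂) :
    cr₂ G ≤ cr G₁ + cr G₂ := Nat.sInf_le ⟨G₁, G₂, h1, h2, rfl⟩

namespace Sur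

variable {D : Drawing G} {S : Sur D}

/-- the bound for a given colouring -/
theorem cr₂_bound (hD : D.Min) (hn : ∀ p ∈ D.T, mx {p} D.T ≤ 1)
    {Kw : ℕ} (hK : ∀ f ∈ S.F, mx D.T (S.wnd f) ≤ Kw) (x : V → Bool) :
    2 * cr₂ G ≤ mx (S.OO x true) (S.OO x true) + mx (S.OO x false) (S.OO x false) +
      mx (S.TT x) (S.TT x) + (2 * (S.F.card * (Kw + 1)) + 7 * S.F.card ^ 2) := by
  obtain ⟨H, hB⟩ := exists_bd S
  have hM : 0 < S.M := by have := S.hM; have := S.hk; omega
  have h1 := D1_dbl hD hn hM hB hK x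
  have h2 := G2_dbl (S := S) x
  have h3 := cr_le (S.D1 H hM hB x)
  have h4 := cr_le (D.restrict (G2_le (S := S) x))
  have h5 := cr₂_le (G1_sup_G2 (S := S) x) (G1_disj_G2 (S := S) x)
  unfold Drawing.crossings at h3 h4
  omega

end Sur

end Pool.Agent.Work.MP_c0cec8_co.Spine
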