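import Pool.Agent.Work.MP_c0cec8_co.Spine.Base

/-!
# Alternating pairs of points and the exchange inequality
-/

namespace Pool.Agent.Work.MP_c0cec8_co.Spine

/-- the point `x` is strictly between `r < s`, and `y` is strictly outside -/
def Sp (r s x y : ℤ) : Prop := (r < x ∧ x < s) ∧ (y < r ∨ s < y)

instance (r s x y : ℤ) : Decidable (Sp r s x y) := by unfold Sp; infer_instance

/-- the pairs of points `a, b` and `c, d` alternate -/
def Alt (a b c d : ℤ) : Prop := (Sp a b c d ∨ Sp a b d c) ∨ Sp b a c d ∨ Sp b a d c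

instance (r s x y : ℤ) : Decidable (Alt r s x y) := by unfold Alt; infer_instance

theorem ind_le {P Q P' Q' : Prop} [Decidable P] [Decidable Q] [Decidable P'] [Decidable Q']
    (h1 : P → P' ∨ Q') (h2 : Q → P' ∨ Q') (h3 : P → Q → P' ∧ Q') :
    (if P then 1 else 0) + (if Q then 1 else 0) ≤ (if P' then 1 else 0) + (if Q' then 1 else 0) := by
  by_cases hP : P <;> by_cases hQ : Q <;> by_cases hP' : P' <;> by_cases hQ' : Q' <;>
    simp_all

theorem crs_seg_right (R : Arc) (t : Bool) (x y : ℤ) : crs R (seg t x y) =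
    if R.1 = t ∧ (Sp R.2.1 R.2.2 x y ∨ Sp R.2.1 R.2.2 y x) then 1 else 0 := by
  have key : ((R.2.1 < (seg t x y).2.1 ∧ (seg t x y).2.1 < R.2.2 ∧ R.2.2 < (seg t x y).2.2) ∨
      ((seg t x y).2.1 < R.2.1 ∧ R.2.1 < (seg t x y).2.2 ∧ (seg t x y).2.2 < R.2.2)) ↔
      (Sp R.2.1 R.2.2 x y ∨ Sp R.2.1 R.2.2 y x) := by
    unfold Sp seg
    rcases le_total x y with h | h <;>
      simp only [min_eq_left, min_eq_right, max_eq_left, max_eq_right, h] <;> omega
  unfold crs
  by_cases h1 : R.1 = t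
  · have h2 : R.1 = (seg t x y).1 := h1
    by_cases h3 : (Sp R.2.1 R.2.2 x y ∨ Sp R.2.1 R.2.2 y x)
    · rw [if_pos ⟨h2, key.2 h3⟩, if_pos ⟨h1, h3⟩]
    · rw [if_neg (fun h => h3 (key.1 h.2)), if_neg (fun h => h3 h.2)]
  · rw [if_neg (fun h => h1 h.1), if_neg (fun h => h1 h.1)]

theorem crs_seg_seg (s t : Bool) (a b c d : ℤ) : crs (seg s a b) (seg t c d) =
    if s = t ∧ Alt a b c d then 1 else 0 := by
  have key : (Sp (seg s a b).2.1 (seg s a b).2.2 c d ∨ Sp (seg s a b).2.1 (seg s a b).2.2 d c) ↔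
      Alt a b c d := by
    unfold Alt Sp seg
    rcases le_total a b with h | h <;>
      simp only [min_eq_left, min_eq_right, max_eq_left, max_eq_right, h] <;> omega
  rw [crs_seg_right]
  by_cases h1 : s = t
  · have h2 : (seg s a b).1 = t := h1
    by_cases h3 : Alt a b c d
    · rw [if_pos ⟨h2, key.2 h3⟩, if_pos ⟨h1, h3⟩]
    · rw [if_neg (fun h => h3 (key.1 h.2)), if_neg (fun h => h3 h.2)]
  · rw [if_neg (fun h => h1 h.1), if_neg (fun h => h1 h.1)]

theorem crs_seg_seg_eq_one {s t : Bool} {a b c d : ℤ} :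
    crs (seg s a b) (seg t c d) = 1 ↔ s = t ∧ Alt a b c d := by
  rw [crs_seg_seg]; split_ifs with h
  · simp [h]
  · simp only [zero_ne_one, false_iff]; exact h

theorem crs_seg_seg_eq_zero {s t : Bool} {a b c d : ℤ} :
    crs (seg s a b) (seg t c d) = 0 ↔ (s = t → ¬ Alt a b c d) := by
  rw [crs_seg_seg]; split_ifs with h
  · simp [h]
  · simp only [true_iff]; exact fun h1 h2 => h ⟨h1, h2⟩

theorem Alt.symm {a b c d : ℤ} (h : Alt a b c d) : Alt c d a b := by
  unfold Alt Sp at *; omega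

theorem alt_comm {a b c d : ℤ} : Alt a b c d ↔ Alt c d a b := ⟨Alt.symm, Alt.symm⟩

theorem alt_swap_left {a b c d : ℤ} : Alt a b c d ↔ Alt b a c d := by
  unfold Alt Sp; omega

theorem alt_swap_right {a b c d : ℤ} : Alt a b c d ↔ Alt a b d c := by
  unfold Alt Sp; omega

theorem Alt.ne {a b c d : ℤ} (h : Alt a b c d) : a ≠ b ∧ a ≠ c ∧ a ≠ d ∧ b ≠ c ∧ b ≠ d ∧ c ≠ d := by
  unfold Alt Sp at h; omega

theorem lemU_aux {a b c d r s : ℤ} (h : Alt a b c d) :
    ((Sp r s a d ∨ Sp r s d a) → (Sp r s a b ∨ Sp r s b a) ∨ (Sp r s c d ∨ Sp r s d c)) ∧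
    ((Sp r s c b ∨ Sp r s b c) → (Sp r s a b ∨ Sp r s b a) ∨ (Sp r s c d ∨ Sp r s d c)) ∧
    ((Sp r s a d ∨ Sp r s d a) → (Sp r s c b ∨ Sp r s b c) →
      (Sp r s a b ∨ Sp r s b a) ∧ (Sp r s c d ∨ Sp r s d c)) := by
  unfold Alt Sp at *
  refine ⟨?_, ?_, ?_⟩
  · omega
  · omega
  · omega

theorem lemU {t : Bool} {a b c d : ℤ} (h : Alt a b c d) (R : Arc) :
    crs R (seg t a d) + crs R (seg t c b) ≤ crs R (seg t a b) + crs R (seg t c d) := by
  rw [crs_seg_right, crs_seg_right, crs_seg_right, crs_seg_right]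
  obtain ⟨h1, h2, h3⟩ := lemU_aux (r := R.2.1) (s := R.2.2) h
  refine ind_le ?_ ?_ ?_
  · rintro ⟨h4, h5⟩
    rcases h1 h5 with h6 | h6
    · exact Or.inl ⟨h4, h6⟩
    · exact Or.inr ⟨h4, h6⟩
  · rintro ⟨h4, h5⟩
    rcases h2 h5 with h6 | h6
    · exact Or.inl ⟨h4, h6⟩
    · exact Or.inr ⟨h4, h6⟩
  · rintro ⟨h4, h5⟩ ⟨-, h6⟩
    exact ⟨⟨h4, (h3 h5 h6).1⟩, ⟨h4, (h3 h5 h6).2⟩⟩

theorem not_alt_swap {a b c d : ℤ} (h : Alt a b c d) : ¬ Alt a d c b := by
  unfold Alt Sp at *; omega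

theorem mx_singleton_right (A : Multiset Arc) (q : Arc) :
    mx A {q} = (A.map fun p => crs p q).sum := by
  unfold mx; simp

/-- the exchange step: the number of crossings drops -/
theorem mx_swap {t : Bool} {a b c d : ℤ} (h : Alt a b c d) (T : Multiset Arc) :
    mx (T + {seg t a d, seg t c b}) (T + {seg t a d, seg t c b}) + 2 ≤
      mx (T + {seg t a b, seg t c d}) (T + {seg t a b, seg t c d}) := by
  have e : ∀ x y : Arc, ({x, y} : Multiset Arc) = {x} + {y} := fun x y => rfl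
  have h1 : mx T {seg t a d} + mx T {seg t c b} ≤ mx T {seg t a b} + mx T {seg t c d} := by
    rw [mx_singleton_right, mx_singleton_right, mx_singleton_right, mx_singleton_right,
      ← Multiset.sum_map_add, ← Multiset.sum_map_add]
    exact Multiset.sum_map_le_sum_map _ _ fun R _ => lemU h R
  have h2 : crs (seg t a b) (seg t c d) = 1 := crs_seg_seg_eq_one.2 ⟨rfl, h⟩
  have h3 : crs (seg t a d) (seg t c b) = 0 := crs_seg_seg_eq_zero.2 fun _ => not_alt_swap h
  rw [e, e]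
  simp only [mx_add_left, mx_add_right, mx_singleton, crs_self, h2, h3]
  rw [crs_comm (seg t c b), h3, crs_comm (seg t c d), h2, mx_comm {seg t a d} T,
    mx_comm {seg t c b} T, mx_comm {seg t a b} T, mx_comm {seg t c d} T]
  omega

end Pool.Agent.Work.MP_c0cec8_co.Spine
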