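import Pool.Agent.Work.MP_c0cec8_co.Gain

/-!
# Recolouring with probabilities that depend on the vertex
-/

set_option linter.unusedSectionVars false

namespace Pool.Agent.Work.MP_c0cec8_co

open Finset

variable {V : Type*} [Fintype V] [DecidableEq V]

/-- weight of `S` when the vertex `v` is in `S` with probability `p v` -/
def wtv (p : V → ℝ) (S : Finset V) : ℝ := (∏ i ∈ S, p i) * ∏ i ∈ univ \ S, (1 - p i)

theorem wtv_nonneg {p : V → ℝ} (h0 : ∀ v, 0 ≤ p v) (h1 : ∀ v, p v ≤ 1) (S : Finset V) :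
    0 ≤ wtv p S := by
  unfold wtv
  exact mul_nonneg (prod_nonneg fun _ _ => h0 _) (prod_nonneg fun i _ => by have := h1 i; linarith)

theorem sum_wtv (p : V → ℝ) : ∑ S : Finset V, wtv p S = 1 := by
  have h := Finset.prod_add p (fun i : V => 1 - p i) univ
  rw [powerset_univ] at h
  unfold wtv
  rw [← h]
  simp

theorem sum_wtv_mem (p : V → ℝ) (v : V) : ∑ S : Finset V, wtv p S * ind S v = p v := by
  have h := Finset.prod_add p (fun i : V => if i = v then 0 else 1 - p i) univ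
  rw [powerset_univ] at h
  have e : ∀ S : Finset V, wtv p S * ind S v
      = (∏ i ∈ S, p i) * ∏ i ∈ univ \ S, (if i = v then 0 else 1 - p i) := by
    intro S
    unfold wtv ind
    by_cases hv : v ∈ S
    · rw [if_pos hv, mul_one]
      congr 1
      refine prod_congr rfl fun i hi => ?_
      rw [if_neg]
      rintro rfl
      exact (mem_sdiff.mp hi).2 hv
    · rw [if_neg hv, mul_zero, eq_comm]
      have : v ∈ univ \ S := by simp [hv]
      rw [prod_eq_zero this (by simp), mul_zero]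
  rw [sum_congr rfl fun S _ => e S, ← h, ← mul_prod_erase univ _ (mem_univ v)]
  simp only [if_true, add_zero]
  rw [prod_eq_one, mul_one]
  intro i hi
  rw [if_neg (ne_of_mem_erase hi)]; ring

theorem sum_wtv_mem_mem (p : V → ℝ) {v w : V} (hvw : v ≠ w) :
    ∑ S : Finset V, wtv p S * (ind S v * ind S w) = p v * p w := by
  have h := Finset.prod_add p
    (fun i : V => if i = v ∨ i = w then 0 else 1 - p i) univ
  rw [powerset_univ] at h
  have e : ∀ S : Finset V, wtv p S * (ind S v * ind S w)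
      = (∏ i ∈ S, p i) * ∏ i ∈ univ \ S, (if i = v ∨ i = w then 0 else 1 - p i) := by
    intro S
    unfold wtv ind
    by_cases hv : v ∈ S
    · by_cases hw : w ∈ S
      · rw [if_pos hv, if_pos hw, mul_one, mul_one]
        congr 1
        refine prod_congr rfl fun i hi => ?_
        rw [if_neg]
        rintro (rfl | rfl)
        · exact (mem_sdiff.mp hi).2 hv
        · exact (mem_sdiff.mp hi).2 hw
      · rw [if_neg hw, mul_zero, mul_zero, eq_comm]
        have : w ∈ univ \ S := by simp [hw]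
        rw [prod_eq_zero this (by simp), mul_zero]
    · rw [if_neg hv, zero_mul, mul_zero, eq_comm]
      have : v ∈ univ \ S := by simp [hv]
      rw [prod_eq_zero this (by simp), mul_zero]
  rw [sum_congr rfl fun S _ => e S, ← h, ← mul_prod_erase univ _ (mem_univ v),
    ← mul_prod_erase (univ.erase v) _ (mem_erase.mpr ⟨hvw.symm, mem_univ w⟩)]
  simp only [true_or, or_true, if_true, add_zero]
  rw [prod_eq_one, mul_one]
  intro i hi
  have h1 := ne_of_mem_erase hi
  have h2 := ne_of_mem_erase (mem_of_mem_erase hi)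
  rw [if_neg (by tauto)]; ring

theorem sum_gnp_a {Q : Finset (V × V × V × V)} (hQ : Sym4 Q) (p : V → ℝ) :
    ∑ q ∈ Q, p q.1 * gn Q q.1 q = - ∑ v, p v * mean (fun z => |pv Q v z|) := by
  rw [← sum_fiberwise Q (fun q => q.1) (fun q => p q.1 * gn Q q.1 q), ← sum_neg_distrib]
  refine sum_congr rfl fun v _ => ?_
  rw [← mean_gain hQ.dist v, mean_sum, mul_sum]
  rw [← sum_neg_distrib]
  refine sum_congr rfl fun q hq => ?_
  rw [(mem_filter.mp hq).2]
  unfold gn
  have : (fun z => surv (Function.update z v (best Q v z)) q - surv z q)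
      = fun z => (-1 : ℝ) * (surv z q - surv (Function.update z v (best Q v z)) q) := by
    funext z; ring
  rw [this, mean_const_mul]; ring

theorem sum_gnp_b {Q : Finset (V × V × V × V)} (hQ : Sym4 Q) (p : V → ℝ) :
    ∑ q ∈ Q, p q.2.1 * gn Q q.2.1 q = - ∑ v, p v * mean (fun z => |pv Q v z|) := by
  rw [← sum_gnp_a hQ, ← sum_swap1 hQ]
  refine sum_congr rfl fun q _ => ?_
  obtain ⟨a, b, c, d⟩ := q
  simp only
  rw [gn_swap1]

theorem sum_gnp_c {Q : Finset (V × V × V × V)} (hQ : Sym4 Q) (p : V → ℝ) :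
    ∑ q ∈ Q, p q.2.2.1 * gn Q q.2.2.1 q = - ∑ v, p v * mean (fun z => |pv Q v z|) := by
  rw [← sum_gnp_a hQ, ← sum_swap2 hQ]
  refine sum_congr rfl fun q _ => ?_
  obtain ⟨a, b, c, d⟩ := q
  simp only
  rw [gn_swap2]

theorem sum_gnp_d {Q : Finset (V × V × V × V)} (hQ : Sym4 Q) (p : V → ℝ) :
    ∑ q ∈ Q, p q.2.2.2 * gn Q q.2.2.2 q = - ∑ v, p v * mean (fun z => |pv Q v z|) := by
  rw [← sum_gnp_b hQ, ← sum_swap2 hQ]
  refine sum_congr rfl fun q _ => ?_
  obtain ⟨a, b, c, d⟩ := q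
  simp only
  rw [gn_swap2]

theorem sum_sq_a {Q : Finset (V × V × V × V)} (p : V → ℝ) :
    ∑ q ∈ Q, p q.1 ^ 2 = ∑ v, p v ^ 2 * ((Q.filter (fun q => q.1 = v)).card : ℝ) := by
  rw [← sum_fiberwise Q (fun q => q.1) (fun q => p q.1 ^ 2)]
  refine sum_congr rfl fun v _ => ?_
  rw [Finset.sum_congr rfl (g := fun _ => p v ^ 2) (fun q hq => by
    rw [(mem_filter.mp hq).2]), sum_const, nsmul_eq_mul]
  ring

theorem mix_mean_le' {Q : Finset (V × V × V × V)} (hQ : Sym4 Q) {p : V → ℝ}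
    (hp0 : ∀ v, 0 ≤ p v) (hp1 : ∀ v, p v ≤ 1) :
    ∑ S : Finset V, wtv p S * mean (fun z => ∑ q ∈ Q, surv (mix Q S z) q)
      ≤ 3 / 8 * (Q.card : ℝ) + 33 / 4 * ∑ v, p v ^ 2 * ((Q.filter (fun q => q.1 = v)).card : ℝ)
        - 4 * ∑ v, p v * mean (fun z => |pv Q v z|) := by
  have h1 : ∀ S : Finset V, ∀ q ∈ Q, mean (fun z => surv (mix Q S z) q) ≤
      3 / 8 + (ind S q.1 * gn Q q.1 q + ind S q.2.1 * gn Q q.2.1 q
        + ind S q.2.2.1 * gn Q q.2.2.1 q + ind S q.2.2.2 * gn Q q.2.2.2 q)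
      + (ind S q.1 * ind S q.2.1 + ind S q.1 * ind S q.2.2.1 + ind S q.1 * ind S q.2.2.2
        + ind S q.2.1 * ind S q.2.2.1 + ind S q.2.1 * ind S q.2.2.2
        + ind S q.2.2.1 * ind S q.2.2.2) * (11 / 8) := by
    rintro S ⟨a, b, c, d⟩ hq
    obtain ⟨h1, h2, h3, h4, h5, h6⟩ := hQ.dist a b c d hq
    refine (mean_mono fun z => surv_mix_le (Q := Q) S z h1 h2 h3 h4 h5 h6).trans (le_of_eq ?_)
    have hms := mean_surv h1 h2 h3 h4 h5 h6
    simp only [mean_add, mean_const_mul, mean_const, hms, gn]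
    ring
  have h2 : ∀ S : Finset V, mean (fun z => ∑ q ∈ Q, surv (mix Q S z) q) ≤
      ∑ q ∈ Q, (3 / 8 + (ind S q.1 * gn Q q.1 q + ind S q.2.1 * gn Q q.2.1 q
        + ind S q.2.2.1 * gn Q q.2.2.1 q + ind S q.2.2.2 * gn Q q.2.2.2 q)
      + (ind S q.1 * ind S q.2.1 + ind S q.1 * ind S q.2.2.1 + ind S q.1 * ind S q.2.2.2
        + ind S q.2.1 * ind S q.2.2.1 + ind S q.2.1 * ind S q.2.2.2
        + ind S q.2.2.1 * ind S q.2.2.2) * (11 / 8)) := by
    intro S
    rw [mean_sum]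
    exact sum_le_sum (h1 S)
  refine (sum_le_sum fun S _ => mul_le_mul_of_nonneg_left (h2 S) (wtv_nonneg hp0 hp1 S)).trans ?_
  simp only [mul_sum]
  rw [sum_comm]
  have h3 : ∀ v : V, ∑ S : Finset V, wtv p S * ind S v = p v := fun v => sum_wtv_mem p v
  have h4 : ∀ v w : V, v ≠ w → ∑ S : Finset V, wtv p S * (ind S v * ind S w) = p v * p w :=
    fun v w h => sum_wtv_mem_mem p h
  have h5 : ∀ q ∈ Q, ∑ S : Finset V, wtv p S * (3 / 8 + (ind S q.1 * gn Q q.1 q
        + ind S q.2.1 * gn Q q.2.1 q + ind S q.2.2.1 * gn Q q.2.2.1 q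
        + ind S q.2.2.2 * gn Q q.2.2.2 q)
      + (ind S q.1 * ind S q.2.1 + ind S q.1 * ind S q.2.2.1 + ind S q.1 * ind S q.2.2.2
        + ind S q.2.1 * ind S q.2.2.1 + ind S q.2.1 * ind S q.2.2.2
        + ind S q.2.2.1 * ind S q.2.2.2) * (11 / 8))
      ≤ 3 / 8 + 33 / 16 * (p q.1 ^ 2 + p q.2.1 ^ 2 + p q.2.2.1 ^ 2 + p q.2.2.2 ^ 2)
        + (p q.1 * gn Q q.1 q + p q.2.1 * gn Q q.2.1 q + p q.2.2.1 * gn Q q.2.2.1 q
        + p q.2.2.2 * gn Q q.2.2.2 q) := by
    rintro ⟨a, b, c, d⟩ hq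
    obtain ⟨g1, g2, g3, g4, g5, g6⟩ := hQ.dist a b c d hq
    have e : ∀ S : Finset V, wtv p S * (3 / 8 + (ind S a * gn Q a (a, b, c, d)
        + ind S b * gn Q b (a, b, c, d) + ind S c * gn Q c (a, b, c, d)
        + ind S d * gn Q d (a, b, c, d))
      + (ind S a * ind S b + ind S a * ind S c + ind S a * ind S d
        + ind S b * ind S c + ind S b * ind S d
        + ind S c * ind S d) * (11 / 8))
        = wtv p S * (3 / 8) + (wtv p S * ind S a) * gn Q a (a, b, c, d)
        + (wtv p S * ind S b) * gn Q b (a, b, c, d) + (wtv p S * ind S c) * gn Q c (a, b, c, d)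
        + (wtv p S * ind S d) * gn Q d (a, b, c, d)
        + ((wtv p S * (ind S a * ind S b)) * (11 / 8) + (wtv p S * (ind S a * ind S c)) * (11 / 8)
        + (wtv p S * (ind S a * ind S d)) * (11 / 8) + (wtv p S * (ind S b * ind S c)) * (11 / 8)
        + (wtv p S * (ind S b * ind S d)) * (11 / 8)
        + (wtv p S * (ind S c * ind S d)) * (11 / 8)) := fun S => by ring
    simp only [e, sum_add_distrib, ← sum_mul, h3, h4 _ _ g1, h4 _ _ g2, h4 _ _ g3, h4 _ _ g4,
      h4 _ _ g5, h4 _ _ g6, sum_wtv]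
    nlinarith [sq_nonneg (p a - p b), sq_nonneg (p a - p c), sq_nonneg (p a - p d),
      sq_nonneg (p b - p c), sq_nonneg (p b - p d), sq_nonneg (p c - p d)]
  refine (sum_le_sum h5).trans (le_of_eq ?_)
  have s1 := sum_sq_a (Q := Q) p
  have s2 : ∑ q ∈ Q, p q.2.1 ^ 2 = ∑ q ∈ Q, p q.1 ^ 2 :=
    sum_swap1 hQ (fun q => p q.1 ^ 2)
  have s3 : ∑ q ∈ Q, p q.2.2.1 ^ 2 = ∑ q ∈ Q, p q.1 ^ 2 :=
    sum_swap2 hQ (fun q => p q.1 ^ 2)
  have s4 : ∑ q ∈ Q, p q.2.2.2 ^ 2 = ∑ q ∈ Q, p q.1 ^ 2 := by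
    rw [← s2]
    exact sum_swap2 hQ (fun q => p q.2.1 ^ 2)
  rw [sum_add_distrib, sum_add_distrib, sum_const, nsmul_eq_mul, ← mul_sum, sum_add_distrib,
    sum_add_distrib, sum_add_distrib, sum_add_distrib, sum_add_distrib, sum_add_distrib,
    sum_gnp_a hQ, sum_gnp_b hQ, sum_gnp_c hQ, sum_gnp_d hQ, s4, s3, s2, s1]
  simp only [← Finset.mul_sum]
  ring

/-- the number of vertices on some crossing -/
theorem core_vertex {Q : Finset (V × V × V × V)} (hQ : Sym4 Q) :
    ∃ x : V → Bool, ∑ q ∈ Q, surv x q ≤ 3 / 8 * (Q.card : ℝ) -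
      3 / 18502 * ((univ.filter fun v => ∃ q ∈ Q, q.1 = v).card : ℝ) := by
  classical
  set k : V → ℝ := fun v => ((Q.filter (fun q => q.1 = v)).card : ℝ) with hk
  have hk0 : ∀ v, 0 ≤ k v := fun v => Nat.cast_nonneg _
  have hkv : ∀ v, k v = 0 ∨ 1 ≤ k v := by
    intro v
    rcases Nat.eq_zero_or_pos (Q.filter (fun q => q.1 = v)).card with h | h
    · left; simp only [hk]; rw [h]; simp
    · right; simp only [hk]; exact_mod_cast h
  -- lower bound of the local gain
  set e : V → ℝ := fun v => Real.sqrt (9 / 32 * k v) / 29 with he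
  have hgain : ∀ v, e v ≤ mean (fun z => |pv Q v z|) := by
    intro v
    rcases hkv v with h | h
    · have : e v = 0 := by simp only [he]; rw [h]; simp
      rw [this]
      exact mean_nonneg fun z => abs_nonneg _
    · have h2 := mean_pv_sq hQ v
      set m := mean (fun z => pv Q v z ^ 2) with hm
      have hm0 : 0 < m := lt_of_lt_of_le (by
        have : (0 : ℝ) < k v := by linarith
        simp only [hk] at this; positivity) h2
      have h3 := mean_abs_ge (pv_mem_poly hQ.dist v) (Real.sqrt_pos.mpr hm0)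
        (by rw [Real.sq_sqrt hm0.le])
      refine le_trans ?_ h3
      simp only [he]
      exact div_le_div_of_nonneg_right (Real.sqrt_le_sqrt h2) (by norm_num)
  set p : V → ℝ := fun v => 8 / 33 * (e v / k v) with hp
  have he0 : ∀ v, 0 ≤ e v := fun v => by simp only [he]; positivity
  have hesq : ∀ v, e v ^ 2 = 9 / 32 * k v / 841 := by
    intro v
    simp only [he]
    rw [div_pow, Real.sq_sqrt (by have := hk0 v; positivity)]
    norm_num
  have hp0 : ∀ v, 0 ≤ p v := fun v => by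
    simp only [hp]; have := he0 v; have := hk0 v; positivity
  have hp1 : ∀ v, p v ≤ 1 := by
    intro v
    simp only [hp]
    rcases hkv v with h | h
    · rw [h]; simp
    · have hkp : 0 < k v := by linarith
      have h1 : e v ≤ k v := by
        refine le_of_sq_le_sq ?_ (hk0 v)
        rw [hesq]
        nlinarith
      have h2 : e v / k v ≤ 1 := (div_le_one hkp).2 h1
      linarith
  have hmix := mix_mean_le' hQ hp0 hp1
  set n : ℝ := ((univ.filter fun v => ∃ q ∈ Q, q.1 = v).card : ℝ) with hn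
  have hfin : 33 / 4 * ∑ v, p v ^ 2 * k v - 4 * ∑ v, p v * mean (fun z => |pv Q v z|) ≤
      - (3 / 18502) * n := by
    have h1 : ∀ v, 33 / 4 * (p v ^ 2 * k v) - 4 * (p v * mean (fun z => |pv Q v z|)) ≤
        - (3 / 18502) * (if ∃ q ∈ Q, q.1 = v then 1 else 0) := by
      intro v
      rcases hkv v with h | h
      · have hno : ¬ ∃ q ∈ Q, q.1 = v := by
          rintro ⟨q, hq, hqv⟩
          have h2 : (Q.filter (fun q => q.1 = v)).card = 0 := by
            simp only [hk] at h; exact_mod_cast h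
          rw [Finset.card_eq_zero] at h2
          exact absurd (mem_filter.2 ⟨hq, hqv⟩) (by rw [h2]; exact notMem_empty _)
        have hpv : p v = 0 := by simp only [hp]; rw [h]; simp
        rw [if_neg hno, hpv]; simp
      · have hkp : 0 < k v := by linarith
        have hyes : ∃ q ∈ Q, q.1 = v := by
          have h2 : 0 < (Q.filter (fun q => q.1 = v)).card := by
            simp only [hk] at hkp; exact_mod_cast hkp
          obtain ⟨q, hq⟩ := Finset.card_pos.1 h2
          exact ⟨q, (mem_filter.1 hq).1, (mem_filter.1 hq).2⟩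
        rw [if_pos hyes, mul_one]
        have h2 := mul_le_mul_of_nonneg_left (hgain v) (hp0 v)
        have h3 : 33 / 4 * (p v ^ 2 * k v) = 16 / 33 * (e v ^ 2 / k v) := by
          simp only [hp]; field_simp; ring
        have h4 : p v * e v = 8 / 33 * (e v ^ 2 / k v) := by
          simp only [hp]; field_simp
        have h5 : e v ^ 2 / k v = 9 / 26912 := by
          rw [hesq]; field_simp; norm_num
        rw [h5] at h3 h4
        linarith
    have h2 := Finset.sum_le_sum fun v (_ : v ∈ (univ : Finset V)) => h1 v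
    rw [Finset.sum_sub_distrib, ← mul_sum, ← mul_sum, ← mul_sum, Finset.sum_boole] at h2
    exact h2
  have hfin2 : ∑ S : Finset V, wtv p S * mean (fun z => ∑ q ∈ Q, surv (mix Q S z) q)
      ≤ 3 / 8 * (Q.card : ℝ) - 3 / 18502 * n := by
    refine hmix.trans ?_
    simp only [hk] at hfin
    linarith
  -- pass to an outcome
  obtain ⟨S, hS⟩ : ∃ S : Finset V, mean (fun z => ∑ q ∈ Q, surv (mix Q S z) q)
      ≤ 3 / 8 * (Q.card : ℝ) - 3 / 18502 * n := by
    by_contra hcon
    push Not at hcon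
    set B := 3 / 8 * (Q.card : ℝ) - 3 / 18502 * n with hB
    have h2 : ∑ S : Finset V, wtv p S * B = B := by rw [← sum_mul, sum_wtv, one_mul]
    have h3 : ∃ S ∈ (univ : Finset (Finset V)), wtv p S ≠ 0 := by
      apply exists_ne_zero_of_sum_ne_zero
      rw [sum_wtv]; norm_num
    obtain ⟨S, -, hS⟩ := h3
    have h4 : 0 < wtv p S := lt_of_le_of_ne (wtv_nonneg hp0 hp1 S) (Ne.symm hS)
    have h5 : ∑ S : Finset V, wtv p S * B <
        ∑ S : Finset V, wtv p S * mean (fun z => ∑ q ∈ Q, surv (mix Q S z) q) :=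
      sum_lt_sum (fun S _ => mul_le_mul_of_nonneg_left (hcon S).le (wtv_nonneg hp0 hp1 S))
        ⟨S, mem_univ _, mul_lt_mul_of_pos_left (hcon S) h4⟩
    rw [h2] at h5
    exact absurd h5 (not_lt.mpr hfin2)
  obtain ⟨z, hz⟩ := exists_le_mean (fun z => ∑ q ∈ Q, surv (mix Q S z) q)
  exact ⟨mix Q S z, hz.trans hS⟩

end Pool.Agent.Work.MP_c0cec8_co
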