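import Pool.Agent.Work.MP_c0cec8_co.Spine.Free2
import Pool.Agent.Work.MP_c0cec8_co.Spine.VCore

/-!
# The gain from the vertices on crossed edges
-/

namespace Pool.Agent.Work.MP_c0cec8_co.Spine

open Finset

variable {V : Type*} [Finite V] {G : SimpleGraph V}

open Classical in
/-- a sum over ordered pairs of adjacent vertices -/
theorem sum_ordered [Fintype V] (f : Sym2 V → ℝ) :
    ∑ a : V, ∑ b : V, (if s(a, b) ∈ edges G then f s(a, b) else 0) =
      2 * ∑ g ∈ edges G, f g := by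
  have h1 : ∑ a : V, ∑ b : V, (if s(a, b) ∈ edges G then f s(a, b) else 0) =
      ∑ p ∈ (univ : Finset (V × V)).filter (fun p => s(p.1, p.2) ∈ edges G), f s(p.1, p.2) := by
    rw [Finset.sum_filter, Fintype.sum_prod_type]
  rw [h1, ← Finset.sum_fiberwise_of_maps_to (t := edges G) (g := fun p : V × V => s(p.1, p.2))
    (fun p hp => (Finset.mem_filter.1 hp).2), Finset.mul_sum]
  refine Finset.sum_congr rfl fun g hg => ?_
  have h2 : ∀ p ∈ ((univ : Finset (V × V)).filter (fun p => s(p.1, p.2) ∈ edges G)).filter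
      (fun p : V × V => s(p.1, p.2) = g), f s(p.1, p.2) = f g := fun p hp => by
    rw [(Finset.mem_filter.1 hp).2]
  rw [Finset.sum_congr rfl h2, Finset.sum_const, nsmul_eq_mul]
  congr 1
  obtain ⟨u, v, rfl⟩ : ∃ v a, g = s(v, a) := by
    induction g using Sym2.ind with
    | h v a => exact ⟨v, a, rfl⟩
  have huv : u ≠ v := by
    rintro rfl
    exact G.not_isDiag_of_mem_edgeSet (mem_edges.1 hg) rfl
  have h3 : ((univ : Finset (V × V)).filter (fun p => s(p.1, p.2) ∈ edges G)).filter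
      (fun p : V × V => s(p.1, p.2) = s(u, v)) = {(u, v), (v, u)} := by
    ext ⟨a, b⟩
    simp only [Finset.mem_filter, Finset.mem_univ, true_and, Finset.mem_insert,
      Finset.mem_singleton, Prod.mk.injEq]
    constructor
    · rintro ⟨-, h⟩
      exact Sym2.eq_iff.mp h
    · rintro (⟨rfl, rfl⟩ | ⟨rfl, rfl⟩)
      · exact ⟨hg, rfl⟩
      · exact ⟨by rw [Sym2.eq_swap]; exact hg, Sym2.eq_swap⟩
  rw [h3, Finset.card_pair]
  · norm_num
  · intro h
    rw [Prod.mk.injEq] at h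
    exact huv h.1

open Classical in
/-- the ordered quadruples of the crossings -/
noncomputable def quads [Fintype V] (D : Drawing G) : Finset (V × V × V × V) :=
  univ.filter fun q => s(q.1, q.2.1) ∈ edges G ∧ s(q.2.2.1, q.2.2.2) ∈ edges G ∧
    mx (D.arcs s(q.1, q.2.1)) (D.arcs s(q.2.2.1, q.2.2.2)) ≠ 0

theorem mem_quads [Fintype V] {D : Drawing G} {a b c d : V} : (a, b, c, d) ∈ quads D ↔
    s(a, b) ∈ edges G ∧ s(c, d) ∈ edges G ∧ mx (D.arcs s(a, b)) (D.arcs s(c, d)) ≠ 0 := by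
  classical
  unfold quads
  simp

theorem quads_sym4 [Fintype V] {D : Drawing G} (hD : D.Min) : Sym4 (quads D) where
  s1 := by
    intro a b c d h
    rw [mem_quads] at h ⊢
    rw [Sym2.eq_swap]; exact h
  s2 := by
    intro a b c d h
    rw [mem_quads] at h ⊢
    exact ⟨h.2.1, h.1, by rw [mx_comm]; exact h.2.2⟩
  dist := by
    intro a b c d h
    obtain ⟨hg, hg', hx⟩ := mem_quads.1 h
    have hne : s(a, b) ≠ s(c, d) := by
      rintro h
      rw [← h] at hx
      exact hx (hD.self_zero hg)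
    have hadj : ∀ t, t ∈ s(a, b) → t ∈ s(c, d) → False := fun t ht ht' =>
      hx (hD.adj_zero hg hg' hne ht ht')
    have ma := Sym2.mem_mk_left a b
    have mb := Sym2.mem_mk_right a b
    have mc := Sym2.mem_mk_left c d
    have md := Sym2.mem_mk_right c d
    refine ⟨?_, ?_, ?_, ?_, ?_, ?_⟩
    · rintro rfl
      exact G.not_isDiag_of_mem_edgeSet (mem_edges.1 hg) rfl
    · rintro rfl; exact hadj _ ma mc
    · rintro rfl; exact hadj _ ma md
    · rintro rfl; exact hadj _ mb mc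
    · rintro rfl; exact hadj _ mb md
    · rintro rfl
      exact G.not_isDiag_of_mem_edgeSet (mem_edges.1 hg') rfl

open Classical in
theorem sum_quads [Fintype V] {D : Drawing G} (F : Sym2 V → Sym2 V → ℝ) :
    ∑ q ∈ quads D, F s(q.1, q.2.1) s(q.2.2.1, q.2.2.2) = 4 * ∑ g ∈ edges G, ∑ g' ∈ edges G,
      if mx (D.arcs g) (D.arcs g') ≠ 0 then F g g' else 0 := by
  have h1 : ∑ q ∈ quads D, F s(q.1, q.2.1) s(q.2.2.1, q.2.2.2) =
      ∑ a : V, ∑ b : V, (if s(a, b) ∈ edges G then (∑ c : V, ∑ d : V,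
        (if s(c, d) ∈ edges G then (if mx (D.arcs s(a, b)) (D.arcs s(c, d)) ≠ 0 then
          F s(a, b) s(c, d) else 0) else 0)) else 0) := by
    unfold quads
    rw [Finset.sum_filter, Fintype.sum_prod_type]
    refine Finset.sum_congr rfl fun a _ => ?_
    rw [Fintype.sum_prod_type]
    refine Finset.sum_congr rfl fun b _ => ?_
    rw [Fintype.sum_prod_type]
    by_cases h : s(a, b) ∈ edges G
    · rw [if_pos h]
      refine Finset.sum_congr rfl fun c _ => Finset.sum_congr rfl fun d _ => ?_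
      by_cases h' : s(c, d) ∈ edges G
      · rw [if_pos h']
        by_cases h'' : mx (D.arcs s(a, b)) (D.arcs s(c, d)) ≠ 0
        · rw [if_pos h'', if_pos ⟨h, h', h''⟩]
        · rw [if_neg h'', if_neg (fun k => h'' k.2.2)]
      · rw [if_neg h', if_neg (fun k => h' k.2.1)]
    · rw [if_neg h]
      refine Finset.sum_eq_zero fun c _ => Finset.sum_eq_zero fun d _ => ?_
      rw [if_neg (fun k => h k.1)]
  rw [h1, sum_ordered (G := G) (fun g => ∑ c : V, ∑ d : V, (if s(c, d) ∈ edges G then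
    (if mx (D.arcs g) (D.arcs s(c, d)) ≠ 0 then F g s(c, d) else 0) else 0))]
  have h2 : ∀ g, ∑ c : V, ∑ d : V, (if s(c, d) ∈ edges G then
      (if mx (D.arcs g) (D.arcs s(c, d)) ≠ 0 then F g s(c, d) else 0) else 0) =
      2 * ∑ g' ∈ edges G, if mx (D.arcs g) (D.arcs g') ≠ 0 then F g g' else 0 := fun g =>
    sum_ordered (G := G) (fun g' => if mx (D.arcs g) (D.arcs g') ≠ 0 then F g g' else 0)
  simp only [h2]
  rw [← Finset.mul_sum]
  ring

theorem mx_eq_one {D : Drawing G} (hD : D.Min) {g g' : Sym2 V} (hg : g ∈ edges G)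
    (hg' : g' ∈ edges G) (h : mx (D.arcs g) (D.arcs g') ≠ 0) : mx (D.arcs g) (D.arcs g') = 1 := by
  have hne : g ≠ g' := by
    rintro rfl; exact h (hD.self_zero hg)
  have h4 : mx (D.arcs g) (D.arcs g') ≤ 1 := hD.le_one hg hg' hne
  omega

theorem card_quads [Fintype V] {D : Drawing G} (hD : D.Min) :
    ((quads D).card : ℝ) = 8 * (cr G : ℝ) := by
  classical
  have h1 := sum_quads (D := D) (fun _ _ => 1)
  rw [Finset.sum_const, nsmul_eq_mul, mul_one] at h1
  rw [h1]
  have h2 : (D.dbl : ℝ) = 2 * (cr G : ℝ) := by exact_mod_cast hD.dbl_eq_cr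
  have h3 : ∑ g ∈ edges G, ∑ g' ∈ edges G,
      (if mx (D.arcs g) (D.arcs g') ≠ 0 then (1 : ℝ) else 0) = D.dbl := by
    unfold Drawing.dbl
    push_cast
    refine Finset.sum_congr rfl fun g hg => Finset.sum_congr rfl fun g' hg' => ?_
    rw [cx_eq]
    by_cases h : mx (D.arcs g) (D.arcs g') ≠ 0
    · rw [if_pos h, mx_eq_one hD hg hg' h]; norm_num
    · rw [if_neg h]
      push Not at h
      rw [h]; norm_num
  rw [h3, h2]; ring

theorem cost_quads [Fintype V] [DecidableEq V] {D : Drawing G} (hD : D.Min) (x : V → Bool) :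
    ∑ q ∈ quads D, surv x q = 4 * (cost D x Set.univ : ℝ) := by
  classical
  have h1 := sum_quads (D := D) (fun g g' => if Same x g g' then 1 else 0)
  have h2 : ∑ q ∈ quads D, surv x q = ∑ q ∈ quads D,
      (if Same x s(q.1, q.2.1) s(q.2.2.1, q.2.2.2) then (1 : ℝ) else 0) := by
    refine Finset.sum_congr rfl fun q _ => ?_
    obtain ⟨a, b, c, d⟩ := q
    exact (same_surv x a b c d).symm
  rw [h2, h1]
  congr 1
  unfold cost
  push_cast
  refine Finset.sum_congr rfl fun g hg => Finset.sum_congr rfl fun g' hg' => ?_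
  by_cases h : mx (D.arcs g) (D.arcs g') ≠ 0
  · rw [if_pos h, mx_eq_one hD hg hg' h]
    by_cases h3 : Same x g g'
    · rw [if_pos h3, if_pos ⟨⟨Set.mem_univ _, Set.mem_univ _⟩, h3⟩]; norm_num
    · rw [if_neg h3, if_neg (fun k => h3 k.2)]
  · rw [if_neg h]
    push Not at h
    rw [h]; simp

theorem cr₂_cost (D : Drawing G) (x : V → Bool) : 2 * cr₂ G ≤ cost D x Set.univ := by
  have h1 : M1 G x Set.univ ⊔ M2 G x Set.univ = G := by
    rw [← SimpleGraph.edgeSet_inj, SimpleGraph.edgeSet_sup, edgeSet_M1, edgeSet_M2]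
    ext g
    simp only [Set.mem_union, Set.mem_ofPred_eq, Set.mem_univ, true_and]
    tauto
  have h2 : Disjoint (M1 G x Set.univ) (M2 G x Set.univ) := by
    rw [← SimpleGraph.disjoint_edgeSet, Set.disjoint_left, edgeSet_M1, edgeSet_M2]
    rintro g ⟨-, -, h⟩ ⟨-, -, h'⟩
    exact h' h
  have h5 := cr₂_le h1 h2
  have h6 := cr_split D x Set.univ
  omega

/-- the gain from the vertices on crossed edges -/
theorem gain_vertex {D : Drawing G} (hD : D.Min) :
    (cr₂ G : ℝ) ≤ 3 / 8 * (cr G : ℝ) - (D.onCrossed.ncard : ℝ) / 50000 := by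
  classical
  have := Fintype.ofFinite V
  obtain ⟨x, hx⟩ := core_vertex (quads_sym4 hD)
  rw [cost_quads hD, card_quads hD] at hx
  have h1 : 2 * (cr₂ G : ℝ) ≤ (cost D x Set.univ : ℝ) := by exact_mod_cast cr₂_cost D x
  have h2 : (univ.filter fun v => ∃ q ∈ quads D, q.1 = v).card = D.onCrossed.ncard := by
    rw [← Set.ncard_coe_finset]
    congr 1
    ext v
    simp only [Finset.coe_filter, Finset.mem_univ, true_and, Set.mem_ofPred_eq,
      Drawing.onCrossed]
    constructor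
    · rintro ⟨⟨a, b, c, d⟩, hq, rfl⟩
      obtain ⟨hg, hg', hx⟩ := mem_quads.1 hq
      exact ⟨s(a, b), mem_edges.1 hg, Sym2.mem_mk_left _ _, s(c, d), mem_edges.1 hg', by
        rw [cx_eq]; exact hx⟩
    · rintro ⟨g, hg, ⟨a, rfl⟩, g', hg', hx⟩
      obtain ⟨u, w, rfl⟩ : ∃ v a, g' = s(v, a) := by
        induction g' using Sym2.ind with
        | h v a => exact ⟨v, a, rfl⟩
      exact ⟨(v, a, u, w), mem_quads.2 ⟨mem_edges.2 hg, mem_edges.2 hg', by
        rw [cx_eq] at hx; exact hx⟩, rfl⟩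
  rw [h2] at hx
  have h3 : (0 : ℝ) ≤ D.onCrossed.ncard := Nat.cast_nonneg _
  linarith

theorem gain_one_end_aux {N n r t c2 : ℝ} (hr : 0 < r) (ht : 0 ≤ t)
    (h1 : c2 ≤ 3 / 8 * N - n / 50000) (h2 : 2 * c2 ≤ 3 / 8 * (2 * N) - 1 / r * (2 * N - n * t)) :
    c2 ≤ (3 / 8 - 1 / (r + 25000 * t)) * N := by
  have h3 : 0 < r + 25000 * t := by positivity
  have h4 : (r + 25000 * t) * c2 ≤ (r + 25000 * t) * (3 / 8 * N) - N := by
    have h5 := mul_le_mul_of_nonneg_left h2 hr.le
    have h6 : r * (3 / 8 * (2 * N) - 1 / r * (2 * N - n * t)) =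
        3 / 8 * (2 * N) * r - (2 * N - n * t) := by field_simp
    rw [h6] at h5
    have h7 := mul_le_mul_of_nonneg_left h1 ht
    nlinarith
  have h5 : (3 / 8 - 1 / (r + 25000 * t)) * N = ((r + 25000 * t) * (3 / 8 * N) - N) /
      (r + 25000 * t) := by field_simp
  rw [h5, le_div_iff₀ h3]
  linarith

/-- the constant can be improved if every crossed edge has an end of bounded degree -/
theorem gain_one_end {D : Drawing G} (hD : D.Min) {d : ℕ}
    (hd : ∀ g ∈ G.edgeSet, (∃ g' ∈ G.edgeSet, cx (D.arcs g) (D.arcs g') ≠ 0) →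
      ∃ v ∈ g, (G.neighborSet v).ncard ≤ d) :
    (cr₂ G : ℝ) ≤ (3 / 8 - 1 / (2 ^ (d + 2) + 25000 * (d : ℝ) ^ 3)) * (cr G : ℝ) := by
  have h1 := gain_vertex hD
  have h2 := gain_free hD d
  have h3 := bd_le hD hd
  have h4 := gd_add_bd D d
  have h5 : (D.dbl : ℝ) = 2 * (cr G : ℝ) := by exact_mod_cast hD.dbl_eq_cr
  have h6 : (D.dbl : ℝ) - (D.onCrossed.ncard : ℝ) * (d : ℝ) ^ 3 ≤ gd D d := by
    have h7 : (gd D d : ℝ) + bd D d = D.dbl := by exact_mod_cast h4
    have h8 : (bd D d : ℝ) ≤ (D.onCrossed.ncard : ℝ) * (d : ℝ) ^ 3 := by exact_mod_cast h3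
    linarith
  refine gain_one_end_aux (n := (D.onCrossed.ncard : ℝ)) (by positivity) (by positivity) h1 ?_
  have h7 : (1 / 2 : ℝ) ^ (d + 2) = 1 / 2 ^ (d + 2) := by rw [one_div_pow]
  rw [h7] at h2
  have h8 := mul_le_mul_of_nonneg_left h6 (by positivity : (0 : ℝ) ≤ 1 / 2 ^ (d + 2))
  rw [h5] at h2 h8
  linarith

/-- the constant can be improved if every edge has an end of bounded degree -/
theorem gain_one_end' (G : SimpleGraph V) {d : ℕ}
    (hd : ∀ u v, G.Adj u v → (G.neighborSet u).ncard ≤ d ∨ (G.neighborSet v).ncard ≤ d) :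
    (cr₂ G : ℝ) ≤ (3 / 8 - 1 / (2 ^ (d + 2) + 25000 * (d : ℝ) ^ 3)) * (cr G : ℝ) := by
  obtain ⟨D, hD⟩ := exists_min G
  refine gain_one_end hD fun g hg _ => ?_
  induction g using Sym2.ind with
  | h v a =>
    rcases hd v a hg with h | h
    · exact ⟨v, Sym2.mem_mk_left _ _, h⟩
    · exact ⟨a, Sym2.mem_mk_right _ _, h⟩

theorem min_of_crossings {D : Drawing G} (h : D.crossings = cr G) : D.Min := by
  intro D'
  have h1 := cr_le D'
  rw [← h] at h1
  unfold Drawing.crossings at h1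
  obtain ⟨k, hk⟩ := mx_even D.T
  obtain ⟨k', hk'⟩ := mx_even D'.T
  rw [← Drawing.dbl_eq] at hk hk'
  omega

end Pool.Agent.Work.MP_c0cec8_co.Spine
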